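import Pool.Agent.Lib.MP_fe8cb7_co.h25.Defs

/-!
# Daykin-Haggkvist problem: basic lemmas on neighbourhoods, degrees and packings
-/

open Finset

namespace DH

variable {V : Type} {π : V → ZMod 3} {G H : SimpleGraph V} {S U : Finset V}

theorem mem_pt {i : ZMod 3} {v : V} : v ∈ pt π U i ↔ v ∈ U ∧ π v = i := by
  simp [pt]

theorem mem_nb {v w : V} : w ∈ nb G v S ↔ w ∈ S ∧ G.Adj v w := by
  classical
  simp [nb]

theorem pt_subset (i : ZMod 3) : pt π U i ⊆ U := fun _ h => (mem_pt.1 h).1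

theorem pt_mono {U' : Finset V} (h : U' ⊆ U) (i : ZMod 3) : pt π U' i ⊆ pt π U i :=
  fun _ hv => mem_pt.2 ⟨h (mem_pt.1 hv).1, (mem_pt.1 hv).2⟩

theorem nb_subset (v : V) : nb G v S ⊆ S := fun _ h => (mem_nb.1 h).1

theorem dg_le_card (v : V) : dg G v S ≤ S.card := card_le_card (nb_subset v)

theorem dg_mono (h : G ≤ H) (v : V) : dg G v S ≤ dg H v S :=
  card_le_card fun _ hw => mem_nb.2 ⟨(mem_nb.1 hw).1, h (mem_nb.1 hw).2⟩

theorem dg_mono_set {S' : Finset V} (h : S ⊆ S') (v : V) : dg G v S ≤ dg G v S' :=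
  card_le_card fun _ hw => mem_nb.2 ⟨h (mem_nb.1 hw).1, (mem_nb.1 hw).2⟩

theorem dg_sup (h : Disjoint G H) (v : V) : dg (G ⊔ H) v S = dg G v S + dg H v S := by
  classical
  rw [dg, dg, dg, ← card_union_of_disjoint]
  · congr 1
    ext w
    simp only [mem_nb, mem_union, SimpleGraph.sup_adj]
    tauto
  · rw [disjoint_left]
    intro w h1 h2
    have := SimpleGraph.disjoint_left.1 h v w (mem_nb.1 h1).2
    exact this (mem_nb.1 h2).2

theorem dg_sup_le (v : V) : dg (G ⊔ H) v S ≤ dg G v S + dg H v S := by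
  classical
  rw [dg, dg, dg]
  refine le_trans (card_le_card ?_) (card_union_le _ _)
  intro w
  simp only [mem_nb, mem_union, SimpleGraph.sup_adj]
  tauto

theorem sdiff_sup_self (h : H ≤ G) : (G \ H) ⊔ H = G := by
  rw [sdiff_sup_cancel h]

theorem dg_sdiff (h : H ≤ G) (v : V) : dg (G \ H) v S + dg H v S = dg G v S := by
  rw [← dg_sup disjoint_sdiff_self_left, sdiff_sup_self h]

theorem imb_sup (h : Disjoint G H) (v : V) :
    imb π (G ⊔ H) U v = imb π G U v + imb π H U v := by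
  simp only [imb, dg_sup h]
  push_cast
  ring

theorem imb_sdiff (h : H ≤ G) (v : V) : imb π (G \ H) U v = imb π G U v - imb π H U v := by
  have := imb_sup (π := π) (U := U) (disjoint_sdiff_self_left : Disjoint (G \ H) H) v
  rw [sdiff_sup_self h] at this
  omega

theorem dg_within (h : Within G U) (v : V) (i : ZMod 3) [Fintype V] :
    dg G v (pt π U i) = dg G v (pt π univ i) := by
  rw [dg, dg]
  congr 1
  ext w
  simp only [mem_nb, mem_pt, mem_univ, true_and]
  constructor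
  · rintro ⟨⟨_, h2⟩, h3⟩
    exact ⟨h2, h3⟩
  · rintro ⟨h2, h3⟩
    exact ⟨⟨(h _ _ h3).2, h2⟩, h3⟩

theorem imb_within (h : Within G U) (v : V) [Fintype V] :
    imb π G U v = imb π G univ v := by
  simp only [imb, dg_within h]

theorem zmod3_cases (i j : ZMod 3) : j = i ∨ j = i + 1 ∨ j = i - 1 := by
  revert i j; decide

theorem zmod3_ne1 (i : ZMod 3) : i + 1 ≠ i := by revert i; decide

theorem zmod3_ne2 (i : ZMod 3) : i - 1 ≠ i := by revert i; decide

theorem zmod3_ne3 (i : ZMod 3) : i + 1 ≠ i - 1 := by revert i; decide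

theorem dg_parts (v : V) : dg G v U = ∑ i : ZMod 3, dg G v (pt π U i) := by
  classical
  simp only [dg]
  rw [card_eq_sum_card_fiberwise (f := π) (t := univ) (fun _ _ => mem_coe.2 (mem_univ _))]
  refine sum_congr rfl fun i _ => ?_
  congr 1
  ext w
  simp only [mem_filter, mem_nb, mem_pt]
  tauto

theorem dg_own (hT : Tri π G) (v : V) : dg G v (pt π U (π v)) = 0 := by
  rw [dg, card_eq_zero, eq_empty_iff_forall_notMem]
  intro w hw
  exact hT _ _ (mem_nb.1 hw).2 (mem_pt.1 (mem_nb.1 hw).1).2.symm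

theorem dg_two (hT : Tri π G) (v : V) :
    dg G v U = dg G v (pt π U (π v + 1)) + dg G v (pt π U (π v - 1)) := by
  rw [dg_parts (π := π)]
  have h : (univ : Finset (ZMod 3)) = {π v, π v + 1, π v - 1} := by
    generalize π v = i
    revert i; decide
  rw [h, sum_insert, sum_insert, sum_singleton, dg_own hT, zero_add]
  · simp [zmod3_ne3]
  · simp only [mem_insert, mem_singleton, not_or]
    exact ⟨(zmod3_ne1 _).symm, (zmod3_ne2 _).symm⟩

theorem Tri.mono (h : H ≤ G) (hT : Tri π G) : Tri π H := fun u v huv => hT u v (h huv)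

theorem Within.mono (h : H ≤ G) (hT : Within G U) : Within H U := fun u v huv => hT u v (h huv)

/-! ### covers and packings -/

theorem cov_adj {T : Finset (Finset V)} {u v : V} :
    (cov T).Adj u v ↔ u ≠ v ∧ ∃ t ∈ T, u ∈ t ∧ v ∈ t := Iff.rfl

theorem cov_empty : cov (∅ : Finset (Finset V)) = ⊥ := by
  ext u v
  simp [cov_adj]

theorem cov_union [DecidableEq V] (T T' : Finset (Finset V)) :
    cov (T ∪ T') = cov T ⊔ cov T' := by
  ext u v
  simp only [cov_adj, SimpleGraph.sup_adj, mem_union]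
  constructor
  · rintro ⟨h, t, ht | ht, h2⟩
    · exact Or.inl ⟨h, t, ht, h2⟩
    · exact Or.inr ⟨h, t, ht, h2⟩
  · rintro (⟨h, t, ht, h2⟩ | ⟨h, t, ht, h2⟩)
    · exact ⟨h, t, Or.inl ht, h2⟩
    · exact ⟨h, t, Or.inr ht, h2⟩

theorem Pack.cov_le {T : Finset (Finset V)} (h : Pack G T) : cov T ≤ G := by
  rintro u v ⟨huv, t, ht, hu, hv⟩
  exact (h.1 t ht).1 hu hv huv

theorem Pack.mono {T : Finset (Finset V)} (hGH : G ≤ H) (h : Pack G T) : Pack H T :=
  ⟨fun t ht => (h.1 t ht).mono hGH, h.2⟩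

theorem Pack.self {T : Finset (Finset V)} (h : Pack G T) : Pack (cov T) T := by
  refine ⟨fun t ht => ?_, h.2⟩
  rw [SimpleGraph.isNClique_iff]
  refine ⟨fun u hu v hv huv => ⟨huv, t, ht, hu, hv⟩, (h.1 t ht).2⟩

theorem Pack.union [DecidableEq V] {T T' : Finset (Finset V)} (h : Pack G T) (h' : Pack H T')
    (hd : Disjoint (cov T) (cov T')) : Pack (G ⊔ H) (T ∪ T') := by
  refine ⟨fun t ht => ?_, ?_⟩
  · rcases mem_union.1 ht with h1 | h1
    · exact (h.1 t h1).mono le_sup_left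
    · exact (h'.1 t h1).mono le_sup_right
  · intro t ht t' ht' hne u hu v hv hu' hv'
    by_contra huv
    rcases mem_union.1 ht with h1 | h1 <;> rcases mem_union.1 ht' with h2 | h2
    · exact huv (h.2 t h1 t' h2 hne u hu v hv hu' hv')
    · exact SimpleGraph.disjoint_left.1 hd u v ⟨huv, t, h1, hu, hv⟩ ⟨huv, t', h2, hu', hv'⟩
    · exact SimpleGraph.disjoint_left.1 hd u v ⟨huv, t', h2, hu', hv'⟩ ⟨huv, t, h1, hu, hv⟩
    · exact huv (h'.2 t h1 t' h2 hne u hu v hv hu' hv')

/-- adding a packing of the uncovered part -/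
theorem Pack.union_sdiff [DecidableEq V] {T T' : Finset (Finset V)} (h : Pack G T)
    (h' : Pack (G \ cov T) T') : Pack G (T ∪ T') := by
  have hd : Disjoint (cov T) (cov T') := by
    rw [SimpleGraph.disjoint_left]
    intro u v h1 h2
    have := h'.cov_le h2
    rw [SimpleGraph.sdiff_adj] at this
    exact this.2 h1
  have := (h.union h' hd)
  exact this.mono (sup_le le_rfl sdiff_le)

theorem Pack.empty : Pack G (∅ : Finset (Finset V)) :=
  ⟨fun t ht => absurd ht (notMem_empty t), fun t ht => absurd ht (notMem_empty t)⟩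

theorem Pack.dec {T : Finset (Finset V)} (h : Pack G T) : Dec (cov T) := ⟨T, h.self, rfl⟩

theorem dec_bot : Dec (⊥ : SimpleGraph V) := ⟨∅, Pack.empty, cov_empty⟩

theorem Dec.sup (hG : Dec G) (hH : Dec H) (hd : Disjoint G H) : Dec (G ⊔ H) := by
  classical
  obtain ⟨T, hT, rfl⟩ := hG
  obtain ⟨T', hT', rfl⟩ := hH
  exact ⟨T ∪ T', hT.union hT' hd, cov_union T T'⟩

/-- a triangle of a tripartite graph has exactly one vertex in each part -/
theorem clique_part (hT : Tri π G) {t : Finset V} (ht : G.IsNClique 3 t) (i : ZMod 3) :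
    ∃ u ∈ t, π u = i ∧ ∀ w ∈ t, π w = i → w = u := by
  classical
  have hinj : Set.InjOn π t := by
    intro u hu w hw h
    by_contra hne
    exact hT u w (ht.1 hu hw hne) h
  have himg : t.image π = univ := by
    apply eq_univ_of_card
    rw [card_image_of_injOn hinj, ht.2]
    rfl
  have : i ∈ t.image π := by rw [himg]; exact mem_univ _
  obtain ⟨u, hu, hui⟩ := mem_image.1 this
  exact ⟨u, hu, hui, fun w hw hwi => hinj hw hu (hwi.trans hui.symm)⟩

/-- the degree of `v` in the cover of a packing into another part is the number of triangles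
at `v` -/
theorem Pack.dg_eq [Fintype V] [DecidableEq V] {T : Finset (Finset V)} (hT : Tri π G)
    (h : Pack G T) (v : V) (i : ZMod 3) (hi : i ≠ π v) :
    dg (cov T) v (pt π univ i) = (T.filter (fun t => v ∈ t)).card := by
  classical
  symm
  rw [dg]
  have key : ∀ t ∈ T, ∃ u ∈ t, π u = i ∧ ∀ w ∈ t, π w = i → w = u :=
    fun t ht => clique_part hT (h.1 t ht) i
  have : Nonempty V := ⟨v⟩
  choose! f hf using key
  refine card_bij (fun t _ => f t) ?_ ?_ ?_
  · intro t ht
    rw [mem_filter] at ht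
    obtain ⟨h1, h2, h3⟩ := hf t ht.1
    refine mem_nb.2 ⟨mem_pt.2 ⟨mem_univ _, h2⟩, ?_, t, ht.1, ht.2, h1⟩
    rintro h4
    apply hi
    rw [← h2, h4]
  · intro t ht t' ht' heq
    rw [mem_filter] at ht ht'
    by_contra hne
    obtain ⟨h1, h2, h3⟩ := hf t ht.1
    obtain ⟨h1', h2', h3'⟩ := hf t' ht'.1
    have := h.2 t ht.1 t' ht'.1 hne v ht.2 (f t) h1 ht'.2 (heq ▸ h1')
    apply hi
    rw [this, h2]
  · intro u hu
    rw [mem_nb, mem_pt] at hu
    obtain ⟨⟨_, h1⟩, h2, t, h3, h4, h5⟩ := hu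
    refine ⟨t, mem_filter.2 ⟨h3, h4⟩, ?_⟩
    exact ((hf t h3).2.2 u h5 h1).symm

theorem Pack.bal [Fintype V] [DecidableEq V] {T : Finset (Finset V)} (hT : Tri π G)
    (h : Pack G T) : Bal π (cov T) univ := by
  intro v
  rw [imb, h.dg_eq hT v _ (zmod3_ne1 _), h.dg_eq hT v _ (zmod3_ne2 _), sub_self]

theorem Dec.bal [Fintype V] (hT : Tri π G) (h : Dec G) : Bal π G univ := by
  classical
  obtain ⟨T, h1, rfl⟩ := h
  exact h1.bal hT

end DH
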