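import Mathlib

/-!
# Daykin-Haggkvist problem (MP_fe8cb7_co): definitions

All graphs are simple graphs on a finite type `V : Type`, `π : V → ZMod 3` is the partition
into three parts, `N` is the size of a part.
-/

open Finset

namespace DH

/-- the vertices of `U` in part `i` -/
def pt {V : Type} (π : V → ZMod 3) (U : Finset V) (i : ZMod 3) : Finset V :=
  U.filter (fun v => π v = i)

open Classical in
/-- the neighbours of `v` in `S` -/
noncomputable def nb {V : Type} (G : SimpleGraph V) (v : V) (S : Finset V) : Finset V :=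
  S.filter (fun w => G.Adj v w)

/-- the number of neighbours of `v` in `S` -/
noncomputable def dg {V : Type} (G : SimpleGraph V) (v : V) (S : Finset V) : ℕ := (nb G v S).card

/-- every edge joins two different parts -/
def Tri {V : Type} (π : V → ZMod 3) (G : SimpleGraph V) : Prop :=
  ∀ u v : V, G.Adj u v → π u ≠ π v

/-- all edges of `G` lie inside `U` -/
def Within {V : Type} (G : SimpleGraph V) (U : Finset V) : Prop :=
  ∀ u v : V, G.Adj u v → u ∈ U ∧ v ∈ U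

/-- all three parts of `U` have `N` vertices -/
def Eq3 {V : Type} (π : V → ZMod 3) (U : Finset V) (N : ℕ) : Prop :=
  ∀ i : ZMod 3, (pt π U i).card = N

/-- imbalance of `v` into `U`: neighbours in the next part minus neighbours in the previous part -/
noncomputable def imb {V : Type} (π : V → ZMod 3) (G : SimpleGraph V) (U : Finset V) (v : V) : ℤ :=
  (dg G v (pt π U (π v + 1)) : ℤ) - (dg G v (pt π U (π v - 1)) : ℤ)

/-- every vertex has the same number of neighbours in `U` in the two other parts -/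
def Bal {V : Type} (π : V → ZMod 3) (G : SimpleGraph V) (U : Finset V) : Prop :=
  ∀ v : V, imb π G U v = 0

/-- the graph of all pairs covered by the members of `T` -/
def cov {V : Type} (T : Finset (Finset V)) : SimpleGraph V where
  Adj u v := u ≠ v ∧ ∃ t ∈ T, u ∈ t ∧ v ∈ t
  symm := ⟨fun u v h => ⟨h.1.symm, h.2.choose, h.2.choose_spec.1, h.2.choose_spec.2.2,
    h.2.choose_spec.2.1⟩⟩
  loopless := ⟨fun v h => h.1 rfl⟩

/-- `T` is a set of triangles of `G`, no two of them sharing two vertices -/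
def Pack {V : Type} (G : SimpleGraph V) (T : Finset (Finset V)) : Prop :=
  (∀ t ∈ T, G.IsNClique 3 t) ∧
    ∀ t ∈ T, ∀ t' ∈ T, t ≠ t' → ∀ u ∈ t, ∀ v ∈ t, u ∈ t' → v ∈ t' → u = v

/-- `G` decomposes into edge-disjoint triangles -/
def Dec {V : Type} (G : SimpleGraph V) : Prop := ∃ T : Finset (Finset V), Pack G T ∧ cov T = G

/-- the edges of `G` inside `U` -/
def ins {V : Type} (G : SimpleGraph V) (U : Finset V) : SimpleGraph V where
  Adj u v := G.Adj u v ∧ u ∈ U ∧ v ∈ U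
  symm := ⟨fun _ _ h => ⟨h.1.symm, h.2.2, h.2.1⟩⟩
  loopless := ⟨fun v h => G.loopless.irrefl v h.1⟩

/-- common neighbours of `x` and `y` -/
noncomputable def cn {V : Type} [Fintype V] [DecidableEq V] (G : SimpleGraph V) (x y : V) : Finset V :=
  nb G x univ ∩ nb G y univ

/-- Fractional theorem with minimum degree `(1 - c) N`: a balanced tripartite graph has a
fractional triangle decomposition with all weights at most `C0 / N`. -/
def Frac (c C0 : ℝ) : Prop :=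
  ∀ (V : Type) [Fintype V] [DecidableEq V] (π : V → ZMod 3) (G : SimpleGraph V) (N : ℕ),
    0 < N → Eq3 π univ N → Tri π G → Bal π G univ →
    (∀ v : V, ∀ i : ZMod 3, i ≠ π v → (1 - c) * N ≤ dg G v (pt π univ i)) →
    ∃ W : Finset V → ℝ, (∀ t, 0 ≤ W t) ∧ (∀ t, W t ≤ C0 / N) ∧
      ∀ x y : V, G.Adj x y → ∑ z ∈ cn G x y, W {x, y, z} = 1

/-- Nibble theorem: a fractional triangle decomposition with all weights `O(1/N)` gives a
packing of triangles with small leftover. -/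
def Nib : Prop :=
  ∀ C0 : ℝ, 0 < C0 → ∀ γ : ℝ, 0 < γ → ∃ N0 : ℕ,
    ∀ (V : Type) [Fintype V] [DecidableEq V] (π : V → ZMod 3) (G : SimpleGraph V)
      (W : Finset V → ℝ) (N : ℕ),
    N0 ≤ N → Eq3 π univ N → Tri π G → (∀ t, 0 ≤ W t) → (∀ t, W t ≤ C0 / N) →
    (∀ x y : V, G.Adj x y → ∑ z ∈ cn G x y, W {x, y, z} = 1) →
    ∃ T : Finset (Finset V), Pack G T ∧
      ∀ (v : V) (i : ZMod 3), (dg (G \ cov T) v (pt π univ i) : ℝ) ≤ γ * N

/-- Rebalancing: a nearly balanced graph has a sparse subgraph `F` with `G \ F` balanced; the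
vertices of the small set `Y` have in `F` only as many neighbours as their imbalance. -/
def Reb : Prop :=
  ∀ (V : Type) [Fintype V] [DecidableEq V] (π : V → ZMod 3) (G : SimpleGraph V) (Y : Finset V)
    (N : ℕ) (ζ : ℝ),
    0 ≤ ζ → ζ ≤ 1 / 1000 → 1000 ≤ N → Eq3 π univ N → Tri π G →
    (∀ v : V, ∀ i : ZMod 3, i ≠ π v → (0.85 : ℝ) * N ≤ dg G v (pt π univ i)) →
    (∀ v : V, |(imb π G univ v : ℝ)| ≤ ζ * N) → (∀ i, ((pt π Y i).card : ℝ) ≤ N / 100) →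
    ∃ F : SimpleGraph V, F ≤ G ∧ Bal π (G \ F) univ ∧
      (∀ v : V, (dg F v univ : ℝ) ≤ 100 * ζ * N) ∧
      (∀ v ∈ Y, (dg F v univ : ℝ) ≤ |(imb π G univ v : ℝ)|)

/-- Approximate decomposition of a nearly balanced graph -/
def AD (c : ℝ) : Prop :=
  ∀ η : ℝ, 0 < η → ∀ γ : ℝ, 0 < γ → ∃ ζ : ℝ, 0 < ζ ∧ ∀ γ2 : ℝ, 0 < γ2 → ∃ N0 : ℕ,
    ∀ (V : Type) [Fintype V] [DecidableEq V] (π : V → ZMod 3) (G : SimpleGraph V) (Y : Finset V)
      (N : ℕ) (ζ0 : ℝ),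
    N0 ≤ N → Eq3 π univ N → Tri π G →
    (∀ v : V, ∀ i : ZMod 3, i ≠ π v → (1 - c + η) * N ≤ dg G v (pt π univ i)) →
    (∀ v : V, |(imb π G univ v : ℝ)| ≤ ζ * N) → (∀ v ∈ Y, |(imb π G univ v : ℝ)| ≤ ζ0 * N) →
    (∀ i, ((pt π Y i).card : ℝ) ≤ N / 100) →
    ∃ T : Finset (Finset V), Pack G T ∧
      (∀ (v : V) (i : ZMod 3), (dg (G \ cov T) v (pt π univ i) : ℝ) ≤ γ * N) ∧
      (∀ v ∈ Y, ∀ i : ZMod 3, (dg (G \ cov T) v (pt π univ i) : ℝ) ≤ (ζ0 + γ2) * N)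

/-- The same inside a vertex set `U` -/
def ADU (c : ℝ) : Prop :=
  ∀ η : ℝ, 0 < η → ∀ γ : ℝ, 0 < γ → ∃ ζ : ℝ, 0 < ζ ∧ ∀ γ2 : ℝ, 0 < γ2 → ∃ N0 : ℕ,
    ∀ (V : Type) [Fintype V] [DecidableEq V] (π : V → ZMod 3) (G : SimpleGraph V) (U Y : Finset V)
      (N : ℕ) (ζ0 : ℝ),
    N0 ≤ N → Eq3 π U N → Tri π G → Within G U → Y ⊆ U →
    (∀ v ∈ U, ∀ i : ZMod 3, i ≠ π v → (1 - c + η) * N ≤ dg G v (pt π U i)) →
    (∀ v ∈ U, |(imb π G U v : ℝ)| ≤ ζ * N) → (∀ v ∈ Y, |(imb π G U v : ℝ)| ≤ ζ0 * N) →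
    (∀ i, ((pt π Y i).card : ℝ) ≤ N / 100) →
    ∃ T : Finset (Finset V), Pack G T ∧
      (∀ v ∈ U, ∀ i : ZMod 3, (dg (G \ cov T) v (pt π U i) : ℝ) ≤ γ * N) ∧
      (∀ v ∈ Y, ∀ i : ZMod 3, (dg (G \ cov T) v (pt π U i) : ℝ) ≤ (ζ0 + γ2) * N)

/-- hypotheses of the cover-down lemma -/
structure CDHyp {V : Type} (π : V → ZMod 3) (G : SimpleGraph V) (U U1 U2 : Finset V)
    (N N1 N2 K : ℕ) (c η γ0 γ1 : ℝ) : Prop where
  sub1 : U1 ⊆ U
  sub2 : U2 ⊆ U1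
  szU : Eq3 π U N
  szU1 : Eq3 π U1 N1
  szU2 : Eq3 π U2 N2
  hN1 : N1 = N / K
  hN2 : N2 = N1 / K ∨ N2 = 0
  tri : Tri π G
  within : Within G U
  bal : Bal π G U
  deg : ∀ v ∈ U, ∀ i : ZMod 3, i ≠ π v → (1 - c + 2 * η) * N ≤ dg G v (pt π U i)
  deg1 : ∀ v ∈ U, ∀ i : ZMod 3, i ≠ π v → (1 - c + 2 * η) * N1 ≤ dg G v (pt π U1 i)
  imb1 : ∀ u ∈ U1, |(imb π G U1 u : ℝ)| ≤ γ0 * N1
  imbW1 : ∀ w ∈ U, |(imb π G U1 w : ℝ)| ≤ γ1 * N1
  imbW2 : ∀ w ∈ U, |(imb π G U2 w : ℝ)| ≤ γ1 * N1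

/-- conclusion of the cover-down lemma -/
structure CDCon {V : Type} (π : V → ZMod 3) (G : SimpleGraph V) (U1 U2 : Finset V)
    (N1 N2 : ℕ) (η γ0 γ1 : ℝ) (T : Finset (Finset V)) : Prop where
  pack : Pack G T
  cover : ∀ u v : V, G.Adj u v → ¬ (u ∈ U1 ∧ v ∈ U1) → (cov T).Adj u v
  out2 : ∀ u ∈ U2, ∀ v ∈ U2, ¬ (cov T).Adj u v
  deg1 : ∀ u ∈ U1, ∀ i : ZMod 3, (dg (cov T) u (pt π U1 i) : ℝ) ≤ η * N1
  deg2 : ∀ u ∈ U1, ∀ i : ZMod 3, (dg (cov T) u (pt π U2 i) : ℝ) ≤ (γ1 - γ0) * N2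

/-- The cover-down lemma -/
def CD (c : ℝ) : Prop :=
  ∀ η : ℝ, 0 < η → ∃ K : ℕ, 8 ≤ K ∧ ∃ γ0 γ1 : ℝ, 0 < γ0 ∧ γ0 < γ1 ∧ γ1 ≤ η ∧ ∃ N0 : ℕ,
    ∀ (V : Type) [Fintype V] [DecidableEq V] (π : V → ZMod 3) (G : SimpleGraph V)
      (U U1 U2 : Finset V) (N N1 N2 : ℕ),
    (N2 = 0 → N0 ≤ N1) → (N2 ≠ 0 → N0 ≤ N2) →
    CDHyp π G U U1 U2 N N1 N2 K c η γ0 γ1 →
    ∃ T : Finset (Finset V), CDCon π G U1 U2 N1 N2 η γ0 γ1 T

/-- the graph of the closed walk `v` -/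
def wk {V : Type} {m : ℕ} (v : ZMod m → V) : SimpleGraph V :=
  SimpleGraph.fromRel (fun a b => ∃ k : ZMod m, a = v k ∧ b = v (k + 1))

/-- `W` is a directed cycle of length `3 l` going from part `i` to part `i + 1` in each step -/
def IsCyc {V : Type} (π : V → ZMod 3) (W : SimpleGraph V) : Prop :=
  ∃ l : ℕ, 1 ≤ l ∧ ∃ v : ZMod (3 * l) → V, Function.Injective v ∧
    (∀ k, π (v (k + 1)) = π (v k) + 1) ∧ W = wk v

/-- Every balanced tripartite graph with minimum degrees `(1 - α) n`, `α < c`, decomposes into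
triangles when `n` is large -/
def MainG (c : ℝ) : Prop :=
  ∀ α : ℝ, α < c → ∃ n0 : ℕ, ∀ (V : Type) [Fintype V] [DecidableEq V] (π : V → ZMod 3)
    (G : SimpleGraph V) (n : ℕ), n0 ≤ n → Eq3 π univ n → Tri π G → Bal π G univ →
    (∀ v : V, ∀ i : ZMod 3, i ≠ π v → (1 - α) * n ≤ dg G v (pt π univ i)) → Dec G

/-- a proper partial colouring of the edges of `K_{n,n}` with `n` colours -/
def ProperPre {n : ℕ} (f : Fin n → Fin n → Option (Fin n)) : Prop :=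
  (∀ i j j' s, f i j = some s → f i j' = some s → j = j') ∧
    (∀ i i' j s, f i j = some s → f i' j = some s → i = i')

/-- `α`-dense -/
def DensePre {n : ℕ} (α : ℝ) (f : Fin n → Fin n → Option (Fin n)) : Prop :=
  (∀ s : Fin n, (((univ : Finset (Fin n × Fin n)).filter (fun p => f p.1 p.2 = some s)).card : ℝ)
      ≤ α * n) ∧
    (∀ i : Fin n, (((univ : Finset (Fin n)).filter (fun j => f i j ≠ none)).card : ℝ) ≤ α * n) ∧
    (∀ j : Fin n, (((univ : Finset (Fin n)).filter (fun i => f i j ≠ none)).card : ℝ) ≤ α * n)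

/-- `f` extends to a proper `n`-edge colouring of `K_{n,n}` -/
def ExtendsPre {n : ℕ} (f : Fin n → Fin n → Option (Fin n)) : Prop :=
  ∃ g : Fin n → Fin n → Fin n, (∀ i, Function.Injective (g i)) ∧
    (∀ j, Function.Injective (fun i => g i j)) ∧ ∀ i j s, f i j = some s → g i j = s

/-- `α` is admissible -/
def Admissible (α : ℝ) : Prop :=
  ∃ n0 : ℕ, ∀ n : ℕ, n0 ≤ n → ∀ f : Fin n → Fin n → Option (Fin n),
    ProperPre f → DensePre α f → ExtendsPre f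

end DH
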