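import Pool.Agent.Lib.MP_fe8cb7_co.h25.Basic

/-!
# Daykin-Haggkvist problem: statements of block A (absorbers)

For a closed walk `v : ZMod m → V`, `wk v` is the graph of its edges `v k - v (k+1)`.
-/

open Finset

namespace DH

/-- the edges `v k - z k` and `v k - z (k-1)` -/
def stg {V : Type} {m : ℕ} (v z : ZMod m → V) : SimpleGraph V :=
  SimpleGraph.fromRel (fun a b => ∃ k : ZMod m, a = v k ∧ (b = z k ∨ b = z (k - 1)))

/-- the closed walk `a, b 0, c 0, a, b 1, c 1, ...` of length `3 l` -/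
def mill {V : Type} (l : ℕ) (a : V) (b c : ℕ → V) : ZMod (3 * l) → V := fun k =>
  if k.val % 3 = 0 then a else if k.val % 3 = 1 then b (k.val / 3) else c (k.val / 3)

/-- any at most six vertices outside of part `i` have at least `M` common neighbours in part `i`
outside of `U1` -/
def Six {V : Type} [Fintype V] (π : V → ZMod 3) (G : SimpleGraph V) (U1 : Finset V) (M : ℕ) : Prop :=
  ∀ (X : Finset V) (i : ZMod 3), X.card ≤ 6 → (∀ x ∈ X, π x ≠ i) →
    ∃ Y : Finset V, M ≤ Y.card ∧ ∀ y ∈ Y, π y = i ∧ y ∉ U1 ∧ ∀ x ∈ X, G.Adj x y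

/-- [A0] greedy construction.
PROOF. Induction on `m`: let `f` be given for `m`; choose `x` with `P m f x` and put
`f' = Function.update f m x`; for `j < m`, `P j f' (f' j) ↔ P j f (f j)` since `f'` and `f` agree below
`m`, and `P m f' x ↔ P m f x`. -/
def S_A0 : Prop := ∀ (V : Type) (m : ℕ) (P : ℕ → (ℕ → V) → V → Prop), Nonempty V →
    (∀ k f g x, (∀ j < k, f j = g j) → (P k f x ↔ P k g x)) →
    (∀ k < m, ∀ f : ℕ → V, (∀ j < k, P j f (f j)) → ∃ x, P k f x) →
    ∃ f : ℕ → V, ∀ k < m, P k f (f k)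

/-- [A1] the basic triangle decomposition.
PROOF. `T` = the sets `{v k, v (k+1), z k}` and `{v' k, z (k-1), z k}`, `k : ZMod m` (3-element sets by the
hypotheses and `z (k-1) ≠ z k`). They cover exactly the given edges (for `stg v z`:
`v k - z k` and `v (k+1) - z k`, i.e. `v k - z (k-1)`). Packing: two sets of the first kind, `k ≠ j`: `z k`, `z j` are
different and not among the `v`'s, and `{v k, v (k+1)} ≠ {v j, v (j+1)}`. Two of the second kind:
`{z (k-1), z k} ∩ {z (j-1), z j}` has at most one element (`m ≥ 3`, so not both `j = k + 1` and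
`j = k - 1`); if they share a `z` then `j = k ± 1` and then `v' k ≠ v' j`. Mixed: the `v`'s and the
`v'`'s are different and the first set contains only one `z`. (`m ≥ 3`, use
`haveI : NeZero m` to have `Fintype (ZMod m)`.) -/
def S_A1 : Prop := ∀ (V : Type) [DecidableEq V] (m : ℕ) (v v' z : ZMod m → V), 3 ≤ m →
    (∀ k j, v k ≠ v' j) → Function.Injective z → (∀ k j, z k ≠ v j) → (∀ k j, z k ≠ v' j) →
    (∀ k, v k ≠ v (k + 1)) → (∀ k, v' k ≠ v' (k + 1)) →
    (∀ k j, k ≠ j → s(v k, v (k + 1)) ≠ s(v j, v (j + 1))) →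
    ∃ T : Finset (Finset V), Pack (⊤ : SimpleGraph V) T ∧
      cov T = wk v ⊔ stg v z ⊔ stg v' z ⊔ wk z

/-- [A2] the windmill.
PROOF. `T = {a, b j, c j}`, `j < l`; two of them share only `a`. The edges of the walk `mill l a b c`: if
`k.val = 3 j`: `a - b j`; `3 j + 1`: `b j - c j`; `3 j + 2`: `c j - a` (also for `j = l - 1`, where
`k + 1 = 0`); `(k+1).val = (k.val + 1) % (3 l)` (`ZMod.val_add`, `ZMod.val_one`..., `3 l > 1`). All these
edges are different. -/
def S_A2 : Prop := ∀ (V : Type) [DecidableEq V] (l : ℕ) (a : V) (b c : ℕ → V), 1 ≤ l →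
    (∀ i < l, b i ≠ a ∧ c i ≠ a) → (∀ i < l, ∀ j < l, b i ≠ c j) →
    (∀ i < l, ∀ j < l, i ≠ j → b i ≠ b j ∧ c i ≠ c j) →
    (∃ T : Finset (Finset V), Pack (⊤ : SimpleGraph V) T ∧ cov T = wk (mill l a b c)) ∧
    (∀ k, mill l a b c k ≠ mill l a b c (k + 1)) ∧
    (∀ k j, k ≠ j → s(mill l a b c k, mill l a b c (k + 1)) ≠ s(mill l a b c j, mill l a b c (j + 1)))

/-- [A3] embedding the new vertices of the absorber of a cycle.
PROOF. Greedy ([A0], `m = 5 l + 1`): choose in this order `a` (in the part of `v 0`), then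
`b 0, c 0, b 1, c 1, ...` (in the parts of `v 1`, `v 2`; `b j` adjacent to `a`; `c j` adjacent to `a`, `b j`), then
`z 0, z 1, ..., z (3l-1)` with `z k` in part `π (v k) - 1`, adjacent to `v k`, `v (k+1)`, `v' k`, `v' (k+1)`,
`z (k-1)` (if `k ≥ 1`) and `z 0` (if `k = 3l-1`): at most six vertices, none of them in part
`π (v k) - 1` (`π (v' k) = π (v k)`, since both depend on `k mod 3` in the same way:
`π (v k) = π (v 0) + k`). Each time `Six` gives `M > |Fb| + 5 l + 1` candidates outside `U1`, so one of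
them is not in `Fb` and not used before. Suggestion: index the new vertices by `ℕ`: `0 ↦ a`,
`1 + 2 j ↦ b j`, `2 + 2 j ↦ c j`, `2 l + 1 + k ↦ z k`; and `z k` for `k : ZMod (3 l)` is read off via
`k.val`. -/
def S_A3 : Prop := S_A0 → ∀ (V : Type) [Fintype V] [DecidableEq V] (π : V → ZMod 3)
    (G : SimpleGraph V) (U1 Fb : Finset V) (l M : ℕ) (v : ZMod (3 * l) → V), 1 ≤ l →
    (∀ k, v k ∈ U1) → (∀ k, π (v (k + 1)) = π (v k) + 1) → Six π G U1 M →
    Fb.card + (5 * l + 1) < M →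
    ∃ (a : V) (b c : ℕ → V) (z : ZMod (3 * l) → V) (New : Finset V),
      New.card ≤ 5 * l + 1 ∧ Disjoint New (U1 ∪ Fb) ∧
      (∀ k, mill l a b c k ∈ New) ∧ (∀ k, z k ∈ New) ∧
      (∀ i < l, b i ≠ a ∧ c i ≠ a) ∧ (∀ i < l, ∀ j < l, b i ≠ c j) ∧
      (∀ i < l, ∀ j < l, i ≠ j → b i ≠ b j ∧ c i ≠ c j) ∧
      Function.Injective z ∧ (∀ k j, z k ≠ mill l a b c j) ∧
      (∀ k, G.Adj (mill l a b c k) (mill l a b c (k + 1))) ∧
      (∀ k, G.Adj (mill l a b c k) (z k)) ∧ (∀ k, G.Adj (mill l a b c k) (z (k - 1))) ∧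
      (∀ k, G.Adj (v k) (z k)) ∧ (∀ k, G.Adj (v k) (z (k - 1))) ∧
      (∀ k, G.Adj (z k) (z (k + 1)))

/-- `A` is an absorber of the cycle `W ⊆ K[U2]` with the set `New` of new vertices -/
structure Abs {V : Type} [DecidableEq V] (G : SimpleGraph V) (U1 U2 Fb : Finset V)
    (W A : SimpleGraph V) (New : Finset V) : Prop where
  card : New.card ≤ 5 * U2.card + 1
  disj : Disjoint New (U1 ∪ Fb)
  le : A ≤ G
  ends : ∀ x y, A.Adj x y → (x ∈ New ∨ y ∈ New) ∧ x ∈ New ∪ U2 ∧ y ∈ New ∪ U2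
  dec : Dec A
  decW : Dec (A ⊔ W)

/-- [A4] absorber of one cycle.
PROOF. `W = wk v`, `v : ZMod (3 l) → V` injective with values in `U2` (every `v k` lies on an edge of
`W`: `v k ≠ v (k+1)`), so `3 l ≤ |U2|` and `5 l + 1 ≤ 5 |U2| + 1`. Take [A3], `v' = mill l a b c`, and
`A = wk v' ⊔ stg v' z ⊔ stg v z ⊔ wk z`. By [A1] for `(v', v, z)` and [A2] `A = cov T1`, so `Dec A`. By
[A1] for `(v, v', z)`, `wk v ⊔ stg v z ⊔ stg v' z ⊔ wk z` is decomposable and by [A2] so is `wk v'`; these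
two are disjoint (an edge of `wk v'` joins two values of `v'`), so `A ⊔ W` is decomposable
(`Dec.sup`). The edges of `v` are distinct since `v` is injective and `3 l ≥ 3`. -/
def S_A4 : Prop := S_A0 → S_A1 → S_A2 → S_A3 → ∀ (V : Type) [Fintype V] [DecidableEq V]
    (π : V → ZMod 3) (G : SimpleGraph V) (U1 U2 Fb : Finset V) (M : ℕ) (W : SimpleGraph V),
    IsCyc π W → Within W U2 → U2 ⊆ U1 → Six π G U1 M → Fb.card + (5 * U2.card + 1) < M →
    ∃ (A : SimpleGraph V) (New : Finset V), Abs G U1 U2 Fb W A New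

/-- [A5] absorbers for a finite set of cycles.
PROOF. Induction on `𝓢`: for `insert W 𝓢'` let `abs`, `New'` be given for `𝓢'`; apply [A4] to `W` with
`Fb = New'`. The new absorber `A` is edge-disjoint from the old ones: an edge of `A` has an end in
`New`, which is disjoint from `U1 ∪ New' ⊇ U2 ∪ New'`, while the edges of the old absorbers have both
ends in `New' ∪ U2`. -/
def S_A5 : Prop := S_A0 → S_A1 → S_A2 → S_A3 → S_A4 → ∀ (V : Type) [Fintype V] [DecidableEq V]
    (π : V → ZMod 3) (G : SimpleGraph V) (U1 U2 : Finset V) (M : ℕ) (𝓢 : Finset (SimpleGraph V)),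
    (∀ W ∈ 𝓢, IsCyc π W ∧ Within W U2) → U2 ⊆ U1 → Six π G U1 M →
    (𝓢.card + 1) * (5 * U2.card + 1) < M →
    ∃ (abs : SimpleGraph V → SimpleGraph V) (New : Finset V),
      New.card ≤ 𝓢.card * (5 * U2.card + 1) ∧ Disjoint New U1 ∧
      (∀ W ∈ 𝓢, abs W ≤ G ∧ Dec (abs W) ∧ Dec (abs W ⊔ W) ∧
        ∀ x y, (abs W).Adj x y → (x ∈ New ∨ y ∈ New) ∧ x ∈ New ∪ U2 ∧ y ∈ New ∪ U2) ∧
      (∀ W ∈ 𝓢, ∀ W' ∈ 𝓢, W ≠ W' → Disjoint (abs W) (abs W'))

/-- [A6] a balanced graph is an edge-disjoint union of directed cycles.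
PROOF. Strong induction on the number of edges. If `L = ⊥` take `𝓦 = ∅`. Otherwise there is a vertex with
a neighbour; as `imb = 0` and by `Tri` it has a neighbour in the next part (if it has one in the previous part
it has one in the next). Let `f x` be a neighbour of `x` in part `π x + 1` for every non-isolated `x`
(`f x` is again non-isolated). Iterating from a non-isolated `x0`, by finiteness `f^[i] x0 = f^[j] x0` for some
`i < j`; so there is a point `x` with `f^[m] x = x`, `m ≥ 1`, choose `m` minimal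
(`Function.minimalPeriod`). Then `x, f x, ..., f^[m-1] x` are distinct, and `π` increases by one at each step, so
`3 ∣ m`, `m = 3 l`, and `v k = f^[k.val] x` gives `W = wk v ≤ L` with `IsCyc π W`. Every vertex on `W` has
in `W` one neighbour in the next and one in the previous part, so `W` is balanced, and
`L \ W` is balanced (`imb_sdiff`) with fewer edges. Add `W` to the family for `L \ W` (whose members are
`≤ L \ W`, disjoint from `W`). -/
def S_A6 : Prop := ∀ (V : Type) [Fintype V] [DecidableEq V] (π : V → ZMod 3) (L : SimpleGraph V),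
    Tri π L → Bal π L univ → ∃ 𝓦 : Finset (SimpleGraph V),
      (∀ W ∈ 𝓦, IsCyc π W ∧ W ≤ L) ∧ (∀ W ∈ 𝓦, ∀ W' ∈ 𝓦, W ≠ W' → Disjoint W W') ∧
      ∀ x y, L.Adj x y → ∃ W ∈ 𝓦, W.Adj x y

/-- [A7] absorption.
PROOF. `L ⊔ A`, `A` the union of all `abs W`, `W ∈ 𝓢`, is the union of the graphs `abs W ⊔ W`
(`W ∈ 𝓦`) and `abs W` (`W ∈ 𝓢 \ 𝓦`), pairwise disjoint, each decomposable; induction on finite sets with
`Dec.sup` (first for a general family: if `F : ι → SimpleGraph V` is decomposable and pairwise disjoint on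
a finset `I` then the graph `Adj x y := ∃ i ∈ I, (F i).Adj x y` is decomposable). -/
def S_A7 : Prop := ∀ (V : Type) [Fintype V] [DecidableEq V] (abs : SimpleGraph V → SimpleGraph V)
    (𝓢 𝓦 : Finset (SimpleGraph V)) (D : SimpleGraph V), 𝓦 ⊆ 𝓢 →
    (∀ W ∈ 𝓢, Dec (abs W) ∧ Dec (abs W ⊔ W)) →
    (∀ W ∈ 𝓢, ∀ W' ∈ 𝓢, W ≠ W' → Disjoint (abs W) (abs W')) →
    (∀ W ∈ 𝓢, ∀ W' ∈ 𝓢, Disjoint (abs W) W') →
    (∀ W ∈ 𝓦, ∀ W' ∈ 𝓦, W ≠ W' → Disjoint W W') →
    (∀ x y, D.Adj x y ↔ (∃ W ∈ 𝓦, W.Adj x y) ∨ (∃ W ∈ 𝓢, (abs W).Adj x y)) → Dec D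

end DH
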