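import Pool.Agent.Lib.MP_fe8cb7_co.h25.StC
import Pool.Agent.Lib.MP_fe8cb7_co.h25.StA

/-!
# Daykin-Haggkvist problem: statements of block M (vortex, iteration, assembly, Latin squares)
-/

open Finset

namespace DH

/-- [V1] one step of the vortex.
PROOF. [Col] with `κ = Fin K`, `X = U`, `𝓕'` = all `pt π S i` (`S ∈ 𝓕`) and all `pt π U i`: at most
`3 (100 K N + 1)` sets, `t = N^(3/5)`; `2 * 303 K N * K * exp (- N^(6/5)/(12 N)) < 1` for large `N`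
(`606 K^2 N exp (-N^(1/5)/12) → 0`). Let `U0 = {x ∈ U | f x = 0}`: `|pt U0 i| = N/K ± t`, so we can remove or
add (from `pt U i`) at most `t + 1` vertices in each part to get `U'` with exactly `N/K` (floor) in each
part. Then `|pt (S ∩ U') i| = |pt S i|/K ± (2t + 1)`. With `N' = N/K` (floor), `N - K < K N' ≤ N`,
`| |pt S i|/(K N') - |pt S i|/N | ≤ 1/N'`, so the difference is at most `(2t + 2)/N' ≤ N'^(-1/3)` for
large `N` (`N' ≥ N/(2K)`). -/
def S_V1 : Prop := S_Col → ∀ K : ℕ, 2 ≤ K → ∃ N0 : ℕ, ∀ (V : Type) [DecidableEq V]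
    (π : V → ZMod 3) (U : Finset V) (N : ℕ) (𝓕 : Finset (Finset V)), N0 ≤ N → Eq3 π U N →
    (∀ S ∈ 𝓕, S ⊆ U) → 𝓕.card ≤ 100 * K * N →
    ∃ U' : Finset V, U' ⊆ U ∧ Eq3 π U' (N / K) ∧ ∀ S ∈ 𝓕, ∀ i : ZMod 3,
      |((pt π (S ∩ U') i).card : ℝ) / ((N / K : ℕ) : ℝ) - ((pt π S i).card : ℝ) / N|
        ≤ ((N / K : ℕ) : ℝ) ^ (-(1 / 3 : ℝ))

/-- [V2] the vortex.
PROOF. Write `n_j = n / K^j` (`n_{j+1} = n_j / K`, `Nat.div_div_eq_div_mul`). Construct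
`U 0 = univ`, and `U (j+1) ⊆ U j` for `j < l` by [V1] applied to `U j`, `N = n_j` and
`𝓕 = {nb G v (U j) | v ∈ U (j-1)}` (`j - 1` truncated; at most `3 n_{j-1} ≤ 6 K n_j` sets), `U j = ∅` for `j > l`.
So for `v ∈ U (j-1)`: `|d_{j+1} v - d_j v| ≤ n_{j+1}^(-1/3)`, where
`d_j v = dg G v (pt π (U j) i) / n_j`. Claim: `|d_j v - d_0 v| ≤ 2 n_j^(-1/3)` for all `v ∈ U (j-2)`,
`j ≤ l`: `j = 0` trivial; `j → j+1`, `v ∈ U (j-1) ⊆ U (j-2)`:
`2 n_j^(-1/3) + n_{j+1}^(-1/3) ≤ 2 n_{j+1}^(-1/3)` since `n_j ≥ 8 n_{j+1}`. Finally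
`2 n_j^(-1/3) ≤ 2 N0^(-1/3) ≤ δ`. -/
def S_V2 : Prop := S_Col → S_V1 → ∀ K : ℕ, 8 ≤ K → ∀ δ : ℝ, 0 < δ → ∃ N0 : ℕ,
    ∀ (V : Type) [Fintype V] [DecidableEq V] (π : V → ZMod 3) (G : SimpleGraph V) (n l : ℕ),
    Eq3 π univ n → N0 ≤ n / K ^ l →
    ∃ U : ℕ → Finset V, U 0 = univ ∧ (∀ j, U (j + 1) ⊆ U j) ∧
      (∀ j ≤ l, Eq3 π (U j) (n / K ^ j)) ∧ (∀ j, l < j → U j = ∅) ∧
      ∀ j ≤ l, ∀ v ∈ U (j - 2), ∀ i : ZMod 3,
        |(dg G v (pt π (U j) i) : ℝ) / ((n / K ^ j : ℕ) : ℝ) - (dg G v (pt π univ i) : ℝ) / n| ≤ δ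

/-- [M1] iteration of the cover-down lemma.
PROOF. Write `n_j = n / K^j`, `n_{j+1} = n_j / K`. Claim by induction on `j ≤ l`: there is a packing
`T_j` of `G` such that (i) every edge of `G` not inside `U j` is in `cov T_j`; (ii) no edge of
`cov T_j` is inside `U (j+1)` (if `j ≥ 1`; for `j = 0` `T_0 = ∅`); (iii) for `u ∈ U j`:
`dg (cov T_j) u (pt (U j) i) ≤ η n_j` and `dg (cov T_j) u (pt (U (j+1)) i) ≤ (γ1 - γ0) n_{j+1}` if
`j + 1 ≤ l` (for `j + 1 > l`, `U (j+1) = ∅`).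
Step `j → j+1 ≤ l`: put `G_j = G \ cov T_j`; it lies inside `U j`, is balanced on `univ` hence on `U j`
(`Pack.bal`, `imb_sdiff`, `imb_within`). Apply `CD c` (constant `η`) to `G_j`, `U j`, `U (j+1)`,
`U (j+2)`, `N = n_j`, `N1 = n_{j+1}`, `N2 = n_{j+2}` if `j + 2 ≤ l` and `N2 = 0` (`U (j+2) = ∅`) otherwise.
`CDHyp`: `deg`: `≥ (1 - c + 3η) n_j - η n_j`; `deg1`: `≥ (1-c+3η) n_{j+1} - (γ1-γ0) n_{j+1}`, `γ1 ≤ η`;
`imb1`: no covered edge inside `U (j+1)`, so `imb G_j (U (j+1)) u = imb G (U (j+1)) u` (hypothesis (c), `u ∈ U (j+1) ⊆ U (j-1)`);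
`imbW1`: `≤ γ0 n_{j+1} + (γ1-γ0) n_{j+1}` (`U j ⊆ U (j+1-2)`; the imbalance of `cov T_j` at `w` into `U (j+1)` is a
difference of two numbers in `[0, (γ1-γ0) n_{j+1}]`); `imbW2`: `≤ γ0 n_{j+2} + (γ1-γ0) n_{j+1} ≤ γ1 n_{j+1}`
(`dg` into `U (j+2) ⊆ U (j+1)`). Get `T`; put `T_{j+1} = T_j ∪ T` (`Pack.union_sdiff`): (i) clear; (ii): `out2`
and: edges of `cov T_j` are not inside `U (j+1) ⊇ U (j+2)`; (iii) for `u ∈ U (j+1)`, the edges of `cov T_j` at `u` into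
`U (j+1)` do not exist, so the degrees are those of `cov T`: `deg1`, `deg2`. At `j = l` (i) is the claim. -/
def S_M1 : Prop := ∀ (c η γ0 γ1 : ℝ) (K N0 l n : ℕ) (V : Type) [Fintype V] [DecidableEq V]
    (π : V → ZMod 3) (G : SimpleGraph V) (U : ℕ → Finset V), 0 < η → 8 ≤ K → 0 < γ0 → γ0 < γ1 →
    γ1 ≤ η → 1 ≤ N0 →
    (∀ (G' : SimpleGraph V) (A A1 A2 : Finset V) (N N1 N2 : ℕ),
      (N2 = 0 → N0 ≤ N1) → (N2 ≠ 0 → N0 ≤ N2) → CDHyp π G' A A1 A2 N N1 N2 K c η γ0 γ1 →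
      ∃ T : Finset (Finset V), CDCon π G' A1 A2 N1 N2 η γ0 γ1 T) →
    U 0 = univ → (∀ j, U (j + 1) ⊆ U j) → (∀ j ≤ l, Eq3 π (U j) (n / K ^ j)) →
    (∀ j, l < j → U j = ∅) → N0 ≤ n / K ^ l →
    Tri π G → Bal π G univ →
    (∀ j ≤ l, ∀ v ∈ U (j - 2), ∀ i : ZMod 3, i ≠ π v →
      (1 - c + 3 * η) * ((n / K ^ j : ℕ) : ℝ) ≤ dg G v (pt π (U j) i)) →
    (∀ j ≤ l, ∀ v ∈ U (j - 2), |(imb π G (U j) v : ℝ)| ≤ γ0 * ((n / K ^ j : ℕ) : ℝ)) →
    ∃ T : Finset (Finset V), Pack G T ∧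
      ∀ u v : V, G.Adj u v → ¬ (u ∈ U l ∧ v ∈ U l) → (cov T).Adj u v

/-- [M2] common neighbours of six vertices.
PROOF. Each `x ∈ X` has at most `α n` non-neighbours in part `i`; `6 α n + n/K + M ≤ n` for large `n`
(`α < 1/7`, `K ≥ 8`: `1 - 6/7 - 1/8 > 0`); the common neighbours in part `i` outside `U1`
(`|pt U1 i| = n / K`) are at least `n - 6 α n - n/K ≥ M`. -/
def S_M2 : Prop := ∀ (α : ℝ) (K M : ℕ), α < 1 / 7 → 8 ≤ K → ∃ n0 : ℕ, ∀ (V : Type) [Fintype V]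
    [DecidableEq V] (π : V → ZMod 3) (G : SimpleGraph V) (U1 : Finset V) (n : ℕ), n0 ≤ n →
    Eq3 π univ n → Eq3 π U1 (n / K) →
    (∀ v : V, ∀ i : ZMod 3, i ≠ π v → (1 - α) * n ≤ dg G v (pt π univ i)) → Six π G U1 M

/-- [M3] assembly of the theorem on graphs (`c ≤ 1/7`).
PROOF. Let `α < c`. (If `α < 0` there is no vertex, for `n ≥ 1` the hypothesis is contradictory; one may also
replace `α` by `max α 0`.) `η = (c - α)/10`; `K, γ0, γ1, N0` from `CD c`; `δ = min (η) (γ0/4)`; `N1` from [V2]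
for `K`, `δ`; `N2 = max N0 N1 + 1`. For `n` large let `l` be the largest number with
`n / K^l ≥ N2` (`l ≥ 3` for large `n`), so `n_l = n / K^l < K (N2 + 1)` is bounded by a constant `B`. `U` from [V2] for
`G`. Let `𝓢` be the (finite) set of all `W ≤ G` with `IsCyc π W` and `Within W (U l)`; `|U l| ≤ 3B`, and
`𝓢` has at most `2^((3B)^2)` elements (a graph within `U l` is determined by its adjacencies on `U l × U l`). By [M2]
`Six π G (U 1) M` with `M` larger than `(2^((3B)^2) + 1)(15 B + 1)`. [A5] with `U1 = U 1`, `U2 = U l`: `abs`, `New`. `A` = union of the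
`abs W`, `W ∈ 𝓢`, decomposable ([A7] with `𝓦 = ∅`), hence balanced (`Dec.bal`). `G0 = G \ A` is balanced,
tripartite. `dg A v S ≤ M` for all `v`, `S` (`ends`: all neighbours are in `New ∪ U l`), and `A` has no edge inside
`U 1`. Hypotheses of [M1] for `G0`: for `j ≤ l`, `v ∈ U (j-2)`: by [V2]
`dg G v (pt (U j) i) ≥ (1 - α - δ) n_j ≥ (1 - c + 9η) n_j`, and
`|imb G (U j) v| ≤ 2 δ n_j ≤ γ0 n_j / 2` (balanced on `univ`); passing to `G0` changes the numbers by at most `M` if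
`j ≤ 2` (`M ≤ min(η, γ0/2) n_2` for large `n`), and not at all if `j ≥ 3` (`v ∈ U (j-2) ⊆ U 1`, `U j ⊆ U 1`).
[M1] gives a packing `T` of `G0`; `L = G0 \ cov T` lies within `U l`, is balanced; [A6]: cycles `𝓦 ⊆ 𝓢`. [A7]:
`L ⊔ A` is decomposable (`abs W` and `W'` are disjoint since edges of `abs W` have an end in `New`, disjoint from `U 1 ⊇ U l`).
`G = cov T ⊔ (L ⊔ A)`, disjoint: `Dec.sup`. -/
def S_M3 : Prop := S_Col → S_V1 → S_V2 → S_M1 → S_M2 → S_A0 → S_A1 → S_A2 → S_A3 → S_A4 → S_A5 →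
    S_A6 → S_A7 → ∀ c : ℝ, c ≤ 1 / 7 → CD c → MainG c

/-- [M4] from graphs to precolourings.
PROOF. Let `α < c`, `n0 = max 1 (n0 of MainG)`; let `f` be a proper, `α`-dense precolouring, `n ≥ n0`. `V = ZMod 3 × Fin n`, `π = Prod.fst`,
`G` the graph with `(0,i) - (1,j)` iff `f i j = none`; `(0,i) - (2,s)` iff `f i j ≠ some s` for all `j`;
`(1,j) - (2,s)` iff `f i j ≠ some s` for all `i`. Row `i` has `r_i ≤ α n` filled cells; by properness they contain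
`r_i` different symbols; so `(0,i)` has `n - r_i` neighbours in both other parts. The same for columns; a symbol `s`
used `m_s ≤ α n` times occurs in `m_s` different rows and `m_s` different columns, so `(2,s)` has `n - m_s` neighbours
in both. So `G` is tripartite, balanced with degrees `≥ (1 - α) n`; `Dec G` by `MainG c`: packing `T` covering `G`. Define
`g i j = s` if `f i j = some s`, and if `f i j = none`: the edge `(0,i) - (1,j)` is in a (unique) triangle of `T`, whose third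
vertex is `(2, s)` (`clique_part`), `g i j = s`. If `g i j = g i j' = s`, `j ≠ j'`: both filled: contradicts properness; one filled, say
`f i j = some s`, `f i j' = none`: `(0,i) - (2,s)` is an edge, contradiction; both empty: the two triangles share
`(0,i)`, `(2,s)`, so they are equal, and `j = j'`. In the same way for columns. -/
def S_M4 : Prop := ∀ c : ℝ, MainG c → ∀ α : ℝ, α < c → Admissible α

end DH
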