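import Pool.Agent.Lib.MP_fe8cb7_co.h25.StA
import Pool.Agent.Lib.MP_fe8cb7_co.h25.StM

/-!
# Daykin-Haggkvist problem: proofs of [A0] and [M2]
-/

open Finset

namespace DH

theorem p_A0 : S_A0 := by
  intro V m P hV hloc
  induction m with
  | zero =>
    intro _
    obtain ⟨x⟩ := hV
    exact ⟨fun _ => x, fun k hk => absurd hk (Nat.not_lt_zero k)⟩
  | succ m ih =>
    intro hstep
    obtain ⟨f, hf⟩ := ih (fun k hk => hstep k (Nat.lt_succ_of_lt hk))
    obtain ⟨x, hx⟩ := hstep m (Nat.lt_succ_self m) f (fun j hj => hf j hj)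
    refine ⟨Function.update f m x, fun k hk => ?_⟩
    rcases Nat.lt_succ_iff_lt_or_eq.1 hk with hk' | rfl
    · rw [Function.update_of_ne hk'.ne]
      refine (hloc k f _ _ fun j hj => ?_).1 (hf k hk')
      rw [Function.update_of_ne (hj.trans hk').ne]
    · rw [Function.update_self]
      refine (hloc k f _ _ fun j hj => ?_).1 hx
      rw [Function.update_of_ne hj.ne]

theorem p_M2 : S_M2 := by
  intro α K M hα hK
  refine ⟨56 * M, ?_⟩
  intro V _ _ π G U1 n hn hV hU hdeg X i hX hXi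
  classical
  set Bd : Finset V := X.biUnion (fun x => (pt π univ i) \ nb G x (pt π univ i)) with hBd
  refine ⟨(pt π univ i \ pt π U1 i) \ Bd, ?_, ?_⟩
  · -- the cardinality
    have hnn : (0 : ℝ) ≤ n := Nat.cast_nonneg n
    have h1 : (Bd.card : ℝ) ≤ (X.card : ℝ) * (α * n) := by
      have h2 : (Bd.card : ℝ) ≤ ∑ x ∈ X, (((pt π univ i) \ nb G x (pt π univ i)).card : ℝ) := by
        exact_mod_cast card_biUnion_le
      refine h2.trans ?_
      have h3 : ∀ x ∈ X, (((pt π univ i) \ nb G x (pt π univ i)).card : ℝ) ≤ α * n := by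
        intro x hx
        have h4 := card_sdiff_add_card_inter (pt π univ i) (nb G x (pt π univ i))
        have h5 : pt π univ i ∩ nb G x (pt π univ i) = nb G x (pt π univ i) :=
          inter_eq_right.2 (nb_subset x)
        rw [h5, hV i] at h4
        have h6 : ((pt π univ i \ nb G x (pt π univ i)).card : ℝ)
            + ((nb G x (pt π univ i)).card : ℝ) = n := by exact_mod_cast h4
        have h7 := hdeg x i (hXi x hx).symm
        rw [dg] at h7
        linarith
      calc ∑ x ∈ X, (((pt π univ i) \ nb G x (pt π univ i)).card : ℝ) ≤ ∑ x ∈ X, α * n :=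
            sum_le_sum h3
        _ = (X.card : ℝ) * (α * n) := by rw [sum_const, nsmul_eq_mul]
    have h8 : (X.card : ℝ) * (α * n) ≤ 6 / 7 * n := by
      have h9 : (X.card : ℝ) ≤ 6 := by exact_mod_cast hX
      have h10 : (0 : ℝ) ≤ X.card := Nat.cast_nonneg _
      rcases le_total 0 α with h0 | h0
      · calc (X.card : ℝ) * (α * n) ≤ 6 * (1 / 7 * n) := by
              gcongr
          _ = 6 / 7 * n := by ring
      · have : (X.card : ℝ) * (α * n) ≤ 0 :=
          mul_nonpos_of_nonneg_of_nonpos h10 (mul_nonpos_of_nonpos_of_nonneg h0 hnn)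
        have h11 : (0 : ℝ) ≤ 6 / 7 * n := by positivity
        linarith
    have h12 : (pt π univ i).card ≤ ((pt π univ i \ pt π U1 i) \ Bd).card
        + (pt π U1 i).card + Bd.card := by
      have h13 := le_card_sdiff (pt π U1 i) (pt π univ i)
      have h14 := le_card_sdiff Bd (pt π univ i \ pt π U1 i)
      omega
    rw [hV i, hU i] at h12
    have h15 : (n / K : ℕ) ≤ n / 8 := Nat.div_le_div_left hK (by norm_num)
    have h16 : n ≤ ((pt π univ i \ pt π U1 i) \ Bd).card + n / 8 + Bd.card := by omega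
    have h17 : (n : ℝ) ≤ (((pt π univ i \ pt π U1 i) \ Bd).card : ℝ) + ((n / 8 : ℕ) : ℝ)
        + (Bd.card : ℝ) := by exact_mod_cast h16
    have h18 : ((n / 8 : ℕ) : ℝ) ≤ n / 8 := by
      have := @Nat.cast_div_le ℝ _ _ _ n 8
      simpa using this
    have h19 : (56 * M : ℝ) ≤ n := by exact_mod_cast hn
    have h20 : (M : ℝ) ≤ (((pt π univ i \ pt π U1 i) \ Bd).card : ℝ) := by linarith
    exact_mod_cast h20
  · intro y hy
    obtain ⟨h1, h2⟩ := mem_sdiff.1 hy
    obtain ⟨h3, h4⟩ := mem_sdiff.1 h1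
    have hyi : π y = i := (mem_pt.1 h3).2
    refine ⟨hyi, fun hyU => h4 (mem_pt.2 ⟨hyU, hyi⟩), fun x hx => ?_⟩
    by_contra hadj
    refine h2 (mem_biUnion.2 ⟨x, hx, mem_sdiff.2 ⟨h3, fun h5 => hadj ?_⟩⟩)
    exact (mem_nb.1 h5).2

end DH
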