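import Pool.Agent.Lib.MP_fe8cb7_co.h25.StA

/-!
# Daykin-Haggkvist problem: [A1], the basic triangle decomposition
-/

open Finset

namespace DH

private theorem A1_one {m : ℕ} (hm : 3 ≤ m) : (1 : ZMod m) ≠ 0 := by
  intro h
  have h' : ((1 : ℕ) : ZMod m) = 0 := by exact_mod_cast h
  rw [ZMod.natCast_eq_zero_iff] at h'
  have := Nat.le_of_dvd one_pos h'
  omega

private theorem A1_two {m : ℕ} (hm : 3 ≤ m) : (1 : ZMod m) + 1 ≠ 0 := by
  intro h
  have h' : ((2 : ℕ) : ZMod m) = 0 := by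
    have : ((2 : ℕ) : ZMod m) = 1 + 1 := by norm_num
    rw [this, h]
  rw [ZMod.natCast_eq_zero_iff] at h'
  have := Nat.le_of_dvd two_pos h'
  omega

theorem p_A1 : S_A1 := by
  classical
  intro V _ m v v' z hm hvv hz hzv hzv' hv1 hv1' hvs
  haveI : NeZero m := ⟨by omega⟩
  have h1 : ∀ k : ZMod m, k - 1 ≠ k := fun k h => A1_one hm (by
    have : k - (k - 1) = 0 := by rw [h]; ring
    rw [← this]; ring)
  have h2 : ∀ k j : ZMod m, k = j - 1 → k - 1 = j → False := fun k j ha hb => A1_two hm (by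
    have : j - (k - 1) = 0 := by rw [hb]; ring
    rw [← this, ha]; ring)
  set f : ZMod m → Finset V := fun k => {v k, v (k + 1), z k} with hf
  set g : ZMod m → Finset V := fun k => {v' k, z (k - 1), z k} with hg
  have mf : ∀ k x, x ∈ f k ↔ x = v k ∨ x = v (k + 1) ∨ x = z k := by
    intro k x; simp [hf]
  have mg : ∀ k x, x ∈ g k ↔ x = v' k ∨ x = z (k - 1) ∨ x = z k := by
    intro k x; simp [hg]
  have zne : ∀ k j, z k = z j → k = j := fun k j h => hz h
  -- two sets of the first kind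
  have hff : ∀ k j, k ≠ j → ∀ a ∈ f k, ∀ b ∈ f k, a ∈ f j → b ∈ f j → a = b := by
    intro k j hkj a ha b hb ha' hb'
    have key : ∀ x, x ∈ f k → x ∈ f j → (x = v k ∨ x = v (k + 1)) ∧ (x = v j ∨ x = v (j + 1)) := by
      intro x hx hx'
      rw [mf] at hx hx'
      rcases hx with rfl | rfl | rfl
      · refine ⟨Or.inl rfl, ?_⟩
        rcases hx' with h | h | h
        · exact Or.inl h
        · exact Or.inr h
        · exact absurd h.symm (hzv _ _)
      · refine ⟨Or.inr rfl, ?_⟩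
        rcases hx' with h | h | h
        · exact Or.inl h
        · exact Or.inr h
        · exact absurd h.symm (hzv _ _)
      · rcases hx' with h | h | h
        · exact absurd h (hzv _ _)
        · exact absurd h (hzv _ _)
        · exact absurd (zne _ _ h) hkj
    obtain ⟨ka, ka'⟩ := key a ha ha'
    obtain ⟨kb, kb'⟩ := key b hb hb'
    by_contra hab
    apply hvs k j hkj
    have e1 : s(v k, v (k + 1)) = s(a, b) := by
      rcases ka with h | h <;> rcases kb with h' | h'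
      · exact absurd (h.trans h'.symm) hab
      · rw [h, h']
      · rw [h, h', Sym2.eq_swap]
      · exact absurd (h.trans h'.symm) hab
    have e2 : s(v j, v (j + 1)) = s(a, b) := by
      rcases ka' with h | h <;> rcases kb' with h' | h'
      · exact absurd (h.trans h'.symm) hab
      · rw [h, h']
      · rw [h, h', Sym2.eq_swap]
      · exact absurd (h.trans h'.symm) hab
    rw [e1, e2]
  have hgg : ∀ k j, k ≠ j → ∀ a ∈ g k, ∀ b ∈ g k, a ∈ g j → b ∈ g j → a = b := by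
    intro k j hkj a ha b hb ha' hb'
    -- a common element is `v' k = v' j`, or `z k = z (j-1)`, or `z (k-1) = z j`
    have key : ∀ x, x ∈ g k → x ∈ g j → (x = v' k ∧ v' k = v' j) ∨ (x = z k ∧ k = j - 1) ∨
        (x = z (k - 1) ∧ k - 1 = j) := by
      intro x hx hx'
      rw [mg] at hx hx'
      rcases hx with rfl | rfl | rfl
      · rcases hx' with h | h | h
        · exact Or.inl ⟨rfl, h⟩
        · exact absurd h.symm (hzv' _ _)
        · exact absurd h.symm (hzv' _ _)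
      · rcases hx' with h | h | h
        · exact absurd h (hzv' _ _)
        · exact absurd (sub_left_injective (zne _ _ h)) hkj
        · exact Or.inr (Or.inr ⟨rfl, zne _ _ h⟩)
      · rcases hx' with h | h | h
        · exact absurd h (hzv' _ _)
        · exact Or.inr (Or.inl ⟨rfl, zne _ _ h⟩)
        · exact absurd (zne _ _ h) hkj
    have c1 : v' k = v' j → k = j - 1 → False := by
      intro h h'
      apply hv1' k
      rw [h, h']
      congr 1
      ring
    have c2 : v' k = v' j → k - 1 = j → False := by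
      intro h h'
      apply hv1' j
      rw [← h, ← h']
      congr 1
      ring
    rcases key a ha ha' with ⟨hA, hA'⟩ | ⟨hA, hA'⟩ | ⟨hA, hA'⟩ <;>
      rcases key b hb hb' with ⟨hB, hB'⟩ | ⟨hB, hB'⟩ | ⟨hB, hB'⟩
    · rw [hA, hB]
    · exact (c1 hA' hB').elim
    · exact (c2 hA' hB').elim
    · exact (c1 hB' hA').elim
    · rw [hA, hB]
    · exact (h2 k j hA' hB').elim
    · exact (c2 hB' hA').elim
    · exact (h2 k j hB' hA').elim
    · rw [hA, hB]
  have hfg : ∀ k j, ∀ x, x ∈ f k → x ∈ g j → x = z k := by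
    intro k j x hx hx'
    rw [mf] at hx
    rw [mg] at hx'
    rcases hx with rfl | rfl | rfl
    · rcases hx' with h | h | h
      · exact absurd h (hvv _ _)
      · exact absurd h.symm (hzv _ _)
      · exact absurd h.symm (hzv _ _)
    · rcases hx' with h | h | h
      · exact absurd h (hvv _ _)
      · exact absurd h.symm (hzv _ _)
      · exact absurd h.symm (hzv _ _)
    · rfl
  refine ⟨univ.image f ∪ univ.image g, ⟨?_, ?_⟩, ?_⟩
  · intro t ht
    rw [SimpleGraph.isNClique_iff]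
    refine ⟨fun a _ b _ hab => hab, ?_⟩
    rw [mem_union, mem_image, mem_image] at ht
    rcases ht with ⟨k, -, rfl⟩ | ⟨k, -, rfl⟩
    · rw [hf]
      simp only
      rw [card_insert_of_notMem, card_insert_of_notMem, card_singleton]
      · rw [mem_singleton]; exact fun h => hzv _ _ h.symm
      · simp only [mem_insert, mem_singleton, not_or]
        exact ⟨hv1 k, fun h => hzv _ _ h.symm⟩
    · rw [hg]
      simp only
      rw [card_insert_of_notMem, card_insert_of_notMem, card_singleton]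
      · rw [mem_singleton]; exact fun h => h1 k (zne _ _ h)
      · simp only [mem_insert, mem_singleton, not_or]
        exact ⟨fun h => hzv' _ _ h.symm, fun h => hzv' _ _ h.symm⟩
  · intro t ht t' ht' hne a ha b hb ha' hb'
    rw [mem_union, mem_image, mem_image] at ht ht'
    rcases ht with ⟨k, -, rfl⟩ | ⟨k, -, rfl⟩ <;> rcases ht' with ⟨j, -, rfl⟩ | ⟨j, -, rfl⟩
    · exact hff k j (fun h => hne (by rw [h])) a ha b hb ha' hb'
    · rw [hfg k j a ha ha', hfg k j b hb hb']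
    · rw [hfg j k a ha' ha, hfg j k b hb' hb]
    · exact hgg k j (fun h => hne (by rw [h])) a ha b hb ha' hb'
  · have hcov : ∀ a b : V, (cov (univ.image f ∪ univ.image g)).Adj a b ↔
        a ≠ b ∧ ((∃ k, a ∈ f k ∧ b ∈ f k) ∨ ∃ k, a ∈ g k ∧ b ∈ g k) := by
      intro a b
      rw [cov_adj]
      refine and_congr_right fun _ => ?_
      constructor
      · rintro ⟨t, ht, hat, hbt⟩
        rw [mem_union, mem_image, mem_image] at ht
        rcases ht with ⟨k, -, rfl⟩ | ⟨k, -, rfl⟩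
        · exact Or.inl ⟨k, hat, hbt⟩
        · exact Or.inr ⟨k, hat, hbt⟩
      · rintro (⟨k, hat, hbt⟩ | ⟨k, hat, hbt⟩)
        · exact ⟨f k, mem_union_left _ (mem_image_of_mem _ (mem_univ _)), hat, hbt⟩
        · exact ⟨g k, mem_union_right _ (mem_image_of_mem _ (mem_univ _)), hat, hbt⟩
    ext a b
    rw [hcov]
    simp only [SimpleGraph.sup_adj, wk, stg, SimpleGraph.fromRel_adj]
    have zz : ∀ k : ZMod m, k + 1 - 1 = k := fun k => by ring
    have zz' : ∀ k : ZMod m, k - 1 + 1 = k := fun k => by ring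
    constructor
    · rintro ⟨hab, ⟨k, ha, hb⟩ | ⟨k, ha, hb⟩⟩
      · rw [mf] at ha hb
        rcases ha with ha | ha | ha <;> rcases hb with hb | hb | hb
        · exact absurd (ha.trans hb.symm) hab
        · exact Or.inl (Or.inl (Or.inl ⟨hab, Or.inl ⟨k, ha, hb⟩⟩))
        · exact Or.inl (Or.inl (Or.inr ⟨hab, Or.inl ⟨k, ha, Or.inl hb⟩⟩))
        · exact Or.inl (Or.inl (Or.inl ⟨hab, Or.inr ⟨k, hb, ha⟩⟩))
        · exact absurd (ha.trans hb.symm) hab
        · exact Or.inl (Or.inl (Or.inr ⟨hab, Or.inl ⟨k + 1, ha, Or.inr (by rw [zz]; exact hb)⟩⟩))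
        · exact Or.inl (Or.inl (Or.inr ⟨hab, Or.inr ⟨k, hb, Or.inl ha⟩⟩))
        · exact Or.inl (Or.inl (Or.inr ⟨hab, Or.inr ⟨k + 1, hb, Or.inr (by rw [zz]; exact ha)⟩⟩))
        · exact absurd (ha.trans hb.symm) hab
      · rw [mg] at ha hb
        rcases ha with ha | ha | ha <;> rcases hb with hb | hb | hb
        · exact absurd (ha.trans hb.symm) hab
        · exact Or.inl (Or.inr ⟨hab, Or.inl ⟨k, ha, Or.inr hb⟩⟩)
        · exact Or.inl (Or.inr ⟨hab, Or.inl ⟨k, ha, Or.inl hb⟩⟩)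
        · exact Or.inl (Or.inr ⟨hab, Or.inr ⟨k, hb, Or.inr ha⟩⟩)
        · exact absurd (ha.trans hb.symm) hab
        · exact Or.inr ⟨hab, Or.inl ⟨k - 1, ha, by rw [zz']; exact hb⟩⟩
        · exact Or.inl (Or.inr ⟨hab, Or.inr ⟨k, hb, Or.inl ha⟩⟩)
        · exact Or.inr ⟨hab, Or.inr ⟨k - 1, hb, by rw [zz']; exact ha⟩⟩
        · exact absurd (ha.trans hb.symm) hab
    · rintro (((⟨hab, ⟨k, ha, hb⟩ | ⟨k, ha, hb⟩⟩ | ⟨hab, ⟨k, ha, hb | hb⟩ | ⟨k, ha, hb | hb⟩⟩) |
        ⟨hab, ⟨k, ha, hb | hb⟩ | ⟨k, ha, hb | hb⟩⟩) | ⟨hab, ⟨k, ha, hb⟩ | ⟨k, ha, hb⟩⟩) <;>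
        refine ⟨hab, ?_⟩
      · exact Or.inl ⟨k, (mf _ _).2 (Or.inl ha), (mf _ _).2 (Or.inr (Or.inl hb))⟩
      · exact Or.inl ⟨k, (mf _ _).2 (Or.inr (Or.inl hb)), (mf _ _).2 (Or.inl ha)⟩
      · exact Or.inl ⟨k, (mf _ _).2 (Or.inl ha), (mf _ _).2 (Or.inr (Or.inr hb))⟩
      · exact Or.inl ⟨k - 1, (mf _ _).2 (Or.inr (Or.inl (by rw [zz']; exact ha))),
          (mf _ _).2 (Or.inr (Or.inr hb))⟩
      · exact Or.inl ⟨k, (mf _ _).2 (Or.inr (Or.inr hb)), (mf _ _).2 (Or.inl ha)⟩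
      · exact Or.inl ⟨k - 1, (mf _ _).2 (Or.inr (Or.inr hb)),
          (mf _ _).2 (Or.inr (Or.inl (by rw [zz']; exact ha)))⟩
      · exact Or.inr ⟨k, (mg _ _).2 (Or.inl ha), (mg _ _).2 (Or.inr (Or.inr hb))⟩
      · exact Or.inr ⟨k, (mg _ _).2 (Or.inl ha), (mg _ _).2 (Or.inr (Or.inl hb))⟩
      · exact Or.inr ⟨k, (mg _ _).2 (Or.inr (Or.inr hb)), (mg _ _).2 (Or.inl ha)⟩
      · exact Or.inr ⟨k, (mg _ _).2 (Or.inr (Or.inl hb)), (mg _ _).2 (Or.inl ha)⟩
      · exact Or.inr ⟨k + 1, (mg _ _).2 (Or.inr (Or.inl (by rw [zz]; exact ha))),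
          (mg _ _).2 (Or.inr (Or.inr hb))⟩
      · exact Or.inr ⟨k + 1, (mg _ _).2 (Or.inr (Or.inr hb)),
          (mg _ _).2 (Or.inr (Or.inl (by rw [zz]; exact ha)))⟩

end DH
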