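import Pool.Agent.Lib.MP_fe8cb7_co.h25.StA

/-! Piece A2: the windmill. (helper74) -/

open Finset

namespace DH

private theorem A2_cases {V : Type} (l : ℕ) (hl : 1 ≤ l) (a : V) (b c : ℕ → V)
    (k : ZMod (3 * l)) : ∃ j < l,
    (k.val = 3 * j ∧ mill l a b c k = a ∧ mill l a b c (k + 1) = b j) ∨
    (k.val = 3 * j + 1 ∧ mill l a b c k = b j ∧ mill l a b c (k + 1) = c j) ∨
    (k.val = 3 * j + 2 ∧ mill l a b c k = c j ∧ mill l a b c (k + 1) = a) := by
  have : NeZero (3 * l) := ⟨by omega⟩
  have hk : k.val < 3 * l := ZMod.val_lt k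
  have hk1 : k + 1 = ((k.val + 1 : ℕ) : ZMod (3 * l)) := by
    push_cast
    rw [ZMod.natCast_zmod_val]
  have hval : k.val + 1 < 3 * l → (k + 1).val = k.val + 1 := by
    intro h
    rw [hk1, ZMod.val_natCast_of_lt h]
  have hval0 : k.val + 1 = 3 * l → (k + 1).val = 0 := by
    intro h
    rw [hk1, h, ZMod.natCast_self, ZMod.val_zero]
  refine ⟨k.val / 3, by omega, ?_⟩
  have h3 : k.val % 3 = 0 ∨ k.val % 3 = 1 ∨ k.val % 3 = 2 := by omega
  rcases h3 with h | h | h
  · left
    refine ⟨by omega, ?_, ?_⟩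
    · unfold mill
      rw [if_pos h]
    · have h1 := hval (by omega)
      unfold mill
      rw [h1, if_neg (by omega), if_pos (by omega)]
      congr 1
      omega
  · right; left
    refine ⟨by omega, ?_, ?_⟩
    · unfold mill
      rw [if_neg (by omega), if_pos h]
    · have h1 := hval (by omega)
      unfold mill
      rw [h1, if_neg (by omega), if_neg (by omega)]
      congr 1
      omega
  · right; right
    refine ⟨by omega, ?_, ?_⟩
    · unfold mill
      rw [if_neg (by omega), if_neg (by omega)]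
    · unfold mill
      by_cases h2 : k.val + 1 < 3 * l
      · rw [hval h2, if_pos (by omega)]
      · rw [hval0 (by omega), if_pos (by omega)]

private theorem A2_at {V : Type} (l : ℕ) (a : V) (b c : ℕ → V) (j : ℕ) (hj : j < l) :
    (∃ k : ZMod (3 * l), mill l a b c k = a ∧ mill l a b c (k + 1) = b j) ∧
    (∃ k : ZMod (3 * l), mill l a b c k = b j ∧ mill l a b c (k + 1) = c j) ∧
    (∃ k : ZMod (3 * l), mill l a b c k = c j ∧ mill l a b c (k + 1) = a) := by
  have hl : 1 ≤ l := by omega
  have : NeZero (3 * l) := ⟨by omega⟩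
  have hv : ∀ n < 3 * l, (((n : ℕ) : ZMod (3 * l))).val = n := fun n hn =>
    ZMod.val_natCast_of_lt hn
  refine ⟨⟨((3 * j : ℕ) : ZMod (3 * l)), ?_⟩, ⟨((3 * j + 1 : ℕ) : ZMod (3 * l)), ?_⟩,
    ⟨((3 * j + 2 : ℕ) : ZMod (3 * l)), ?_⟩⟩
  · have h1 := hv (3 * j) (by omega)
    obtain ⟨i, _, h | h | h⟩ := A2_cases l hl a b c ((3 * j : ℕ) : ZMod (3 * l))
    · have : i = j := by omega
      subst this
      exact h.2
    · omega
    · omega
  · have h1 := hv (3 * j + 1) (by omega)
    obtain ⟨i, _, h | h | h⟩ := A2_cases l hl a b c ((3 * j + 1 : ℕ) : ZMod (3 * l))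
    · omega
    · have : i = j := by omega
      subst this
      exact h.2
    · omega
  · have h1 := hv (3 * j + 2) (by omega)
    obtain ⟨i, _, h | h | h⟩ := A2_cases l hl a b c ((3 * j + 2 : ℕ) : ZMod (3 * l))
    · omega
    · omega
    · have : i = j := by omega
      subst this
      exact h.2

theorem p_A2 : S_A2 := by
  intro V _ l a b c hl ha hbc hinj
  have hNZ : NeZero (3 * l) := ⟨by omega⟩
  refine ⟨⟨(Finset.range l).image (fun j => {a, b j, c j}), ⟨?_, ?_⟩, ?_⟩, ?_, ?_⟩
  · intro t ht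
    rw [mem_image] at ht
    obtain ⟨j, hj, rfl⟩ := ht
    rw [mem_range] at hj
    rw [SimpleGraph.isNClique_iff]
    refine ⟨fun u _ v _ h => h, ?_⟩
    rw [card_eq_three]
    exact ⟨a, b j, c j, (ha j hj).1.symm, (ha j hj).2.symm, hbc j hj j hj, rfl⟩
  · intro t ht t' ht' hne u hu v hv hu' hv'
    rw [mem_image] at ht ht'
    obtain ⟨j, hj, rfl⟩ := ht
    obtain ⟨i, hi, rfl⟩ := ht'
    rw [mem_range] at hj hi
    have hji : j ≠ i := by
      rintro rfl
      exact hne rfl
    have key : ∀ x : V, x ∈ ({a, b j, c j} : Finset V) → x ∈ ({a, b i, c i} : Finset V) →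
        x = a := by
      intro x hx hx'
      simp only [mem_insert, mem_singleton] at hx hx'
      rcases hx with h | h | h
      · exact h
      · rcases hx' with h' | h' | h'
        · exact h'
        · exact absurd (h.symm.trans h') (hinj j hj i hi hji).1
        · exact absurd (h.symm.trans h') (hbc j hj i hi)
      · rcases hx' with h' | h' | h'
        · exact h'
        · exact absurd (h'.symm.trans h) (hbc i hi j hj)
        · exact absurd (h.symm.trans h') (hinj j hj i hi hji).2
    rw [key u hu hu', key v hv hv']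
  · ext u v
    rw [cov_adj, wk, SimpleGraph.fromRel_adj]
    constructor
    · rintro ⟨huv, t, ht, hu, hv⟩
      refine ⟨huv, ?_⟩
      rw [mem_image] at ht
      obtain ⟨j, hj, rfl⟩ := ht
      rw [mem_range] at hj
      obtain ⟨⟨k0, p0, q0⟩, ⟨k1, p1, q1⟩, ⟨k2, p2, q2⟩⟩ := A2_at l a b c j hj
      simp only [mem_insert, mem_singleton] at hu hv
      rcases hu with rfl | rfl | rfl <;> rcases hv with rfl | rfl | rfl
      · exact absurd rfl huv
      · exact Or.inl ⟨k0, p0.symm, q0.symm⟩
      · exact Or.inr ⟨k2, p2.symm, q2.symm⟩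
      · exact Or.inr ⟨k0, p0.symm, q0.symm⟩
      · exact absurd rfl huv
      · exact Or.inl ⟨k1, p1.symm, q1.symm⟩
      · exact Or.inl ⟨k2, p2.symm, q2.symm⟩
      · exact Or.inr ⟨k1, p1.symm, q1.symm⟩
      · exact absurd rfl huv
    · rintro ⟨huv, h⟩
      refine ⟨huv, ?_⟩
      have key : ∀ x y : V, (∃ k : ZMod (3 * l), x = mill l a b c k ∧ y = mill l a b c (k + 1)) →
          ∃ t ∈ (Finset.range l).image (fun j => ({a, b j, c j} : Finset V)), x ∈ t ∧ y ∈ t := by
        rintro x y ⟨k, rfl, rfl⟩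
        obtain ⟨j, hj, h | h | h⟩ := A2_cases l hl a b c k
        · refine ⟨_, mem_image.mpr ⟨j, mem_range.mpr hj, rfl⟩, ?_, ?_⟩
          · rw [h.2.1]; simp
          · rw [h.2.2]; simp
        · refine ⟨_, mem_image.mpr ⟨j, mem_range.mpr hj, rfl⟩, ?_, ?_⟩
          · rw [h.2.1]; simp
          · rw [h.2.2]; simp
        · refine ⟨_, mem_image.mpr ⟨j, mem_range.mpr hj, rfl⟩, ?_, ?_⟩
          · rw [h.2.1]; simp
          · rw [h.2.2]; simp
      rcases h with h | h
      · exact key u v h
      · obtain ⟨t, h1, h2, h3⟩ := key v u h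
        exact ⟨t, h1, h3, h2⟩
  · intro k
    obtain ⟨j, hj, h | h | h⟩ := A2_cases l hl a b c k
    · rw [h.2.1, h.2.2]; exact (ha j hj).1.symm
    · rw [h.2.1, h.2.2]; exact hbc j hj j hj
    · rw [h.2.1, h.2.2]; exact (ha j hj).2
  · intro k k' hkk heq
    have hval : k.val ≠ k'.val := fun h => hkk (ZMod.val_injective _ h)
    obtain ⟨p, hp, hk⟩ := A2_cases l hl a b c k
    obtain ⟨q, hq, hk'⟩ := A2_cases l hl a b c k'
    have hb : b p = b q → p = q := fun h => by
      by_contra hpq
      exact (hinj p hp q hq hpq).1 h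
    have hc : c p = c q → p = q := fun h => by
      by_contra hpq
      exact (hinj p hp q hq hpq).2 h
    have n1 := (ha p hp).1
    have n2 := (ha p hp).2
    have n3 := (ha q hq).1
    have n4 := (ha q hq).2
    have n5 := hbc p hp q hq
    have n6 := hbc q hq p hp
    rcases hk with hk | hk | hk <;> rcases hk' with hk' | hk' | hk' <;>
      rw [hk.2.1, hk.2.2, hk'.2.1, hk'.2.2, Sym2.eq_iff] at heq <;>
      rcases heq with ⟨h1, h2⟩ | ⟨h1, h2⟩
    · have := hb h2; omega
    · exact n3 h1.symm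
    · exact n3 h1.symm
    · exact n4 h1.symm
    · exact n4 h1.symm
    · exact n5 h2
    · exact n1 h1
    · exact n2 h2
    · have := hb h1; omega
    · exact n5 h1
    · exact n5 h1
    · exact n1 h1
    · exact n2 h1
    · exact n6 h1.symm
    · exact n6 h1.symm
    · exact n3 h2.symm
    · have := hc h1; omega
    · exact n2 h1

end DH
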