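import Pool.Agent.Lib.MP_fe8cb7_co.h25.StA

set_option autoImplicit false

/-! [A3] embedding the new vertices of the absorber of a cycle. (helper21) -/

open Finset

namespace DH

/-- the windmill read off from the greedy sequence -/
def A3_mv {V : Type} (l : ℕ) (f : ℕ → V) : ZMod (3 * l) → V :=
  mill l (f 0) (fun j => f (1 + 2 * j)) (fun j => f (2 + 2 * j))

/-- the neighbours required for the `n`-th new vertex -/
def A3_X {V : Type} [DecidableEq V] (l : ℕ) (v : ZMod (3 * l) → V) (n : ℕ) (f : ℕ → V) : Finset V :=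
  if n = 0 then ∅ else if n < 2 * l + 1 then (if n % 2 = 1 then {f 0} else {f 0, f (n - 1)}) else
    ({v ((n - (2 * l + 1) : ℕ) : ZMod (3 * l)), v (((n - (2 * l + 1) : ℕ) : ZMod (3 * l)) + 1),
      A3_mv l f ((n - (2 * l + 1) : ℕ) : ZMod (3 * l)),
      A3_mv l f (((n - (2 * l + 1) : ℕ) : ZMod (3 * l)) + 1)} ∪
      (if 1 ≤ n - (2 * l + 1) then {f (n - 1)} else ∅)) ∪ (if n = 5 * l then {f (2 * l + 1)} else ∅)

/-- the part of the `n`-th new vertex -/
def A3_p (l : ℕ) (p0 : ZMod 3) (n : ℕ) : ZMod 3 :=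
  if n = 0 then p0 else if n < 2 * l + 1 then (if n % 2 = 1 then p0 + 1 else p0 + 2) else
    p0 + ((n - (2 * l + 1) : ℕ) : ZMod 3) - 1

lemma A3_three : (3 : ZMod 3) = 0 := by decide

lemma A3_mv_congr {V : Type} (l : ℕ) (hl : 1 ≤ l) (f g : ℕ → V) (h : ∀ j < 2 * l + 1, f j = g j)
    (k : ZMod (3 * l)) : A3_mv l f k = A3_mv l g k := by
  haveI : NeZero (3 * l) := ⟨by omega⟩
  have hk : k.val < 3 * l := ZMod.val_lt k
  have hk3 : k.val / 3 < l := by omega
  unfold A3_mv mill
  split_ifs
  · exact h 0 (by omega)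
  · exact h _ (by omega)
  · exact h _ (by omega)

lemma A3_mv_part {V : Type} (π : V → ZMod 3) (l : ℕ) (hl : 1 ≤ l) (p0 : ZMod 3) (f : ℕ → V)
    (h : ∀ j < 2 * l + 1, π (f j) = A3_p l p0 j) (k : ZMod (3 * l)) :
    π (A3_mv l f k) = p0 + (k.val : ZMod 3) := by
  haveI : NeZero (3 * l) := ⟨by omega⟩
  have hk : k.val < 3 * l := ZMod.val_lt k
  have hk3 : k.val / 3 < l := by omega
  have e : k.val = 3 * (k.val / 3) + k.val % 3 := (Nat.div_add_mod _ _).symm
  have ec : (k.val : ZMod 3) = ((k.val % 3 : ℕ) : ZMod 3) := by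
    conv_lhs => rw [e]
    push_cast
    rw [A3_three, zero_mul, zero_add]
  rw [ec]
  unfold A3_mv mill
  split_ifs with h0 h1
  · rw [h 0 (by omega), h0]
    simp [A3_p]
  · rw [h _ (by omega), h1]
    unfold A3_p
    rw [if_neg (by omega), if_pos (by omega), if_pos (by omega)]
    simp
  · have h2 : k.val % 3 = 2 := by omega
    rw [h _ (by omega), h2]
    unfold A3_p
    rw [if_neg (by omega), if_pos (by omega), if_neg (by omega)]
    simp

lemma A3_mv_index {V : Type} (l : ℕ) (hl : 1 ≤ l) (f : ℕ → V) (k : ZMod (3 * l)) :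
    ∃ j < 2 * l + 1, A3_mv l f k = f j := by
  haveI : NeZero (3 * l) := ⟨by omega⟩
  have hk : k.val < 3 * l := ZMod.val_lt k
  have hk3 : k.val / 3 < l := by omega
  unfold A3_mv mill
  split_ifs
  · exact ⟨0, by omega, rfl⟩
  · exact ⟨_, by omega, rfl⟩
  · exact ⟨_, by omega, rfl⟩

lemma A3_X_congr {V : Type} [DecidableEq V] (l : ℕ) (hl : 1 ≤ l) (v : ZMod (3 * l) → V) (n : ℕ)
    (f g : ℕ → V) (h : ∀ j < n, f j = g j) : A3_X l v n f = A3_X l v n g := by
  unfold A3_X
  by_cases h0 : n = 0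
  · rw [if_pos h0, if_pos h0]
  · rw [if_neg h0, if_neg h0]
    by_cases h1 : n < 2 * l + 1
    · rw [if_pos h1, if_pos h1, h 0 (by omega), h (n - 1) (by omega)]
    · rw [if_neg h1, if_neg h1, A3_mv_congr l hl f g (fun j hj => h j (by omega)),
        A3_mv_congr l hl f g (fun j hj => h j (by omega)), h (n - 1) (by omega)]
      by_cases h2 : n = 5 * l
      · rw [if_pos h2, if_pos h2, h (2 * l + 1) (by omega)]
      · rw [if_neg h2, if_neg h2]

lemma A3_v_part {V : Type} (π : V → ZMod 3) (l : ℕ) (v : ZMod (3 * l) → V)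
    (hv : ∀ k, π (v (k + 1)) = π (v k) + 1) (n : ℕ) :
    π (v (n : ZMod (3 * l))) = π (v 0) + (n : ZMod 3) := by
  induction n with
  | zero => simp
  | succ n ih => rw [Nat.cast_succ, hv, ih]; push_cast; ring

lemma A3_val_add_one (l : ℕ) (hl : 1 ≤ l) (k : ZMod (3 * l)) :
    (k + 1).val = (k.val + 1) % (3 * l) := by
  haveI : NeZero (3 * l) := ⟨by omega⟩
  haveI : Fact (1 < 3 * l) := ⟨by omega⟩
  rw [ZMod.val_add, ZMod.val_one]

lemma A3_val_cast (l : ℕ) (n : ℕ) (hn : n < 3 * l) : ((n : ZMod (3 * l))).val = n :=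
  ZMod.val_cast_of_lt hn

lemma A3_val_add_one_cast (l : ℕ) (hl : 1 ≤ l) (k : ZMod (3 * l)) :
    (((k + 1).val : ℕ) : ZMod 3) = (k.val : ZMod 3) + 1 := by
  haveI : NeZero (3 * l) := ⟨by omega⟩
  have hk : k.val < 3 * l := ZMod.val_lt k
  rw [A3_val_add_one l hl]
  by_cases h : k.val + 1 < 3 * l
  · rw [Nat.mod_eq_of_lt h]; push_cast; rfl
  · have h' : k.val + 1 = 3 * l := by omega
    rw [h', Nat.mod_self]
    have : ((k.val + 1 : ℕ) : ZMod 3) = ((3 * l : ℕ) : ZMod 3) := by rw [h']
    push_cast at this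
    rw [this, A3_three]; simp

lemma A3_X_card {V : Type} [DecidableEq V] (l : ℕ) (v : ZMod (3 * l) → V) (n : ℕ) (f : ℕ → V) :
    (A3_X l v n f).card ≤ 6 := by
  unfold A3_X
  by_cases h0 : n = 0
  · rw [if_pos h0]; simp
  · rw [if_neg h0]
    by_cases h1 : n < 2 * l + 1
    · rw [if_pos h1]
      split_ifs
      · simp
      · exact (Finset.card_le_two).trans (by norm_num)
    · rw [if_neg h1]
      refine (Finset.card_union_le _ _).trans ?_
      have e1 : (if n = 5 * l then ({f (2 * l + 1)} : Finset V) else ∅).card ≤ 1 := by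
        split_ifs <;> simp
      have e2 : (if 1 ≤ n - (2 * l + 1) then ({f (n - 1)} : Finset V) else ∅).card ≤ 1 := by
        split_ifs <;> simp
      have e3 := Finset.card_union_le ({v ((n - (2 * l + 1) : ℕ) : ZMod (3 * l)),
        v (((n - (2 * l + 1) : ℕ) : ZMod (3 * l)) + 1),
        A3_mv l f ((n - (2 * l + 1) : ℕ) : ZMod (3 * l)),
        A3_mv l f (((n - (2 * l + 1) : ℕ) : ZMod (3 * l)) + 1)} : Finset V)
        (if 1 ≤ n - (2 * l + 1) then {f (n - 1)} else ∅)
      have e4 := Finset.card_le_four (a := v ((n - (2 * l + 1) : ℕ) : ZMod (3 * l)))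
        (b := v (((n - (2 * l + 1) : ℕ) : ZMod (3 * l)) + 1))
        (c := A3_mv l f ((n - (2 * l + 1) : ℕ) : ZMod (3 * l)))
        (d := A3_mv l f (((n - (2 * l + 1) : ℕ) : ZMod (3 * l)) + 1))
      omega

lemma A3_ne1 (p : ZMod 3) : p ≠ p + 1 := by revert p; decide
lemma A3_ne2 (p : ZMod 3) : p ≠ p + 2 := by revert p; decide
lemma A3_ne3 (p : ZMod 3) : p + 1 ≠ p + 2 := by revert p; decide
lemma A3_ne4 (p : ZMod 3) : p ≠ p - 1 := by revert p; decide
lemma A3_ne5 (p : ZMod 3) : p + 1 ≠ p - 1 := by revert p; decide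

lemma A3_X_part {V : Type} [DecidableEq V] (π : V → ZMod 3) (l : ℕ) (hl : 1 ≤ l)
    (v : ZMod (3 * l) → V) (hv : ∀ k, π (v (k + 1)) = π (v k) + 1) (n : ℕ) (hn : n < 5 * l + 1)
    (f : ℕ → V) (hf : ∀ j < n, π (f j) = A3_p l (π (v 0)) j) :
    ∀ x ∈ A3_X l v n f, π x ≠ A3_p l (π (v 0)) n := by
  haveI : NeZero (3 * l) := ⟨by omega⟩
  intro x hx
  set p0 := π (v 0) with hp0
  unfold A3_X at hx
  by_cases h0 : n = 0
  · rw [if_pos h0] at hx; simp at hx
  · rw [if_neg h0] at hx
    have hf0 : π (f 0) = p0 := by rw [hf 0 (by omega)]; simp [A3_p]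
    by_cases h1 : n < 2 * l + 1
    · rw [if_pos h1] at hx
      by_cases h2 : n % 2 = 1
      · rw [if_pos h2, Finset.mem_singleton] at hx
        rw [hx, hf0, A3_p, if_neg h0, if_pos h1, if_pos h2]
        exact A3_ne1 _
      · rw [if_neg h2, Finset.mem_insert, Finset.mem_singleton] at hx
        rw [A3_p, if_neg h0, if_pos h1, if_neg h2]
        rcases hx with hx | hx
        · rw [hx, hf0]; exact A3_ne2 _
        · rw [hx, hf (n - 1) (by omega), A3_p, if_neg (by omega), if_pos (by omega), if_pos (by omega)]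
          exact A3_ne3 _
    · rw [if_neg h1] at hx
      rw [A3_p, if_neg h0, if_neg h1]
      set k : ℕ := n - (2 * l + 1) with hk
      have hkl : k < 3 * l := by omega
      have hkv : ((k : ZMod (3 * l))).val = k := A3_val_cast l k hkl
      have hmv : ∀ k : ZMod (3 * l), π (A3_mv l f k) = p0 + (k.val : ZMod 3) :=
        A3_mv_part π l hl p0 f (fun j hj => hf j (by omega))
      simp only [Finset.mem_union, Finset.mem_insert, Finset.mem_singleton] at hx
      rcases hx with (hx | hx) | hx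
      · rcases hx with hx | hx | hx | hx
        · rw [hx, A3_v_part π l v hv]; exact A3_ne4 _
        · rw [hx, hv, A3_v_part π l v hv]; exact A3_ne5 _
        · rw [hx, hmv, hkv]; exact A3_ne4 _
        · rw [hx, hmv, A3_val_add_one_cast l hl, hkv, ← add_assoc]; exact A3_ne5 _
      · by_cases h3 : 1 ≤ k
        · rw [if_pos h3, Finset.mem_singleton] at hx
          have hc : ((n - 1 - (2 * l + 1) : ℕ) : ZMod 3) = (k : ZMod 3) - 1 := by
            have : k = (n - 1 - (2 * l + 1)) + 1 := by omega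
            rw [this]; push_cast; ring
          rw [hx, hf (n - 1) (by omega), A3_p, if_neg (by omega), if_neg (by omega), hc]
          have := A3_ne4 (p0 + (k : ZMod 3) - 1)
          intro h4
          rw [show p0 + ((k : ZMod 3) - 1) - 1 = p0 + (k : ZMod 3) - 1 - 1 by ring] at h4
          exact this h4.symm
        · rw [if_neg h3] at hx; simp at hx
      · by_cases h3 : n = 5 * l
        · rw [if_pos h3, Finset.mem_singleton] at hx
          have hc : (k : ZMod 3) = -1 := by
            have : k + 1 = 3 * l := by omega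
            have h5 : ((k + 1 : ℕ) : ZMod 3) = ((3 * l : ℕ) : ZMod 3) := by rw [this]
            push_cast at h5
            rw [A3_three, zero_mul] at h5
            exact eq_neg_of_add_eq_zero_left h5
          rw [hx, hf (2 * l + 1) (by omega), A3_p, if_neg (by omega), if_neg (by omega), hc]
          rw [Nat.sub_self, Nat.cast_zero, add_zero]
          have := A3_ne4 (p0 - 1)
          rw [← sub_eq_add_neg]
          exact this
        · rw [if_neg h3] at hx; simp at hx

theorem p_A3 : S_A3 := by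
  intro hA0 V _ _ π G U1 Fb l M v hl hvU hv hSix hM
  haveI : NeZero (3 * l) := ⟨by omega⟩
  haveI : Nonempty V := ⟨v 0⟩
  set p0 := π (v 0) with hp0
  let P : ℕ → (ℕ → V) → V → Prop := fun n f x =>
    π x = A3_p l p0 n ∧ x ∉ U1 ∧ x ∉ Fb ∧ (∀ j < n, f j ≠ x) ∧ ∀ y ∈ A3_X l v n f, G.Adj y x
  obtain ⟨f, hf⟩ := hA0 V (5 * l + 1) P inferInstance
    (by
      intro k f g x h
      have e : A3_X l v k f = A3_X l v k g := A3_X_congr l hl v k f g h
      have e2 : (∀ j < k, f j ≠ x) ↔ (∀ j < k, g j ≠ x) := by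
        constructor
        · intro h1 j hj; rw [← h j hj]; exact h1 j hj
        · intro h1 j hj; rw [h j hj]; exact h1 j hj
      show (π x = A3_p l p0 k ∧ x ∉ U1 ∧ x ∉ Fb ∧ (∀ j < k, f j ≠ x) ∧
        ∀ y ∈ A3_X l v k f, G.Adj y x) ↔ (π x = A3_p l p0 k ∧ x ∉ U1 ∧ x ∉ Fb ∧ (∀ j < k, g j ≠ x) ∧
        ∀ y ∈ A3_X l v k g, G.Adj y x)
      rw [e, e2])
    (by
      intro n hn f hfn
      have hpart : ∀ x ∈ A3_X l v n f, π x ≠ A3_p l p0 n :=
        A3_X_part π l hl v hv n hn f (fun j hj => (hfn j hj).1)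
      obtain ⟨Y, hY, hYp⟩ := hSix (A3_X l v n f) (A3_p l p0 n) (A3_X_card l v n f) hpart
      have hc : (Fb ∪ (Finset.range n).image f).card < Y.card := by
        have h1 := Finset.card_union_le Fb ((Finset.range n).image f)
        have h2 : ((Finset.range n).image f).card ≤ n := by
          simpa using Finset.card_image_le (s := Finset.range n) (f := f)
        omega
      obtain ⟨x, hxY, hx⟩ := Finset.exists_mem_notMem_of_card_lt_card hc
      obtain ⟨hx1, hx2, hx3⟩ := hYp x hxY
      refine ⟨x, hx1, hx2, fun h => hx (Finset.mem_union_left _ h), ?_, hx3⟩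
      intro j hj hjx
      apply hx
      apply Finset.mem_union_right
      rw [Finset.mem_image]
      exact ⟨j, Finset.mem_range.2 hj, hjx⟩)
  have hP1 : ∀ n < 5 * l + 1, f n ∉ U1 ∧ f n ∉ Fb := fun n hn => ⟨(hf n hn).2.1, (hf n hn).2.2.1⟩
  have hinj : ∀ i < 5 * l + 1, ∀ j < 5 * l + 1, i ≠ j → f i ≠ f j := by
    intro i hi j hj hij
    rcases lt_or_gt_of_ne hij with h | h
    · exact (hf j hj).2.2.2.1 i h
    · exact fun e => (hf i hi).2.2.2.1 j h e.symm
  have hadj : ∀ n < 5 * l + 1, ∀ y ∈ A3_X l v n f, G.Adj y (f n) := fun n hn => (hf n hn).2.2.2.2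
  have hkv : ∀ k : ZMod (3 * l), k.val < 3 * l := fun k => ZMod.val_lt k
  have hcast : ∀ k : ZMod (3 * l), ((k.val : ℕ) : ZMod (3 * l)) = k := fun k =>
    ZMod.natCast_zmod_val k
  have hmv : ∀ k : ZMod (3 * l), mill l (f 0) (fun j => f (1 + 2 * j)) (fun j => f (2 + 2 * j)) k =
    A3_mv l f k := fun k => rfl
  -- the members of the set for `z k`
  have hz : ∀ k : ZMod (3 * l), ∀ y, (y = v k ∨ y = v (k + 1) ∨ y = A3_mv l f k ∨
      y = A3_mv l f (k + 1) ∨ (1 ≤ k.val ∧ y = f (2 * l + 1 + k.val - 1)) ∨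
      (k.val + 1 = 3 * l ∧ y = f (2 * l + 1))) → G.Adj y (f (2 * l + 1 + k.val)) := by
    intro k y hy
    have hk := hkv k
    apply hadj _ (by omega)
    unfold A3_X
    rw [if_neg (by omega), if_neg (by omega)]
    have e : 2 * l + 1 + k.val - (2 * l + 1) = k.val := by omega
    rw [e, hcast k]
    simp only [Finset.mem_union, Finset.mem_insert, Finset.mem_singleton]
    rcases hy with h | h | h | h | ⟨h1, h⟩ | ⟨h1, h⟩
    · exact Or.inl (Or.inl (Or.inl h))
    · exact Or.inl (Or.inl (Or.inr (Or.inl h)))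
    · exact Or.inl (Or.inl (Or.inr (Or.inr (Or.inl h))))
    · exact Or.inl (Or.inl (Or.inr (Or.inr (Or.inr h))))
    · refine Or.inl (Or.inr ?_)
      rw [if_pos h1, Finset.mem_singleton]
      exact h
    · refine Or.inr ?_
      rw [if_pos (by omega), Finset.mem_singleton]
      exact h
  have hb : ∀ j < l, G.Adj (f 0) (f (1 + 2 * j)) := by
    intro j hj
    apply hadj _ (by omega)
    unfold A3_X
    rw [if_neg (by omega), if_pos (by omega), if_pos (by omega), Finset.mem_singleton]
  have hc : ∀ j < l, G.Adj (f 0) (f (2 + 2 * j)) ∧ G.Adj (f (1 + 2 * j)) (f (2 + 2 * j)) := by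
    intro j hj
    constructor
    · apply hadj _ (by omega)
      unfold A3_X
      rw [if_neg (by omega), if_pos (by omega), if_neg (by omega)]
      simp
    · apply hadj _ (by omega)
      unfold A3_X
      rw [if_neg (by omega), if_pos (by omega), if_neg (by omega)]
      have : 2 + 2 * j - 1 = 1 + 2 * j := by omega
      rw [this]; simp
  refine ⟨f 0, fun j => f (1 + 2 * j), fun j => f (2 + 2 * j), fun k => f (2 * l + 1 + k.val),
    (Finset.range (5 * l + 1)).image f, ?_, ?_, ?_, ?_, ?_, ?_, ?_, ?_, ?_, ?_, ?_, ?_, ?_, ?_, ?_⟩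
  · simpa using Finset.card_image_le (s := Finset.range (5 * l + 1)) (f := f)
  · rw [Finset.disjoint_left]
    intro x hx hx'
    rw [Finset.mem_image] at hx
    obtain ⟨n, hn, rfl⟩ := hx
    have := hP1 n (Finset.mem_range.1 hn)
    rcases Finset.mem_union.1 hx' with h | h
    · exact this.1 h
    · exact this.2 h
  · intro k
    rw [hmv]
    obtain ⟨j, hj, e⟩ := A3_mv_index l hl f k
    rw [e]
    exact Finset.mem_image_of_mem _ (Finset.mem_range.2 (by omega))
  · intro k
    have := hkv k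
    exact Finset.mem_image_of_mem _ (Finset.mem_range.2 (by omega))
  · intro i hi
    exact ⟨hinj _ (by omega) _ (by omega) (by omega), hinj _ (by omega) _ (by omega) (by omega)⟩
  · intro i hi j hj
    exact hinj _ (by omega) _ (by omega) (by omega)
  · intro i hi j hj hij
    exact ⟨hinj _ (by omega) _ (by omega) (by omega), hinj _ (by omega) _ (by omega) (by omega)⟩
  · intro k k' hkk
    have h1 := hkv k
    have h2 := hkv k'
    by_contra hne
    refine hinj (2 * l + 1 + k.val) (by omega) (2 * l + 1 + k'.val) (by omega) ?_ hkk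
    intro h
    apply hne
    apply ZMod.val_injective (3 * l)
    omega
  · intro k j
    rw [hmv]
    have h1 := hkv k
    obtain ⟨i, hi, e⟩ := A3_mv_index l hl f j
    rw [e]
    exact hinj _ (by omega) _ (by omega) (by omega)
  · intro k
    have h1 := hkv k
    have h2 := A3_val_add_one l hl k
    unfold mill
    by_cases hk0 : k.val % 3 = 0
    · have h3 : (k + 1).val = k.val + 1 := by
        rw [h2]; exact Nat.mod_eq_of_lt (by omega)
      have h4 : (k.val + 1) / 3 = k.val / 3 := by omega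
      rw [if_pos hk0, h3, if_neg (by omega), if_pos (by omega), h4]
      exact hb _ (by omega)
    · by_cases hk1 : k.val % 3 = 1
      · have h3 : (k + 1).val = k.val + 1 := by
          rw [h2]; exact Nat.mod_eq_of_lt (by omega)
        have h4 : (k.val + 1) / 3 = k.val / 3 := by omega
        rw [if_neg hk0, if_pos hk1, h3, if_neg (by omega), if_neg (by omega), h4]
        exact (hc _ (by omega)).2
      · have h3 : (k + 1).val % 3 = 0 := by
          rw [h2]
          by_cases h5 : k.val + 1 < 3 * l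
          · rw [Nat.mod_eq_of_lt h5]; omega
          · have h6 : k.val + 1 = 3 * l := by omega
            rw [h6, Nat.mod_self]
        rw [if_neg hk0, if_neg hk1, if_pos h3]
        exact (hc _ (by omega)).1.symm
  · intro k
    rw [hmv]
    exact hz k _ (Or.inr (Or.inr (Or.inl rfl)))
  · intro k
    rw [hmv]
    have := hz (k - 1) (A3_mv l f k) (Or.inr (Or.inr (Or.inr (Or.inl (by rw [sub_add_cancel])))))
    exact this
  · intro k
    exact hz k _ (Or.inl rfl)
  · intro k
    exact hz (k - 1) (v k) (Or.inr (Or.inl (by rw [sub_add_cancel])))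
  · intro k
    have h1 := hkv k
    have h2 := A3_val_add_one l hl k
    by_cases h5 : k.val + 1 < 3 * l
    · rw [Nat.mod_eq_of_lt h5] at h2
      refine hz (k + 1) _ (Or.inr (Or.inr (Or.inr (Or.inr (Or.inl ⟨by omega, ?_⟩)))))
      rw [h2]
      congr 1
    · have h6 : k.val + 1 = 3 * l := by omega
      rw [h6, Nat.mod_self] at h2
      show G.Adj (f (2 * l + 1 + k.val)) (f (2 * l + 1 + (k + 1).val))
      rw [h2, add_zero]
      exact (hz k _ (Or.inr (Or.inr (Or.inr (Or.inr (Or.inr ⟨h6, rfl⟩)))))).symm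

end DH
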