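import Pool.Agent.Lib.MP_fe8cb7_co.h25.StA

/-!
# Daykin-Haggkvist problem: [A4], absorber of one cycle
-/

open Finset

namespace DH

private theorem A4_wk {V : Type} {m : ℕ} {v : ZMod m → V} {P : V → V → Prop}
    (hs : ∀ x y, P x y → P y x) (h : ∀ k, P (v k) (v (k + 1))) {x y : V} (hxy : (wk v).Adj x y) :
    P x y := by
  rw [wk, SimpleGraph.fromRel_adj] at hxy
  rcases hxy with ⟨_, ⟨k, rfl, rfl⟩ | ⟨k, rfl, rfl⟩⟩
  · exact h k
  · exact hs _ _ (h k)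

private theorem A4_stg {V : Type} {m : ℕ} {v z : ZMod m → V} {P : V → V → Prop}
    (hs : ∀ x y, P x y → P y x) (h1 : ∀ k, P (v k) (z k)) (h2 : ∀ k, P (v k) (z (k - 1)))
    {x y : V} (hxy : (stg v z).Adj x y) : P x y := by
  rw [stg, SimpleGraph.fromRel_adj] at hxy
  rcases hxy with ⟨_, ⟨k, rfl, rfl | rfl⟩ | ⟨k, rfl, rfl | rfl⟩⟩
  · exact h1 k
  · exact h2 k
  · exact hs _ _ (h1 k)
  · exact hs _ _ (h2 k)

private theorem A4_z3 (a b : ZMod 3) (h1 : a = b + 1) (h2 : b = a + 1) : False := by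
  have key : ∀ a b : ZMod 3, ¬ (a = b + 1 ∧ b = a + 1) := by decide
  exact key a b ⟨h1, h2⟩

theorem p_A4 : S_A4 := by
  intro A0 A1 A2 A3 V _ _ π G U1 U2 Fb M W hW hin hU hSix hM
  obtain ⟨l, hl, v, hinj, hstep, rfl⟩ := hW
  have hne : ∀ k, v k ≠ v (k + 1) := by
    intro k h
    have h1 := hstep k
    rw [← h] at h1
    exact zmod3_ne1 _ h1.symm
  have hvU : ∀ k, v k ∈ U2 := by
    intro k
    refine (hin (v k) (v (k + 1)) ?_).1
    rw [wk, SimpleGraph.fromRel_adj]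
    exact ⟨hne k, Or.inl ⟨k, rfl, rfl⟩⟩
  haveI : NeZero (3 * l) := ⟨by omega⟩
  have hcard : 3 * l ≤ U2.card := by
    have h1 : ((univ : Finset (ZMod (3 * l))).image v).card = 3 * l := by
      rw [card_image_of_injective _ hinj, card_univ, ZMod.card]
    rw [← h1]
    apply card_le_card
    intro x hx
    obtain ⟨k, _, rfl⟩ := mem_image.1 hx
    exact hvU k
  obtain ⟨a, b, c, z, New, hN1, hN2, hmN, hzN, hba, hbc, hbb, hzinj, hzm, e1, e2, e3, e4, e5, e6⟩ :=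
    A3 A0 V π G U1 Fb l M v hl (fun k => hU (hvU k)) hstep hSix (by omega)
  obtain ⟨hT2, hmne, hmedge⟩ := A2 V l a b c hl hba hbc hbb
  set v' := mill l a b c with hv'
  have hNU : ∀ x ∈ New, ∀ y ∈ U1, x ≠ y := by
    intro x hx y hy hxy
    rw [disjoint_left] at hN2
    exact hN2 hx (mem_union_left _ (hxy ▸ hy))
  have hzv : ∀ k j, z k ≠ v j := fun k j => hNU _ (hzN k) _ (hU (hvU j))
  have hv'v : ∀ k j, v' k ≠ v j := fun k j => hNU _ (hmN k) _ (hU (hvU j))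
  obtain ⟨T1, hP1, hC1⟩ := A1 V (3 * l) v' v z (by omega) hv'v hzinj hzm hzv hmne hne hmedge
  obtain ⟨T2, hP2, hC2⟩ := A1 V (3 * l) v v' z (by omega) (fun k j => (hv'v j k).symm) hzinj hzv
    hzm hne hmne (by
      intro k j hkj h
      rcases Sym2.eq_iff.1 h with ⟨h1, _⟩ | ⟨h1, h2⟩
      · exact hkj (hinj h1)
      · have h3 : π (v k) = π (v j) + 1 := by rw [h1, hstep]
        have h4 : π (v j) = π (v k) + 1 := by rw [← h2, hstep]
        exact A4_z3 _ _ h3 h4)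
  obtain ⟨T3, hP3, hC3⟩ := hT2
  have hD1 : Dec (wk v' ⊔ stg v' z ⊔ stg v z ⊔ wk z) := by rw [← hC1]; exact hP1.dec
  have hD2 : Dec (wk v ⊔ stg v z ⊔ stg v' z ⊔ wk z) := by rw [← hC2]; exact hP2.dec
  have hD3 : Dec (wk v') := by rw [← hC3]; exact hP3.dec
  refine ⟨wk v' ⊔ stg v' z ⊔ stg v z ⊔ wk z, New, ⟨by omega, hN2, ?_, ?_, hD1, ?_⟩⟩
  · intro x y hxy
    have hs : ∀ x y, G.Adj x y → G.Adj y x := fun _ _ h => h.symm
    rcases hxy with ((h | h) | h) | h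
    · exact A4_wk hs e1 h
    · exact A4_stg hs e2 e3 h
    · exact A4_stg hs e4 e5 h
    · exact A4_wk hs e6 h
  · intro x y hxy
    have hs : ∀ x y, ((x ∈ New ∨ y ∈ New) ∧ x ∈ New ∪ U2 ∧ y ∈ New ∪ U2) →
        ((y ∈ New ∨ x ∈ New) ∧ y ∈ New ∪ U2 ∧ x ∈ New ∪ U2) := by
      intro x y h
      exact ⟨h.1.symm, h.2.2, h.2.1⟩
    have f1 : ∀ k, v' k ∈ New ∪ U2 := fun k => mem_union_left _ (hmN k)
    have f2 : ∀ k, z k ∈ New ∪ U2 := fun k => mem_union_left _ (hzN k)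
    have f3 : ∀ k, v k ∈ New ∪ U2 := fun k => mem_union_right _ (hvU k)
    rcases hxy with ((h | h) | h) | h
    · exact A4_wk (P := fun x y => (x ∈ New ∨ y ∈ New) ∧ x ∈ New ∪ U2 ∧ y ∈ New ∪ U2) hs
        (fun k => ⟨Or.inl (hmN k), f1 _, f1 _⟩) h
    · exact A4_stg (P := fun x y => (x ∈ New ∨ y ∈ New) ∧ x ∈ New ∪ U2 ∧ y ∈ New ∪ U2) hs
        (fun k => ⟨Or.inl (hmN k), f1 _, f2 _⟩) (fun k => ⟨Or.inl (hmN k), f1 _, f2 _⟩) h
    · exact A4_stg (P := fun x y => (x ∈ New ∨ y ∈ New) ∧ x ∈ New ∪ U2 ∧ y ∈ New ∪ U2) hs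
        (fun k => ⟨Or.inr (hzN k), f3 _, f2 _⟩) (fun k => ⟨Or.inr (hzN _), f3 _, f2 _⟩) h
    · exact A4_wk (P := fun x y => (x ∈ New ∨ y ∈ New) ∧ x ∈ New ∪ U2 ∧ y ∈ New ∪ U2) hs
        (fun k => ⟨Or.inl (hzN k), f2 _, f2 _⟩) h
  · have hdis : Disjoint (wk v ⊔ stg v z ⊔ stg v' z ⊔ wk z) (wk v') := by
      rw [SimpleGraph.disjoint_left]
      intro x y hxy hxy'
      have g1 : (∃ k, x = v' k) ∧ (∃ k, y = v' k) :=
        A4_wk (P := fun x y => (∃ k, x = v' k) ∧ (∃ k, y = v' k)) (fun _ _ h => h.symm)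
          (fun k => ⟨⟨k, rfl⟩, ⟨k + 1, rfl⟩⟩) hxy'
      have g2 : (∀ k, x ≠ v' k) ∨ (∀ k, y ≠ v' k) := by
        have hs : ∀ x y, ((∀ k, x ≠ v' k) ∨ (∀ k, y ≠ v' k)) → ((∀ k, y ≠ v' k) ∨ (∀ k, x ≠ v' k)) :=
          fun _ _ h => h.symm
        rcases hxy with ((h | h) | h) | h
        · exact A4_wk (P := fun x y => (∀ k, x ≠ v' k) ∨ (∀ k, y ≠ v' k)) hs
            (fun k => Or.inl (fun j => (hv'v j k).symm)) h
        · exact A4_stg (P := fun x y => (∀ k, x ≠ v' k) ∨ (∀ k, y ≠ v' k)) hs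
            (fun k => Or.inl (fun j => (hv'v j k).symm)) (fun k => Or.inl (fun j => (hv'v j k).symm)) h
        · exact A4_stg (P := fun x y => (∀ k, x ≠ v' k) ∨ (∀ k, y ≠ v' k)) hs
            (fun k => Or.inr (fun j => hzm k j)) (fun k => Or.inr (fun j => hzm _ j)) h
        · exact A4_wk (P := fun x y => (∀ k, x ≠ v' k) ∨ (∀ k, y ≠ v' k)) hs
            (fun k => Or.inl (fun j => hzm k j)) h
      obtain ⟨⟨k, hk⟩, ⟨j, hj⟩⟩ := g1
      rcases g2 with h | h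
      · exact h k hk
      · exact h j hj
    have := hD2.sup hD3 hdis
    have e : wk v ⊔ stg v z ⊔ stg v' z ⊔ wk z ⊔ wk v' =
        wk v' ⊔ stg v' z ⊔ stg v z ⊔ wk z ⊔ wk v := by
      ext x y
      simp only [SimpleGraph.sup_adj]
      tauto
    rw [← e]
    exact this

end DH
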