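import Pool.Agent.Lib.MP_fe8cb7_co.h25.StA

/-!
# Daykin-Haggkvist problem: [A5], absorbers for a finite set of cycles
-/

open Finset

namespace DH

theorem p_A5 : S_A5 := by
  classical
  intro A0 A1 A2 A3 A4 V _ _ π G U1 U2 M 𝓢
  induction 𝓢 using Finset.induction_on with
  | empty =>
    intro _ _ _ _
    exact ⟨fun _ => ⊥, ∅, by simp, by simp, fun W h => absurd h (notMem_empty _),
      fun W h => absurd h (notMem_empty _)⟩
  | insert W 𝓢' hW ih =>
    intro hcyc hU hSix hM
    rw [card_insert_of_notMem hW] at hM
    obtain ⟨abs, New, hN1, hN2, h3, h4⟩ := ih (fun W' h => hcyc W' (mem_insert_of_mem h)) hU hSix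
      (lt_of_le_of_lt (Nat.mul_le_mul_right _ (by omega)) hM)
    obtain ⟨hc1, hc2⟩ := hcyc W (mem_insert_self _ _)
    have hM' : New.card + (5 * U2.card + 1) < M := by
      refine lt_of_le_of_lt ?_ hM
      have : (𝓢'.card + 1 + 1) * (5 * U2.card + 1) =
        𝓢'.card * (5 * U2.card + 1) + (5 * U2.card + 1) + (5 * U2.card + 1) := by ring
      omega
    obtain ⟨A, Nw, hA⟩ := A4 A0 A1 A2 A3 V π G U1 U2 New M W hc1 hc2 hU hSix hM'
    have hne : ∀ W' ∈ 𝓢', W' ≠ W := fun W' h h' => hW (h' ▸ h)
    have key : ∀ W' ∈ 𝓢', Disjoint A (abs W') := by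
      intro W' hW'
      rw [SimpleGraph.disjoint_left]
      intro x y h1 h2
      obtain ⟨g1, _, _⟩ := hA.ends x y h1
      obtain ⟨_, g2, g3⟩ := (h3 W' hW').2.2.2 x y h2
      have hd : ∀ u ∈ Nw, u ∉ New ∪ U2 := by
        intro u hu hu'
        have := disjoint_left.1 hA.disj hu
        apply this
        rw [mem_union] at hu' ⊢
        rcases hu' with h | h
        · exact Or.inr h
        · exact Or.inl (hU h)
      rcases g1 with g | g
      · exact hd x g g2
      · exact hd y g g3
    refine ⟨Function.update abs W A, New ∪ Nw, ?_, ?_, ?_, ?_⟩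
    · rw [card_insert_of_notMem hW]
      refine (card_union_le _ _).trans ?_
      have := hA.card
      have e : (𝓢'.card + 1) * (5 * U2.card + 1) =
        𝓢'.card * (5 * U2.card + 1) + (5 * U2.card + 1) := by ring
      omega
    · rw [disjoint_union_left]
      refine ⟨hN2, ?_⟩
      exact (disjoint_union_right.1 hA.disj).1
    · intro W' hW'
      rcases mem_insert.1 hW' with h | h
      · subst h
        rw [Function.update_self]
        refine ⟨hA.le, hA.dec, hA.decW, fun x y hxy => ?_⟩
        obtain ⟨g1, g2, g3⟩ := hA.ends x y hxy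
        simp only [mem_union] at g2 g3 ⊢
        tauto
      · rw [Function.update_of_ne (hne W' h)]
        obtain ⟨k1, k2, k3, k4⟩ := h3 W' h
        refine ⟨k1, k2, k3, fun x y hxy => ?_⟩
        obtain ⟨g1, g2, g3⟩ := k4 x y hxy
        simp only [mem_union] at g2 g3 ⊢
        tauto
    · intro W1 h1 W2 h2 h12
      rcases mem_insert.1 h1 with h | h <;> rcases mem_insert.1 h2 with h' | h'
      · exact absurd (h.trans h'.symm) h12
      · subst h
        rw [Function.update_self, Function.update_of_ne (hne W2 h')]
        exact key W2 h'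
      · subst h'
        rw [Function.update_self, Function.update_of_ne (hne W1 h)]
        exact (key W1 h).symm
      · rw [Function.update_of_ne (hne W1 h), Function.update_of_ne (hne W2 h')]
        exact h4 W1 h W2 h' h12

end DH
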