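import Pool.Agent.Lib.MP_fe8cb7_co.h25.StA

/-!
# Daykin-Haggkvist problem: piece A6 (a balanced graph is a union of directed cycles)
-/

open Finset

namespace DH

theorem A6_wk_adj {V : Type} {m : ℕ} {v : ZMod m → V} {a b : V} (h : (wk v).Adj a b) :
    ∃ k, (a = v k ∧ b = v (k + 1)) ∨ (b = v k ∧ a = v (k + 1)) := by
  rw [wk, SimpleGraph.fromRel_adj] at h
  obtain ⟨_, ⟨k, h1, h2⟩ | ⟨k, h1, h2⟩⟩ := h
  · exact ⟨k, Or.inl ⟨h1, h2⟩⟩
  · exact ⟨k, Or.inr ⟨h1, h2⟩⟩

theorem A6_cyc_bal {V : Type} [Fintype V] [DecidableEq V] {π : V → ZMod 3}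
    {W : SimpleGraph V} (h : IsCyc π W) : Bal π W univ := by
  obtain ⟨l, hl, v, hinj, hπ, rfl⟩ := h
  have hne : ∀ k, v k ≠ v (k + 1) := by
    intro k hk
    have := hπ k
    rw [← hk] at this
    exact zmod3_ne1 _ this.symm
  have hadj : ∀ k, (wk v).Adj (v k) (v (k + 1)) := by
    intro k
    rw [wk, SimpleGraph.fromRel_adj]
    exact ⟨hne k, Or.inl ⟨k, rfl, rfl⟩⟩
  have hπ' : ∀ k, π (v (k - 1)) = π (v k) - 1 := by
    intro k
    have := hπ (k - 1)
    rw [sub_add_cancel] at this
    rw [this]; ring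
  intro y
  by_cases hy : ∃ k, v k = y
  · obtain ⟨k, rfl⟩ := hy
    have h1 : nb (wk v) (v k) (pt π univ (π (v k) + 1)) = {v (k + 1)} := by
      ext w
      simp only [mem_nb, mem_pt, mem_univ, true_and, mem_singleton]
      constructor
      · rintro ⟨hw, hadj'⟩
        obtain ⟨j, ⟨h1, h2⟩ | ⟨h1, h2⟩⟩ := A6_wk_adj hadj'
        · rw [h2, hinj h1]
        · exfalso
          have e1 : π (v k) = π w + 1 := by rw [h1, h2, hπ]
          rw [e1] at hw
          revert hw
          generalize π w = i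
          revert i; decide
      · rintro rfl
        exact ⟨hπ k, hadj k⟩
    have h2 : nb (wk v) (v k) (pt π univ (π (v k) - 1)) = {v (k - 1)} := by
      ext w
      simp only [mem_nb, mem_pt, mem_univ, true_and, mem_singleton]
      constructor
      · rintro ⟨hw, hadj'⟩
        obtain ⟨j, ⟨h1, h2⟩ | ⟨h1, h2⟩⟩ := A6_wk_adj hadj'
        · exfalso
          have e1 : π w = π (v k) + 1 := by rw [h2, h1, hπ]
          rw [e1] at hw
          revert hw
          generalize π (v k) = i
          revert i; decide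
        · rw [h1]
          congr 1
          rw [hinj h2]; ring
      · rintro rfl
        refine ⟨hπ' k, ?_⟩
        have := hadj (k - 1)
        rw [sub_add_cancel] at this
        exact this.symm
    rw [imb, dg, dg, h1, h2]
    simp
  · have h0 : ∀ S : Finset V, nb (wk v) y S = ∅ := by
      intro S
      rw [eq_empty_iff_forall_notMem]
      intro w hw
      rw [mem_nb] at hw
      obtain ⟨j, ⟨h1, _⟩ | ⟨_, h2⟩⟩ := A6_wk_adj hw.2
      · exact hy ⟨j, h1.symm⟩
      · exact hy ⟨j + 1, h2.symm⟩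
    rw [imb, dg, dg, h0, h0]
    simp

theorem A6_cycle {V : Type} [Fintype V] [DecidableEq V] {π : V → ZMod 3} {L : SimpleGraph V}
    (hT : Tri π L) (hB : Bal π L univ) {x0 y0 : V} (h0 : L.Adj x0 y0) :
    ∃ W : SimpleGraph V, IsCyc π W ∧ W ≤ L ∧ ∃ a b, W.Adj a b := by
  classical
  have hnext : ∀ x : V, (∃ y, L.Adj x y) → ∃ y, L.Adj x y ∧ π y = π x + 1 := by
    rintro x ⟨y, hy⟩
    rcases zmod3_cases (π x) (π y) with h | h | h
    · exact absurd h.symm (hT x y hy)
    · exact ⟨y, hy, h⟩
    · have hb := hB x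
      rw [imb] at hb
      have h1 : 0 < dg L x (pt π univ (π x - 1)) :=
        card_pos.2 ⟨y, mem_nb.2 ⟨mem_pt.2 ⟨mem_univ _, h⟩, hy⟩⟩
      have h2 : 0 < dg L x (pt π univ (π x + 1)) := by omega
      obtain ⟨z, hz⟩ := card_pos.1 h2
      rw [mem_nb, mem_pt] at hz
      exact ⟨z, hz.2, hz.1.2⟩
  let f : V → V := fun x => if h : ∃ y, L.Adj x y ∧ π y = π x + 1 then h.choose else x
  have hf : ∀ x : V, (∃ y, L.Adj x y) → L.Adj x (f x) ∧ π (f x) = π x + 1 := by
    intro x hx
    have h := hnext x hx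
    have e : f x = h.choose := dif_pos h
    rw [e]
    exact h.choose_spec
  have hiter : ∀ n : ℕ, ∃ y, L.Adj (f^[n] x0) y := by
    intro n
    induction n with
    | zero => exact ⟨y0, h0⟩
    | succ n ih =>
      rw [Function.iterate_succ_apply']
      exact ⟨_, (hf _ ih).1.symm⟩
  obtain ⟨i, j, hij, heq⟩ := Finite.exists_ne_map_eq_of_infinite (fun n : ℕ => f^[n] x0)
  wlog hlt : i < j generalizing i j
  · exact this j i hij.symm heq.symm (by omega)
  set x := f^[i] x0 with hx
  have hper : Function.IsPeriodicPt f (j - i) x := by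
    show f^[j - i] x = x
    rw [hx, ← Function.iterate_add_apply, Nat.sub_add_cancel hlt.le]
    exact heq.symm
  have hmpos : 0 < Function.minimalPeriod f x := hper.minimalPeriod_pos (by omega)
  have hiter' : ∀ n : ℕ, ∃ y, L.Adj (f^[n] x) y := by
    intro n
    rw [hx, ← Function.iterate_add_apply]
    exact hiter _
  have hπn : ∀ n : ℕ, π (f^[n] x) = π x + (n : ZMod 3) := by
    intro n
    induction n with
    | zero => simp
    | succ n ih =>
      rw [Function.iterate_succ_apply', (hf _ (hiter' n)).2, ih]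
      push_cast
      ring
  have h3 : 3 ∣ Function.minimalPeriod f x := by
    have h1 := hπn (Function.minimalPeriod f x)
    rw [Function.iterate_minimalPeriod] at h1
    have h2 : ((Function.minimalPeriod f x : ℕ) : ZMod 3) = 0 := by
      have : π x + 0 = π x + ((Function.minimalPeriod f x : ℕ) : ZMod 3) := by rw [← h1, add_zero]
      exact (add_left_cancel this).symm
    exact (ZMod.natCast_eq_zero_iff _ _).1 h2
  obtain ⟨l, hl⟩ := h3
  have hl1 : 1 ≤ l := by
    rcases Nat.eq_zero_or_pos l with h | h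
    · subst h; omega
    · exact h
  have : NeZero (3 * l) := ⟨by omega⟩
  let v : ZMod (3 * l) → V := fun k => f^[k.val] x
  have hvs : ∀ k, v (k + 1) = f (v k) := by
    intro k
    show f^[(k + 1).val] x = f (f^[k.val] x)
    rw [← Function.iterate_succ_apply' f k.val x, ZMod.val_add]
    rw [← Function.iterate_mod_minimalPeriod_eq (f := f) (x := x) (n := k.val + 1), hl]
    rw [ZMod.val_one_eq_one_mod, Nat.mod_eq_of_lt (show 1 < 3 * l by omega)]
  have hvadj : ∀ k, L.Adj (v k) (v (k + 1)) ∧ π (v (k + 1)) = π (v k) + 1 := by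
    intro k
    rw [hvs]
    exact hf _ (hiter' _)
  refine ⟨wk v, ⟨l, hl1, v, ?_, fun k => (hvadj k).2, rfl⟩, ?_, v 0, v (0 + 1), ?_⟩
  · intro a b hab
    have h1 := Function.iterate_injOn_Iio_minimalPeriod (f := f) (x := x)
    have h2 : a.val = b.val := by
      refine h1 ?_ ?_ hab
      · rw [Set.mem_Iio, hl]; exact ZMod.val_lt a
      · rw [Set.mem_Iio, hl]; exact ZMod.val_lt b
    exact ZMod.val_injective _ h2
  · intro a b hab
    obtain ⟨k, ⟨h1, h2⟩ | ⟨h1, h2⟩⟩ := A6_wk_adj hab
    · rw [h1, h2]; exact (hvadj k).1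
    · rw [h1, h2]; exact (hvadj k).1.symm
  · rw [wk, SimpleGraph.fromRel_adj]
    exact ⟨(hvadj 0).1.ne, Or.inl ⟨0, rfl, rfl⟩⟩

open Classical in
theorem A6_main {V : Type} [Fintype V] [DecidableEq V] (π : V → ZMod 3) : ∀ (n : ℕ)
    (L : SimpleGraph V), ((univ : Finset (V × V)).filter (fun p => L.Adj p.1 p.2)).card ≤ n →
    Tri π L → Bal π L univ → ∃ 𝓦 : Finset (SimpleGraph V),
      (∀ W ∈ 𝓦, IsCyc π W ∧ W ≤ L) ∧ (∀ W ∈ 𝓦, ∀ W' ∈ 𝓦, W ≠ W' → Disjoint W W') ∧
      ∀ x y, L.Adj x y → ∃ W ∈ 𝓦, W.Adj x y := by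
  intro n
  induction n with
  | zero =>
    intro L hL _ _
    refine ⟨∅, by simp, by simp, ?_⟩
    intro x y hxy
    exfalso
    rw [Nat.le_zero, card_eq_zero] at hL
    have : (x, y) ∈ ((univ : Finset (V × V)).filter (fun p => L.Adj p.1 p.2)) := by
      simp [hxy]
    rw [hL] at this
    exact notMem_empty _ this
  | succ n ih =>
    intro L hL hT hB
    by_cases h0 : ∃ x y, L.Adj x y
    · obtain ⟨x0, y0, h0⟩ := h0
      obtain ⟨W, hW, hWL, a, b, hab⟩ := A6_cycle hT hB h0
      have hcard : ((univ : Finset (V × V)).filter (fun p => (L \ W).Adj p.1 p.2)).card ≤ n := by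
        have : ((univ : Finset (V × V)).filter (fun p => (L \ W).Adj p.1 p.2)) ⊂
            ((univ : Finset (V × V)).filter (fun p => L.Adj p.1 p.2)) := by
          rw [ssubset_iff_of_subset]
          · refine ⟨(a, b), ?_, ?_⟩
            · simp only [mem_filter, mem_univ, true_and]
              exact hWL hab
            · simp only [mem_filter, mem_univ, true_and, SimpleGraph.sdiff_adj, not_and, not_not]
              exact fun _ => hab
          · intro p
            simp only [mem_filter, mem_univ, true_and, SimpleGraph.sdiff_adj]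
            exact fun h => h.1
        have := card_lt_card this
        omega
      have hB' : Bal π (L \ W) univ := by
        intro y
        rw [imb_sdiff hWL, hB y, A6_cyc_bal hW y, sub_zero]
      obtain ⟨𝓦, h1, h2, h3⟩ := ih (L \ W) (by convert hcard) (Tri.mono sdiff_le hT) hB'
      have hdis : ∀ W' ∈ 𝓦, Disjoint W W' := by
        intro W' hW'
        rw [SimpleGraph.disjoint_left]
        intro x y hx hy
        have := (h1 W' hW').2 hy
        rw [SimpleGraph.sdiff_adj] at this
        exact this.2 hx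
      refine ⟨insert W 𝓦, ?_, ?_, ?_⟩
      · intro W' hW'
        rcases mem_insert.1 hW' with rfl | hW'
        · exact ⟨hW, hWL⟩
        · exact ⟨(h1 W' hW').1, (h1 W' hW').2.trans sdiff_le⟩
      · intro W1 hW1 W2 hW2 hne
        rcases mem_insert.1 hW1 with e1 | e1 <;> rcases mem_insert.1 hW2 with e2 | e2
        · exact absurd (e1.trans e2.symm) hne
        · rw [e1]; exact hdis _ e2
        · rw [e2]; exact (hdis _ e1).symm
        · exact h2 _ e1 _ e2 hne
      · intro x y hxy
        by_cases hw : W.Adj x y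
        · exact ⟨W, mem_insert_self _ _, hw⟩
        · obtain ⟨W', hW', h⟩ := h3 x y (by rw [SimpleGraph.sdiff_adj]; exact ⟨hxy, hw⟩)
          exact ⟨W', mem_insert_of_mem hW', h⟩
    · refine ⟨∅, by simp, by simp, ?_⟩
      intro x y hxy
      exact absurd ⟨x, y, hxy⟩ h0

theorem p_A6 : S_A6 := fun _ _ _ π L hT hB => A6_main π _ L le_rfl hT hB

end DH
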