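import Pool.Agent.Lib.MP_fe8cb7_co.h25.StR

/-!
# Daykin-Haggkvist problem: piece AD2 (transfer of the approximate decomposition to a subset)
-/

open Finset

namespace DH

private theorem AD2_pt_card {V : Type} [Fintype V] [DecidableEq V] (π : V → ZMod 3)
    (U S : Finset V) (hS : S ⊆ U) (i : ZMod 3) (S' : Finset {v // v ∈ U})
    (hS' : ∀ v : {v // v ∈ U}, v ∈ S' ↔ v.1 ∈ S) :
    (pt (fun v : {v // v ∈ U} => π v.1) S' i).card = (pt π S i).card := by
  refine card_bij (fun v _ => v.1) ?_ ?_ ?_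
  · intro v hv
    rw [mem_pt] at hv ⊢
    exact ⟨(hS' v).1 hv.1, hv.2⟩
  · intro v _ w _ h
    exact Subtype.ext h
  · intro v hv
    rw [mem_pt] at hv
    exact ⟨⟨v, hS hv.1⟩, mem_pt.2 ⟨(hS' _).2 hv.1, hv.2⟩, rfl⟩

private theorem AD2_dg {V : Type} [Fintype V] [DecidableEq V] (π : V → ZMod 3)
    (U : Finset V) (G : SimpleGraph V) (H : SimpleGraph {v // v ∈ U})
    (h : ∀ v w : {v // v ∈ U}, H.Adj v w ↔ G.Adj v.1 w.1) (v : {v // v ∈ U}) (i : ZMod 3) :
    dg H v (pt (fun v : {v // v ∈ U} => π v.1) univ i) = dg G v.1 (pt π U i) := by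
  rw [dg, dg]
  refine card_bij (fun w _ => w.1) ?_ ?_ ?_
  · intro w hw
    rw [mem_nb, mem_pt] at hw ⊢
    exact ⟨⟨w.2, hw.1.2⟩, (h v w).1 hw.2⟩
  · intro v _ w _ h
    exact Subtype.ext h
  · intro w hw
    rw [mem_nb, mem_pt] at hw
    exact ⟨⟨w, hw.1.1⟩, mem_nb.2 ⟨mem_pt.2 ⟨mem_univ _, hw.1.2⟩, (h v ⟨w, hw.1.1⟩).2 hw.2⟩, rfl⟩

theorem p_AD2 : S_AD2 := by
  intro c hAD η hη γ hγ
  obtain ⟨ζ, hζ, h1⟩ := hAD η hη γ hγ
  refine ⟨ζ, hζ, fun γ2 hγ2 => ?_⟩
  obtain ⟨N0, h2⟩ := h1 γ2 hγ2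
  refine ⟨N0, ?_⟩
  intro V _ _ π G U Y N ζ0 hN hEq hTri hW hYU hdeg himb himbY hYc
  classical
  set π' : {v // v ∈ U} → ZMod 3 := fun v => π v.1 with hπ'
  set G' : SimpleGraph {v // v ∈ U} := G.comap Subtype.val with hG'
  have hG'adj : ∀ v w : {v // v ∈ U}, G'.Adj v w ↔ G.Adj v.1 w.1 := by
    intro v w
    rw [hG', SimpleGraph.comap_adj]
  set Y' : Finset {v // v ∈ U} := univ.filter (fun v => v.1 ∈ Y) with hY'
  have himb' : ∀ v : {v // v ∈ U}, imb π' G' univ v = imb π G U v.1 := by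
    intro v
    rw [imb, imb, AD2_dg π U G G' hG'adj, AD2_dg π U G G' hG'adj]
  obtain ⟨T', hP, hT1, hT2⟩ := h2 {v // v ∈ U} π' G' Y' N ζ0 hN
    (by
      intro i
      rw [← hEq i]
      exact AD2_pt_card π U U (Subset.refl _) i univ (fun v => by simp [v.2]))
    (by
      intro u v huv
      exact hTri u.1 v.1 ((hG'adj u v).1 huv))
    (by
      intro v i hi
      rw [AD2_dg π U G G' hG'adj]
      exact hdeg v.1 v.2 i hi)
    (by
      intro v
      rw [himb']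
      exact himb v.1 v.2)
    (by
      intro v hv
      rw [himb']
      exact himbY v.1 (by simpa [hY'] using hv))
    (by
      intro i
      rw [AD2_pt_card π U Y hYU i Y' (fun v => by simp [hY'])]
      exact hYc i)
  set T : Finset (Finset V) := T'.image (fun t => t.map (Function.Embedding.subtype _)) with hT
  have hcov : ∀ v w : {v // v ∈ U}, (cov T').Adj v w ↔ (cov T).Adj v.1 w.1 := by
    intro v w
    rw [cov_adj, cov_adj]
    constructor
    · rintro ⟨hne, t, ht, hv, hw⟩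
      refine ⟨fun h => hne (Subtype.ext h), t.map (Function.Embedding.subtype _),
        mem_image_of_mem _ ht, ?_, ?_⟩
      · exact mem_map.2 ⟨v, hv, rfl⟩
      · exact mem_map.2 ⟨w, hw, rfl⟩
    · rintro ⟨hne, t, ht, hv, hw⟩
      obtain ⟨t', ht', rfl⟩ := mem_image.1 ht
      refine ⟨fun h => hne (by rw [h]), t', ht', ?_, ?_⟩
      · obtain ⟨a, ha, hav⟩ := mem_map.1 hv
        have : a = v := Subtype.ext hav
        rwa [← this]
      · obtain ⟨a, ha, hav⟩ := mem_map.1 hw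
        have : a = w := Subtype.ext hav
        rwa [← this]
  have hsd : ∀ v w : {v // v ∈ U}, (G' \ cov T').Adj v w ↔ (G \ cov T).Adj v.1 w.1 := by
    intro v w
    rw [SimpleGraph.sdiff_adj, SimpleGraph.sdiff_adj, hG'adj, hcov]
  refine ⟨T, ⟨?_, ?_⟩, ?_, ?_⟩
  · intro t ht
    obtain ⟨t', ht', rfl⟩ := mem_image.1 ht
    have h3 := hP.1 t' ht'
    rw [SimpleGraph.isNClique_iff] at h3 ⊢
    refine ⟨?_, ?_⟩
    · intro u hu v hv huv
      obtain ⟨a, ha, rfl⟩ := mem_map.1 (mem_coe.1 hu)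
      obtain ⟨b, hb, rfl⟩ := mem_map.1 (mem_coe.1 hv)
      exact (hG'adj a b).1 (h3.1 ha hb (fun h => huv (by rw [h])))
    · rw [card_map]
      exact h3.2
  · intro t ht s hs hne u hu v hv hu' hv'
    obtain ⟨t', ht', rfl⟩ := mem_image.1 ht
    obtain ⟨s', hs', rfl⟩ := mem_image.1 hs
    obtain ⟨a, ha, rfl⟩ := mem_map.1 hu
    obtain ⟨b, hb, rfl⟩ := mem_map.1 hv
    obtain ⟨a', ha', haa⟩ := mem_map.1 hu'
    obtain ⟨b', hb', hbb⟩ := mem_map.1 hv'
    have e1 : a' = a := Subtype.ext haa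
    have e2 : b' = b := Subtype.ext hbb
    rw [e1] at ha'
    rw [e2] at hb'
    have := hP.2 t' ht' s' hs' (fun h => hne (by rw [h])) a ha b hb ha' hb'
    rw [this]
  · intro v hv i
    have := hT1 ⟨v, hv⟩ i
    rwa [AD2_dg π U (G \ cov T) (G' \ cov T') hsd] at this
  · intro v hv i
    have := hT2 ⟨v, hYU hv⟩ (by simp [hY', hv]) i
    rwa [AD2_dg π U (G \ cov T) (G' \ cov T') hsd] at this

end DH
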