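import Pool.Agent.Lib.MP_fe8cb7_co.h25.StC

/-! Daykin-Haggkvist problem: [C1] the graph `HG` is nearly balanced. (helper64) -/

open Finset

namespace DH

variable {V : Type}

private theorem C1_dg_ins_out {G : SimpleGraph V} {U1 S : Finset V} {v : V} (hv : v ∉ U1) :
    dg (ins G U1) v S = 0 := by
  rw [dg, card_eq_zero, eq_empty_iff_forall_notMem]
  intro w hw
  exact hv (mem_nb.1 hw).2.2.1

private theorem C1_dg_ins_in {π : V → ZMod 3} {G : SimpleGraph V} {U U1 : Finset V} {v : V}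
    (hv : v ∈ U1) (h : U1 ⊆ U) (i : ZMod 3) :
    dg (ins G U1) v (pt π U i) = dg G v (pt π U1 i) := by
  rw [dg, dg]
  congr 1
  ext w
  simp only [mem_nb, mem_pt, ins]
  constructor
  · rintro ⟨⟨_, h2⟩, h3, _, h5⟩
    exact ⟨⟨h5, h2⟩, h3⟩
  · rintro ⟨⟨h1, h2⟩, h3⟩
    exact ⟨⟨h h1, h2⟩, h3, hv, h1⟩

private theorem C1_dg_split [DecidableEq V] {π : V → ZMod 3} {G : SimpleGraph V} {A B : Finset V}
    (h : A ⊆ B) (v : V) (i : ZMod 3) :
    dg G v (pt π (B \ A) i) + dg G v (pt π A i) = dg G v (pt π B i) := by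
  rw [dg, dg, dg, ← card_union_of_disjoint]
  · congr 1
    ext w
    simp only [mem_nb, mem_pt, mem_union, mem_sdiff]
    constructor
    · rintro (⟨⟨⟨h1, _⟩, h2⟩, h3⟩ | ⟨⟨h1, h2⟩, h3⟩)
      · exact ⟨⟨h1, h2⟩, h3⟩
      · exact ⟨⟨h h1, h2⟩, h3⟩
    · rintro ⟨⟨h1, h2⟩, h3⟩
      by_cases h4 : w ∈ A
      · exact Or.inr ⟨⟨h4, h2⟩, h3⟩
      · exact Or.inl ⟨⟨⟨h1, h4⟩, h2⟩, h3⟩
  · rw [disjoint_left]
    intro w h1 h2
    exact (mem_sdiff.1 (mem_pt.1 (mem_nb.1 h1).1).1).2 (mem_pt.1 (mem_nb.1 h2).1).1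

section
variable [DecidableEq V] {π : V → ZMod 3} {G : SimpleGraph V} {U U1 U2 : Finset V} {q : ℕ}
  {ρ χ : V → Fin q}

private theorem C1_zne (i : ZMod 3) : i + 1 ≠ i - 1 ∧ i - 1 ≠ i + 1 ∧ i + 1 - 1 = i ∧
    i - 1 + 1 = i ∧ i + 1 + 1 = i - 1 ∧ i - 1 - 1 = i + 1 ∧ i + 1 + 1 ≠ i ∧ i - 1 - 1 ≠ i := by
  revert i; decide

private theorem C1_nb_w1 (hs1 : U1 ⊆ U) (hs2 : U2 ⊆ U1) {w : V} (hw : w ∈ U \ U1) :
    nb (RG π G U U1 U2 ρ χ) w (pt π U (π w + 1)) =
      (nb G w (pt π (U1 \ U2) (π w + 1))).filter (fun z => ρ z = ρ w) := by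
  ext z
  simp only [mem_nb, mem_pt, mem_filter, RG, Res]
  have hw' := (mem_sdiff.1 hw).2
  constructor
  · rintro ⟨⟨_, h2⟩, h3, (⟨_, h5, h6⟩ | ⟨_, h5, _⟩)⟩
    · rcases h6 with h6 | h6
      · exact ⟨⟨⟨h5, h2⟩, h3⟩, h6.2⟩
      · exact absurd (h2.symm.trans h6.1) (C1_zne _).1
    · exact absurd (mem_sdiff.1 h5).1 hw'
  · rintro ⟨⟨⟨h1, h2⟩, h3⟩, h4⟩
    exact ⟨⟨hs1 (mem_sdiff.1 h1).1, h2⟩, h3, Or.inl ⟨hw, h1, Or.inl ⟨h2, h4⟩⟩⟩

private theorem C1_nb_w2 (hs1 : U1 ⊆ U) (hs2 : U2 ⊆ U1) {w : V} (hw : w ∈ U \ U1) :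
    nb (RG π G U U1 U2 ρ χ) w (pt π U (π w - 1)) =
      (nb G w (pt π (U1 \ U2) (π w - 1))).filter (fun z => χ z = χ w) := by
  ext z
  simp only [mem_nb, mem_pt, mem_filter, RG, Res]
  have hw' := (mem_sdiff.1 hw).2
  constructor
  · rintro ⟨⟨_, h2⟩, h3, (⟨_, h5, h6⟩ | ⟨_, h5, _⟩)⟩
    · rcases h6 with h6 | h6
      · exact absurd (h2.symm.trans h6.1) (C1_zne _).2.1
      · exact ⟨⟨⟨h5, h2⟩, h3⟩, h6.2⟩
    · exact absurd (mem_sdiff.1 h5).1 hw'
  · rintro ⟨⟨⟨h1, h2⟩, h3⟩, h4⟩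
    exact ⟨⟨hs1 (mem_sdiff.1 h1).1, h2⟩, h3, Or.inl ⟨hw, h1, Or.inr ⟨h2, h4⟩⟩⟩

private theorem C1_nb_z1 {z : V} (hz : z ∈ U1 \ U2) :
    nb (RG π G U U1 U2 ρ χ) z (pt π U (π z + 1)) =
      (nb G z (pt π (U \ U1) (π z + 1))).filter (fun w => χ w = χ z) := by
  ext w
  simp only [mem_nb, mem_pt, mem_filter, RG, Res]
  have hz' := (mem_sdiff.1 hz).1
  constructor
  · rintro ⟨⟨_, h2⟩, h3, (⟨h4, _, _⟩ | ⟨h4, _, h6⟩)⟩
    · exact absurd hz' (mem_sdiff.1 h4).2
    · rcases h6 with h6 | h6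
      · have h7 := h6.1
        rw [h2] at h7
        exact absurd h7.symm (C1_zne (π z)).2.2.2.2.2.2.1
      · exact ⟨⟨⟨h4, h2⟩, h3⟩, h6.2.symm⟩
  · rintro ⟨⟨⟨h1, h2⟩, h3⟩, h4⟩
    refine ⟨⟨(mem_sdiff.1 h1).1, h2⟩, h3, Or.inr ⟨h1, hz, Or.inr ⟨?_, h4.symm⟩⟩⟩
    rw [h2]; exact (C1_zne (π z)).2.2.1.symm

private theorem C1_nb_z2 {z : V} (hz : z ∈ U1 \ U2) :
    nb (RG π G U U1 U2 ρ χ) z (pt π U (π z - 1)) =
      (nb G z (pt π (U \ U1) (π z - 1))).filter (fun w => ρ w = ρ z) := by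
  ext w
  simp only [mem_nb, mem_pt, mem_filter, RG, Res]
  have hz' := (mem_sdiff.1 hz).1
  constructor
  · rintro ⟨⟨_, h2⟩, h3, (⟨h4, _, _⟩ | ⟨h4, _, h6⟩)⟩
    · exact absurd hz' (mem_sdiff.1 h4).2
    · rcases h6 with h6 | h6
      · exact ⟨⟨⟨h4, h2⟩, h3⟩, h6.2.symm⟩
      · have h7 := h6.1
        rw [h2] at h7
        exact absurd h7.symm (C1_zne (π z)).2.2.2.2.2.2.2
  · rintro ⟨⟨⟨h1, h2⟩, h3⟩, h4⟩
    refine ⟨⟨(mem_sdiff.1 h1).1, h2⟩, h3, Or.inr ⟨h1, hz, Or.inl ⟨?_, h4.symm⟩⟩⟩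
    rw [h2]; exact (C1_zne (π z)).2.2.2.1.symm

private theorem C1_nb_u (hs2 : U2 ⊆ U1) {u : V} (hu : u ∈ U2) (S : Finset V) :
    dg (RG π G U U1 U2 ρ χ) u S = 0 := by
  rw [dg, card_eq_zero, eq_empty_iff_forall_notMem]
  intro w hw
  rcases (mem_nb.1 hw).2.2 with ⟨h1, _⟩ | ⟨_, h2, _⟩
  · exact (mem_sdiff.1 h1).2 (hs2 hu)
  · exact (mem_sdiff.1 h2).2 hu

private theorem C1_RG_le : RG π G U U1 U2 ρ χ ≤ G \ ins G U1 := by
  intro a b hab
  rw [SimpleGraph.sdiff_adj]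
  refine ⟨hab.1, fun h => ?_⟩
  rcases hab.2 with ⟨h1, _⟩ | ⟨h1, _⟩
  · exact (mem_sdiff.1 h1).2 h.2.1
  · exact (mem_sdiff.1 h1).2 h.2.2

omit [DecidableEq V] in
private theorem C1_ins_le : ins G U1 ≤ G := fun _ _ h => h.1

private theorem C1_dg_HG (v : V) (S : Finset V) :
    dg (HG π G U U1 U2 ρ χ) v S + dg (RG π G U U1 U2 ρ χ) v S + dg (ins G U1) v S = dg G v S := by
  have h1 := dg_sdiff (S := S) (C1_RG_le (π := π) (G := G) (U := U) (U1 := U1) (U2 := U2) (ρ := ρ)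
    (χ := χ)) v
  have h2 := dg_sdiff (S := S) (C1_ins_le (G := G) (U1 := U1)) v
  rw [HG]; omega

omit [DecidableEq V] in
private theorem C1_card_nb_le (v : V) (A : Finset V) (i : ZMod 3) (hA : A ⊆ U) :
    (nb G v (pt π A i)).card ≤ (pt π U i).card :=
  card_le_card ((nb_subset v).trans (pt_mono hA i))

end

theorem p_C1 : S_C1 := by
  intro V _ _ π G U U1 U2 N N1 N2 K q c η γ0 γ1 E ρ χ hyp cells hq hE hγ0 hγ1
  have hs1 := hyp.sub1
  have hs2 := hyp.sub2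
  have hqR : (0:ℝ) < q := by exact_mod_cast hq
  have hq1 : (1:ℝ) ≤ q := by exact_mod_cast hq
  have hNq : (0:ℝ) ≤ (N:ℝ) / q := by positivity
  have hqE : (0:ℝ) ≤ q * E := by positivity
  have hN1 : (0:ℝ) ≤ (N1:ℝ) := by positivity
  have hle : HG π G U U1 U2 ρ χ ≤ G := sdiff_le.trans sdiff_le
  -- cells for a single neighbourhood in `Z`
  have hnz : ∀ v ∈ U, ∀ i, Evn ρ χ (nb G v (pt π (U1 \ U2) i)) E := by
    intro v hv i
    have := cells.nz v hv v hv i
    rwa [inter_self] at this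
  have hsplitU : ∀ v ∈ U, v ∈ U \ U1 ∨ v ∈ U1 \ U2 ∨ v ∈ U2 := by
    intro v hv
    by_cases h1 : v ∈ U1
    · by_cases h2 : v ∈ U2
      · exact Or.inr (Or.inr h2)
      · exact Or.inr (Or.inl (mem_sdiff.2 ⟨h1, h2⟩))
    · exact Or.inl (mem_sdiff.2 ⟨hv, h1⟩)
  have himbG : ∀ v : V, imb π G U v = 0 := fun v => hyp.bal v
  -- imbalance of HG
  have himbHG : ∀ v : V, (imb π (HG π G U U1 U2 ρ χ) U v : ℝ) =
      - (imb π (ins G U1) U v : ℝ) - (imb π (RG π G U U1 U2 ρ χ) U v : ℝ) := by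
    intro v
    have h1 := imb_sdiff (π := π) (U := U) (C1_RG_le (π := π) (G := G) (U := U) (U1 := U1)
      (U2 := U2) (ρ := ρ) (χ := χ)) v
    have h2 := imb_sdiff (π := π) (U := U) (C1_ins_le (G := G) (U1 := U1)) v
    have h3 : imb π (HG π G U U1 U2 ρ χ) U v =
        - imb π (ins G U1) U v - imb π (RG π G U U1 U2 ρ χ) U v := by
      rw [HG, h1, h2, himbG v]; ring
    exact_mod_cast h3
  have hins_out : ∀ v, v ∉ U1 → imb π (ins G U1) U v = 0 := by
    intro v hv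
    rw [imb, C1_dg_ins_out hv, C1_dg_ins_out hv]; rfl
  have hins_in : ∀ v ∈ U1, imb π (ins G U1) U v = imb π G U1 v := by
    intro v hv
    rw [imb, C1_dg_ins_in hv hs1, C1_dg_ins_in hv hs1]; rfl
  refine ⟨hyp.tri.mono hle, hyp.within.mono hle, ?_, ?_, ?_⟩
  · -- degrees
    intro v hv i hi
    have hdeg := hyp.deg v hv i hi
    have hsum := C1_dg_HG (π := π) (G := G) (U := U) (U1 := U1) (U2 := U2) (ρ := ρ) (χ := χ) v
      (pt π U i)
    have hsumR : (dg (HG π G U U1 U2 ρ χ) v (pt π U i) : ℝ) +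
        dg (RG π G U U1 U2 ρ χ) v (pt π U i) + dg (ins G U1) v (pt π U i) =
        dg G v (pt π U i) := by exact_mod_cast hsum
    have hi' : i = π v + 1 ∨ i = π v - 1 := by
      rcases zmod3_cases (π v) i with h | h | h
      · exact absurd h hi
      · exact Or.inl h
      · exact Or.inr h
    rcases hsplitU v hv with h | h | h
    · -- W
      have h1 : dg (ins G U1) v (pt π U i) = 0 := C1_dg_ins_out (mem_sdiff.1 h).2
      have h2 : dg (RG π G U U1 U2 ρ χ) v (pt π U i) ≤ N1 := by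
        rw [← hyp.szU1 i, dg]
        rcases hi' with rfl | rfl
        · rw [C1_nb_w1 hs1 hs2 h]
          exact card_le_card ((filter_subset _ _).trans ((nb_subset v).trans
            (pt_mono sdiff_subset _)))
        · rw [C1_nb_w2 hs1 hs2 h]
          exact card_le_card ((filter_subset _ _).trans ((nb_subset v).trans
            (pt_mono sdiff_subset _)))
      have h2R : (dg (RG π G U U1 U2 ρ χ) v (pt π U i) : ℝ) ≤ N1 := by exact_mod_cast h2
      rw [h1] at hsumR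
      push_cast at hsumR
      linarith
    · -- Z
      have h1 : dg (ins G U1) v (pt π U i) ≤ N1 := by
        rw [C1_dg_ins_in (mem_sdiff.1 h).1 hs1, ← hyp.szU1 i]
        exact dg_le_card v
      have h1R : (dg (ins G U1) v (pt π U i) : ℝ) ≤ N1 := by exact_mod_cast h1
      have hcard : ((nb G v (pt π (U \ U1) i)).card : ℝ) ≤ N := by
        have := C1_card_nb_le (G := G) (π := π) (U := U) v (U \ U1) i sdiff_subset
        rw [hyp.szU i] at this
        exact_mod_cast this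
      have hcq : ((nb G v (pt π (U \ U1) i)).card : ℝ) / q ≤ (N:ℝ) / q :=
        div_le_div_of_nonneg_right hcard hqR.le
      have hev := cells.nw v hv i
      have h2R : (dg (RG π G U U1 U2 ρ χ) v (pt π U i) : ℝ) ≤ N / q + q * E := by
        rcases hi' with rfl | rfl
        · rw [dg, C1_nb_z1 h]
          have := abs_le.1 (hev.col (χ v))
          linarith [this.2]
        · rw [dg, C1_nb_z2 h]
          have := abs_le.1 (hev.row (ρ v))
          linarith [this.2]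
      linarith
    · -- U2
      have h1 : dg (ins G U1) v (pt π U i) ≤ N1 := by
        rw [C1_dg_ins_in (hs2 h) hs1, ← hyp.szU1 i]
        exact dg_le_card v
      have h1R : (dg (ins G U1) v (pt π U i) : ℝ) ≤ N1 := by exact_mod_cast h1
      have h2 : dg (RG π G U U1 U2 ρ χ) v (pt π U i) = 0 := C1_nb_u hs2 h _
      rw [h2] at hsumR
      push_cast at hsumR
      linarith
  · -- imbalance
    intro v hv
    rw [himbHG v]
    rcases hsplitU v hv with h | h | h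
    · -- W
      rw [hins_out v (mem_sdiff.1 h).2]
      have e1 := abs_le.1 ((hnz v hv (π v + 1)).row (ρ v))
      have e2 := abs_le.1 ((hnz v hv (π v - 1)).col (χ v))
      have hR : (imb π (RG π G U U1 U2 ρ χ) U v : ℝ) =
          (((nb G v (pt π (U1 \ U2) (π v + 1))).filter (fun z => ρ z = ρ v)).card : ℝ) -
          (((nb G v (pt π (U1 \ U2) (π v - 1))).filter (fun z => χ z = χ v)).card : ℝ) := by
        rw [imb, dg, dg, C1_nb_w1 hs1 hs2 h, C1_nb_w2 hs1 hs2 h]; push_cast; rfl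
      have s1 := C1_dg_split (π := π) (G := G) hs2 v (π v + 1)
      have s2 := C1_dg_split (π := π) (G := G) hs2 v (π v - 1)
      have s1R : ((nb G v (pt π (U1 \ U2) (π v + 1))).card : ℝ) =
          dg G v (pt π U1 (π v + 1)) - dg G v (pt π U2 (π v + 1)) := by
        rw [← s1, dg]; push_cast; ring
      have s2R : ((nb G v (pt π (U1 \ U2) (π v - 1))).card : ℝ) =
          dg G v (pt π U1 (π v - 1)) - dg G v (pt π U2 (π v - 1)) := by
        rw [← s2, dg]; push_cast; ring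
      have i1 := abs_le.1 (hyp.imbW1 v hv)
      have i2 := abs_le.1 (hyp.imbW2 v hv)
      rw [imb] at i1 i2
      push_cast at i1 i2
      have hd : |((nb G v (pt π (U1 \ U2) (π v + 1))).card : ℝ) -
          (nb G v (pt π (U1 \ U2) (π v - 1))).card| ≤ 2 * γ1 * N1 := by
        rw [abs_le]; constructor <;> linarith [i1.1, i1.2, i2.1, i2.2]
      have hdq : |((nb G v (pt π (U1 \ U2) (π v + 1))).card : ℝ) / q -
          ((nb G v (pt π (U1 \ U2) (π v - 1))).card : ℝ) / q| ≤ 2 * γ1 * N1 := by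
        rw [← sub_div, abs_div, abs_of_pos hqR]
        exact (div_le_self (abs_nonneg _) hq1).trans hd
      have hdq' := abs_le.1 hdq
      have g0 : 0 ≤ γ0 * (N1 : ℝ) := by positivity
      rw [hR, abs_le]
      push_cast
      constructor <;> linarith [e1.1, e1.2, e2.1, e2.2, hdq'.1, hdq'.2]
    · -- Z
      have hz1 := (mem_sdiff.1 h).1
      rw [hins_in v hz1]
      have e1 := abs_le.1 ((cells.nw v hv (π v + 1)).col (χ v))
      have e2 := abs_le.1 ((cells.nw v hv (π v - 1)).row (ρ v))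
      have hR : (imb π (RG π G U U1 U2 ρ χ) U v : ℝ) =
          (((nb G v (pt π (U \ U1) (π v + 1))).filter (fun z => χ z = χ v)).card : ℝ) -
          (((nb G v (pt π (U \ U1) (π v - 1))).filter (fun z => ρ z = ρ v)).card : ℝ) := by
        rw [imb, dg, dg, C1_nb_z1 h, C1_nb_z2 h]; push_cast; rfl
      have s1 := C1_dg_split (π := π) (G := G) hs1 v (π v + 1)
      have s2 := C1_dg_split (π := π) (G := G) hs1 v (π v - 1)
      have s1R : ((nb G v (pt π (U \ U1) (π v + 1))).card : ℝ) =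
          dg G v (pt π U (π v + 1)) - dg G v (pt π U1 (π v + 1)) := by
        rw [← s1, dg]; push_cast; ring
      have s2R : ((nb G v (pt π (U \ U1) (π v - 1))).card : ℝ) =
          dg G v (pt π U (π v - 1)) - dg G v (pt π U1 (π v - 1)) := by
        rw [← s2, dg]; push_cast; ring
      have i1 := abs_le.1 (hyp.imb1 v hz1)
      have i0 : (imb π G U v : ℝ) = 0 := by rw [himbG v]; simp
      have hkey : ((nb G v (pt π (U \ U1) (π v + 1))).card : ℝ) -
          ((nb G v (pt π (U \ U1) (π v - 1))).card : ℝ) = - (imb π G U1 v : ℝ) := by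
        rw [s1R, s2R]
        rw [imb] at i0
        push_cast at i0
        rw [imb]
        push_cast
        linarith
      have hkeyq : ((nb G v (pt π (U \ U1) (π v + 1))).card : ℝ) / q -
          ((nb G v (pt π (U \ U1) (π v - 1))).card : ℝ) / q = - (imb π G U1 v : ℝ) / q := by
        rw [← sub_div, hkey]
      have hfr : |-(imb π G U1 v : ℝ) + (imb π G U1 v : ℝ) / q| ≤ γ0 * N1 := by
        have : -(imb π G U1 v : ℝ) + (imb π G U1 v : ℝ) / q = -(imb π G U1 v : ℝ) * (1 - 1 / q) := by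
          ring
        rw [this, abs_mul, abs_neg]
        have h1q : |1 - 1 / (q:ℝ)| ≤ 1 := by
          have a1 : 1 / (q:ℝ) ≤ 1 := by rw [div_le_one hqR]; exact hq1
          have a2 : 0 ≤ 1 / (q:ℝ) := by positivity
          rw [abs_le]; constructor <;> linarith
        calc |(imb π G U1 v : ℝ)| * |1 - 1 / (q:ℝ)| ≤ |(imb π G U1 v : ℝ)| * 1 :=
              mul_le_mul_of_nonneg_left h1q (abs_nonneg _)
          _ ≤ γ0 * N1 := by rw [mul_one]; exact hyp.imb1 v hz1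
      have hfr' := abs_le.1 hfr
      have g1 : 0 ≤ 2 * γ1 * (N1 : ℝ) := by positivity
      have hdq : - (imb π G U1 v : ℝ) / q = - ((imb π G U1 v : ℝ) / q) := by ring
      rw [hdq] at hkeyq
      rw [hR, abs_le]
      constructor <;> linarith [e1.1, e1.2, e2.1, e2.2, hfr'.1, hfr'.2]
    · -- U2
      have h2 : (imb π (RG π G U U1 U2 ρ χ) U v : ℝ) = 0 := by
        rw [imb, C1_nb_u hs2 h, C1_nb_u hs2 h]; simp
      rw [h2, hins_in v (hs2 h), sub_zero, abs_neg]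
      have := hyp.imb1 v (hs2 h)
      have g1 : 0 ≤ 2 * γ1 * (N1 : ℝ) := by positivity
      linarith
  · intro v hv
    have h2 : (imb π (RG π G U U1 U2 ρ χ) U v : ℝ) = 0 := by
      rw [imb, C1_nb_u hs2 hv, C1_nb_u hs2 hv]; simp
    rw [himbHG v, h2, hins_in v (hs2 hv), sub_zero, abs_neg]
    exact hyp.imb1 v (hs2 hv)

end DH
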