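import Pool.Agent.Lib.MP_fe8cb7_co.h25.StC

/-!
# Daykin-Haggkvist problem: piece C2 (counting reserved common neighbours)
-/

open Finset

namespace DH

/-- common neighbours in `U1 \ U2` -/
private theorem C2_common {V : Type} [Fintype V] [DecidableEq V] {π : V → ZMod 3}
    {G : SimpleGraph V} {U U1 U2 : Finset V} {N N1 N2 K : ℕ} {c η γ0 γ1 : ℝ}
    (h : CDHyp π G U U1 U2 N N1 N2 K c η γ0 γ1) (hη : 0 < η) {x y : V} (hx : x ∈ U) (hy : y ∈ U)
    {i : ZMod 3} (hix : i ≠ π x) (hiy : i ≠ π y) :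
    (1 - 2 * c) * N1 - N2 ≤
      ((nb G x (pt π (U1 \ U2) i) ∩ nb G y (pt π (U1 \ U2) i)).card : ℝ) := by
  have h1 := h.deg1 x hx i hix
  have h2 := h.deg1 y hy i hiy
  have h3 : (pt π U1 i).card = N1 := h.szU1 i
  have h4 : (pt π U2 i).card = N2 := h.szU2 i
  have h5 : (nb G x (pt π U1 i) ∪ nb G y (pt π U1 i)).card ≤ N1 := by
    rw [← h3]
    exact card_le_card (union_subset (nb_subset x) (nb_subset y))
  have h6 := card_union_add_card_inter (nb G x (pt π U1 i)) (nb G y (pt π U1 i))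
  have h7 : (nb G x (pt π U1 i) ∩ nb G y (pt π U1 i)).card ≤
      (nb G x (pt π (U1 \ U2) i) ∩ nb G y (pt π (U1 \ U2) i)).card + N2 := by
    rw [← h4]
    refine (card_le_card ?_).trans (card_union_le _ _)
    intro z hz
    rw [mem_inter, mem_nb, mem_nb, mem_pt] at hz
    obtain ⟨⟨⟨hz1, hz2⟩, hz3⟩, -, hz4⟩ := hz
    rw [mem_union, mem_inter, mem_nb, mem_nb, mem_pt, mem_pt, mem_sdiff]
    by_cases hzU : z ∈ U2
    · exact Or.inr ⟨hzU, hz2⟩
    · exact Or.inl ⟨⟨⟨⟨hz1, hzU⟩, hz2⟩, hz3⟩, ⟨⟨hz1, hzU⟩, hz2⟩, hz4⟩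
  have h8 : (nb G x (pt π U1 i)).card + (nb G y (pt π U1 i)).card ≤
      (nb G x (pt π (U1 \ U2) i) ∩ nb G y (pt π (U1 \ U2) i)).card + N2 + N1 := by
    omega
  have h9 : ((nb G x (pt π U1 i)).card : ℝ) + (nb G y (pt π U1 i)).card ≤
      (nb G x (pt π (U1 \ U2) i) ∩ nb G y (pt π (U1 \ U2) i)).card + N2 + N1 := by
    exact_mod_cast h8
  have h10 : (0 : ℝ) ≤ η * N1 := by positivity
  unfold dg at h1 h2
  nlinarith

private theorem C2_one {V : Type} [Fintype V] [DecidableEq V] {π : V → ZMod 3}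
    {G : SimpleGraph V} {U U1 U2 : Finset V} {N N1 N2 K q : ℕ} {c η γ0 γ1 E : ℝ}
    {ρ χ : V → Fin q}
    (h : CDHyp π G U U1 U2 N N1 N2 K c η γ0 γ1) (hc : Cells π G U U1 U2 ρ χ E) (hq : 0 < q)
    (hη : 0 < η) {x y : V} (hx : x ∈ U \ U1) (hy : y ∈ U \ U1) (hxy : π y = π x + 1) :
    ((1 - 2 * c) * N1 - N2) / q ^ 2 - E
      ≤ ((nb (RG π G U U1 U2 ρ χ) x (U1 \ U2) ∩ nb (RG π G U U1 U2 ρ χ) y (U1 \ U2)).card : ℝ) := by
  have hxU := (mem_sdiff.1 hx).1
  have hyU := (mem_sdiff.1 hy).1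
  have hi2 : π x - 1 = π y + 1 := by
    rw [hxy]
    generalize π x = j
    revert j
    decide
  have hcom := C2_common h hη hxU hyU (i := π x - 1) (zmod3_ne2 _)
    (by rw [hi2]; exact zmod3_ne1 _)
  have hev := hc.nz x hxU y hyU (π x - 1) (ρ y) (χ x)
  have hev' := (abs_le.1 hev).1
  have hqq : (0 : ℝ) < (q : ℝ) ^ 2 := by positivity
  have h1 : ((1 - 2 * c) * N1 - N2) / (q : ℝ) ^ 2 ≤
      ((nb G x (pt π (U1 \ U2) (π x - 1)) ∩ nb G y (pt π (U1 \ U2) (π x - 1))).card : ℝ) / q ^ 2 :=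
    div_le_div_of_nonneg_right hcom hqq.le
  have h2 : ((nb G x (pt π (U1 \ U2) (π x - 1)) ∩ nb G y (pt π (U1 \ U2) (π x - 1))).filter
      (fun z => ρ z = ρ y ∧ χ z = χ x)).card ≤
      (nb (RG π G U U1 U2 ρ χ) x (U1 \ U2) ∩ nb (RG π G U U1 U2 ρ χ) y (U1 \ U2)).card := by
    apply card_le_card
    intro z hz
    rw [mem_filter, mem_inter, mem_nb, mem_nb, mem_pt] at hz
    obtain ⟨⟨⟨⟨hz1, hz2⟩, hz3⟩, -, hz4⟩, hz5, hz6⟩ := hz
    rw [mem_inter, mem_nb, mem_nb]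
    exact ⟨⟨hz1, hz3, Or.inl ⟨hx, hz1, Or.inr ⟨hz2, hz6⟩⟩⟩,
      hz1, hz4, Or.inl ⟨hy, hz1, Or.inl ⟨hz2.trans hi2, hz5⟩⟩⟩
  have h3 : (((nb G x (pt π (U1 \ U2) (π x - 1)) ∩ nb G y (pt π (U1 \ U2) (π x - 1))).filter
      (fun z => ρ z = ρ y ∧ χ z = χ x)).card : ℝ) ≤
      ((nb (RG π G U U1 U2 ρ χ) x (U1 \ U2) ∩ nb (RG π G U U1 U2 ρ χ) y (U1 \ U2)).card : ℝ) := by
    exact_mod_cast h2
  linarith

/-- neighbours of `w ∈ U \ U1` in the reserved graph -/
private theorem C2_adj {V : Type} [DecidableEq V] {π : V → ZMod 3}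
    {G : SimpleGraph V} {U U1 U2 : Finset V} {q : ℕ} {ρ χ : V → Fin q} {w z : V}
    (hw : w ∉ U1) (h : (RG π G U U1 U2 ρ χ).Adj w z) :
    G.Adj w z ∧ Res π ρ χ w z := by
  obtain ⟨h1, h2⟩ := h
  rcases h2 with h2 | h2
  · exact ⟨h1, h2.2.2⟩
  · exact absurd (mem_sdiff.1 h2.2.1).1 hw

theorem p_C2 : S_C2 := by
  intro V _ _ π G U U1 U2 N N1 N2 K q c η γ0 γ1 E ρ χ h hc hq hE hη
  have hq' : (0 : ℝ) < q := by exact_mod_cast hq
  refine ⟨?_, ?_, ?_, ?_⟩
  · intro x hx y hy hxy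
    rcases zmod3_cases (π x) (π y) with h1 | h1 | h1
    · exact absurd h1.symm hxy
    · exact C2_one h hc hq hη hx hy h1
    · have h2 : π x = π y + 1 := by rw [h1]; ring
      rw [inter_comm]
      exact C2_one h hc hq hη hy hx h2
  · intro w hw u hu i _ hiu hiw
    have hwU := (mem_sdiff.1 hw).1
    have hcom := C2_common h hη hwU hu hiw hiu
    have h1 : ((1 - 2 * c) * N1 - N2) / (q : ℝ) ≤
        ((nb G w (pt π (U1 \ U2) i) ∩ nb G u (pt π (U1 \ U2) i)).card : ℝ) / q :=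
      div_le_div_of_nonneg_right hcom hq'.le
    have hev := hc.nz w hwU u hu i
    rcases zmod3_cases (π w) i with hi | hi | hi
    · exact absurd hi hiw
    · have h2 := (abs_le.1 (hev.row (ρ w))).1
      have h3 : ((nb G w (pt π (U1 \ U2) i) ∩ nb G u (pt π (U1 \ U2) i)).filter
          (fun z => ρ z = ρ w)).card ≤
          (nb (RG π G U U1 U2 ρ χ) w (pt π (U1 \ U2) i) ∩ nb G u (pt π (U1 \ U2) i)).card := by
        apply card_le_card
        intro z hz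
        rw [mem_filter, mem_inter, mem_nb, mem_nb] at hz
        obtain ⟨⟨⟨hz1, hz3⟩, -, hz4⟩, hz5⟩ := hz
        have hz2 := mem_pt.1 hz1
        rw [mem_inter, mem_nb, mem_nb]
        exact ⟨⟨hz1, hz3, Or.inl ⟨hw, hz2.1, Or.inl ⟨hz2.2.trans hi, hz5⟩⟩⟩, hz1, hz4⟩
      have h4 : (((nb G w (pt π (U1 \ U2) i) ∩ nb G u (pt π (U1 \ U2) i)).filter
          (fun z => ρ z = ρ w)).card : ℝ) ≤
          ((nb (RG π G U U1 U2 ρ χ) w (pt π (U1 \ U2) i) ∩ nb G u (pt π (U1 \ U2) i)).card : ℝ) := by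
        exact_mod_cast h3
      linarith
    · have h2 := (abs_le.1 (hev.col (χ w))).1
      have h3 : ((nb G w (pt π (U1 \ U2) i) ∩ nb G u (pt π (U1 \ U2) i)).filter
          (fun z => χ z = χ w)).card ≤
          (nb (RG π G U U1 U2 ρ χ) w (pt π (U1 \ U2) i) ∩ nb G u (pt π (U1 \ U2) i)).card := by
        apply card_le_card
        intro z hz
        rw [mem_filter, mem_inter, mem_nb, mem_nb] at hz
        obtain ⟨⟨⟨hz1, hz3⟩, -, hz4⟩, hz5⟩ := hz
        have hz2 := mem_pt.1 hz1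
        rw [mem_inter, mem_nb, mem_nb]
        exact ⟨⟨hz1, hz3, Or.inl ⟨hw, hz2.1, Or.inr ⟨hz2.2.trans hi, hz5⟩⟩⟩, hz1, hz4⟩
      have h4 : (((nb G w (pt π (U1 \ U2) i) ∩ nb G u (pt π (U1 \ U2) i)).filter
          (fun z => χ z = χ w)).card : ℝ) ≤
          ((nb (RG π G U U1 U2 ρ χ) w (pt π (U1 \ U2) i) ∩ nb G u (pt π (U1 \ U2) i)).card : ℝ) := by
        exact_mod_cast h3
      linarith
  · intro w hw i
    obtain ⟨hwU, hwU1⟩ := mem_sdiff.1 hw
    have hev := hc.nz w hwU w hwU i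
    rw [inter_self] at hev
    have hcard : ((nb G w (pt π (U1 \ U2) i)).card : ℝ) ≤ N1 := by
      have h1 : (nb G w (pt π (U1 \ U2) i)).card ≤ (pt π U1 i).card :=
        card_le_card ((nb_subset w).trans (pt_mono sdiff_subset i))
      rw [h.szU1 i] at h1
      exact_mod_cast h1
    have hcard' : ((nb G w (pt π (U1 \ U2) i)).card : ℝ) / q ≤ N1 / q :=
      div_le_div_of_nonneg_right hcard hq'.le
    rcases zmod3_cases (π w) i with hi | hi | hi
    · have h0 : dg (RG π G U U1 U2 ρ χ) w (pt π (U1 \ U2) i) = 0 := by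
        rw [dg, card_eq_zero, eq_empty_iff_forall_notMem]
        intro z hz
        obtain ⟨hz1, hz2⟩ := mem_nb.1 hz
        have := h.tri w z (C2_adj hwU1 hz2).1
        exact this ((mem_pt.1 hz1).2.trans hi).symm
      rw [h0, Nat.cast_zero]
      positivity
    · have h2 := (abs_le.1 (hev.row (ρ w))).2
      have h3 : dg (RG π G U U1 U2 ρ χ) w (pt π (U1 \ U2) i) ≤
          ((nb G w (pt π (U1 \ U2) i)).filter (fun z => ρ z = ρ w)).card := by
        apply card_le_card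
        intro z hz
        obtain ⟨hz1, hz2⟩ := mem_nb.1 hz
        obtain ⟨hz3, hz4⟩ := C2_adj hwU1 hz2
        rw [mem_filter, mem_nb]
        refine ⟨⟨hz1, hz3⟩, ?_⟩
        rcases hz4 with hz4 | hz4
        · exact hz4.2
        · exact absurd ((hi.symm.trans (mem_pt.1 hz1).2.symm).trans hz4.1) (zmod3_ne3 _)
      have h4 : (dg (RG π G U U1 U2 ρ χ) w (pt π (U1 \ U2) i) : ℝ) ≤
          (((nb G w (pt π (U1 \ U2) i)).filter (fun z => ρ z = ρ w)).card : ℝ) := by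
        exact_mod_cast h3
      linarith
    · have h2 := (abs_le.1 (hev.col (χ w))).2
      have h3 : dg (RG π G U U1 U2 ρ χ) w (pt π (U1 \ U2) i) ≤
          ((nb G w (pt π (U1 \ U2) i)).filter (fun z => χ z = χ w)).card := by
        apply card_le_card
        intro z hz
        obtain ⟨hz1, hz2⟩ := mem_nb.1 hz
        obtain ⟨hz3, hz4⟩ := C2_adj hwU1 hz2
        rw [mem_filter, mem_nb]
        refine ⟨⟨hz1, hz3⟩, ?_⟩
        rcases hz4 with hz4 | hz4
        · exact absurd ((hz4.1.symm.trans (mem_pt.1 hz1).2).trans hi) (zmod3_ne3 _)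
        · exact hz4.2
      have h4 : (dg (RG π G U U1 U2 ρ χ) w (pt π (U1 \ U2) i) : ℝ) ≤
          (((nb G w (pt π (U1 \ U2) i)).filter (fun z => χ z = χ w)).card : ℝ) := by
        exact_mod_cast h3
      linarith
  · intro z hz
    have hzU : z ∈ U := h.sub1 hz
    have hN : ∀ i : ZMod 3, ((nb G z (pt π (U \ U1) i)).card : ℝ) / q ≤ N / q := by
      intro i
      apply div_le_div_of_nonneg_right _ hq'.le
      have h1 : (nb G z (pt π (U \ U1) i)).card ≤ (pt π U i).card :=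
        card_le_card ((nb_subset z).trans (pt_mono sdiff_subset i))
      rw [h.szU i] at h1
      exact_mod_cast h1
    have h1 := (abs_le.1 ((hc.nw z hzU (π z - 1)).row (ρ z))).2
    have h2 := (abs_le.1 ((hc.nw z hzU (π z + 1)).col (χ z))).2
    have h3 : dg (RG π G U U1 U2 ρ χ) z (U \ U1) ≤
        ((nb G z (pt π (U \ U1) (π z - 1))).filter (fun w => ρ w = ρ z)).card +
        ((nb G z (pt π (U \ U1) (π z + 1))).filter (fun w => χ w = χ z)).card := by
      refine (card_le_card ?_).trans (card_union_le _ _)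
      intro w hw
      obtain ⟨hw1, hw2, hw3⟩ := mem_nb.1 hw
      rcases hw3 with hw3 | hw3
      · exact absurd hz (mem_sdiff.1 hw3.1).2
      · obtain ⟨hw4, hw5, hw6⟩ := hw3
        rw [mem_union, mem_filter, mem_filter, mem_nb, mem_nb, mem_pt, mem_pt]
        rcases hw6 with hw6 | hw6
        · left
          refine ⟨⟨⟨hw4, ?_⟩, hw2⟩, hw6.2.symm⟩
          rw [hw6.1]
          ring
        · right
          refine ⟨⟨⟨hw4, ?_⟩, hw2⟩, hw6.2.symm⟩
          rw [hw6.1]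
          ring
    have h4 : (dg (RG π G U U1 U2 ρ χ) z (U \ U1) : ℝ) ≤
        (((nb G z (pt π (U \ U1) (π z - 1))).filter (fun w => ρ w = ρ z)).card : ℝ) +
        (((nb G z (pt π (U \ U1) (π z + 1))).filter (fun w => χ w = χ z)).card : ℝ) := by
      exact_mod_cast h3
    have h5 := hN (π z - 1)
    have h6 := hN (π z + 1)
    linarith

end DH
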