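import Pool.Agent.Lib.MP_fe8cb7_co.h25.StC

/-! [C3] covering the leftover edges inside `W`. -/

open Finset

namespace DH

private def C3_good {V : Type} (R : SimpleGraph V) (Z : Finset V) (P : Finset (Sym2 V))
    (z : Sym2 V → V) : Prop :=
  (∀ e ∈ P, z e ∈ Z ∧ ∀ v ∈ e, R.Adj v (z e)) ∧
  (∀ e ∈ P, ∀ e' ∈ P, e ≠ e' → ∀ v, v ∈ e → v ∈ e' → z e ≠ z e')

theorem p_C3 : S_C3 := by
  classical
  intro V _ _ L R W Z d hWZ hL hR
  let P : Finset (Sym2 V) := univ.filter (fun e => e ∈ L.edgeSet ∧ ∀ v ∈ e, v ∈ W)
  have mP : ∀ e, e ∈ P ↔ e ∈ L.edgeSet ∧ ∀ v ∈ e, v ∈ W := by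
    intro e; simp [P]
  have hPx : ∀ x ∈ W, ∀ P' ⊆ P, (P'.filter (fun e => x ∈ e)).card ≤ d := by
    intro x hx P' hP'
    refine le_trans ?_ (hL x hx)
    have : P'.filter (fun e => x ∈ e) ⊆ (nb L x W).image (fun v => s(x, v)) := by
      intro e he
      rw [mem_filter] at he
      obtain ⟨h1, h2⟩ := he
      obtain ⟨y, rfl⟩ := Sym2.mem_iff_exists.1 h2
      have h3 := (mP _).1 (hP' h1)
      refine mem_image.2 ⟨y, mem_nb.2 ⟨h3.2 y (Sym2.mem_mk_right x y), ?_⟩, rfl⟩
      exact (SimpleGraph.mem_edgeSet L).1 h3.1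
    exact (card_le_card this).trans card_image_le
  have hex : ∀ P' ⊆ P, ∃ z : Sym2 V → V, C3_good R Z P' z := by
    intro P'
    induction P' using Finset.induction_on with
    | empty =>
      intro _
      by_cases hV : Nonempty V
      · obtain ⟨v0⟩ := hV
        refine ⟨fun _ => v0, ?_, ?_⟩
        · intro e he; exact absurd he (notMem_empty e)
        · intro e he; exact absurd he (notMem_empty e)
      · refine ⟨fun e => absurd ⟨(Quot.out e).1⟩ hV, ?_, ?_⟩
        · intro e he; exact absurd he (notMem_empty e)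
        · intro e he; exact absurd he (notMem_empty e)
    | insert e P' he ih =>
      intro hsub
      obtain ⟨z, g1, g2⟩ := ih ((subset_insert _ _).trans hsub)
      have hP' : P' ⊆ P := (subset_insert _ _).trans hsub
      induction e using Sym2.inductionOn with
      | hf x y =>
      have heP := (mP _).1 (hsub (mem_insert_self _ _))
      have hxW := heP.2 x (Sym2.mem_mk_left x y)
      have hyW := heP.2 y (Sym2.mem_mk_right x y)
      have hxy : L.Adj x y := (SimpleGraph.mem_edgeSet L).1 heP.1
      have h1 := hR x hxW y hyW hxy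
      let B : Finset V := (P'.filter (fun e => x ∈ e)).image z ∪
        (P'.filter (fun e => y ∈ e)).image z
      have hB : B.card ≤ 2 * d := by
        refine (card_union_le _ _).trans ?_
        have a1 := (card_image_le (s := P'.filter (fun e => x ∈ e)) (f := z)).trans
          (hPx x hxW P' hP')
        have a2 := (card_image_le (s := P'.filter (fun e => y ∈ e)) (f := z)).trans
          (hPx y hyW P' hP')
        omega
      have h2 : ¬ (nb R x Z ∩ nb R y Z ⊆ B) := by
        intro h
        have := card_le_card h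
        omega
      obtain ⟨c, hc1, hc2⟩ := not_subset.1 h2
      rw [mem_inter, mem_nb, mem_nb] at hc1
      have hcP : ∀ e' ∈ P', ∀ v, v ∈ s(x, y) → v ∈ e' → c ≠ z e' := by
        intro e' he' v hv hve' hcz
        apply hc2
        rcases Sym2.mem_iff.1 hv with rfl | rfl
        · exact mem_union_left _ (mem_image.2 ⟨e', mem_filter.2 ⟨he', hve'⟩, hcz.symm⟩)
        · exact mem_union_right _ (mem_image.2 ⟨e', mem_filter.2 ⟨he', hve'⟩, hcz.symm⟩)
      refine ⟨Function.update z s(x, y) c, ?_, ?_⟩
      · intro e' he'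
        rcases mem_insert.1 he' with rfl | h
        · rw [Function.update_self]
          refine ⟨hc1.1.1, ?_⟩
          intro v hv
          rcases Sym2.mem_iff.1 hv with rfl | rfl
          · exact hc1.1.2
          · exact hc1.2.2
        · have hne : e' ≠ s(x, y) := fun h' => he (h' ▸ h)
          rw [Function.update_of_ne hne]
          exact g1 e' h
      · intro e1 he1 e2 he2 hne v hv1 hv2
        rcases mem_insert.1 he1 with rfl | h1' <;> rcases mem_insert.1 he2 with rfl | h2'
        · exact absurd rfl hne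
        · rw [Function.update_self, Function.update_of_ne (Ne.symm hne)]
          exact hcP e2 h2' v hv1 hv2
        · rw [Function.update_self, Function.update_of_ne hne]
          exact (hcP e1 h1' v hv2 hv1).symm
        · have hne1 : e1 ≠ s(x, y) := fun h' => he (h' ▸ h1')
          have hne2 : e2 ≠ s(x, y) := fun h' => he (h' ▸ h2')
          rw [Function.update_of_ne hne1, Function.update_of_ne hne2]
          exact g2 e1 h1' e2 h2' hne v hv1 hv2
  obtain ⟨z, g1, g2⟩ := hex P (Subset.refl P)
  have hnWZ : ∀ v, v ∈ W → v ∈ Z → False := fun v h1 h2 => disjoint_left.1 hWZ h1 h2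
  let T : Finset (Finset V) := P.image (fun e => insert (z e) (univ.filter (fun v => v ∈ e)))
  have mT : ∀ t, t ∈ T ↔ ∃ e ∈ P, insert (z e) (univ.filter (fun v => v ∈ e)) = t := by
    intro t
    simp only [T, mem_image]
  have mt : ∀ e v, v ∈ insert (z e) (univ.filter (fun v => v ∈ e)) ↔ v = z e ∨ v ∈ e := by
    intro e v
    simp
  refine ⟨T, ⟨?_, ?_⟩, ?_, ?_, ?_⟩
  · intro t ht
    obtain ⟨e, he, rfl⟩ := (mT t).1 ht
    induction e using Sym2.inductionOn with
    | hf x y =>
    have hxy : L.Adj x y := (SimpleGraph.mem_edgeSet L).1 ((mP _).1 he).1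
    rw [SimpleGraph.is3Clique_iff]
    refine ⟨x, y, z s(x, y), Or.inl hxy, Or.inr ((g1 _ he).2 x (Sym2.mem_mk_left x y)),
      Or.inr ((g1 _ he).2 y (Sym2.mem_mk_right x y)), ?_⟩
    ext v
    rw [mt, Sym2.mem_iff]
    simp only [mem_insert, mem_singleton]
    tauto
  · intro t ht t' ht' hne u hu v hv hu' hv'
    obtain ⟨e, he, rfl⟩ := (mT t).1 ht
    obtain ⟨e', he', rfl⟩ := (mT t').1 ht'
    have hee : e ≠ e' := by
      rintro rfl
      exact hne rfl
    by_contra huv
    have hZ := (g1 e he).1
    have hZ' := (g1 e' he').1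
    have hW := ((mP e).1 he).2
    have hW' := ((mP e').1 he').2
    rw [mt] at hu hv hu' hv'
    rcases hu with a | a
    · rcases hv with b | b
      · exact huv (a.trans b.symm)
      · have hu2 : u = z e' := by
          rcases hu' with h | h
          · exact h
          · exact absurd (a ▸ hZ) (hnWZ u (hW' u h))
        have hv2 : v ∈ e' := by
          rcases hv' with h | h
          · exact absurd (h ▸ hZ') (hnWZ v (hW v b))
          · exact h
        exact g2 e he e' he' hee v b hv2 (a.symm.trans hu2)
    · have hu2 : u ∈ e' := by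
        rcases hu' with h | h
        · exact absurd (h ▸ hZ') (hnWZ u (hW u a))
        · exact h
      rcases hv with b | b
      · have hv2 : v = z e' := by
          rcases hv' with h | h
          · exact h
          · exact absurd (b ▸ hZ) (hnWZ v (hW' v h))
        exact g2 e he e' he' hee u a hu2 (b.symm.trans hv2)
      · have hv2 : v ∈ e' := by
          rcases hv' with h | h
          · exact absurd (h ▸ hZ') (hnWZ v (hW v b))
          · exact h
        exact hee (((Sym2.mem_and_mem_iff huv).1 ⟨a, b⟩).trans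
          ((Sym2.mem_and_mem_iff huv).1 ⟨hu2, hv2⟩).symm)
  · intro x hx y hy hxy
    have he : s(x, y) ∈ P := by
      rw [mP]
      refine ⟨(SimpleGraph.mem_edgeSet L).2 hxy, ?_⟩
      intro v hv
      rcases Sym2.mem_iff.1 hv with rfl | rfl
      · exact hx
      · exact hy
    refine ⟨hxy.ne, _, (mT _).2 ⟨s(x, y), he, rfl⟩, ?_, ?_⟩
    · exact (mt _ _).2 (Or.inr (Sym2.mem_mk_left x y))
    · exact (mt _ _).2 (Or.inr (Sym2.mem_mk_right x y))
  · rintro x y ⟨hxy, t, ht, hx, hy⟩
    obtain ⟨e, he, rfl⟩ := (mT t).1 ht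
    have hZ := (g1 e he).1
    have hRz := (g1 e he).2
    have hW := ((mP e).1 he).2
    rw [mt] at hx hy
    rcases hx with a | a
    · rcases hy with b | b
      · exact absurd (a.trans b.symm) hxy
      · right; right
        rw [a]
        exact ⟨(hRz y b).symm, hZ, hW y b⟩
    · rcases hy with b | b
      · right; left
        rw [b]
        exact ⟨hRz x a, hW x a, hZ⟩
      · left
        have h1 : e = s(x, y) := (Sym2.mem_and_mem_iff hxy).1 ⟨a, b⟩
        have h2 := ((mP e).1 he).1
        rw [h1] at h2
        exact ⟨(SimpleGraph.mem_edgeSet L).1 h2, hW x a, hW y b⟩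
  · intro x hx
    have : nb (cov T) x Z ⊆ (P.filter (fun e => x ∈ e)).image z := by
      intro v hv
      obtain ⟨hvZ, hxv, t, ht, hxt, hvt⟩ := mem_nb.1 hv
      obtain ⟨e, he, rfl⟩ := (mT t).1 ht
      rw [mt] at hxt hvt
      have hW := ((mP e).1 he).2
      have hZ := (g1 e he).1
      have a1 : v = z e := by
        rcases hvt with h | h
        · exact h
        · exact absurd hvZ (hnWZ v (hW v h))
      have a2 : x ∈ e := by
        rcases hxt with h | h
        · exact absurd (h ▸ hZ) (hnWZ x hx)
        · exact h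
      exact mem_image.2 ⟨e, mem_filter.2 ⟨he, a2⟩, a1.symm⟩
    exact (card_le_card this).trans (card_image_le.trans (hPx x hx P (Subset.refl P)))

end DH
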