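import Pool.Agent.Lib.MP_fe8cb7_co.h25.StC

/-!
# Daykin-Haggkvist problem: piece [C4] (helper18)
-/

open Finset

namespace DH

section C4

variable {V : Type} [Fintype V] [DecidableEq V] {L R Q : SimpleGraph V} {W U1 U2 : Finset V}
  {d Λ Λ2 a a2 : ℕ}

open Classical in
/-- the pairs -/
private noncomputable def C4_P (L : SimpleGraph V) (W U1 : Finset V) : Finset (V × V) :=
  (W ×ˢ U1).filter (fun e => L.Adj e.1 e.2)

omit [Fintype V] [DecidableEq V] in
private theorem C4_mem {e : V × V} : e ∈ C4_P L W U1 ↔ (e.1 ∈ W ∧ e.2 ∈ U1) ∧ L.Adj e.1 e.2 := by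
  classical
  unfold C4_P
  rw [mem_filter, mem_product]

omit [Fintype V] in
private theorem C4_fst (w : V) :
    ((C4_P L W U1).filter (fun e => e.1 = w)).card ≤ dg L w U1 := by
  classical
  unfold dg
  apply card_le_card_of_injOn (fun e => e.2)
  · intro e he
    rw [mem_coe, mem_filter, C4_mem] at he
    rw [mem_coe, mem_nb]
    exact ⟨he.1.1.2, he.2 ▸ he.1.2⟩
  · intro e he e' he' h
    rw [mem_coe, mem_filter] at he he'
    exact Prod.ext (he.2.trans he'.2.symm) h

omit [Fintype V] in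
private theorem C4_snd (u : V) :
    ((C4_P L W U1).filter (fun e => e.2 = u)).card ≤ dg L u W := by
  classical
  unfold dg
  apply card_le_card_of_injOn (fun e => e.1)
  · intro e he
    rw [mem_coe, mem_filter, C4_mem] at he
    rw [mem_coe, mem_nb]
    exact ⟨he.1.1.1, he.2 ▸ he.1.2.symm⟩
  · intro e he e' he' h
    rw [mem_coe, mem_filter] at he he'
    exact Prod.ext h (he.2.trans he'.2.symm)

omit [Fintype V] in
private theorem C4_card (S : Finset V) :
    ((C4_P L W U1).filter (fun e => e.2 ∈ S)).card ≤ ∑ u ∈ S, dg L u W := by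
  classical
  rw [card_eq_sum_card_fiberwise (f := fun e : V × V => e.2) (t := S)]
  · refine sum_le_sum fun u hu => ?_
    refine le_trans (card_le_card ?_) (C4_snd (U1 := U1) u)
    intro e he
    rw [mem_filter, mem_filter] at he
    exact mem_filter.2 ⟨he.1.1, he.2⟩
  · intro e he
    rw [mem_coe, mem_filter] at he
    exact mem_coe.2 he.2

/-- the conditions on the choice of the third vertices -/
private structure C4_Good (L R Q : SimpleGraph V) (W U1 U2 : Finset V) (Λ Λ2 : ℕ)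
    (P : Finset (V × V)) (z : V × V → V) : Prop where
  mem : ∀ e ∈ P, z e ∈ U1 \ U2 ∧ R.Adj e.1 (z e) ∧ Q.Adj e.2 (z e)
  same : ∀ e ∈ P, ∀ e' ∈ P, e ≠ e' → e.1 = e'.1 → z e ≠ z e'
  diff : ∀ e ∈ P, ∀ e' ∈ P, e.1 ≠ e'.1 → ¬ (e.2 = e'.2 ∧ z e = z e') ∧ ¬ (e.2 = z e' ∧ z e = e'.2)
  load : ∀ v, (P.filter (fun e => z e = v)).card ≤ Λ
  load2 : ∀ v, (P.filter (fun e => z e = v ∧ e.2 ∈ U2)).card ≤ Λ2

/-- vertices of large load are few -/
private theorem C4_heavy {P : Finset (V × V)} (z : V × V → V) (p : V × V → Prop) [DecidablePred p]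
    {Λ a n : ℕ} (hΛ : 1 ≤ Λ) (hP : (P.filter p).card ≤ n) (hn : n ≤ a * Λ) :
    (univ.filter (fun v : V => Λ ≤ (P.filter (fun e => z e = v ∧ p e)).card)).card ≤ a := by
  classical
  have h1 : (univ.filter (fun v : V => Λ ≤ (P.filter (fun e => z e = v ∧ p e)).card)).card * Λ ≤
      (P.filter p).card := by
    rw [card_eq_sum_card_fiberwise (s := P.filter p) (f := z) (t := univ)
      (fun _ _ => mem_coe.2 (mem_univ _)), ← smul_eq_mul, ← sum_const]
    have h2 : ∀ v ∈ univ.filter (fun v : V => Λ ≤ (P.filter (fun e => z e = v ∧ p e)).card),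
        Λ ≤ ((P.filter p).filter (fun e => z e = v)).card := by
      intro v hv
      refine (mem_filter.1 hv).2.trans (card_le_card ?_)
      intro e he
      rw [mem_filter] at he
      exact mem_filter.2 ⟨mem_filter.2 ⟨he.1, he.2.2⟩, he.2.1⟩
    exact (sum_le_sum h2).trans (sum_le_sum_of_subset (subset_univ _))
  exact Nat.le_of_mul_le_mul_right ((h1.trans hP).trans hn) hΛ

private theorem C4_step (hUU : U2 ⊆ U1)
    (hd1 : ∀ w ∈ W, dg L w U1 ≤ d) (hd2 : ∀ u ∈ U1, dg L u W ≤ d) (hΛ : 1 ≤ Λ) (hΛ2 : 1 ≤ Λ2)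
    (ha : ∑ u ∈ U1, dg L u W ≤ a * Λ) (ha2 : ∑ u ∈ U2, dg L u W ≤ a2 * Λ2)
    (hcand : ∀ w ∈ W, ∀ u ∈ U1, L.Adj w u →
      2 * d + Λ + a + a2 < (nb R w (U1 \ U2) ∩ nb Q u (U1 \ U2)).card)
    {P : Finset (V × V)} (hP : P ⊆ C4_P L W U1) {e : V × V} (he : e ∈ C4_P L W U1) (heP : e ∉ P)
    {z : V × V → V} (hz : C4_Good L R Q W U1 U2 Λ Λ2 P z) :
    ∃ z', C4_Good L R Q W U1 U2 Λ Λ2 (insert e P) z' := by
  classical
  obtain ⟨⟨heW, heU⟩, heL⟩ := C4_mem.1 he
  obtain ⟨F1, hF1⟩ : ∃ F, F = (P.filter (fun e' => e'.1 = e.1)).image z := ⟨_, rfl⟩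
  obtain ⟨F2, hF2⟩ : ∃ F, F = (P.filter (fun e' => e'.2 = e.2)).image z := ⟨_, rfl⟩
  obtain ⟨F3, hF3⟩ : ∃ F, F = (P.filter (fun e' => z e' = e.2)).image (fun e' => e'.2) :=
    ⟨_, rfl⟩
  obtain ⟨F4, hF4⟩ : ∃ F, F = univ.filter
    (fun v : V => Λ ≤ (P.filter (fun e' => z e' = v ∧ True)).card) := ⟨_, rfl⟩
  obtain ⟨F5, hF5⟩ : ∃ F, F = univ.filter
    (fun v : V => Λ2 ≤ (P.filter (fun e' => z e' = v ∧ e'.2 ∈ U2)).card) := ⟨_, rfl⟩
  have c1 : F1.card ≤ d := by
    rw [hF1]
    refine card_image_le.trans ((card_le_card (filter_subset_filter _ hP)).trans ?_)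
    exact (C4_fst e.1).trans (hd1 _ heW)
  have c2 : F2.card ≤ d := by
    rw [hF2]
    refine card_image_le.trans ((card_le_card (filter_subset_filter _ hP)).trans ?_)
    exact (C4_snd e.2).trans (hd2 _ heU)
  have c3 : F3.card ≤ Λ := by
    rw [hF3]
    exact card_image_le.trans (hz.load e.2)
  have c4 : F4.card ≤ a := by
    rw [hF4]
    refine C4_heavy z (fun _ => True) hΛ (n := ∑ u ∈ U1, dg L u W) ?_ ha
    refine le_trans (card_le_card ?_) (C4_card (L := L) (W := W) (U1 := U1) U1)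
    intro e' he'
    have h1 := hP (mem_filter.1 he').1
    exact mem_filter.2 ⟨h1, (C4_mem.1 h1).1.2⟩
  have c5 : F5.card ≤ a2 := by
    rw [hF5]
    refine C4_heavy z (fun e' => e'.2 ∈ U2) hΛ2 (n := ∑ u ∈ U2, dg L u W) ?_ ha2
    exact le_trans (card_le_card (filter_subset_filter _ hP)) (C4_card U2)
  have hc := hcand e.1 heW e.2 heU heL
  have hun : (F1 ∪ F2 ∪ F3 ∪ F4 ∪ F5).card ≤ 2 * d + Λ + a + a2 := by
    have u1 := card_union_le F1 F2
    have u2 := card_union_le (F1 ∪ F2) F3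
    have u3 := card_union_le (F1 ∪ F2 ∪ F3) F4
    have u4 := card_union_le (F1 ∪ F2 ∪ F3 ∪ F4) F5
    omega
  obtain ⟨z0, hz0, hz0'⟩ : ∃ z0 ∈ nb R e.1 (U1 \ U2) ∩ nb Q e.2 (U1 \ U2),
      z0 ∉ F1 ∪ F2 ∪ F3 ∪ F4 ∪ F5 := by
    by_contra hcon
    push Not at hcon
    have := card_le_card (fun x hx => hcon x hx :
      nb R e.1 (U1 \ U2) ∩ nb Q e.2 (U1 \ U2) ⊆ F1 ∪ F2 ∪ F3 ∪ F4 ∪ F5)
    omega
  simp only [mem_union, not_or] at hz0'
  obtain ⟨⟨⟨⟨n1, n2⟩, n3⟩, n4⟩, n5⟩ := hz0'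
  rw [mem_inter, mem_nb, mem_nb] at hz0
  have n1' : ∀ e' ∈ P, e'.1 = e.1 → z e' ≠ z0 := by
    intro e' he' h1 h2
    apply n1
    rw [hF1]
    exact mem_image.2 ⟨e', mem_filter.2 ⟨he', h1⟩, h2⟩
  have n2' : ∀ e' ∈ P, e'.2 = e.2 → z e' ≠ z0 := by
    intro e' he' h1 h2
    apply n2
    rw [hF2]
    exact mem_image.2 ⟨e', mem_filter.2 ⟨he', h1⟩, h2⟩
  have n3' : ∀ e' ∈ P, z e' = e.2 → e'.2 ≠ z0 := by
    intro e' he' h1 h2
    apply n3
    rw [hF3]
    exact mem_image.2 ⟨e', mem_filter.2 ⟨he', h1⟩, h2⟩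
  have n4' : (P.filter (fun e' => z e' = z0)).card < Λ := by
    by_contra hcon
    apply n4
    rw [hF4]
    refine mem_filter.2 ⟨mem_univ _, ?_⟩
    simp only [and_true]
    omega
  have n5' : (P.filter (fun e' => z e' = z0 ∧ e'.2 ∈ U2)).card < Λ2 := by
    by_contra hcon
    apply n5
    rw [hF5]
    exact mem_filter.2 ⟨mem_univ _, by omega⟩
  have hne : ∀ e' ∈ P, e' ≠ e := fun e' he' h => heP (h ▸ he')
  have hup : ∀ e' ∈ P, Function.update z e z0 e' = z e' := fun e' he' =>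
    Function.update_of_ne (hne e' he') _ _
  have hue : Function.update z e z0 e = z0 := Function.update_self _ _ _
  refine ⟨Function.update z e z0, ?_, ?_, ?_, ?_, ?_⟩
  · intro e' he'
    rcases mem_insert.1 he' with h | h
    · rw [h, hue]
      exact ⟨hz0.1.1, hz0.1.2, hz0.2.2⟩
    · rw [hup e' h]
      exact hz.mem e' h
  · intro e1 h1 e2 h2 h12 h3
    rcases mem_insert.1 h1 with g1 | g1 <;> rcases mem_insert.1 h2 with g2 | g2
    · exact absurd (g1.trans g2.symm) h12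
    · rw [g1, hue, hup e2 g2]
      exact (n1' e2 g2 (by rw [← h3, g1])).symm
    · rw [g2, hue, hup e1 g1]
      exact n1' e1 g1 (by rw [h3, g2])
    · rw [hup e1 g1, hup e2 g2]
      exact hz.same e1 g1 e2 g2 h12 h3
  · intro e1 h1 e2 h2 h12
    rcases mem_insert.1 h1 with g1 | g1 <;> rcases mem_insert.1 h2 with g2 | g2
    · exact absurd (by rw [g1, g2]) h12
    · rw [g1, hue, hup e2 g2]
      exact ⟨fun h => n2' e2 g2 h.1.symm h.2.symm, fun h => n3' e2 g2 h.1.symm h.2.symm⟩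
    · rw [g2, hue, hup e1 g1]
      exact ⟨fun h => n2' e1 g1 h.1 h.2, fun h => n3' e1 g1 h.2 h.1⟩
    · rw [hup e1 g1, hup e2 g2]
      exact hz.diff e1 g1 e2 g2 h12
  · intro v
    rw [filter_insert, hue]
    have hfe : P.filter (fun e' => Function.update z e z0 e' = v) = P.filter (fun e' => z e' = v) :=
      filter_congr fun x hx => by rw [hup x hx]
    rw [hfe]
    split_ifs with h
    · refine (card_insert_le _ _).trans ?_
      rw [← h]
      exact n4'
    · exact hz.load v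
  · intro v
    rw [filter_insert, hue]
    have hfe : P.filter (fun e' => Function.update z e z0 e' = v ∧ e'.2 ∈ U2) =
        P.filter (fun e' => z e' = v ∧ e'.2 ∈ U2) :=
      filter_congr fun x hx => by rw [hup x hx]
    rw [hfe]
    split_ifs with h
    · refine (card_insert_le _ _).trans ?_
      rw [← h.1]
      exact n5'
    · exact hz.load2 v

private theorem C4_exists (hUU : U2 ⊆ U1)
    (hd1 : ∀ w ∈ W, dg L w U1 ≤ d) (hd2 : ∀ u ∈ U1, dg L u W ≤ d) (hΛ : 1 ≤ Λ) (hΛ2 : 1 ≤ Λ2)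
    (ha : ∑ u ∈ U1, dg L u W ≤ a * Λ) (ha2 : ∑ u ∈ U2, dg L u W ≤ a2 * Λ2)
    (hcand : ∀ w ∈ W, ∀ u ∈ U1, L.Adj w u →
      2 * d + Λ + a + a2 < (nb R w (U1 \ U2) ∩ nb Q u (U1 \ U2)).card) :
    ∃ z, C4_Good L R Q W U1 U2 Λ Λ2 (C4_P L W U1) z := by
  classical
  suffices h : ∀ P : Finset (V × V), P ⊆ C4_P L W U1 →
      ∃ z, C4_Good L R Q W U1 U2 Λ Λ2 P z from h _ (Subset.refl _)
  intro P
  induction P using Finset.induction_on with
  | empty =>
    intro _
    refine ⟨fun e => e.1, ?_, ?_, ?_, ?_, ?_⟩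
    · intro e he
      exact absurd he (notMem_empty _)
    · intro e he
      exact absurd he (notMem_empty _)
    · intro e he
      exact absurd he (notMem_empty _)
    · intro v
      simp
    · intro v
      simp
  | insert e P heP ih =>
    intro hsub
    obtain ⟨z, hz⟩ := ih ((subset_insert _ _).trans hsub)
    exact C4_step hUU hd1 hd2 hΛ hΛ2 ha ha2 hcand ((subset_insert _ _).trans hsub)
      (hsub (mem_insert_self _ _)) heP hz

end C4

/-- [C4] -/
theorem p_C4 : S_C4 := by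
  intro V _ _ L R Q W U1 U2 d Λ Λ2 a a2 hWU hUU hLR hd1 hd2 hΛ hΛ2 ha ha2 hcand
  classical
  obtain ⟨z, hz⟩ := C4_exists hUU hd1 hd2 hΛ hΛ2 ha ha2 hcand
  have hdisj : ∀ v, v ∈ W → v ∈ U1 → False := fun v h1 h2 => disjoint_left.1 hWU h1 h2
  have hLRd : ∀ x y, L.Adj x y → R.Adj x y → False := fun x y h1 h2 =>
    SimpleGraph.disjoint_left.1 hLR x y h1 h2
  -- facts on a triple
  have fU : ∀ e ∈ C4_P L W U1, z e ∈ U1 := fun e he => (mem_sdiff.1 (hz.mem e he).1).1
  have fU2 : ∀ e ∈ C4_P L W U1, z e ∉ U2 := fun e he => (mem_sdiff.1 (hz.mem e he).1).2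
  -- the vertex of a triple in `W`
  have hWt : ∀ e ∈ C4_P L W U1, ∀ x, x ∈ W → x ∈ ({e.1, e.2, z e} : Finset V) → x = e.1 := by
    intro e he x hx hxt
    simp only [mem_insert, mem_singleton] at hxt
    rcases hxt with h | h | h
    · exact h
    · exact (hdisj x hx (h ▸ (C4_mem.1 he).1.2)).elim
    · exact (hdisj x hx (h ▸ fU e he)).elim
  -- the vertices in `U1`
  have hUt : ∀ e ∈ C4_P L W U1, ∀ x, x ∈ U1 → x ∈ ({e.1, e.2, z e} : Finset V) →
      x = e.2 ∨ x = z e := by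
    intro e he x hx hxt
    simp only [mem_insert, mem_singleton] at hxt
    rcases hxt with h | h | h
    · exact (hdisj x (h ▸ (C4_mem.1 he).1.1) hx).elim
    · exact Or.inl h
    · exact Or.inr h
  have hWU' : ∀ e ∈ C4_P L W U1, ∀ x, x ∈ ({e.1, e.2, z e} : Finset V) → x ∈ W ∨ x ∈ U1 := by
    intro e he x hxt
    simp only [mem_insert, mem_singleton] at hxt
    rcases hxt with h | h | h
    · exact Or.inl (h ▸ (C4_mem.1 he).1.1)
    · exact Or.inr (h ▸ (C4_mem.1 he).1.2)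
    · exact Or.inr (h ▸ fU e he)
  -- two triples with a common edge through `W`
  have key1 : ∀ e ∈ C4_P L W U1, ∀ e' ∈ C4_P L W U1, e.1 = e'.1 → ∀ y,
      (y = e.2 ∨ y = z e) → (y = e'.2 ∨ y = z e') → e = e' := by
    intro e he e' he' h1 y h2 h3
    have aL := (C4_mem.1 he).2
    have aL' := (C4_mem.1 he').2
    have aR := (hz.mem e he).2.1
    have aR' := (hz.mem e' he').2.1
    rcases h2 with h2 | h2 <;> rcases h3 with h3 | h3
    · exact Prod.ext h1 (h2.symm.trans h3)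
    · exfalso
      have h4 : e.2 = z e' := h2.symm.trans h3
      rw [← h4, ← h1] at aR'
      exact hLRd _ _ aL aR'
    · exfalso
      have h4 : z e = e'.2 := h2.symm.trans h3
      rw [← h4, ← h1] at aL'
      exact hLRd _ _ aL' aR
    · by_contra hne
      exact hz.same e he e' he' hne h1 (h2.symm.trans h3)
  refine ⟨(C4_P L W U1).image (fun e => {e.1, e.2, z e}), ⟨?_, ?_⟩, ?_, ?_, ?_, ?_, ?_⟩
  · -- triangles
    intro t ht
    obtain ⟨e, he, rfl⟩ := mem_image.1 ht
    rw [SimpleGraph.is3Clique_triple_iff]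
    have aL := (C4_mem.1 he).2
    obtain ⟨-, aR, aQ⟩ := hz.mem e he
    exact ⟨Or.inl (Or.inl aL), Or.inl (Or.inr aR), Or.inr aQ⟩
  · -- packing
    intro t ht t' ht' hne x hx y hy hx' hy'
    obtain ⟨e, he, rfl⟩ := mem_image.1 ht
    obtain ⟨e', he', rfl⟩ := mem_image.1 ht'
    by_contra hxy
    have hee : e ≠ e' := by
      rintro rfl
      exact hne rfl
    rcases hWU' e he x hx with hxW | hxU
    · have g1 := hWt e he x hxW hx
      have g1' := hWt e' he' x hxW hx'
      have hyU : y ∈ U1 := by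
        rcases hWU' e he y hy with h | h
        · exact absurd (g1.trans (hWt e he y h hy).symm) hxy
        · exact h
      exact hee (key1 e he e' he' (g1.symm.trans g1') y (hUt e he y hyU hy)
        (hUt e' he' y hyU hy'))
    · rcases hWU' e he y hy with hyW | hyU
      · have g1 := hWt e he y hyW hy
        have g1' := hWt e' he' y hyW hy'
        exact hee (key1 e he e' he' (g1.symm.trans g1') x (hUt e he x hxU hx)
          (hUt e' he' x hxU hx'))
      · have k1 := hUt e he x hxU hx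
        have k2 := hUt e he y hyU hy
        have k1' := hUt e' he' x hxU hx'
        have k2' := hUt e' he' y hyU hy'
        by_cases h1 : e.1 = e'.1
        · exact hee (key1 e he e' he' h1 x k1 k1')
        · obtain ⟨d1, d2⟩ := hz.diff e he e' he' h1
          rcases k1 with k1 | k1 <;> rcases k2 with k2 | k2
          · exact hxy (k1.trans k2.symm)
          · rcases k1' with k1' | k1' <;> rcases k2' with k2' | k2'
            · exact hxy (k1'.trans k2'.symm)
            · exact d1 ⟨k1.symm.trans k1', k2.symm.trans k2'⟩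
            · exact d2 ⟨k1.symm.trans k1', k2.symm.trans k2'⟩
            · exact hxy (k1'.trans k2'.symm)
          · rcases k1' with k1' | k1' <;> rcases k2' with k2' | k2'
            · exact hxy (k1'.trans k2'.symm)
            · exact d2 ⟨k2.symm.trans k2', k1.symm.trans k1'⟩
            · exact d1 ⟨k2.symm.trans k2', k1.symm.trans k1'⟩
            · exact hxy (k1'.trans k2'.symm)
          · exact hxy (k1.trans k2.symm)
  · -- cover
    intro w hw u hu hwu
    refine ⟨hwu.ne, {w, u, z (w, u)}, mem_image.2 ⟨(w, u), C4_mem.2 ⟨⟨hw, hu⟩, hwu⟩, rfl⟩, ?_, ?_⟩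
    · simp
    · simp
  · -- edges of the cover
    rintro x y ⟨hxy, t, ht, hx, hy⟩
    obtain ⟨e, he, rfl⟩ := mem_image.1 ht
    have aL := (C4_mem.1 he).2
    obtain ⟨aU, aR, aQ⟩ := hz.mem e he
    have bW := (C4_mem.1 he).1.1
    have bU := (C4_mem.1 he).1.2
    have bz := fU e he
    have bz2 := fU2 e he
    simp only [mem_insert, mem_singleton] at hx hy
    rcases hx with hx | hx | hx <;> rcases hy with hy | hy | hy
    · exact absurd (hx.trans hy.symm) hxy
    · left
      rw [hx, hy]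
      exact ⟨aL, Or.inl ⟨bW, bU⟩⟩
    · right; left
      rw [hx, hy]
      exact ⟨aR, Or.inl ⟨bW, aU⟩⟩
    · left
      rw [hx, hy]
      exact ⟨aL.symm, Or.inr ⟨bW, bU⟩⟩
    · exact absurd (hx.trans hy.symm) hxy
    · right; right
      rw [hx, hy]
      exact ⟨aQ, bU, bz, fun h => bz2 h.2⟩
    · right; left
      rw [hx, hy]
      exact ⟨aR.symm, Or.inr ⟨bW, aU⟩⟩
    · right; right
      rw [hx, hy]
      exact ⟨aQ.symm, bz, bU, fun h => bz2 h.1⟩
    · exact absurd (hx.trans hy.symm) hxy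
  · -- degrees at `W`
    intro w hw
    refine le_trans ?_ (hd1 w hw)
    unfold dg
    refine le_trans (card_le_card (t := (nb L w U1).image (fun u => z (w, u))) ?_) card_image_le
    intro y hy
    obtain ⟨hyU, hadj⟩ := mem_nb.1 hy
    rw [SimpleGraph.inf_adj] at hadj
    obtain ⟨⟨hwy, t, ht, hwt, hyt⟩, hR⟩ := hadj
    obtain ⟨e, he, rfl⟩ := mem_image.1 ht
    have g1 := hWt e he w hw hwt
    have aL := (C4_mem.1 he).2
    rcases hUt e he y hyU hyt with h | h
    · exfalso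
      rw [← g1, ← h] at aL
      exact hLRd _ _ aL hR
    · refine mem_image.2 ⟨e.2, mem_nb.2 ⟨(C4_mem.1 he).1.2, g1 ▸ aL⟩, ?_⟩
      rw [h, g1]
  · -- degrees at `U1`
    intro u hu
    have hsub : nb (cov ((C4_P L W U1).image (fun e => ({e.1, e.2, z e} : Finset V)))) u U1 ⊆
        (nb L u W).image (fun w => z (w, u)) ∪
          ((C4_P L W U1).filter (fun e => z e = u)).image (fun e => e.2) := by
      intro y hy
      obtain ⟨hyU, huy, t, ht, hut, hyt⟩ := mem_nb.1 hy
      obtain ⟨e, he, rfl⟩ := mem_image.1 ht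
      rw [mem_union]
      rcases hUt e he u hu hut with h1 | h1 <;> rcases hUt e he y hyU hyt with h2 | h2
      · exact absurd (h1.trans h2.symm) huy
      · left
        refine mem_image.2 ⟨e.1, mem_nb.2 ⟨(C4_mem.1 he).1.1, ?_⟩, ?_⟩
        · rw [h1]
          exact (C4_mem.1 he).2.symm
        · rw [h2, h1]
      · right
        exact mem_image.2 ⟨e, mem_filter.2 ⟨he, h1.symm⟩, h2.symm⟩
      · exact absurd (h1.trans h2.symm) huy
    unfold dg
    refine (card_le_card hsub).trans ((card_union_le _ _).trans ?_)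
    exact add_le_add (card_image_le.trans (hd2 u hu)) (card_image_le.trans (hz.load u))
  · intro u hu
    have hsub : nb (cov ((C4_P L W U1).image (fun e => ({e.1, e.2, z e} : Finset V)))) u U2 ⊆
        ((C4_P L W U1).filter (fun e => z e = u ∧ e.2 ∈ U2)).image (fun e => e.2) := by
      intro y hy
      obtain ⟨hyU2, huy, t, ht, hut, hyt⟩ := mem_nb.1 hy
      have hyU := hUU hyU2
      obtain ⟨e, he, rfl⟩ := mem_image.1 ht
      rcases hUt e he u hu hut with h1 | h1 <;> rcases hUt e he y hyU hyt with h2 | h2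
      · exact absurd (h1.trans h2.symm) huy
      · exact absurd (h2 ▸ hyU2) (fU2 e he)
      · exact mem_image.2 ⟨e, mem_filter.2 ⟨he, h1.symm, h2 ▸ hyU2⟩, h2.symm⟩
      · exact absurd (h1.trans h2.symm) huy
    unfold dg
    exact (card_le_card hsub).trans (card_image_le.trans (hz.load2 u))

end DH
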