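import Pool.Agent.Lib.MP_fe8cb7_co.h25.StC

open Finset

namespace DH

variable {V : Type} {π : V → ZMod 3} {G : SimpleGraph V} {U U1 U2 : Finset V}

theorem C6_card3 {N : ℕ} (h : Eq3 π U N) : U.card = 3 * N := by
  classical
  rw [card_eq_sum_card_fiberwise (f := π) (t := univ) (fun _ _ => mem_coe.2 (mem_univ _))]
  have : ∀ i ∈ (univ : Finset (ZMod 3)), (U.filter (fun v => π v = i)).card = N := by
    intro i _
    exact h i
  rw [sum_congr rfl this, sum_const, card_univ, ZMod.card, smul_eq_mul]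

theorem C6_third (i j : ZMod 3) : ∃ k : ZMod 3, k ≠ i ∧ k ≠ j := by
  revert i j; decide

theorem C6_Hadj [DecidableEq V] {q : ℕ} {ρ χ : V → Fin q} {x y : V} :
    (HG π G U U1 U2 ρ χ).Adj x y ↔
      G.Adj x y ∧ ¬ (x ∈ U1 ∧ y ∈ U1) ∧ ¬ (RG π G U U1 U2 ρ χ).Adj x y := by
  unfold HG
  simp only [SimpleGraph.sdiff_adj, ins]
  tauto

theorem C6_Radj [DecidableEq V] {q : ℕ} {ρ χ : V → Fin q} {x y : V}
    (h : (RG π G U U1 U2 ρ χ).Adj x y) :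
    G.Adj x y ∧ ((x ∈ U \ U1 ∧ y ∈ U1 \ U2 ∧ Res π ρ χ x y) ∨
    (y ∈ U \ U1 ∧ x ∈ U1 \ U2 ∧ Res π ρ χ y x)) := h

theorem C6_cn_le [DecidableEq V] {A B C D : Finset V} (h : A ⊆ B ∪ C ∪ D) :
    A.card ≤ B.card + C.card + D.card :=
  (card_le_card h).trans ((card_union_le _ _).trans (Nat.add_le_add_right (card_union_le _ _) _))

set_option maxHeartbeats 1000000 in
theorem p_C6 : S_C6 := by
  intro hC2 hC3 hC4 hHall hC5 V _ _ π G U U1 U2 N N1 N2 K q Λ Λ2 c η γ0 γ1 E a a2 ρ χ T1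
    hy hcell hq hE hη ha ha2 hΛ hΛ2 hT1 hL1 hL2 n3 n4 n5 n6 n7
  classical
  obtain ⟨c1, c2, c3, c4⟩ := hC2 V π G U U1 U2 N N1 N2 K q c η γ0 γ1 E ρ χ hy hcell hq hE hη
  have hH : ∀ x y, (HG π G U U1 U2 ρ χ).Adj x y ↔
      G.Adj x y ∧ ¬ (x ∈ U1 ∧ y ∈ U1) ∧ ¬ (RG π G U U1 U2 ρ χ).Adj x y := fun x y => C6_Hadj
  have hR : ∀ x y, (RG π G U U1 U2 ρ χ).Adj x y → G.Adj x y ∧
      ((x ∈ U \ U1 ∧ y ∈ U1 \ U2 ∧ Res π ρ χ x y) ∨
      (y ∈ U \ U1 ∧ x ∈ U1 \ U2 ∧ Res π ρ χ y x)) := fun x y => C6_Radj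
  generalize RG π G U U1 U2 ρ χ = R0 at *
  generalize HG π G U U1 U2 ρ χ = H0 at *
  have hU1 : U1 ⊆ U := hy.sub1
  have hU2 : U2 ⊆ U1 := hy.sub2
  have htri := hy.tri
  have hin := hy.within
  have hdisWU : Disjoint (U \ U1) U1 := disjoint_sdiff_self_left
  have hdisWZ : Disjoint (U \ U1) (U1 \ U2) :=
    disjoint_of_subset_right sdiff_subset hdisWU
  have hqr : (0 : ℝ) < q := by exact_mod_cast hq
  -- the graph `L`
  set L : SimpleGraph V := H0 \ cov T1 with hLdef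
  have hLadj : ∀ x y, L.Adj x y ↔ H0.Adj x y ∧ ¬ (cov T1).Adj x y := by
    intro x y
    rw [hLdef, SimpleGraph.sdiff_adj]
  have hH0G : H0 ≤ G := fun x y h => ((hH x y).1 h).1
  have hLH : L ≤ H0 := fun x y h => ((hLadj x y).1 h).1
  have hLG : L ≤ G := hLH.trans hH0G
  have hR0G : R0 ≤ G := fun x y h => (hR x y h).1
  set d : ℕ := ⌊2 * a⌋₊ with hd
  have hd2 : (d : ℝ) ≤ 2 * a := Nat.floor_le (by positivity)
  have hdL' : ∀ v ∈ U, ∀ S ⊆ U, (dg L v S : ℝ) ≤ 2 * a := by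
    intro v hv S hS
    have h1 : dg L v S ≤ dg L v U := dg_mono_set hS v
    rw [dg_two (U := U) (htri.mono hLG) v] at h1
    have h2 := hL1 v hv (π v + 1)
    have h3 := hL1 v hv (π v - 1)
    have h4 : (dg L v S : ℝ) ≤ dg L v (pt π U (π v + 1)) + dg L v (pt π U (π v - 1)) := by
      exact_mod_cast h1
    linarith
  have hdL : ∀ v ∈ U, ∀ S ⊆ U, dg L v S ≤ d := fun v hv S hS =>
    Nat.le_floor (hdL' v hv S hS)
  have hdL2 : ∀ v ∈ U2, ∀ S ⊆ U, (dg L v S : ℝ) ≤ 2 * a2 := by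
    intro v hv S hS
    have h1 : dg L v S ≤ dg L v U := dg_mono_set hS v
    rw [dg_two (U := U) (htri.mono hLG) v] at h1
    have h2 := hL2 v hv (π v + 1)
    have h3 := hL2 v hv (π v - 1)
    have h4 : (dg L v S : ℝ) ≤ dg L v (pt π U (π v + 1)) + dg L v (pt π U (π v - 1)) := by
      exact_mod_cast h1
    linarith
  -- step 3
  obtain ⟨T2, p2, cov2, adj2, deg2⟩ := hC3 V L R0 (U \ U1) (U1 \ U2) d hdisWZ
    (fun x hx => hdL x (mem_sdiff.1 hx).1 _ sdiff_subset) (by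
      intro x hx y hy' hxy
      have h1 := c1 x hx y hy' (htri x y (hLG hxy))
      have h2 : (2 * d : ℝ) < ((nb R0 x (U1 \ U2) ∩ nb R0 y (U1 \ U2)).card : ℝ) := by linarith
      exact_mod_cast h2)
  -- step 3'
  have hAr : (0 : ℝ) ≤ 6 * N1 * a / Λ := by positivity
  have hAr2 : (0 : ℝ) ≤ 6 * N2 * a2 / Λ2 := by positivity
  have hΛr : (0 : ℝ) < Λ := by exact_mod_cast hΛ
  have hΛ2r : (0 : ℝ) < Λ2 := by exact_mod_cast hΛ2
  set R : SimpleGraph V := R0 \ cov T2 with hRdef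
  have hRadj : ∀ x y, R.Adj x y ↔ R0.Adj x y ∧ ¬ (cov T2).Adj x y := by
    intro x y
    rw [hRdef, SimpleGraph.sdiff_adj]
  obtain ⟨T3, p3, cov3, adj3, degR3, deg3, deg3'⟩ := hC4 V L R (ins G U1) (U \ U1) U1 U2 d Λ Λ2
    ⌈6 * N1 * a / Λ⌉₊ ⌈6 * N2 * a2 / Λ2⌉₊ hdisWU hU2 (by
      rw [SimpleGraph.disjoint_left]
      intro x y h1 h2
      exact ((hH x y).1 (hLH h1)).2.2 ((hRadj x y).1 h2).1)
    (fun w hw => hdL w (mem_sdiff.1 hw).1 _ hU1)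
    (fun u hu => hdL u (hU1 hu) _ sdiff_subset) hΛ hΛ2 (by
      have h1 : ((∑ u ∈ U1, dg L u (U \ U1) : ℕ) : ℝ) ≤ 6 * N1 * a := by
        push_cast
        calc ∑ u ∈ U1, (dg L u (U \ U1) : ℝ) ≤ ∑ _u ∈ U1, 2 * a :=
              sum_le_sum fun u hu => hdL' u (hU1 hu) _ sdiff_subset
          _ = 6 * N1 * a := by
            rw [sum_const, C6_card3 hy.szU1, nsmul_eq_mul]
            push_cast
            ring
      have h2 : (6 * N1 * a : ℝ) ≤ (⌈6 * N1 * a / Λ⌉₊ : ℝ) * Λ := by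
        rw [← div_le_iff₀ hΛr]
        exact Nat.le_ceil _
      exact_mod_cast h1.trans h2)
    (by
      have h1 : ((∑ u ∈ U2, dg L u (U \ U1) : ℕ) : ℝ) ≤ 6 * N2 * a2 := by
        push_cast
        calc ∑ u ∈ U2, (dg L u (U \ U1) : ℝ) ≤ ∑ _u ∈ U2, 2 * a2 :=
              sum_le_sum fun u hu => hdL2 u hu _ sdiff_subset
          _ = 6 * N2 * a2 := by
            rw [sum_const, C6_card3 hy.szU2, nsmul_eq_mul]
            push_cast
            ring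
      have h2 : (6 * N2 * a2 : ℝ) ≤ (⌈6 * N2 * a2 / Λ2⌉₊ : ℝ) * Λ2 := by
        rw [← div_le_iff₀ hΛ2r]
        exact Nat.le_ceil _
      exact_mod_cast h1.trans h2)
    (by
      intro w hw u hu hwu
      obtain ⟨i, hi1, hi2⟩ := C6_third (π u) (π w)
      have h1 := c2 w hw u (hU1 hu) i (htri w u (hLG hwu)).symm hi1 hi2
      have h2 : (nb R0 w (pt π (U1 \ U2) i) ∩ nb G u (pt π (U1 \ U2) i)).card ≤
          (nb R w (U1 \ U2) ∩ nb (ins G U1) u (U1 \ U2)).card + dg (cov T2) w (U1 \ U2) := by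
        refine (card_le_card ?_).trans (card_union_le _ _)
        intro z hz
        rw [mem_inter, mem_nb, mem_nb, mem_pt] at hz
        obtain ⟨⟨⟨hz1, _⟩, hz2⟩, _, hz3⟩ := hz
        by_cases hz4 : (cov T2).Adj w z
        · exact mem_union_right _ (mem_nb.2 ⟨hz1, hz4⟩)
        · refine mem_union_left _ (mem_inter.2 ⟨mem_nb.2 ⟨hz1, (hRadj w z).2 ⟨hz2, hz4⟩⟩,
            mem_nb.2 ⟨hz1, hz3, hu, (mem_sdiff.1 hz1).1⟩⟩)
      have h3 := deg2 w hw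
      have h4 : ((nb R0 w (pt π (U1 \ U2) i) ∩ nb G u (pt π (U1 \ U2) i)).card : ℝ) ≤
          (nb R w (U1 \ U2) ∩ nb (ins G U1) u (U1 \ U2)).card + d := by
        exact_mod_cast h2.trans (Nat.add_le_add_left h3 _)
      have h5 := Nat.ceil_lt_add_one hAr
      have h6 := Nat.ceil_lt_add_one hAr2
      have h7 : (2 * d + Λ + (⌈6 * N1 * a / Λ⌉₊ : ℝ) + (⌈6 * N2 * a2 / Λ2⌉₊ : ℝ) : ℝ) <
          (nb R w (U1 \ U2) ∩ nb (ins G U1) u (U1 \ U2)).card := by linarith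
      exact_mod_cast h7)
  -- step 4
  set D : SimpleGraph V := R0 \ (cov T2 ⊔ cov T3) with hDdef
  have hDadj : ∀ x y, D.Adj x y ↔ R0.Adj x y ∧ ¬ (cov T2).Adj x y ∧ ¬ (cov T3).Adj x y := by
    intro x y
    rw [hDdef, SimpleGraph.sdiff_adj, SimpleGraph.sup_adj, not_or]
  set Q : SimpleGraph V := ins G U1 \ cov T3 with hQdef
  have hQadj : ∀ x y, Q.Adj x y ↔ (G.Adj x y ∧ x ∈ U1 ∧ y ∈ U1) ∧ ¬ (cov T3).Adj x y := by
    intro x y
    rw [hQdef, SimpleGraph.sdiff_adj]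
    rfl
  have hDR : D ≤ R0 := fun x y h => ((hDadj x y).1 h).1
  have hcov1 : ∀ x y, (cov T1).Adj x y → H0.Adj x y := fun x y h => hT1.cov_le h
  -- memberships
  have hW : ∀ x, x ∈ U \ U1 → x ∉ U1 := fun x hx => (mem_sdiff.1 hx).2
  have hZ : ∀ x, x ∈ U1 \ U2 → x ∈ U1 := fun x hx => (mem_sdiff.1 hx).1
  -- disjointness
  have hd12 : Disjoint (cov T1) (cov T2) := by
    rw [SimpleGraph.disjoint_left]
    intro x y h1 h2
    have h3 := (hH x y).1 (hcov1 x y h1)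
    rcases adj2 x y h2 with ⟨h4, _⟩ | ⟨h4, _⟩ | ⟨h4, _⟩
    · exact ((hLadj x y).1 h4).2 h1
    · exact h3.2.2 h4
    · exact h3.2.2 h4
  have hd123 : Disjoint (cov (T1 ∪ T2)) (cov T3) := by
    rw [SimpleGraph.disjoint_left]
    intro x y h1 h2
    rw [cov_union, SimpleGraph.sup_adj] at h1
    rcases h1 with h1 | h1
    · have h3 := (hH x y).1 (hcov1 x y h1)
      rcases adj3 x y h2 with ⟨h4, _⟩ | ⟨h4, _⟩ | ⟨_, h4, h5, _⟩
      · exact ((hLadj x y).1 h4).2 h1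
      · exact h3.2.2 ((hRadj x y).1 h4).1
      · exact h3.2.1 ⟨h4, h5⟩
    · rcases adj3 x y h2 with ⟨h4, h5⟩ | ⟨h4, _⟩ | ⟨_, h4, h5, _⟩
      · rcases adj2 x y h1 with ⟨_, h6, h7⟩ | ⟨h6, _⟩ | ⟨h6, _⟩
        · rcases h5 with ⟨_, h8⟩ | ⟨_, h8⟩
          · exact hW _ h7 h8
          · exact hW _ h6 h8
        · exact ((hH x y).1 (hLH h4)).2.2 h6
        · exact ((hH x y).1 (hLH h4)).2.2 h6
      · exact ((hRadj x y).1 h4).2 h1
      · rcases adj2 x y h1 with ⟨_, h6, h7⟩ | ⟨_, h6, _⟩ | ⟨_, _, h6⟩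
        · exact hW _ h6 h4
        · exact hW _ h6 h4
        · exact hW _ h6 h5
  have hpack3 : Pack G (T1 ∪ T2 ∪ T3) := by
    refine ((hT1.union p2 hd12).union p3 hd123).mono ?_
    refine sup_le (sup_le hH0G (sup_le hLG hR0G)) (sup_le (sup_le hLG ?_) ?_)
    · exact fun x y h => hR0G ((hRadj x y).1 h).1
    · exact fun x y h => h.1
  have hin3 : Within (cov (T1 ∪ T2 ∪ T3)) U := hin.mono hpack3.cov_le
  have hadj3 : ∀ w ∈ U \ U1, ∀ z, (G \ cov (T1 ∪ T2 ∪ T3)).Adj w z ↔ D.Adj w z := by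
    intro w hw z
    rw [SimpleGraph.sdiff_adj, cov_union, cov_union, SimpleGraph.sup_adj, SimpleGraph.sup_adj,
      hDadj]
    constructor
    · rintro ⟨h1, h2⟩
      rw [not_or, not_or] at h2
      obtain ⟨⟨h3, h4⟩, h5⟩ := h2
      refine ⟨?_, h4, h5⟩
      by_contra h6
      have h7 : H0.Adj w z := (hH w z).2 ⟨h1, fun h => hW w hw h.1, h6⟩
      have h8 : L.Adj w z := (hLadj w z).2 ⟨h7, h3⟩
      by_cases h9 : z ∈ U1
      · exact h5 (cov3 w hw z h9 h8)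
      · exact h4 (cov2 w hw z (mem_sdiff.2 ⟨(hin _ _ h1).2, h9⟩) h8)
    · rintro ⟨h1, h2, h3⟩
      refine ⟨hR0G h1, ?_⟩
      rintro ((h4 | h4) | h4)
      · exact ((hH w z).1 (hcov1 w z h4)).2.2 h1
      · exact h2 h4
      · exact h3 h4
  have hDZ : ∀ w ∈ U \ U1, ∀ z, D.Adj w z → z ∈ U1 \ U2 := by
    intro w hw z h
    rcases (hR w z (hDR h)).2 with ⟨_, h1, _⟩ | ⟨_, h1, _⟩
    · exact h1
    · exact absurd (hZ _ h1) (hW _ hw)
  have hdgD : ∀ w ∈ U \ U1, ∀ i, dg D w (pt π (U1 \ U2) i) =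
      dg (G \ cov (T1 ∪ T2 ∪ T3)) w (pt π U i) := by
    intro w hw i
    rw [dg, dg]
    congr 1
    ext z
    rw [mem_nb, mem_nb, hadj3 w hw z, mem_pt, mem_pt]
    constructor
    · rintro ⟨⟨h1, h2⟩, h3⟩
      exact ⟨⟨hU1 (hZ _ h1), h2⟩, h3⟩
    · rintro ⟨⟨_, h2⟩, h3⟩
      exact ⟨⟨hDZ w hw z h3, h2⟩, h3⟩
  have hbalD : ∀ w ∈ U \ U1, dg D w (pt π (U1 \ U2) (π w + 1)) =
      dg D w (pt π (U1 \ U2) (π w - 1)) := by
    intro w hw
    rw [hdgD w hw, hdgD w hw]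
    have h1 : imb π (G \ cov (T1 ∪ T2 ∪ T3)) U w = 0 := by
      rw [imb_sdiff hpack3.cov_le, hy.bal w, imb_within hin3, hpack3.bal htri w, sub_self]
    rw [imb, sub_eq_zero] at h1
    exact_mod_cast h1
  have hDX : ∀ x y, D.Adj x y → (x ∈ U \ U1 ∧ y ∈ U1 \ U2 ∧ Res π ρ χ x y) ∨
      (y ∈ U \ U1 ∧ x ∈ U1 \ U2 ∧ Res π ρ χ y x) := fun x y h => (hR x y (hDR h)).2
  obtain ⟨T4, p4, cov4, adj4, deg4⟩ := hC5 hHall V π D Q (U \ U1) (U1 \ U2) q
    ⌊(N : ℝ) / q ^ 2 + E⌋₊ ρ χ hdisWZ hDX hbalD (by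
      intro i s t
      apply Nat.le_floor
      have h1 := (abs_le.1 (hcell.w i s t)).2
      have h2 : ((pt π (U \ U1) i).card : ℝ) ≤ N := by
        have : (pt π (U \ U1) i).card ≤ (pt π U i).card := card_le_card (pt_mono sdiff_subset i)
        rw [hy.szU i] at this
        exact_mod_cast this
      have h3 : ((pt π (U \ U1) i).card : ℝ) / (q : ℝ) ^ 2 ≤ N / (q : ℝ) ^ 2 := by gcongr
      linarith)
    (by
      intro w hw x hx hwx i hi1 hi2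
      have hxU1 : x ∈ U1 := hZ _ hx
      have h1 := c2 w hw x (hU1 hxU1) i (htri w x (hR0G (hDR hwx))).symm hi2 hi1
      have h2 : (nb R0 w (pt π (U1 \ U2) i) ∩ nb G x (pt π (U1 \ U2) i)).card ≤
          (nb D w (pt π (U1 \ U2) i) ∩ nb Q x (pt π (U1 \ U2) i)).card +
          (dg (cov T2) w (U1 \ U2) + (dg (cov T3 ⊓ R) w U1 + dg (cov T3) x U1)) := by
        refine (card_le_card ?_).trans ((card_union_le _ _).trans (Nat.add_le_add_left
          ((card_union_le _ _).trans (Nat.add_le_add_left (card_union_le _ _) _)) _))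
        intro z hz
        rw [mem_inter, mem_nb, mem_nb] at hz
        obtain ⟨⟨hz1, hz2⟩, _, hz3⟩ := hz
        have hz0 : z ∈ U1 \ U2 := (mem_pt.1 hz1).1
        by_cases hz4 : (cov T2).Adj w z
        · exact mem_union_right _ (mem_union_left _ (mem_nb.2 ⟨hz0, hz4⟩))
        by_cases hz5 : (cov T3).Adj w z
        · exact mem_union_right _ (mem_union_right _ (mem_union_left _ (mem_nb.2
            ⟨hZ _ hz0, hz5, (hRadj w z).2 ⟨hz2, hz4⟩⟩)))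
        by_cases hz6 : (cov T3).Adj x z
        · exact mem_union_right _ (mem_union_right _ (mem_union_right _ (mem_nb.2
            ⟨hZ _ hz0, hz6⟩)))
        · exact mem_union_left _ (mem_inter.2 ⟨mem_nb.2 ⟨hz1, (hDadj w z).2 ⟨hz2, hz4, hz5⟩⟩,
            mem_nb.2 ⟨hz1, (hQadj x z).2 ⟨⟨hz3, hxU1, hZ _ hz0⟩, hz6⟩⟩⟩)
      have h3 := deg2 w hw
      have h4 := degR3 w hw
      have h5 := deg3 x hxU1
      have h6 : ((nb R0 w (pt π (U1 \ U2) i) ∩ nb G x (pt π (U1 \ U2) i)).card : ℝ) ≤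
          (nb D w (pt π (U1 \ U2) i) ∩ nb Q x (pt π (U1 \ U2) i)).card +
          (d + (d + (d + Λ))) := by
        exact_mod_cast h2.trans (Nat.add_le_add_left (Nat.add_le_add h3 (Nat.add_le_add h4 h5)) _)
      have h7 := c3 w hw i
      have h8 : (dg D w (pt π (U1 \ U2) i) : ℝ) ≤ dg R0 w (pt π (U1 \ U2) i) := by
        exact_mod_cast dg_mono hDR w
      have h9 : ((⌊(N : ℝ) / q ^ 2 + E⌋₊ : ℕ) : ℝ) ≤ N / q ^ 2 + E :=
        Nat.floor_le (by positivity)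
      have h10 : (dg D w (pt π (U1 \ U2) i) + 2 * (⌊(N : ℝ) / q ^ 2 + E⌋₊ : ℕ) : ℝ) ≤
          2 * (nb D w (pt π (U1 \ U2) i) ∩ nb Q x (pt π (U1 \ U2) i)).card := by linarith
      exact_mod_cast h10)
  have hd4 : Disjoint (cov (T1 ∪ T2 ∪ T3)) (cov T4) := by
    rw [SimpleGraph.disjoint_left]
    intro x y h1 h2
    rw [cov_union, cov_union, SimpleGraph.sup_adj, SimpleGraph.sup_adj] at h1
    rcases adj4 x y h2 with h3 | ⟨h3, h4, h5⟩
    · rcases h1 with (h1 | h1) | h1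
      · exact ((hH x y).1 (hcov1 x y h1)).2.2 (hDR h3)
      · exact ((hDadj x y).1 h3).2.1 h1
      · exact ((hDadj x y).1 h3).2.2 h1
    · rcases h1 with (h1 | h1) | h1
      · exact ((hH x y).1 (hcov1 x y h1)).2.1 ⟨hZ _ h4, hZ _ h5⟩
      · rcases adj2 x y h1 with ⟨_, h6, _⟩ | ⟨_, h6, _⟩ | ⟨_, _, h6⟩
        · exact hW _ h6 (hZ _ h4)
        · exact hW _ h6 (hZ _ h4)
        · exact hW _ h6 (hZ _ h5)
      · exact ((hQadj x y).1 h3).2 h1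
  have hDinW : ∀ x y, D.Adj x y → ¬ (x ∈ U1 ∧ y ∈ U1) := by
    rintro x y h ⟨h1, h2⟩
    rcases hDX x y h with ⟨h3, _⟩ | ⟨h3, _⟩
    · exact hW _ h3 h1
    · exact hW _ h3 h2
  -- edges of the cover inside `U1`
  have hins : ∀ x y, x ∈ U1 → y ∈ U1 → (cov (T1 ∪ T2 ∪ T3 ∪ T4)).Adj x y →
      ((cov T3).Adj x y ∧ ¬ (x ∈ U2 ∧ y ∈ U2)) ∨
      ((cov T4).Adj x y ∧ x ∈ U1 \ U2 ∧ y ∈ U1 \ U2) := by
    intro x y hx hy' h
    rw [cov_union, cov_union, cov_union, SimpleGraph.sup_adj, SimpleGraph.sup_adj,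
      SimpleGraph.sup_adj] at h
    rcases h with ((h | h) | h) | h
    · exact absurd ⟨hx, hy'⟩ ((hH x y).1 (hcov1 x y h)).2.1
    · rcases adj2 x y h with ⟨_, h6, _⟩ | ⟨_, h6, _⟩ | ⟨_, _, h6⟩
      · exact absurd hx (hW _ h6)
      · exact absurd hx (hW _ h6)
      · exact absurd hy' (hW _ h6)
    · left
      refine ⟨h, ?_⟩
      rcases adj3 x y h with ⟨_, h6⟩ | ⟨_, h6⟩ | ⟨_, _, _, h6⟩
      · rcases h6 with ⟨h6, _⟩ | ⟨h6, _⟩
        · exact absurd hx (hW _ h6)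
        · exact absurd hy' (hW _ h6)
      · rcases h6 with ⟨h6, _⟩ | ⟨h6, _⟩
        · exact absurd hx (hW _ h6)
        · exact absurd hy' (hW _ h6)
      · exact h6
    · right
      refine ⟨h, ?_⟩
      rcases adj4 x y h with h3 | ⟨_, h4, h5⟩
      · exact absurd ⟨hx, hy'⟩ (hDinW x y h3)
      · exact ⟨h4, h5⟩
  refine ⟨T1 ∪ T2 ∪ T3 ∪ T4, ?_, ?_, ?_, ?_, ?_⟩
  · refine (hpack3.union p4 hd4).mono (sup_le le_rfl (sup_le (hDR.trans hR0G) ?_))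
    exact fun x y h => ((hQadj x y).1 h).1.1
  · intro u v huv hnot
    rw [cov_union, cov_union, cov_union, SimpleGraph.sup_adj, SimpleGraph.sup_adj,
      SimpleGraph.sup_adj]
    by_contra hcon
    rw [not_or, not_or, not_or] at hcon
    obtain ⟨⟨⟨k1, k2⟩, k3⟩, k4⟩ := hcon
    by_cases hr : R0.Adj u v
    · exact k4 (cov4 ((hDadj u v).2 ⟨hr, k2, k3⟩))
    · have h1 : L.Adj u v := (hLadj u v).2 ⟨(hH u v).2 ⟨huv, hnot, hr⟩, k1⟩
      obtain ⟨hu, hv⟩ := hin _ _ huv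
      by_cases hu1 : u ∈ U1
      · have hv1 : v ∉ U1 := fun h => hnot ⟨hu1, h⟩
        exact k3 (cov3 v (mem_sdiff.2 ⟨hv, hv1⟩) u hu1 h1.symm).symm
      · by_cases hv1 : v ∈ U1
        · exact k3 (cov3 u (mem_sdiff.2 ⟨hu, hu1⟩) v hv1 h1)
        · exact k2 (cov2 u (mem_sdiff.2 ⟨hu, hu1⟩) v (mem_sdiff.2 ⟨hv, hv1⟩) h1)
  · intro u hu v hv h
    rcases hins u v (hU2 hu) (hU2 hv) h with ⟨_, h1⟩ | ⟨_, h1, _⟩
    · exact h1 ⟨hu, hv⟩
    · exact (mem_sdiff.1 h1).2 hu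
  · intro u hu i
    have h1 : dg (cov (T1 ∪ T2 ∪ T3 ∪ T4)) u (pt π U1 i) ≤
        dg (cov T3) u U1 + (if u ∈ U1 \ U2 then dg (cov T4) u (U1 \ U2) else 0) := by
      split_ifs with hu2
      · refine (card_le_card ?_).trans (card_union_le _ _)
        intro z hz
        rw [mem_nb, mem_pt] at hz
        obtain ⟨⟨hz1, _⟩, hz2⟩ := hz
        rcases hins u z hu hz1 hz2 with ⟨h2, _⟩ | ⟨h2, _, h3⟩
        · exact mem_union_left _ (mem_nb.2 ⟨hz1, h2⟩)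
        · exact mem_union_right _ (mem_nb.2 ⟨h3, h2⟩)
      · rw [add_zero]
        refine card_le_card ?_
        intro z hz
        rw [mem_nb, mem_pt] at hz
        obtain ⟨⟨hz1, _⟩, hz2⟩ := hz
        rcases hins u z hu hz1 hz2 with ⟨h2, _⟩ | ⟨_, h3, _⟩
        · exact mem_nb.2 ⟨hz1, h2⟩
        · exact absurd h3 hu2
    have h2 := deg3 u hu
    have h3 : ((if u ∈ U1 \ U2 then dg (cov T4) u (U1 \ U2) else 0 : ℕ) : ℝ) ≤
        2 * (N / q + q * E) := by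
      split_ifs with hu2
      · have h4 := (deg4 u hu2).trans (dg_mono hDR u)
        exact le_trans (by exact_mod_cast h4) (c4 u hu)
      · push_cast
        positivity
    have h5 : (dg (cov (T1 ∪ T2 ∪ T3 ∪ T4)) u (pt π U1 i) : ℝ) ≤ (d + Λ) +
        ((if u ∈ U1 \ U2 then dg (cov T4) u (U1 \ U2) else 0 : ℕ) : ℝ) := by
      exact_mod_cast h1.trans (Nat.add_le_add_right h2 _)
    linarith
  · intro u hu i
    rcases Nat.eq_zero_or_pos N2 with h0 | h0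
    · have h1 : dg (cov (T1 ∪ T2 ∪ T3 ∪ T4)) u (pt π U2 i) ≤ 0 := by
        refine (dg_le_card _).trans ?_
        rw [hy.szU2 i, h0]
      have h2 : dg (cov (T1 ∪ T2 ∪ T3 ∪ T4)) u (pt π U2 i) = 0 := by omega
      rw [h2, h0]
      simp
    · refine le_trans ?_ (n7 h0.ne')
      have h1 : dg (cov (T1 ∪ T2 ∪ T3 ∪ T4)) u (pt π U2 i) ≤ dg (cov T3) u U2 := by
        refine card_le_card ?_
        intro z hz
        rw [mem_nb, mem_pt] at hz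
        obtain ⟨⟨hz1, _⟩, hz2⟩ := hz
        rcases hins u z hu (hU2 hz1) hz2 with ⟨h2, _⟩ | ⟨_, _, h3⟩
        · exact mem_nb.2 ⟨hz1, h2⟩
        · exact absurd hz1 (mem_sdiff.1 h3).2
      exact_mod_cast h1.trans (deg3' u hu)

end DH
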