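import Pool.Agent.Lib.MP_fe8cb7_co.h25.StC

open Finset

namespace DH

/-- the numerical conditions of [C6] -/
private theorem C7_num (c η e x n m k r E a a2 Y u L L2 : ℝ) (hc : c ≤ 3 / 20) (he : 0 < e)
    (he1 : e ≤ 1) (heη : e ≤ η) (hk : 200 ≤ k) (hr : 200 * k ≤ e * r) (hr1 : 1 ≤ r)
    (hu : 0 < u) (hY : Y = u * r) (hx : x = Y * r) (hn : n ≤ 2 * k * x) (hn0 : 0 ≤ n)
    (hm : m ≤ x / 200)
    (ha : a ≤ 0.0002 * e * u) (hE : E ≤ a) (hE0 : 0 ≤ E) (hY40 : 40 ≤ Y)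
    (hL1 : L ≤ Y / 20) (hL : 6 * x * a / L ≤ 0.048 * Y) (hL2 : 6 * m * a2 / L2 ≤ 0.048 * Y) :
    4 * a < ((1 - 2 * c) * x - m) / r ^ 2 - E ∧
    6 * a + L + (6 * x * a / L + 1) + (6 * m * a2 / L2 + 1) < ((1 - 2 * c) * x - m) / r - r * E ∧
    x / r + r * E + 2 * (n / r ^ 2 + E) ≤ 2 * (((1 - 2 * c) * x - m) / r - r * E - 6 * a - L) ∧
    2 * a + L + 2 * (n / r + r * E) ≤ η * x := by
  have hr0 : 0 < r := by linarith
  have hx0 : 0 < x := by rw [hx, hY]; positivity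
  have hY0 : 0 < Y := by linarith
  have hA : 0.695 * u ≤ ((1 - 2 * c) * x - m) / r ^ 2 := by
    rw [le_div_iff₀ (by positivity)]
    have : u * r ^ 2 = x := by rw [hx, hY]; ring
    nlinarith
  have hB : 0.695 * Y ≤ ((1 - 2 * c) * x - m) / r := by
    rw [le_div_iff₀ (by positivity)]
    nlinarith
  have hxr : x / r = Y := by rw [hx]; field_simp
  have huY : u ≤ Y := by rw [hY]; nlinarith
  have hYx : Y ≤ x := by rw [hx]; nlinarith
  have heu : e * u ≤ u := by nlinarith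
  have heuY : e * u * r ≤ Y := by rw [hY]; nlinarith
  have hrE : r * E ≤ 0.0002 * Y := by
    have h1 : r * E ≤ r * (0.0002 * e * u) := by
      apply mul_le_mul_of_nonneg_left (by linarith) hr0.le
    have h2 : r * (0.0002 * e * u) = 0.0002 * (e * u * r) := by ring
    rw [h2] at h1
    linarith
  have hkr : 200 * k ≤ r := by nlinarith
  have hnr2 : n / r ^ 2 ≤ 0.01 * Y := by
    rw [div_le_iff₀ (by positivity)]
    have : 0.01 * Y * r ^ 2 = 0.01 * r * x := by rw [hx]; ring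
    rw [this]
    nlinarith
  have hnr : n / r ≤ 0.01 * e * x := by
    rw [div_le_iff₀ hr0]
    nlinarith
  have hex : 0 < e * x := by positivity
  have hLx : L ≤ 0.05 * e * x := by
    have h1 : Y ≤ e * x := by
      rw [hx]
      have : 1 ≤ e * r := by linarith
      nlinarith
    linarith
  have haex : a ≤ 0.0002 * (e * x) := by
    have : e * u ≤ e * x := by
      apply mul_le_mul_of_nonneg_left (by linarith) he.le
    linarith
  have hrEx : r * E ≤ 0.0002 * (e * x) := by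
    have h1 : r * E ≤ r * (0.0002 * e * u) := by
      apply mul_le_mul_of_nonneg_left (by linarith) hr0.le
    have h2 : r * (0.0002 * e * u) = 0.0002 * (e * Y) := by rw [hY]; ring
    rw [h2] at h1
    have h3 : e * Y ≤ e * x := by
      apply mul_le_mul_of_nonneg_left (by linarith) he.le
    linarith
  have heta : e * x ≤ η * x := by
    apply mul_le_mul_of_nonneg_right heη hx0.le
  refine ⟨by linarith, by linarith, by rw [hxr]; linarith, by linarith⟩

theorem p_C7 : S_C7 := by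
  intro hCol hCells hC1 hC2 hC3 hC4 hHall hC5 hC6 c hc hADU η hη
  set e : ℝ := min 1 η with hedef
  have he : 0 < e := lt_min one_pos hη
  have he1 : e ≤ 1 := min_le_left _ _
  have heη : e ≤ η := min_le_right _ _
  obtain ⟨K, hK⟩ := exists_nat_ge (200 / e)
  have hK' : 200 ≤ e * (K : ℝ) := by
    rw [div_le_iff₀ he] at hK; linarith
  have hK200 : (200 : ℝ) ≤ K := by
    have : e * (K : ℝ) ≤ 1 * K := mul_le_mul_of_nonneg_right he1 (Nat.cast_nonneg _)
    linarith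
  have hKn : 200 ≤ K := by exact_mod_cast hK200
  obtain ⟨q, hq⟩ := exists_nat_ge (200 * (K : ℝ) / e)
  have hq' : 200 * (K : ℝ) ≤ e * (q : ℝ) := by
    rw [div_le_iff₀ he] at hq; linarith
  have hq1 : (1 : ℝ) ≤ q := by
    have : e * (q : ℝ) ≤ 1 * q := mul_le_mul_of_nonneg_right he1 (Nat.cast_nonneg _)
    linarith
  have hqn : 1 ≤ q := by exact_mod_cast hq1
  have hK0 : (0 : ℝ) < K := by linarith
  have hq0 : (0 : ℝ) < q := by linarith
  set γ : ℝ := e / (10 ^ 4 * K * q ^ 2) with hγdef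
  have hγ : 0 < γ := by positivity
  obtain ⟨ζ, hζ, hADU2⟩ := hADU η hη γ hγ
  set γ1 : ℝ := min e (ζ / 8) with hγ1def
  have hγ1 : 0 < γ1 := lt_min he (by positivity)
  have hγ1e : γ1 ≤ e := min_le_left _ _
  have hγ1ζ : γ1 ≤ ζ / 8 := min_le_right _ _
  set γ0 : ℝ := γ1 / (2000 * K * q) with hγ0def
  have hγ0 : 0 < γ0 := by positivity
  have hγ01 : 2 * γ0 ≤ γ1 := by
    rw [hγ0def, ← mul_div_assoc, div_le_iff₀ (by positivity)]
    have : (2 : ℝ) ≤ 2000 * K * q := by nlinarith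
    nlinarith
  obtain ⟨NA, hNA⟩ := hADU2 γ0 hγ0
  set δ : ℝ := min γ (ζ / (16 * q)) with hδdef
  have hδ : 0 < δ := lt_min hγ (by positivity)
  have hδγ : δ ≤ γ := min_le_left _ _
  have hδζ : δ ≤ ζ / (16 * q) := min_le_right _ _
  obtain ⟨NC, hNC⟩ := hCells hCol q hqn δ hδ
  obtain ⟨NB, hNB⟩ := exists_nat_ge (2 / (γ1 - γ0))
  have hγd : 0 < γ1 - γ0 := by linarith
  have hNB' : 2 ≤ (γ1 - γ0) * (NB : ℝ) := by
    rw [div_le_iff₀ hγd] at hNB; linarith
  refine ⟨K, by omega, γ0, γ1, hγ0, by linarith, hγ1e.trans heη, NA + NC + NB + 40 * q, ?_⟩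
  intro V _ _ π G U U1 U2 N N1 N2 hz hnz H
  have hN1 := H.hN1
  have hN2 := H.hN2
  have hbig : NA + NC + NB + 40 * q ≤ N1 := by
    by_cases h0 : N2 = 0
    · exact hz h0
    · refine (hnz h0).trans ?_
      rcases hN2 with h2 | h2
      · rw [h2]; exact Nat.div_le_self _ _
      · exact absurd h2 h0
  have hKN1 : K * N1 ≤ N := by rw [hN1]; exact Nat.mul_div_le N K
  have hNK : N ≤ 2 * K * N1 := by
    have h1 : N < K * (N1 + 1) := by
      rw [hN1]
      exact Nat.lt_mul_div_succ N (by omega)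
    have h2 : 1 ≤ N1 := by omega
    nlinarith
  have hKN2 : K * N2 ≤ N1 := by
    rcases hN2 with h2 | h2
    · rw [h2]; exact Nat.mul_div_le N1 K
    · rw [h2]; simp
  have hN1N : N1 ≤ N := by nlinarith
  -- reals
  have hKN1' : (K : ℝ) * N1 ≤ N := by exact_mod_cast hKN1
  have hNK' : (N : ℝ) ≤ 2 * K * N1 := by exact_mod_cast hNK
  have hKN2' : (K : ℝ) * N2 ≤ N1 := by exact_mod_cast hKN2
  have hx0 : (0 : ℝ) < N1 := by
    have : 1 ≤ N1 := by omega
    exact_mod_cast this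
  have hn0 : (0 : ℝ) < N := by nlinarith
  have hm0 : (0 : ℝ) ≤ N2 := Nat.cast_nonneg _
  have hm : (N2 : ℝ) ≤ N1 / 200 := by
    rw [le_div_iff₀ (by norm_num)]
    nlinarith
  have hE0 : 0 ≤ δ * (N : ℝ) := by positivity
  obtain ⟨ρ, χ, hcells⟩ := hNC V π G U U1 U2 N (by omega) H.szU H.sub1 H.sub2
  obtain ⟨hTri, hWithin, hdeg, himb, himb2⟩ := hC1 V π G U U1 U2 N N1 N2 K q c η γ0 γ1 (δ * N) ρ χ
    H hcells (by omega) hE0 hγ0.le hγ1.le
  -- the hypotheses of ADU
  have hqδ : (q : ℝ) * (δ * N) ≤ ζ / 16 * N := by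
    have h1 : (q : ℝ) * δ ≤ ζ / 16 := by
      have := mul_le_mul_of_nonneg_left hδζ hq0.le
      have h2 : (q : ℝ) * (ζ / (16 * q)) = ζ / 16 := by field_simp
      linarith
    nlinarith
  have hqδ2 : (q : ℝ) * (δ * N) ≤ e / 10 ^ 4 * N := by
    have h1 : (q : ℝ) * δ ≤ e / 10 ^ 4 := by
      have h0 := mul_le_mul_of_nonneg_left hδγ hq0.le
      have h2 : (q : ℝ) * γ = e / (10 ^ 4) / (K * q) := by rw [hγdef]; field_simp
      have h3 : e / (10 ^ 4) / (K * q) ≤ e / 10 ^ 4 := by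
        apply div_le_self (by positivity)
        nlinarith
      linarith
    nlinarith
  have hN1e : (N1 : ℝ) ≤ e / 200 * N := by nlinarith
  have hNqe : (N : ℝ) / q ≤ e / 200 * N := by
    rw [div_le_iff₀ hq0]
    have : (1 : ℝ) ≤ e / 200 * q := by nlinarith
    nlinarith
  obtain ⟨T1, hP1, hT1a, hT1b⟩ := hNA V π (HG π G U U1 U2 ρ χ) U U2 N γ0 (by omega) H.szU hTri
    hWithin (H.sub2.trans H.sub1)
    (by
      intro v hv i hi
      refine le_trans ?_ (hdeg v hv i hi)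
      have : e * (N : ℝ) ≤ η * N := mul_le_mul_of_nonneg_right heη hn0.le
      nlinarith)
    (by
      intro v hv
      refine (himb v hv).trans ?_
      have h1 : γ1 * (N1 : ℝ) ≤ ζ / 8 * N := by
        have : (N1 : ℝ) ≤ N := by exact_mod_cast hN1N
        exact mul_le_mul hγ1ζ this hx0.le (by positivity)
      have h2 : γ0 * (N1 : ℝ) ≤ γ1 * N1 := mul_le_mul_of_nonneg_right (by linarith) hx0.le
      have h3 : 0 < ζ * (N : ℝ) := by positivity
      nlinarith)
    (by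
      intro v hv
      refine (himb2 v hv).trans ?_
      have : (N1 : ℝ) ≤ N := by exact_mod_cast hN1N
      exact mul_le_mul_of_nonneg_left this hγ0.le)
    (by
      intro i
      rw [H.szU2 i]
      nlinarith)
  -- the numbers
  have hY40 : (40 : ℝ) ≤ N1 / q := by
    rw [le_div_iff₀ hq0]
    have : 40 * q ≤ N1 := by omega
    exact_mod_cast this
  set L : ℕ := ⌊(N1 : ℝ) / q / 20⌋₊ with hLdef
  set L2 : ℕ := max 1 ⌊(γ1 - γ0) * (N2 : ℝ)⌋₊ with hL2def
  have hL1 : 1 ≤ L := by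
    rw [hLdef]
    apply Nat.le_floor
    push_cast
    linarith
  have hLle : (L : ℝ) ≤ N1 / q / 20 := by
    rw [hLdef]
    exact Nat.floor_le (by positivity)
  have hLge : (N1 : ℝ) / q / 40 ≤ L := by
    have := Nat.lt_floor_add_one ((N1 : ℝ) / q / 20)
    rw [← hLdef] at this
    linarith
  have hγN : γ * (N : ℝ) ≤ 0.0002 * e * (N1 / q ^ 2) := by
    rw [hγdef]
    have h1 : e / (10 ^ 4 * K * q ^ 2) * (N : ℝ) ≤ e / (10 ^ 4 * K * q ^ 2) * (2 * K * N1) :=
      mul_le_mul_of_nonneg_left hNK' (by positivity)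
    have h2 : e / (10 ^ 4 * K * q ^ 2) * (2 * K * (N1 : ℝ)) = 0.0002 * e * (N1 / q ^ 2) := by
      field_simp
      norm_num
    linarith
  have hLa : 6 * (N1 : ℝ) * (γ * N) / L ≤ 0.048 * (N1 / q) := by
    have hL0 : (0 : ℝ) < L := by exact_mod_cast hL1
    rw [div_le_iff₀ hL0]
    have h1 : 6 * (N1 : ℝ) * (γ * N) ≤ 6 * N1 * (0.0002 * e * (N1 / q ^ 2)) :=
      mul_le_mul_of_nonneg_left hγN (by positivity)
    have h2 : 0.048 * ((N1 : ℝ) / q) * (N1 / q / 40) ≤ 0.048 * (N1 / q) * L :=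
      mul_le_mul_of_nonneg_left hLge (by positivity)
    have h3 : 6 * (N1 : ℝ) * (0.0002 * e * (N1 / q ^ 2)) ≤ 0.048 * (N1 / q) * (N1 / q / 40) := by
      have h4 : 6 * (N1 : ℝ) * (0.0002 * e * (N1 / q ^ 2)) = 0.0012 * e * (N1 / q) ^ 2 := by
        field_simp
        norm_num
      have h5 : 0.048 * ((N1 : ℝ) / q) * (N1 / q / 40) = 0.0012 * (N1 / q) ^ 2 := by ring
      rw [h4, h5]
      have : 0 ≤ ((N1 : ℝ) / q) ^ 2 := by positivity
      nlinarith
    linarith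
  have hL2n : N2 ≠ 0 → 2 ≤ (γ1 - γ0) * (N2 : ℝ) := by
    intro h0
    have h1 := hnz h0
    have h2 : (NB : ℝ) ≤ N2 := by
      have : NB ≤ N2 := by omega
      exact_mod_cast this
    have := mul_le_mul_of_nonneg_left h2 hγd.le
    linarith
  have hL2a : 6 * (N2 : ℝ) * ((γ0 + γ0) * N) / L2 ≤ 0.048 * (N1 / q) := by
    by_cases h0 : N2 = 0
    · rw [h0]
      simp
      positivity
    · have h1 := hL2n h0
      have h2 : (γ1 - γ0) * (N2 : ℝ) / 2 ≤ L2 := by
        have h3 := Nat.lt_floor_add_one ((γ1 - γ0) * (N2 : ℝ))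
        have h4 : (⌊(γ1 - γ0) * (N2 : ℝ)⌋₊ : ℝ) ≤ L2 := by
          rw [hL2def]; exact_mod_cast le_max_right _ _
        linarith
      have hN20 : (0 : ℝ) < N2 := by
        have : 0 < N2 := Nat.pos_of_ne_zero h0
        exact_mod_cast this
      have hL20 : (0 : ℝ) < L2 := by linarith
      rw [div_le_iff₀ hL20]
      have h5 : 0.048 * ((N1 : ℝ) / q) * ((γ1 - γ0) * (N2 : ℝ) / 2) ≤ 0.048 * (N1 / q) * L2 :=
        mul_le_mul_of_nonneg_left h2 (by positivity)
      refine le_trans ?_ h5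
      have h6 : (γ1 / 2) ≤ γ1 - γ0 := by linarith
      have h7 : 0.048 * ((N1 : ℝ) / q) * (γ1 / 2 * (N2 : ℝ) / 2)
          ≤ 0.048 * ((N1 : ℝ) / q) * ((γ1 - γ0) * (N2 : ℝ) / 2) := by
        apply mul_le_mul_of_nonneg_left _ (by positivity)
        have := mul_le_mul_of_nonneg_right h6 hN20.le
        linarith
      refine le_trans ?_ h7
      have h8 : 6 * (N2 : ℝ) * ((γ0 + γ0) * N) ≤ 6 * N2 * ((γ0 + γ0) * (2 * K * N1)) := by
        apply mul_le_mul_of_nonneg_left _ (by positivity)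
        exact mul_le_mul_of_nonneg_left hNK' (by positivity)
      refine h8.trans (le_of_eq ?_)
      rw [hγ0def]
      field_simp
      norm_num
  obtain ⟨n3, n4, n5, n6⟩ := C7_num c η e N1 N N2 K q (δ * N) (γ * N) ((γ0 + γ0) * N) (N1 / q)
    (N1 / q ^ 2) L L2 hc he he1 heη hK200 hq' hq1 (by positivity) (by field_simp) (by field_simp)
    hNK' hn0.le hm hγN (mul_le_mul_of_nonneg_right hδγ hn0.le) hE0 hY40 hLle hLa hL2a
  exact hC6 hC2 hC3 hC4 hHall hC5 V π G U U1 U2 N N1 N2 K q L L2 c η γ0 γ1 (δ * N) (γ * N)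
    ((γ0 + γ0) * N) ρ χ T1 H hcells (by omega) hE0 hη (by positivity) (by positivity) hL1
    (le_max_left _ _) hP1 hT1a hT1b n3 n4 n5 n6
    (by
      intro h0
      have h1 := hL2n h0
      rw [hL2def]
      push_cast
      rw [max_le_iff]
      exact ⟨by linarith, Nat.floor_le (by linarith)⟩)

end DH
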