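import Pool.Agent.Lib.MP_fe8cb7_co.h25.StC

/-!
# Daykin-Haggkvist problem: piece Cells (existence of the cells)
-/

open Finset

namespace DH

private theorem Cells_card {V : Type} [DecidableEq V] {π : V → ZMod 3} {U : Finset V} {N : ℕ}
    (h : Eq3 π U N) : U.card = 3 * N := by
  rw [card_eq_sum_card_fiberwise (f := π) (t := univ) (fun _ _ => mem_coe.2 (mem_univ _))]
  have : ∀ i ∈ (univ : Finset (ZMod 3)), (U.filter (fun v => π v = i)).card = N := fun i _ => h i
  rw [sum_congr rfl this, sum_const, card_univ]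
  rfl

private theorem Cells_lim {c : ℝ} (hc : 0 < c) (A : ℝ) :
    ∃ N0 : ℕ, ∀ N : ℕ, N0 ≤ N → A * ((N : ℝ) ^ 2 * Real.exp (-(c * N))) < 1 := by
  have h1 : Filter.Tendsto (fun N : ℕ => c * (N : ℝ)) Filter.atTop Filter.atTop :=
    Filter.Tendsto.const_mul_atTop hc tendsto_natCast_atTop_atTop
  have h2 := (Real.tendsto_pow_mul_exp_neg_atTop_nhds_zero 2).comp h1
  have h3 := h2.const_mul (A / c ^ 2)
  rw [mul_zero] at h3
  have h4 := h3.eventually (gt_mem_nhds one_pos)
  obtain ⟨N0, hN0⟩ := Filter.eventually_atTop.1 h4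
  refine ⟨N0, fun N hN => ?_⟩
  have h5 := hN0 N hN
  simp only [Function.comp_apply] at h5
  have e : A * ((N : ℝ) ^ 2 * Real.exp (-(c * N)))
      = A / c ^ 2 * ((c * N) ^ 2 * Real.exp (-(c * N))) := by
    field_simp
  rw [e]
  exact h5

/-- [Cells] -/
theorem p_Cells : S_Cells := by
  intro hCol q hq δ hδ
  set c : ℝ := (min δ 6) ^ 2 / 12 with hc
  have hm : 0 < min δ 6 := lt_min hδ (by norm_num)
  have hc0 : 0 < c := by positivity
  obtain ⟨N0, hN0⟩ := Cells_lim hc0 (80 * (q : ℝ) ^ 2)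
  refine ⟨max N0 1, ?_⟩
  intro V _ _ π G U U1 U2 N hN hE h1 h2
  have hN1 : 1 ≤ N := (le_max_right _ _).trans hN
  have hN1' : (1 : ℝ) ≤ N := by exact_mod_cast hN1
  have hcard := Cells_card hE
  have : Nonempty (Fin q × Fin q) := ⟨(⟨0, hq⟩, ⟨0, hq⟩)⟩
  set F1 : Finset (Finset V) := (univ : Finset (ZMod 3)).image (fun i => pt π (U \ U1) i) with hF1
  set F2 : Finset (Finset V) := (U ×ˢ (univ : Finset (ZMod 3))).image
    (fun p => nb G p.1 (pt π (U \ U1) p.2)) with hF2
  set F3 : Finset (Finset V) := (U ×ˢ (U ×ˢ (univ : Finset (ZMod 3)))).image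
    (fun p => nb G p.1 (pt π (U1 \ U2) p.2.2) ∩ nb G p.2.1 (pt π (U1 \ U2) p.2.2)) with hF3
  have hz3 : (univ : Finset (ZMod 3)).card = 3 := rfl
  have hc1 : F1.card ≤ 3 := card_image_le.trans hz3.le
  have hc2 : F2.card ≤ 3 * N * 3 := by
    refine card_image_le.trans ?_
    rw [card_product, hcard, hz3]
  have hc3 : F3.card ≤ 3 * N * (3 * N * 3) := by
    refine card_image_le.trans ?_
    rw [card_product, card_product, hcard, hz3]
  have hFc : (F1 ∪ (F2 ∪ F3)).card ≤ 40 * N ^ 2 := by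
    refine (card_union_le _ _).trans ?_
    have := card_union_le F2 F3
    nlinarith
  set t : ℝ := (min δ 6) * N with ht
  have ht0 : 0 ≤ t := by positivity
  have htδ : t ≤ δ * N := mul_le_mul_of_nonneg_right (min_le_left _ _) (by linarith)
  have ht6 : t ≤ 2 * (U.card : ℝ) := by
    rw [hcard]
    push_cast
    have : t ≤ 6 * N := mul_le_mul_of_nonneg_right (min_le_right _ _) (by linarith)
    linarith
  have hsub : ∀ S ∈ F1 ∪ (F2 ∪ F3), S ⊆ U := by
    intro S hS
    rw [mem_union, mem_union] at hS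
    rcases hS with hS | hS | hS
    · obtain ⟨i, -, rfl⟩ := mem_image.1 hS
      exact (pt_subset i).trans sdiff_subset
    · obtain ⟨p, -, rfl⟩ := mem_image.1 hS
      exact (nb_subset _).trans ((pt_subset _).trans sdiff_subset)
    · obtain ⟨p, -, rfl⟩ := mem_image.1 hS
      exact inter_subset_left.trans ((nb_subset _).trans ((pt_subset _).trans
        (sdiff_subset.trans h1)))
  have hexp : t ^ 2 / (4 * (U.card : ℝ)) = c * N := by
    rw [hcard, ht, hc]
    push_cast
    field_simp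
    ring
  have hlt : 2 * ((F1 ∪ (F2 ∪ F3)).card : ℝ) * Fintype.card (Fin q × Fin q) *
      Real.exp (-(t ^ 2 / (4 * (U.card : ℝ)))) < 1 := by
    have h3 := hN0 N ((le_max_left _ _).trans hN)
    refine lt_of_le_of_lt ?_ h3
    rw [hexp, Fintype.card_prod, Fintype.card_fin]
    have h4 : ((F1 ∪ (F2 ∪ F3)).card : ℝ) ≤ 40 * N ^ 2 := by exact_mod_cast hFc
    push_cast
    have h5 : 0 ≤ (q : ℝ) * q * Real.exp (-(c * N)) := by positivity
    nlinarith
  obtain ⟨f, hf⟩ := hCol V (Fin q × Fin q) U (F1 ∪ (F2 ∪ F3)) t hsub ht0 ht6 hlt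
  have key : ∀ S ∈ F1 ∪ (F2 ∪ F3), Evn (fun x => (f x).1) (fun x => (f x).2) S (δ * N) := by
    intro S hS s t'
    have h3 := hf S hS (s, t')
    rw [Fintype.card_prod, Fintype.card_fin] at h3
    have e1 : S.filter (fun x => (f x).1 = s ∧ (f x).2 = t') = S.filter (fun x => f x = (s, t')) :=
      filter_congr fun x _ => by rw [Prod.ext_iff]
    have e2 : (((q * q : ℕ)) : ℝ) = (q : ℝ) ^ 2 := by
      push_cast
      ring
    rw [e1, ← e2]
    exact h3.trans htδ
  refine ⟨fun x => (f x).1, fun x => (f x).2, ?_, ?_, ?_⟩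
  · intro i
    exact key _ (mem_union_left _ (mem_image_of_mem _ (mem_univ i)))
  · intro v hv i
    refine key _ (mem_union_right _ (mem_union_left _ ?_))
    exact mem_image.2 ⟨(v, i), mem_product.2 ⟨hv, mem_univ _⟩, rfl⟩
  · intro v hv v' hv' i
    refine key _ (mem_union_right _ (mem_union_right _ ?_))
    exact mem_image.2 ⟨(v, v', i), mem_product.2 ⟨hv, mem_product.2 ⟨hv', mem_univ _⟩⟩, rfl⟩

end DH
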