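import Pool.Agent.Lib.MP_fe8cb7_co.h25.StC

open Finset

namespace DH

/-- conditional expectations -/
private lemma Col_ind {V κ ι : Type} [DecidableEq V] [Fintype κ] [Nonempty κ] (I : Finset ι)
    (φ : ι → V → κ → ℝ) (c : ℝ)
    (h : ∀ i ∈ I, ∀ x, ∑ k, Real.exp (φ i x k) ≤ Fintype.card κ * Real.exp c) (X : Finset V) :
    ∀ w : ι → ℝ, (∀ i ∈ I, 0 ≤ w i) → ∃ f : V → κ,
      ∑ i ∈ I, w i * Real.exp (∑ x ∈ X, φ i x (f x)) ≤ Real.exp (c * X.card) * ∑ i ∈ I, w i := by
  induction X using Finset.induction_on with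
  | empty =>
    intro w _
    refine ⟨fun _ => Classical.arbitrary κ, ?_⟩
    simp
  | insert a X ha ih =>
    intro w hw
    have h1 : ∑ k : κ, ∑ i ∈ I, w i * Real.exp (φ i a k) ≤
        ∑ _k : κ, Real.exp c * ∑ i ∈ I, w i := by
      rw [sum_comm, sum_const, card_univ, nsmul_eq_mul]
      calc ∑ i ∈ I, ∑ k, w i * Real.exp (φ i a k) = ∑ i ∈ I, w i * ∑ k, Real.exp (φ i a k) := by
            simp only [mul_sum]
        _ ≤ ∑ i ∈ I, w i * (Fintype.card κ * Real.exp c) :=
            sum_le_sum fun i hi => mul_le_mul_of_nonneg_left (h i hi a) (hw i hi)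
        _ = Fintype.card κ * (Real.exp c * ∑ i ∈ I, w i) := by
            rw [← sum_mul]; ring
    obtain ⟨k, -, hk⟩ := exists_le_of_sum_le (univ_nonempty (α := κ)) h1
    obtain ⟨f, hf⟩ := ih (fun i => w i * Real.exp (φ i a k))
      (fun i hi => mul_nonneg (hw i hi) (Real.exp_pos _).le)
    refine ⟨Function.update f a k, ?_⟩
    have h2 : ∀ i, ∑ x ∈ insert a X, φ i x (Function.update f a k x)
        = φ i a k + ∑ x ∈ X, φ i x (f x) := by
      intro i
      rw [sum_insert ha, Function.update_self]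
      congr 1
      refine sum_congr rfl fun x hx => ?_
      rw [Function.update_of_ne]
      rintro rfl
      exact ha hx
    simp only [h2, Real.exp_add, ← mul_assoc]
    refine hf.trans ?_
    rw [card_insert_of_notMem ha]
    push_cast
    rw [mul_add, mul_one, Real.exp_add, mul_assoc]
    exact mul_le_mul_of_nonneg_left hk (Real.exp_pos _).le

private lemma Col_exp {κ : Type} [Fintype κ] [DecidableEq κ] [Nonempty κ] (l : ℝ) (hl : |l| ≤ 1)
    (k : κ) : ∑ j : κ, Real.exp (l * ((if j = k then 1 else 0) - 1 / Fintype.card κ)) ≤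
      Fintype.card κ * Real.exp (l ^ 2) := by
  have hQ : (1 : ℝ) ≤ Fintype.card κ := by
    exact_mod_cast Fintype.card_pos
  set Q : ℝ := (Fintype.card κ : ℝ) with hQd
  have hQ1 : 0 ≤ 1 / Q ∧ 1 / Q ≤ 1 :=
    ⟨by positivity, by rw [div_le_one (by linarith)]; exact hQ⟩
  set y : κ → ℝ := fun j => (if j = k then 1 else 0) - 1 / Q with hy
  have hy1 : ∀ j, |y j| ≤ 1 := by
    intro j
    rw [abs_le]
    simp only [hy]
    split_ifs <;> constructor <;> linarith [hQ1.1, hQ1.2]
  have hl2 : ∀ j, |l * y j| ≤ |l| := by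
    intro j
    rw [abs_mul]
    exact mul_le_of_le_one_right (abs_nonneg _) (hy1 j)
  have hsum : ∑ j, y j = 0 := by
    simp only [hy, sum_sub_distrib, sum_ite_eq', mem_univ, if_true, sum_const, card_univ,
      nsmul_eq_mul]
    rw [← hQd]
    field_simp
    ring
  have hb : ∀ j, Real.exp (l * y j) ≤ 1 + l * y j + l ^ 2 := by
    intro j
    have h1 := Real.abs_exp_sub_one_sub_id_le ((hl2 j).trans hl)
    have h2 : (l * y j) ^ 2 ≤ l ^ 2 := by
      rw [← sq_abs (l * y j), ← sq_abs l]
      exact pow_le_pow_left₀ (abs_nonneg _) (hl2 j) 2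
    have h3 := (abs_le.1 h1).2
    linarith
  calc ∑ j, Real.exp (l * y j) ≤ ∑ j, (1 + l * y j + l ^ 2) := sum_le_sum fun j _ => hb j
    _ = Q * (1 + l ^ 2) := by
        simp only [sum_add_distrib, ← mul_sum, hsum, sum_const, card_univ, nsmul_eq_mul]
        rw [← hQd]; ring
    _ ≤ Q * Real.exp (l ^ 2) := by
        refine mul_le_mul_of_nonneg_left ?_ (by linarith)
        linarith [Real.add_one_le_exp (l ^ 2)]

theorem p_Col : S_Col := by
  intro V κ _ _ _ _ X 𝓕 t hF ht ht2 hlt
  rcases X.eq_empty_or_nonempty with rfl | hX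
  · refine ⟨fun _ => Classical.arbitrary κ, fun S hS k => ?_⟩
    have : S = ∅ := subset_empty.1 (hF S hS)
    subst this
    simpa using ht
  have hXc : (0 : ℝ) < X.card := by exact_mod_cast hX.card_pos
  set l : ℝ := t / (2 * X.card) with hl
  have hl0 : 0 ≤ l := by positivity
  have hl1 : l ≤ 1 := by
    rw [hl, div_le_one (by positivity)]
    exact ht2
  have hQ : (1 : ℝ) ≤ Fintype.card κ := by
    exact_mod_cast Fintype.card_pos
  set sg : Bool → ℝ := fun b => if b then l else -l with hsg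
  have hsg2 : ∀ b, |sg b| ≤ 1 ∧ sg b ^ 2 = l ^ 2 := by
    intro b
    cases b
    · simp only [hsg]
      norm_num
      rw [abs_of_nonneg hl0]; exact hl1
    · simp only [hsg]
      norm_num
      rw [abs_of_nonneg hl0]; exact hl1
  set φ : Finset V × κ × Bool → V → κ → ℝ := fun i x j =>
    if x ∈ i.1 then sg i.2.2 * ((if j = i.2.1 then 1 else 0) - 1 / Fintype.card κ) else 0 with hφ
  obtain ⟨f, hf⟩ := Col_ind (𝓕 ×ˢ (univ : Finset κ) ×ˢ (univ : Finset Bool)) φ (l ^ 2) (by
    rintro ⟨S, k, b⟩ _ x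
    simp only [hφ]
    by_cases hx : x ∈ S
    · simp only [if_pos hx]
      have := Col_exp (sg b) (hsg2 b).1 k
      rwa [(hsg2 b).2] at this
    · simp only [if_neg hx, Real.exp_zero, sum_const, card_univ, nsmul_eq_mul]
      refine mul_le_mul_of_nonneg_left ?_ (by linarith)
      exact Real.one_le_exp (by positivity)) X (fun _ => 1) (fun _ _ => zero_le_one)
  simp only [one_mul, sum_const, nsmul_eq_mul, mul_one, card_product, card_univ,
    Fintype.card_bool] at hf
  have hexp : Real.exp (l ^ 2 * X.card) * (𝓕.card * (Fintype.card κ * 2) : ℝ) *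
      Real.exp (-(l * t)) < 1 := by
    have e1 : l ^ 2 * X.card + -(l * t) = -(t ^ 2 / (4 * X.card)) := by
      rw [hl]; field_simp; ring
    calc Real.exp (l ^ 2 * X.card) * (𝓕.card * (Fintype.card κ * 2) : ℝ) * Real.exp (-(l * t))
        = 2 * (𝓕.card : ℝ) * Fintype.card κ * (Real.exp (l ^ 2 * X.card) * Real.exp (-(l * t))) := by
          ring
      _ = 2 * (𝓕.card : ℝ) * Fintype.card κ * Real.exp (-(t ^ 2 / (4 * X.card))) := by
          rw [← Real.exp_add, e1]
      _ < 1 := hlt
  have key : ∀ S ∈ 𝓕, ∀ k : κ, ∀ b : Bool,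
      sg b * (((S.filter (fun x => f x = k)).card : ℝ) - (S.card : ℝ) / Fintype.card κ) < l * t := by
    intro S hS k b
    have h1 : ∑ x ∈ X, φ (S, k, b) x (f x) =
        sg b * (((S.filter (fun x => f x = k)).card : ℝ) - (S.card : ℝ) / Fintype.card κ) := by
      simp only [hφ]
      rw [sum_ite_mem, inter_eq_right.2 (hF S hS), ← mul_sum, sum_sub_distrib, sum_const,
        nsmul_eq_mul, sum_boole]
      ring
    have h2 : Real.exp (∑ x ∈ X, φ (S, k, b) x (f x)) ≤
        Real.exp (l ^ 2 * X.card) * (𝓕.card * (Fintype.card κ * 2) : ℝ) := by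
      refine le_trans ?_ (hf.trans_eq ?_)
      · exact single_le_sum (f := fun i => Real.exp (∑ x ∈ X, φ i x (f x)))
          (fun i _ => (Real.exp_pos _).le) (mem_product.2 ⟨hS, mem_product.2 ⟨mem_univ _,
            mem_univ _⟩⟩)
      · push_cast; ring
    rw [h1] at h2
    have h3 : Real.exp (sg b * (((S.filter (fun x => f x = k)).card : ℝ)
        - (S.card : ℝ) / Fintype.card κ) - l * t) < 1 := by
      rw [sub_eq_add_neg, Real.exp_add]
      refine lt_of_le_of_lt (mul_le_mul_of_nonneg_right h2 (Real.exp_pos _).le) ?_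
      exact hexp
    have h4 := Real.exp_lt_one_iff.1 h3
    linarith
  refine ⟨f, fun S hS k => ?_⟩
  have h1 := key S hS k true
  have h2 := key S hS k false
  simp only [hsg, if_true, Bool.false_eq_true, if_false] at h1 h2
  have hl0' : 0 < l := by
    rcases hl0.eq_or_lt with h | h
    · rw [← h] at h1; simp at h1
    · exact h
  rw [abs_le]
  constructor
  · have : l * (-(((S.filter (fun x => f x = k)).card : ℝ) - (S.card : ℝ) / Fintype.card κ))
      < l * t := by linarith
    have := lt_of_mul_lt_mul_left this hl0'.le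
    linarith
  · exact (lt_of_mul_lt_mul_left h1 hl0'.le).le

end DH
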