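import Pool.Agent.Lib.MP_fe8cb7_co.h25.StF

/-!
# Daykin-Haggkvist problem: kernel lemma [F1]
-/

open Finset

namespace DH

/-- weighted double sum over the edges of a bipartite graph with given degrees -/
private lemma F1_sum {A B : Type} [Fintype A] [Fintype B] (ab : A → B → Prop)
    [∀ a b, Decidable (ab a b)] (x : A → B → ℝ) (α : A → ℝ) (β : B → ℝ) (dA : A → ℝ) (dB : B → ℝ)
    (hx : ∀ a b, ab a b → x a b = α a + β b)
    (hA : ∀ a, ((univ.filter (fun b => ab a b)).card : ℝ) = dA a)
    (hB : ∀ b, ((univ.filter (fun a => ab a b)).card : ℝ) = dB b) :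
    ∑ a, ∑ b, (if ab a b then x a b else 0) = ∑ a, dA a * α a + ∑ b, dB b * β b := by
  have h1 : ∀ a b, (if ab a b then x a b else 0)
      = (if ab a b then α a else 0) + (if ab a b then β b else 0) := by
    intro a b
    by_cases h : ab a b
    · simp only [h, if_true]
      exact hx a b h
    · simp [h]
  have h2 : ∀ a, ∑ b, (if ab a b then α a else 0) = dA a * α a := by
    intro a
    rw [← Finset.sum_filter, Finset.sum_const, nsmul_eq_mul, hA a]
  have h3 : ∀ b, ∑ a, (if ab a b then β b else 0) = dB b * β b := by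
    intro b
    rw [← Finset.sum_filter, Finset.sum_const, nsmul_eq_mul, hB b]
  calc ∑ a, ∑ b, (if ab a b then x a b else 0)
      = ∑ a, ∑ b, ((if ab a b then α a else 0) + (if ab a b then β b else 0)) :=
        Finset.sum_congr rfl (fun a _ => Finset.sum_congr rfl (fun b _ => h1 a b))
    _ = ∑ a, ∑ b, (if ab a b then α a else 0) + ∑ a, ∑ b, (if ab a b then β b else 0) := by
        simp only [Finset.sum_add_distrib]
    _ = ∑ a, dA a * α a + ∑ b, dB b * β b := by
        congr 1
        · exact Finset.sum_congr rfl (fun a _ => h2 a)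
        · rw [Finset.sum_comm]
          exact Finset.sum_congr rfl (fun b _ => h3 b)

theorem p_F1 : S_F1 := by
  classical
  intro F1a F1c A B C _ _ _ ab bc ac N gA gB gC s hT x y z htri
  obtain ⟨c1, c2, c3, c4, c5, c6, c7, c8, c9⟩ := F1c A B C ab bc ac N gA gB gC s hT
  have neA : Nonempty A := by
    by_contra h
    rw [not_nonempty_iff] at h
    have h1 := hT.cA
    rw [Fintype.card_eq_zero] at h1
    have h2 := hT.N0
    simp only [Nat.cast_zero] at h1
    linarith
  have neB : Nonempty B := by
    by_contra h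
    rw [not_nonempty_iff] at h
    have h1 := hT.cB
    rw [Fintype.card_eq_zero] at h1
    have h2 := hT.N0
    simp only [Nat.cast_zero] at h1
    linarith
  -- potentials
  obtain ⟨p, q, hpq⟩ := F1a B C bc y neB c4 (by
    intro b b' c c' h1 h2 h3 h4
    obtain ⟨a, e1, e2, e3, e4⟩ := c1 b b' c c'
    have t1 := htri a b c e1 h1 e3
    have t2 := htri a b' c e2 h2 e3
    have t3 := htri a b c' e1 h3 e4
    have t4 := htri a b' c' e2 h4 e4
    linarith)
  obtain ⟨α, β, hαβ⟩ := F1a A B ab x neA c5 (by
    intro a a' b b' h1 h2 h3 h4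
    obtain ⟨c, e1, e2, e3, e4⟩ := c3 a a' b b'
    have t1 := htri a b c h1 e3 e1
    have t2 := htri a' b c h2 e3 e2
    have t3 := htri a b' c h3 e4 e1
    have t4 := htri a' b' c h4 e4 e2
    linarith)
  obtain ⟨r, t, hrt⟩ := F1a A C ac z neA c6 (by
    intro a a' c c' h1 h2 h3 h4
    obtain ⟨b, e1, e2, e3, e4⟩ := c2 a a' c c'
    have t1 := htri a b c e1 e3 h1
    have t2 := htri a' b c e2 e3 h2
    have t3 := htri a b c' e1 e4 h3
    have t4 := htri a' b c' e2 e4 h4
    linarith)
  have key : ∀ a b c, ab a b → bc b c → ac a c →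
      (α a + r a) + (β b + p b) + (q c + t c) = 0 := by
    intro a b c h1 h2 h3
    have e := htri a b c h1 h2 h3
    rw [hαβ a b h1, hpq b c h2, hrt a c h3] at e
    linarith
  -- constants
  have kA : ∀ a a', α a + r a = α a' + r a' := by
    intro a a'
    obtain ⟨b, c, e1, e2, e3, e4, e5⟩ := c7 a a'
    have t1 := key a b c e1 e5 e3
    have t2 := key a' b c e2 e5 e4
    linarith
  have kB : ∀ b b', β b + p b = β b' + p b' := by
    intro b b'
    obtain ⟨a, c, e1, e2, e3, e4, e5⟩ := c8 b b'
    have t1 := key a b c e1 e3 e5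
    have t2 := key a b' c e2 e4 e5
    linarith
  have kC : ∀ c c', q c + t c = q c' + t c' := by
    intro c c'
    obtain ⟨a, b, e1, e2, e3, e4, e5⟩ := c9 c c'
    have t1 := key a b c e5 e3 e1
    have t2 := key a b c' e5 e4 e2
    linarith
  obtain ⟨a0⟩ := neA
  obtain ⟨b0, c0, e1, -, e3, -, e5⟩ := c7 a0 a0
  have k0 := key a0 b0 c0 e1 e5 e3
  -- sums
  have s1 := F1_sum ab x α β (fun a => gA a * N) (fun b => gB b * N) hαβ
    (fun a => by simpa using hT.dAB a) (fun b => by simpa using hT.dBA b)
  have s2 := F1_sum bc y p q (fun b => gB b * N) (fun c => gC c * N) hpq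
    (fun b => by simpa using hT.dBC b) (fun c => by simpa using hT.dCB c)
  have s3 := F1_sum ac z r t (fun a => gA a * N) (fun c => gC c * N) hrt
    (fun a => by simpa using hT.dAC a) (fun c => by simpa using hT.dCA c)
  have u1 : ∑ a, gA a * N * α a + ∑ a, gA a * N * r a = s * N * N * (α a0 + r a0) := by
    rw [← Finset.sum_add_distrib]
    calc ∑ a, (gA a * N * α a + gA a * N * r a) = ∑ a, gA a * (N * (α a0 + r a0)) := by
          refine Finset.sum_congr rfl (fun a _ => ?_)
          rw [← kA a a0]
          ring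
      _ = (∑ a, gA a) * (N * (α a0 + r a0)) := by rw [Finset.sum_mul]
      _ = s * N * N * (α a0 + r a0) := by
          rw [hT.sA]
          ring
  have u2 : ∑ b, gB b * N * β b + ∑ b, gB b * N * p b = s * N * N * (β b0 + p b0) := by
    rw [← Finset.sum_add_distrib]
    calc ∑ b, (gB b * N * β b + gB b * N * p b) = ∑ b, gB b * (N * (β b0 + p b0)) := by
          refine Finset.sum_congr rfl (fun b _ => ?_)
          rw [← kB b b0]
          ring
      _ = (∑ b, gB b) * (N * (β b0 + p b0)) := by rw [Finset.sum_mul]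
      _ = s * N * N * (β b0 + p b0) := by
          rw [hT.sB]
          ring
  have u3 : ∑ c, gC c * N * q c + ∑ c, gC c * N * t c = s * N * N * (q c0 + t c0) := by
    rw [← Finset.sum_add_distrib]
    calc ∑ c, (gC c * N * q c + gC c * N * t c) = ∑ c, gC c * (N * (q c0 + t c0)) := by
          refine Finset.sum_congr rfl (fun c _ => ?_)
          rw [← kC c c0]
          ring
      _ = (∑ c, gC c) * (N * (q c0 + t c0)) := by rw [Finset.sum_mul]
      _ = s * N * N * (q c0 + t c0) := by
          rw [hT.sC]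
          ring
  have fin : ∑ a, ∑ b, (if ab a b then x a b else 0) + ∑ b, ∑ c, (if bc b c then y b c else 0)
      + ∑ a, ∑ c, (if ac a c then z a c else 0)
      = s * N * N * ((α a0 + r a0) + (β b0 + p b0) + (q c0 + t c0)) := by
    rw [s1, s2, s3]
    linarith
  rw [k0, mul_zero] at fin
  convert fin using 3

end DH
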