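import Pool.Agent.Lib.MP_fe8cb7_co.h25.StF

/-!
# Daykin-Haggkvist problem: [F10], from three types to `π : V → ZMod 3`
-/

open Finset

namespace DH

private theorem F10_sum {V : Type} {π : V → ZMod 3} {j : ZMod 3} {S : Finset V}
    {T : Finset {w : V // π w = j}} {f : V → ℝ} {g : {w : V // π w = j} → ℝ}
    (h1 : ∀ z ∈ S, π z = j) (h2 : ∀ z : {w : V // π w = j}, z ∈ T ↔ z.1 ∈ S)
    (h3 : ∀ z : {w : V // π w = j}, z ∈ T → f z.1 = g z) :
    ∑ z ∈ S, f z = ∑ z ∈ T, g z := by
  symm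
  refine sum_bij (fun z _ => z.1) ?_ ?_ ?_ ?_
  · intro z hz
    exact (h2 z).1 hz
  · intro a _ b _ h
    exact Subtype.ext h
  · intro z hz
    exact ⟨⟨z, h1 z hz⟩, (h2 _).2 hz, rfl⟩
  · intro z hz
    exact (h3 z hz).symm

private theorem F10_card {V : Type} [Fintype V] {π : V → ZMod 3} {G : SimpleGraph V} (j : ZMod 3)
    (v : V) (T : Finset {w : V // π w = j}) (hT : ∀ z, z ∈ T ↔ G.Adj v z.1) :
    T.card = dg G v (pt π univ j) := by
  rw [dg]
  refine card_bij (fun z _ => z.1) ?_ ?_ ?_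
  · intro z hz
    exact mem_nb.2 ⟨mem_pt.2 ⟨mem_univ _, z.2⟩, (hT z).1 hz⟩
  · intro a _ b _ h
    exact Subtype.ext h
  · intro z hz
    rw [mem_nb, mem_pt] at hz
    exact ⟨⟨z, hz.1.2⟩, (hT _).2 hz.2, rfl⟩

open Classical in
private theorem F10_comm {X Y : Type} [Fintype X] [Fintype Y] (r : X → Y → Prop) :
    ∑ a, ((univ.filter (fun b => r a b)).card : ℝ)
      = ∑ b, ((univ.filter (fun a => r a b)).card : ℝ) := by
  simp only [card_filter, Nat.cast_sum]
  exact sum_comm

private theorem F10_third (i j k x : ZMod 3) (h1 : i ≠ x) (h2 : j ≠ x) (h3 : i ≠ j) (h4 : i ≠ k)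
    (h5 : j ≠ k) : x = k := by
  have key : ∀ i j k x : ZMod 3, (i ≠ x ∧ j ≠ x ∧ i ≠ j ∧ i ≠ k ∧ j ≠ k) → x = k := by decide
  exact key i j k x ⟨h1, h2, h3, h4, h5⟩

private theorem F10_case : ∀ i j : ZMod 3, i ≠ j →
    ((i = 0 ∧ j = 1) ∨ (i = 0 ∧ j = 2) ∨ (i = 1 ∧ j = 2)) ∨
      ((j = 0 ∧ i = 1) ∨ (j = 0 ∧ i = 2) ∨ (j = 1 ∧ i = 2)) := by decide

theorem p_F10 : S_F10 := by
  classical
  intro H V _ _ π G N hN hE hT hB hdeg
  have hN0 : (0 : ℝ) < N := by exact_mod_cast hN
  -- relative degree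
  set g : V → ℝ := fun v => (dg G v (pt π univ (π v + 1)) : ℝ) / N with hg
  have hgN : ∀ v i, i ≠ π v → (dg G v (pt π univ i) : ℝ) = g v * N := by
    intro v i hi
    have h1 : g v * N = (dg G v (pt π univ (π v + 1)) : ℝ) := by
      rw [hg]; field_simp
    rw [h1]
    rcases zmod3_cases (π v) i with h | h | h
    · exact absurd h hi
    · rw [h]
    · rw [h]
      have h2 := hB v
      rw [imb, sub_eq_zero] at h2
      exact_mod_cast h2.symm
  have hgl : ∀ v, 9 / 10 ≤ g v := by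
    intro v
    have h1 := hdeg v (π v + 1) (zmod3_ne1 _)
    rw [hgN v _ (zmod3_ne1 _)] at h1
    have h2 : (9 / 10 : ℝ) * N ≤ g v * N := by
      refine le_trans (le_of_eq ?_) h1
      norm_num
    exact le_of_mul_le_mul_right h2 hN0
  have hgu : ∀ v, g v ≤ 1 := by
    intro v
    have h1 : (dg G v (pt π univ (π v + 1)) : ℝ) ≤ N := by
      have h2 := dg_le_card (G := G) (S := pt π univ (π v + 1)) v
      rw [hE] at h2
      exact_mod_cast h2
    rw [hgN v _ (zmod3_ne1 _)] at h1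
    have h2 : g v * N ≤ 1 * N := by rw [one_mul]; exact h1
    exact le_of_mul_le_mul_right h2 hN0
  have hcard : ∀ i : ZMod 3, (Fintype.card {v : V // π v = i} : ℝ) = N := by
    intro i
    rw [Fintype.card_subtype]
    exact_mod_cast hE i
  -- degrees into the parts
  have hd : ∀ (i j : ZMod 3), i ≠ j → ∀ a : {v : V // π v = i},
      ((univ.filter (fun b : {v : V // π v = j} => G.Adj a.1 b.1)).card : ℝ) = g a.1 * N := by
    intro i j hij a
    rw [F10_card (G := G) j a.1 _ (fun z => by simp), hgN]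
    rw [a.2]; exact hij.symm
  have hd' : ∀ (i j : ZMod 3), i ≠ j → ∀ a : {v : V // π v = i},
      ((univ.filter (fun b : {v : V // π v = j} => G.Adj b.1 a.1)).card : ℝ) = g a.1 * N := by
    intro i j hij a
    rw [← hd i j hij a]
    congr 2
    ext z
    simp [G.adj_comm]
  have hsum : ∀ (i j : ZMod 3), i ≠ j →
      ∑ a : {v : V // π v = i}, g a.1 = ∑ b : {v : V // π v = j}, g b.1 := by
    intro i j hij
    have h1 := F10_comm (X := {v : V // π v = i}) (Y := {v : V // π v = j})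
      (fun a b => G.Adj a.1 b.1)
    simp only [hd i j hij, hd' j i hij.symm, ← sum_mul] at h1
    exact mul_right_cancel₀ hN0.ne' h1
  have hTG : TGood (A := {v : V // π v = 0}) (B := {v : V // π v = 1}) (C := {v : V // π v = 2})
      (fun a b => G.Adj a.1 b.1) (fun b c => G.Adj b.1 c.1) (fun a c => G.Adj a.1 c.1) (N : ℝ)
      (fun a => g a.1) (fun b => g b.1) (fun c => g c.1)
      ((∑ a : {v : V // π v = 0}, g a.1) / N) := by
    have e : (∑ a : {v : V // π v = 0}, g a.1) / N * N = ∑ a : {v : V // π v = 0}, g a.1 := by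
      field_simp
    refine ⟨hN0, hcard 0, hcard 1, hcard 2, ?_, ?_, ?_, ?_, ?_, ?_, fun a => hgl _,
      fun a => hgl _, fun a => hgl _, fun a => hgu _, fun a => hgu _, fun a => hgu _, ?_, ?_, ?_⟩
    · exact hd 0 1 (by decide)
    · exact hd 0 2 (by decide)
    · exact hd' 1 0 (by decide)
    · exact hd 1 2 (by decide)
    · exact hd' 2 0 (by decide)
    · exact hd' 2 1 (by decide)
    · exact e.symm
    · rw [e]; exact (hsum 0 1 (by decide)).symm
    · rw [e]; exact (hsum 0 2 (by decide)).symm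
  obtain ⟨w, hw0, hwab, hwac, hwbc⟩ := H {v : V // π v = 0} {v : V // π v = 1} {v : V // π v = 2}
    _ _ _ _ _ _ _ _ hTG
  -- the weight of a set
  have huniq : ∀ (a a' : {v : V // π v = 0}) (b b' : {v : V // π v = 1})
      (c c' : {v : V // π v = 2}),
      ({a.1, b.1, c.1} : Finset V) = {a'.1, b'.1, c'.1} → a = a' ∧ b = b' ∧ c = c' := by
    intro a a' b b' c c' h
    have key : ∀ x ∈ ({a.1, b.1, c.1} : Finset V), (π x = 0 → x = a'.1) ∧ (π x = 1 → x = b'.1) ∧
        (π x = 2 → x = c'.1) := by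
      intro x hx
      rw [h] at hx
      simp only [mem_insert, mem_singleton] at hx
      have h01 : (0 : ZMod 3) ≠ 1 := by decide
      have h02 : (0 : ZMod 3) ≠ 2 := by decide
      have h12 : (1 : ZMod 3) ≠ 2 := by decide
      rcases hx with hx | hx | hx <;> subst hx
      · exact ⟨fun _ => rfl, fun h => absurd (a'.2.symm.trans h) h01,
          fun h => absurd (a'.2.symm.trans h) h02⟩
      · exact ⟨fun h => absurd (h.symm.trans b'.2) h01, fun _ => rfl,
          fun h => absurd (b'.2.symm.trans h) h12⟩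
      · exact ⟨fun h => absurd (h.symm.trans c'.2) h02, fun h => absurd (h.symm.trans c'.2) h12,
          fun _ => rfl⟩
    exact ⟨Subtype.ext ((key a.1 (by simp)).1 a.2), Subtype.ext ((key b.1 (by simp)).2.1 b.2),
      Subtype.ext ((key c.1 (by simp)).2.2 c.2)⟩
  have hWex : ∀ t : Finset V, ∃ x : ℝ, (0 ≤ x ∧ x ≤ 3 / N) ∧
      ∀ (a : {v : V // π v = 0}) (b : {v : V // π v = 1}) (c : {v : V // π v = 2}),
        t = {a.1, b.1, c.1} → x = w a b c := by
    intro t
    by_cases ht : ∃ (a : {v : V // π v = 0}) (b : {v : V // π v = 1}) (c : {v : V // π v = 2}),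
      t = {a.1, b.1, c.1}
    · obtain ⟨a, b, c, h⟩ := ht
      refine ⟨w a b c, hw0 a b c, fun a' b' c' h' => ?_⟩
      obtain ⟨h1, h2, h3⟩ := huniq a a' b b' c c' (h.symm.trans h')
      rw [h1, h2, h3]
    · refine ⟨0, ⟨le_rfl, by positivity⟩, fun a b c h => absurd ⟨a, b, c, h⟩ ht⟩
  choose W hW1 hW2 using hWex
  refine ⟨W, fun t => (hW1 t).1, fun t => (hW1 t).2, ?_⟩
  have hcn : ∀ x y z : V, z ∈ cn G x y ↔ G.Adj x z ∧ G.Adj y z := by
    intro x y z
    simp [cn, mem_nb]
  have hthird := F10_third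
  have main : ∀ x y : V, G.Adj x y → (π x = 0 ∧ π y = 1) ∨ (π x = 0 ∧ π y = 2) ∨
      (π x = 1 ∧ π y = 2) → ∑ z ∈ cn G x y, W {x, y, z} = 1 := by
    intro x y hxy hc
    have hpart : ∀ z ∈ cn G x y, π x ≠ π z ∧ π y ≠ π z := by
      intro z hz
      rw [hcn] at hz
      exact ⟨hT _ _ hz.1, hT _ _ hz.2⟩
    rcases hc with ⟨hx, hy⟩ | ⟨hx, hy⟩ | ⟨hx, hy⟩
    · rw [← hwab ⟨x, hx⟩ ⟨y, hy⟩ hxy]
      refine F10_sum ?_ ?_ ?_
      · intro z hz
        obtain ⟨h1, h2⟩ := hpart z hz
        rw [hx] at h1; rw [hy] at h2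
        exact hthird 0 1 2 _ h1 h2 (by decide) (by decide) (by decide)
      · intro z
        rw [hcn, mem_filter]
        simp
      · intro z _
        exact hW2 _ ⟨x, hx⟩ ⟨y, hy⟩ z rfl
    · rw [← hwac ⟨x, hx⟩ ⟨y, hy⟩ hxy]
      refine F10_sum ?_ ?_ ?_
      · intro z hz
        obtain ⟨h1, h2⟩ := hpart z hz
        rw [hx] at h1; rw [hy] at h2
        exact hthird 0 2 1 _ h1 h2 (by decide) (by decide) (by decide)
      · intro z
        rw [hcn, mem_filter]
        simp [G.adj_comm y z.1]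
      · intro z _
        refine hW2 _ ⟨x, hx⟩ z ⟨y, hy⟩ ?_
        ext u
        simp only [mem_insert, mem_singleton]
        tauto
    · rw [← hwbc ⟨x, hx⟩ ⟨y, hy⟩ hxy]
      refine F10_sum ?_ ?_ ?_
      · intro z hz
        obtain ⟨h1, h2⟩ := hpart z hz
        rw [hx] at h1; rw [hy] at h2
        exact hthird 1 2 0 _ h1 h2 (by decide) (by decide) (by decide)
      · intro z
        rw [hcn, mem_filter]
        simp [G.adj_comm y z.1, G.adj_comm x z.1]
      · intro z _
        refine hW2 _ z ⟨x, hx⟩ ⟨y, hy⟩ ?_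
        ext u
        simp only [mem_insert, mem_singleton]
        tauto
  intro x y hxy
  have hne := hT x y hxy
  have hcase := F10_case
  rcases hcase _ _ hne with h | h
  · exact main x y hxy h
  · have h1 := main y x hxy.symm h
    have h2 : cn G x y = cn G y x := by
      ext z
      rw [hcn, hcn, and_comm]
    rw [h2, ← h1]
    refine sum_congr rfl fun z _ => ?_
    rw [insert_comm]

end DH
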