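import Pool.Agent.Lib.MP_fe8cb7_co.h25.StF

/-! Piece F1a: potentials on a dense bipartite graph. (helper74) -/

namespace DH

theorem p_F1a : S_F1a := by
  classical
  intro B C bc y hne hcn h4
  obtain ⟨b0⟩ := hne
  have h1 : ∀ b, ∃ c, bc b c ∧ bc b0 c := fun b => by
    obtain ⟨c, h1, h2, _⟩ := hcn b b0 b
    exact ⟨c, h1, h2⟩
  choose k hk1 hk2 using h1
  have key : ∀ b b' c, bc b c → bc b' c →
      (y b (k b) - y b0 (k b)) - (y b' (k b') - y b0 (k b')) = y b c - y b' c := by
    intro b b' c h h'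
    obtain ⟨d, d1, d2, d3⟩ := hcn b b' b0
    have e1 := h4 b b0 (k b) d (hk1 b) (hk2 b) d1 d3
    have e2 := h4 b' b0 (k b') d (hk1 b') (hk2 b') d2 d3
    have e3 := h4 b b' d c d1 d2 h h'
    linarith
  refine ⟨fun b => y b (k b) - y b0 (k b), fun c => if h : ∃ b, bc b c then
    y h.choose c - (y h.choose (k h.choose) - y b0 (k h.choose)) else 0, ?_⟩
  intro b c h
  have hex : ∃ b, bc b c := ⟨b, h⟩
  have e := key b hex.choose c h hex.choose_spec
  simp only [dif_pos hex]
  linarith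

end DH
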