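import Pool.Agent.Lib.MP_fe8cb7_co.h25.StF

/-!
# Daykin-Haggkvist problem: piece F1c (common neighbours)
-/

open Finset

namespace DH

open Classical in
theorem F1c_four {X : Type} [Fintype X] {N : ℝ} (hN : 0 < N) (hc : (Fintype.card X : ℝ) = N)
    (p1 p2 p3 p4 : X → Prop)
    (h1 : 9 / 10 * N ≤ ((univ.filter (fun x => p1 x)).card : ℝ))
    (h2 : 9 / 10 * N ≤ ((univ.filter (fun x => p2 x)).card : ℝ))
    (h3 : 9 / 10 * N ≤ ((univ.filter (fun x => p3 x)).card : ℝ))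
    (h4 : 9 / 10 * N ≤ ((univ.filter (fun x => p4 x)).card : ℝ)) :
    ∃ x, p1 x ∧ p2 x ∧ p3 x ∧ p4 x := by
  by_contra hcon
  push Not at hcon
  have key : ∀ p : X → Prop, ((univ.filter (fun x => p x)).card : ℝ) +
      ((univ.filter (fun x => ¬ p x)).card : ℝ) = N := by
    intro p
    rw [← hc]
    have := Finset.card_filter_add_card_filter_not (s := (univ : Finset X)) (fun x => p x)
    rw [Finset.card_univ] at this
    exact_mod_cast this
  have hsub : (univ : Finset X) ⊆ ((univ.filter (fun x => ¬ p1 x)) ∪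
      (univ.filter (fun x => ¬ p2 x))) ∪ ((univ.filter (fun x => ¬ p3 x)) ∪
      (univ.filter (fun x => ¬ p4 x))) := by
    intro x _
    simp only [mem_union, mem_filter, mem_univ, true_and]
    have := hcon x
    tauto
  have hcard := (Finset.card_le_card hsub).trans (Finset.card_union_le _ _)
  have ha := Finset.card_union_le (univ.filter (fun x => ¬ p1 x)) (univ.filter (fun x => ¬ p2 x))
  have hb := Finset.card_union_le (univ.filter (fun x => ¬ p3 x)) (univ.filter (fun x => ¬ p4 x))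
  have h5 : Fintype.card X ≤ ((univ.filter (fun x => ¬ p1 x)).card +
      (univ.filter (fun x => ¬ p2 x)).card) + ((univ.filter (fun x => ¬ p3 x)).card +
      (univ.filter (fun x => ¬ p4 x)).card) := by
    rw [Finset.card_univ] at hcard
    omega
  have h6 : (Fintype.card X : ℝ) ≤ (((univ.filter (fun x => ¬ p1 x)).card : ℝ) +
      ((univ.filter (fun x => ¬ p2 x)).card : ℝ)) + (((univ.filter (fun x => ¬ p3 x)).card : ℝ) +
      ((univ.filter (fun x => ¬ p4 x)).card : ℝ)) := by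
    exact_mod_cast h5
  rw [hc] at h6
  have k1 := key p1
  have k2 := key p2
  have k3 := key p3
  have k4 := key p4
  linarith

theorem p_F1c : S_F1c := by
  classical
  intro A B C _ _ _ ab bc ac N gA gB gC s H
  have mul9 : ∀ g : ℝ, 9 / 10 ≤ g → 9 / 10 * N ≤ g * N :=
    fun g hg => mul_le_mul_of_nonneg_right hg H.N0.le
  have qAB : ∀ a, 9 / 10 * N ≤ ((univ.filter (fun b => ab a b)).card : ℝ) :=
    fun a => (mul9 _ (H.lA a)).trans_eq (H.dAB a).symm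
  have qAC : ∀ a, 9 / 10 * N ≤ ((univ.filter (fun c => ac a c)).card : ℝ) :=
    fun a => (mul9 _ (H.lA a)).trans_eq (H.dAC a).symm
  have qBA : ∀ b, 9 / 10 * N ≤ ((univ.filter (fun a => ab a b)).card : ℝ) :=
    fun b => (mul9 _ (H.lB b)).trans_eq (H.dBA b).symm
  have qBC : ∀ b, 9 / 10 * N ≤ ((univ.filter (fun c => bc b c)).card : ℝ) :=
    fun b => (mul9 _ (H.lB b)).trans_eq (H.dBC b).symm
  have qCA : ∀ c, 9 / 10 * N ≤ ((univ.filter (fun a => ac a c)).card : ℝ) :=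
    fun c => (mul9 _ (H.lC c)).trans_eq (H.dCA c).symm
  have qCB : ∀ c, 9 / 10 * N ≤ ((univ.filter (fun b => bc b c)).card : ℝ) :=
    fun c => (mul9 _ (H.lC c)).trans_eq (H.dCB c).symm
  have t1 : ∀ b b' c c', ∃ a, ab a b ∧ ab a b' ∧ ac a c ∧ ac a c' := fun b b' c c' =>
    F1c_four H.N0 H.cA _ _ _ _ (qBA b) (qBA b') (qCA c) (qCA c')
  have t2 : ∀ a a' c c', ∃ b, ab a b ∧ ab a' b ∧ bc b c ∧ bc b c' := fun a a' c c' =>
    F1c_four H.N0 H.cB _ _ _ _ (qAB a) (qAB a') (qCB c) (qCB c')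
  have t3 : ∀ a a' b b', ∃ c, ac a c ∧ ac a' c ∧ bc b c ∧ bc b' c := fun a a' b b' =>
    F1c_four H.N0 H.cC _ _ _ _ (qAC a) (qAC a') (qBC b) (qBC b')
  refine ⟨t1, t2, t3, ?_, ?_, ?_, ?_, ?_, ?_⟩
  · intro b1 b2 b3
    obtain ⟨c, h1, h2, h3, _⟩ := F1c_four H.N0 H.cC _ _ _ _ (qBC b1) (qBC b2) (qBC b3) (qBC b3)
    exact ⟨c, h1, h2, h3⟩
  · intro a1 a2 a3
    obtain ⟨c, h1, h2, h3, _⟩ := F1c_four H.N0 H.cB _ _ _ _ (qAB a1) (qAB a2) (qAB a3) (qAB a3)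
    exact ⟨c, h1, h2, h3⟩
  · intro a1 a2 a3
    obtain ⟨c, h1, h2, h3, _⟩ := F1c_four H.N0 H.cC _ _ _ _ (qAC a1) (qAC a2) (qAC a3) (qAC a3)
    exact ⟨c, h1, h2, h3⟩
  · intro a a'
    obtain ⟨b, h1, h2, _, _⟩ := F1c_four H.N0 H.cB _ _ _ _ (qAB a) (qAB a') (qAB a) (qAB a')
    obtain ⟨c, g1, g2, g3, _⟩ := t3 a a' b b
    exact ⟨b, c, h1, h2, g1, g2, g3⟩
  · intro b b'
    obtain ⟨a, h1, h2, _, _⟩ := F1c_four H.N0 H.cA _ _ _ _ (qBA b) (qBA b') (qBA b) (qBA b')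
    obtain ⟨c, g1, _, g3, g4⟩ := t3 a a b b'
    exact ⟨a, c, h1, h2, g3, g4, g1⟩
  · intro c c'
    obtain ⟨a, h1, h2, _, _⟩ := F1c_four H.N0 H.cA _ _ _ _ (qCA c) (qCA c') (qCA c) (qCA c')
    obtain ⟨b, g1, _, g3, g4⟩ := t2 a a c c'
    exact ⟨a, b, h1, h2, g3, g4, g1⟩

end DH
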