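import Pool.Agent.Lib.MP_fe8cb7_co.h25.StF

/-!
# Daykin-Haggkvist problem: piece F2 (solvability of weighted normal equations)
-/

open Finset

namespace DH

theorem p_F2 : S_F2 := by
  intro E T _ _ M θ r hθ hr
  classical
  let L : (E → ℝ) →ₗ[ℝ] (E → ℝ) :=
    { toFun := fun x e => ∑ t, M t e * θ t * (∑ e', M t e' * x e')
      map_add' := by
        intro x y
        funext e
        simp only [Pi.add_apply, mul_add, Finset.sum_add_distrib]
      map_smul' := by
        intro c x
        funext e
        simp only [Pi.smul_apply, smul_eq_mul, RingHom.id_apply, Finset.mul_sum]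
        refine Finset.sum_congr rfl fun t _ => Finset.sum_congr rfl fun e' _ => ?_
        ring }
  by_contra hcon
  have hr' : r ∉ LinearMap.range L := by
    rintro ⟨x, hx⟩
    exact hcon ⟨x, fun e => congrFun hx e⟩
  obtain ⟨φ, hφr, hφ⟩ := Submodule.exists_dual_map_eq_bot_of_notMem hr' inferInstance
  let x : E → ℝ := fun e => φ (Pi.single e 1)
  have hφx : ∀ y : E → ℝ, φ y = ∑ e, y e * x e := by
    intro y
    have h0 : y = ∑ e, y e • (Pi.single e (1 : ℝ) : E → ℝ) := by
      funext e'
      rw [Finset.sum_apply, Finset.sum_eq_single e']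
      · rw [Pi.smul_apply, Pi.single_eq_same, smul_eq_mul, mul_one]
      · intro b _ hb
        rw [Pi.smul_apply, Pi.single_eq_of_ne hb.symm, smul_zero]
      · intro h
        exact absurd (Finset.mem_univ _) h
    calc φ y = φ (∑ e, y e • (Pi.single e (1 : ℝ) : E → ℝ)) := by rw [← h0]
      _ = ∑ e, y e * x e := by
          rw [map_sum]
          refine Finset.sum_congr rfl fun e _ => ?_
          rw [map_smul, smul_eq_mul]
  have hker : φ (L x) = 0 := by
    have h1 : φ (L x) ∈ (LinearMap.range L).map φ :=
      Submodule.mem_map_of_mem (LinearMap.mem_range_self L x)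
    rw [hφ] at h1
    exact (Submodule.mem_bot ℝ).mp h1
  have hsq : ∑ t, θ t * (∑ e, M t e * x e) ^ 2 = 0 := by
    rw [hφx] at hker
    rw [← hker]
    change _ = ∑ e, (∑ t, M t e * θ t * (∑ e', M t e' * x e')) * x e
    simp only [Finset.sum_mul]
    rw [Finset.sum_comm]
    refine Finset.sum_congr rfl fun t _ => ?_
    rw [pow_two, ← mul_assoc, Finset.mul_sum]
    refine Finset.sum_congr rfl fun e _ => ?_
    ring
  have hz : ∀ t, ∑ e, M t e * x e = 0 := by
    intro t
    have h1 := (Finset.sum_eq_zero_iff_of_nonneg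
      (fun t _ => mul_nonneg (hθ t).le (sq_nonneg _))).mp hsq t (Finset.mem_univ t)
    rcases mul_eq_zero.mp h1 with h | h
    · exact absurd h (hθ t).ne'
    · exact pow_eq_zero_iff (two_ne_zero) |>.mp h
  exact hφr (by rw [hφx]; exact hr x hz)

end DH
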