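import Pool.Agent.Lib.MP_fe8cb7_co.h25.StF

/-!
# Daykin-Haggkvist problem: piece F3 (weighted orthogonal decomposition on a bipartite graph)
-/

open Finset

namespace DH

open Classical in
/-- incidence matrix -/
private noncomputable def F3_M {B C : Type} (bc : B → C → Prop) (t : B × C) : B ⊕ C → ℝ
  | Sum.inl b => if bc t.1 t.2 ∧ b = t.1 then 1 else 0
  | Sum.inr c => if bc t.1 t.2 ∧ c = t.2 then 1 else 0

open Classical in
private theorem F3_sumM {B C : Type} [Fintype B] [Fintype C] (bc : B → C → Prop) (t : B × C)
    (x : B ⊕ C → ℝ) : ∑ e, F3_M bc t e * x e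
      = if bc t.1 t.2 then x (Sum.inl t.1) + x (Sum.inr t.2) else 0 := by
  rw [Fintype.sum_sum_type]
  by_cases h : bc t.1 t.2
  · rw [if_pos h]
    congr 1
    · rw [Finset.sum_eq_single t.1]
      · simp [F3_M, h]
      · intro b _ hb
        simp [F3_M, hb]
      · intro hb
        exact absurd (mem_univ _) hb
    · rw [Finset.sum_eq_single t.2]
      · simp [F3_M, h]
      · intro c _ hc
        simp [F3_M, hc]
      · intro hc
        exact absurd (mem_univ _) hc
  · rw [if_neg h]
    simp [F3_M, h]

/-- [F3] -/
theorem p_F3 : S_F3 := by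
  classical
  intro h2 B C _ _ bc ω ν y hω hν
  obtain ⟨x, hx⟩ := h2 (B ⊕ C) (B × C) (F3_M bc) (fun t => ω t.1 * ν t.2)
    (fun e => match e with
      | Sum.inl b => ∑ c, if bc b c then ω b * ν c * y b c else 0
      | Sum.inr c => ∑ b, if bc b c then ω b * ν c * y b c else 0)
    (fun t => mul_pos (hω _) (hν _)) (by
      intro x hx
      have hz : ∀ b c, bc b c → x (Sum.inl b) + x (Sum.inr c) = 0 := by
        intro b c h
        have := hx (b, c)
        rw [F3_sumM] at this
        simpa [h] using this
      rw [Fintype.sum_sum_type]
      show ∑ b, (∑ c, if bc b c then ω b * ν c * y b c else 0) * x (Sum.inl b) +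
        ∑ c, (∑ b, if bc b c then ω b * ν c * y b c else 0) * x (Sum.inr c) = 0
      have e2 : ∑ c, (∑ b, if bc b c then ω b * ν c * y b c else 0) * x (Sum.inr c)
          = ∑ b, ∑ c, (if bc b c then ω b * ν c * y b c else 0) * x (Sum.inr c) := by
        rw [Finset.sum_comm]
        exact Finset.sum_congr rfl fun c _ => by rw [Finset.sum_mul]
      rw [e2, ← Finset.sum_add_distrib]
      refine Finset.sum_eq_zero fun b _ => ?_
      rw [Finset.sum_mul, ← Finset.sum_add_distrib]
      refine Finset.sum_eq_zero fun c _ => ?_
      rw [← mul_add]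
      by_cases h : bc b c
      · rw [hz b c h, mul_zero]
      · rw [if_neg h, zero_mul])
  refine ⟨fun b => x (Sum.inl b), fun c => x (Sum.inr c), ?_, ?_⟩
  · intro b
    have hb := hx (Sum.inl b)
    rw [Fintype.sum_prod_type, Finset.sum_eq_single b] at hb
    · have hb' : ∑ c, (if bc b c then ω b * ν c * (x (Sum.inl b) + x (Sum.inr c)) else 0)
          = ∑ c, if bc b c then ω b * ν c * y b c else 0 := by
        refine Eq.trans ?_ hb
        refine Finset.sum_congr rfl fun c _ => ?_
        rw [F3_sumM]
        by_cases h : bc b c
        · simp [F3_M, h]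
        · simp [F3_M, h]
      have e : ω b * ∑ c ∈ univ.filter (fun c => bc b c),
          ν c * (y b c - x (Sum.inl b) - x (Sum.inr c)) = 0 := by
        rw [Finset.sum_filter, Finset.mul_sum]
        have : ∀ c, ω b * (if bc b c then ν c * (y b c - x (Sum.inl b) - x (Sum.inr c)) else 0)
            = (if bc b c then ω b * ν c * y b c else 0)
              - (if bc b c then ω b * ν c * (x (Sum.inl b) + x (Sum.inr c)) else 0) := by
          intro c
          by_cases h : bc b c
          · simp only [if_pos h]
            ring
          · simp only [if_neg h]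
            ring
        rw [Finset.sum_congr rfl fun c _ => this c, Finset.sum_sub_distrib, hb', sub_self]
      exact (mul_eq_zero.1 e).resolve_left (hω b).ne'
    · intro b' _ hb'
      refine Finset.sum_eq_zero fun c _ => ?_
      have : F3_M bc (b', c) (Sum.inl b) = 0 := by
        simp [F3_M, Ne.symm hb']
      rw [this, zero_mul, zero_mul]
    · intro hb
      exact absurd (mem_univ _) hb
  · intro c
    have hc := hx (Sum.inr c)
    rw [Fintype.sum_prod_type, Finset.sum_comm, Finset.sum_eq_single c] at hc
    · have hc' : ∑ b, (if bc b c then ω b * ν c * (x (Sum.inl b) + x (Sum.inr c)) else 0)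
          = ∑ b, if bc b c then ω b * ν c * y b c else 0 := by
        refine Eq.trans ?_ hc
        refine Finset.sum_congr rfl fun b _ => ?_
        rw [F3_sumM]
        by_cases h : bc b c
        · simp [F3_M, h]
        · simp [F3_M, h]
      have e : ν c * ∑ b ∈ univ.filter (fun b => bc b c),
          ω b * (y b c - x (Sum.inl b) - x (Sum.inr c)) = 0 := by
        rw [Finset.sum_filter, Finset.mul_sum]
        have : ∀ b, ν c * (if bc b c then ω b * (y b c - x (Sum.inl b) - x (Sum.inr c)) else 0)
            = (if bc b c then ω b * ν c * y b c else 0)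
              - (if bc b c then ω b * ν c * (x (Sum.inl b) + x (Sum.inr c)) else 0) := by
          intro b
          by_cases h : bc b c
          · simp only [if_pos h]
            ring
          · simp only [if_neg h]
            ring
        rw [Finset.sum_congr rfl fun b _ => this b, Finset.sum_sub_distrib, hc', sub_self]
      exact (mul_eq_zero.1 e).resolve_left (hν c).ne'
    · intro c' _ hc'
      refine Finset.sum_eq_zero fun b _ => ?_
      have : F3_M bc (b, c') (Sum.inr c) = 0 := by
        simp [F3_M, Ne.symm hc']
      rw [this, zero_mul, zero_mul]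
    · intro hc
      exact absurd (mem_univ _) hc

end DH
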