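import Pool.Agent.Lib.MP_fe8cb7_co.h25.StF

open Finset

namespace DH

open Classical in
private lemma F4a_inner {A B C : Type} [Fintype A] [Fintype B] [Fintype C]
    (a : A) (b : B) (c : C) (x : (A × B) ⊕ (B × C) ⊕ (A × C) → ℝ) :
    ∑ e, ((if e = Sum.inl (a, b) then (1 : ℝ) else 0) +
      (if e = Sum.inr (Sum.inl (b, c)) then (1 : ℝ) else 0) +
      (if e = Sum.inr (Sum.inr (a, c)) then (1 : ℝ) else 0)) * x e
      = x (Sum.inl (a, b)) + x (Sum.inr (Sum.inl (b, c))) + x (Sum.inr (Sum.inr (a, c))) := by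
  simp only [add_mul, sum_add_distrib, ite_mul, one_mul, zero_mul, sum_ite_eq', mem_univ, if_true]

theorem p_F4a : S_F4a := by
  classical
  intro h1a h1c h1 h2 A B C _ _ _ ab bc ac N gA gB gC s hG
  have hs : 0 < s := by
    have h3 : (9 / 10 : ℝ) * N ≤ s * N := by
      rw [← hG.sA, ← hG.cA]
      calc (9 / 10 : ℝ) * (Fintype.card A : ℝ) = ∑ _a : A, (9 / 10 : ℝ) := by
            rw [sum_const, card_univ, nsmul_eq_mul, mul_comm]
        _ ≤ ∑ a, gA a := sum_le_sum fun a _ => hG.lA a
    have h4 : (9 / 10 : ℝ) ≤ s := le_of_mul_le_mul_right h3 hG.N0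
    linarith
  have pA : ∀ a, 0 < gA a := fun a => by linarith [hG.lA a]
  have pB : ∀ b, 0 < gB b := fun b => by linarith [hG.lB b]
  have pC : ∀ c, 0 < gC c := fun c => by linarith [hG.lC c]
  obtain ⟨x, hx⟩ := h2 ((A × B) ⊕ (B × C) ⊕ (A × C)) (A × B × C)
    (fun t e => if ab t.1 t.2.1 ∧ bc t.2.1 t.2.2 ∧ ac t.1 t.2.2 then
      ((if e = Sum.inl (t.1, t.2.1) then (1 : ℝ) else 0) +
      (if e = Sum.inr (Sum.inl (t.2.1, t.2.2)) then (1 : ℝ) else 0) +
      (if e = Sum.inr (Sum.inr (t.1, t.2.2)) then (1 : ℝ) else 0)) else 0)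
    (fun t => s / (gA t.1 * gB t.2.1 * gC t.2.2))
    (Sum.elim (fun p => if ab p.1 p.2 then N else 0)
      (Sum.elim (fun p => if bc p.1 p.2 then N else 0) (fun p => if ac p.1 p.2 then N else 0)))
    (fun t => div_pos hs (mul_pos (mul_pos (pA _) (pB _)) (pC _)))
    (by
      intro x hx
      have h3 := h1 h1a h1c A B C ab bc ac N gA gB gC s hG (fun a b => x (Sum.inl (a, b)))
        (fun b c => x (Sum.inr (Sum.inl (b, c)))) (fun a c => x (Sum.inr (Sum.inr (a, c))))
        (by
          intro a b c hab hbc hac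
          have h4 := hx (a, b, c)
          simp only [hab, hbc, hac, and_self, if_true] at h4
          rw [F4a_inner a b c x] at h4
          exact h4)
      rw [Fintype.sum_sum_type, Fintype.sum_sum_type, Fintype.sum_prod_type, Fintype.sum_prod_type,
        Fintype.sum_prod_type]
      simp only [Sum.elim_inl, Sum.elim_inr]
      have h5 : ∀ (p : Prop) [Decidable p] (r : ℝ), (if p then N else 0) * r =
          N * (if p then r else 0) := by
        intro p _ r
        split_ifs <;> simp
      simp only [h5, ← mul_sum]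
      rw [← mul_add, ← mul_add]
      rw [← add_assoc, h3, mul_zero])
  have hin : ∀ t : A × B × C, (∑ e', (if ab t.1 t.2.1 ∧ bc t.2.1 t.2.2 ∧ ac t.1 t.2.2 then
      ((if e' = Sum.inl (t.1, t.2.1) then (1 : ℝ) else 0) +
      (if e' = Sum.inr (Sum.inl (t.2.1, t.2.2)) then (1 : ℝ) else 0) +
      (if e' = Sum.inr (Sum.inr (t.1, t.2.2)) then (1 : ℝ) else 0)) else 0) * x e') =
      if ab t.1 t.2.1 ∧ bc t.2.1 t.2.2 ∧ ac t.1 t.2.2 then x (Sum.inl (t.1, t.2.1)) +
        x (Sum.inr (Sum.inl (t.2.1, t.2.2))) + x (Sum.inr (Sum.inr (t.1, t.2.2))) else 0 := by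
    rintro ⟨a, b, c⟩
    by_cases h : ab a b ∧ bc b c ∧ ac a c
    · simp only [if_pos h]
      exact F4a_inner a b c x
    · simp only [if_neg h, zero_mul, sum_const_zero]
  simp only [hin] at hx
  refine ⟨fun a b => x (Sum.inl (a, b)), fun b c => x (Sum.inr (Sum.inl (b, c))),
    fun a c => x (Sum.inr (Sum.inr (a, c))), ?_, ?_, ?_⟩
  · intro a b hab
    have h3 := hx (Sum.inl (a, b))
    simp only [Sum.elim_inl, hab, if_true] at h3
    rw [Fintype.sum_prod_type, sum_eq_single a, Fintype.sum_prod_type, sum_eq_single b] at h3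
    · have h4 : ∑ c ∈ univ.filter (fun c => ac a c ∧ bc b c),
          (x (Sum.inl (a, b)) + x (Sum.inr (Sum.inl (b, c))) + x (Sum.inr (Sum.inr (a, c)))) / gC c
          = (gA a * gB b / s) * N := by
        rw [← h3, mul_sum, sum_filter]
        refine sum_congr rfl fun c _ => ?_
        have := (pA a).ne'
        have := (pB b).ne'
        have := (pC c).ne'
        have := hs.ne'
        by_cases h : ac a c ∧ bc b c
        · simp [h, hab]
          field_simp
        · have h' : ¬ (ab a b ∧ bc b c ∧ ac a c) := fun h5 => h ⟨h5.2.2, h5.2.1⟩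
          simp only [if_neg h, if_neg h', zero_mul, mul_zero]
      rw [h4]; ring
    · intro b' _ hb'
      refine sum_eq_zero fun c _ => ?_
      simp [hb'.symm]
    · simp
    · intro a' _ ha'
      refine sum_eq_zero fun c _ => ?_
      simp [ha'.symm]
    · simp
  · intro a c hac
    have h3 := hx (Sum.inr (Sum.inr (a, c)))
    simp only [Sum.elim_inl, Sum.elim_inr, hac, if_true] at h3
    rw [Fintype.sum_prod_type, sum_eq_single a, Fintype.sum_prod_type, sum_comm,
      sum_eq_single c] at h3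
    · have h4 : ∑ b ∈ univ.filter (fun b => ab a b ∧ bc b c),
          (x (Sum.inl (a, b)) + x (Sum.inr (Sum.inl (b, c))) + x (Sum.inr (Sum.inr (a, c)))) / gB b
          = (gA a * gC c / s) * N := by
        rw [← h3, mul_sum, sum_filter]
        refine sum_congr rfl fun b _ => ?_
        have := (pA a).ne'
        have := (pB b).ne'
        have := (pC c).ne'
        have := hs.ne'
        by_cases h : ab a b ∧ bc b c
        · simp [h, hac]
          field_simp
        · have h' : ¬ (ab a b ∧ bc b c ∧ ac a c) := fun h5 => h ⟨h5.1, h5.2.1⟩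
          simp only [if_neg h, if_neg h', zero_mul, mul_zero]
      rw [h4]; ring
    · intro c' _ hc'
      refine sum_eq_zero fun b _ => ?_
      simp [hc'.symm]
    · simp
    · intro a' _ ha'
      refine sum_eq_zero fun c _ => ?_
      simp [ha'.symm]
    · simp
  · intro b c hbc
    have h3 := hx (Sum.inr (Sum.inl (b, c)))
    simp only [Sum.elim_inl, Sum.elim_inr, hbc, if_true] at h3
    rw [Fintype.sum_prod_type] at h3
    have h6 : ∀ a : A, ∑ y : B × C, ((if ab a y.1 ∧ bc y.1 y.2 ∧ ac a y.2 then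
        ((if (Sum.inr (Sum.inl (b, c)) : (A × B) ⊕ (B × C) ⊕ (A × C)) = Sum.inl (a, y.1)
          then (1 : ℝ) else 0) +
        (if (Sum.inr (Sum.inl (b, c)) : (A × B) ⊕ (B × C) ⊕ (A × C)) =
          Sum.inr (Sum.inl (y.1, y.2)) then (1 : ℝ) else 0) +
        (if (Sum.inr (Sum.inl (b, c)) : (A × B) ⊕ (B × C) ⊕ (A × C)) =
          Sum.inr (Sum.inr (a, y.2)) then (1 : ℝ) else 0)) else 0) *
        (s / (gA a * gB y.1 * gC y.2)) *
        (if ab a y.1 ∧ bc y.1 y.2 ∧ ac a y.2 then x (Sum.inl (a, y.1)) +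
          x (Sum.inr (Sum.inl (y.1, y.2))) + x (Sum.inr (Sum.inr (a, y.2))) else 0)) =
        if ab a b ∧ ac a c then (s / (gA a * gB b * gC c)) *
          (x (Sum.inl (a, b)) + x (Sum.inr (Sum.inl (b, c))) + x (Sum.inr (Sum.inr (a, c))))
        else 0 := by
      intro a
      rw [sum_eq_single (b, c)]
      · by_cases h : ab a b ∧ ac a c
        · simp [h, hbc]
        · have h' : ¬ (ab a b ∧ bc b c ∧ ac a c) := fun h5 => h ⟨h5.1, h5.2.2⟩
          simp only [if_neg h, if_neg h', zero_mul, mul_zero]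
      · rintro ⟨b', c'⟩ _ hne
        have : ¬ (b = b' ∧ c = c') := fun h => hne (by rw [h.1, h.2])
        simp [this]
      · simp
    rw [sum_congr rfl fun a _ => h6 a] at h3
    have h4 : ∑ a ∈ univ.filter (fun a => ab a b ∧ ac a c),
        (x (Sum.inl (a, b)) + x (Sum.inr (Sum.inl (b, c))) + x (Sum.inr (Sum.inr (a, c)))) / gA a
        = (gB b * gC c / s) * N := by
      rw [← h3, mul_sum, sum_filter]
      refine sum_congr rfl fun a _ => ?_
      have := (pA a).ne'
      have := (pB b).ne'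
      have := (pC c).ne'
      have := hs.ne'
      by_cases h : ab a b ∧ ac a c
      · simp only [if_pos h]
        field_simp
      · simp only [if_neg h, mul_zero]
    rw [h4]; ring

end DH
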