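import Pool.Agent.Lib.MP_fe8cb7_co.h25.StF

/-!
# Daykin-Haggkvist problem: pieces F5a, F5 (helper99)
-/

open Finset

namespace DH

/-- [F5a] -/
theorem p_F5a : S_F5a := by
  intro C _ _ N s g S hN hcard hg hsum
  have hg0 : ∀ c, 0 < g c := fun c => by linarith [(hg c).1]
  have hcN : ∑ _c : C, (1 : ℝ) = N := by
    rw [sum_const, card_univ, nsmul_eq_mul, mul_one, hcard]
  have hs : 0 < s := by
    have h1 : ∑ _c : C, (9 / 10 : ℝ) ≤ ∑ c, g c := sum_le_sum fun c _ => (hg c).1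
    have h2 : ∑ _c : C, (9 / 10 : ℝ) = 9 / 10 * N := by
      rw [sum_const, card_univ, nsmul_eq_mul, hcard]; ring
    rw [h2, hsum] at h1
    by_contra hcon
    push Not at hcon
    nlinarith
  have hlow : N / s ≤ ∑ c, 1 / g c := by
    have h1 : ∀ c, 2 / s * 1 - 1 / s ^ 2 * g c ≤ 1 / g c := by
      intro c
      rw [le_div_iff₀ (hg0 c)]
      have h3 : (2 / s * 1 - 1 / s ^ 2 * g c) * g c = 1 - (g c / s - 1) ^ 2 := by
        field_simp; ring
      rw [h3]
      have := sq_nonneg (g c / s - 1)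
      linarith
    have h2 : ∑ c, (2 / s * 1 - 1 / s ^ 2 * g c) ≤ ∑ c, 1 / g c := sum_le_sum fun c _ => h1 c
    rw [sum_sub_distrib, ← mul_sum, ← mul_sum, hcN, hsum] at h2
    have h3 : 2 / s * N - 1 / s ^ 2 * (s * N) = N / s := by field_simp; ring
    linarith
  have hup : ∑ c, 1 / g c ≤ N * (1 + 10 / 9 * (1 - s)) := by
    have h1 : ∀ c, 1 / g c ≤ (1 + 10 / 9) * 1 - 10 / 9 * g c := by
      intro c
      rw [div_le_iff₀ (hg0 c)]
      nlinarith [(hg c).1, (hg c).2, mul_nonneg (sub_nonneg.2 (hg c).1) (sub_nonneg.2 (hg c).2)]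
    have h2 : ∑ c, 1 / g c ≤ ∑ c, ((1 + 10 / 9) * 1 - 10 / 9 * g c) := sum_le_sum fun c _ => h1 c
    rw [sum_sub_distrib, ← mul_sum, ← mul_sum, hcN, hsum] at h2
    linarith
  have hcomp : ∑ c, 1 / g c = ∑ c ∈ S, 1 / g c + ∑ c ∈ Sᶜ, 1 / g c :=
    (sum_add_sum_compl S _).symm
  have hSc : ((Sᶜ).card : ℝ) = N - S.card := by
    have := card_add_card_compl S
    rw [← hcard, ← this]
    push_cast
    ring
  have hS1 : ((Sᶜ).card : ℝ) ≤ ∑ c ∈ Sᶜ, 1 / g c := by
    have h1 : ∑ _c ∈ Sᶜ, (1 : ℝ) ≤ ∑ c ∈ Sᶜ, 1 / g c := by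
      apply sum_le_sum fun c _ => ?_
      rw [le_div_iff₀ (hg0 c)]
      linarith [(hg c).2]
    rwa [sum_const, nsmul_eq_mul, mul_one] at h1
  have hS2 : ∑ c ∈ Sᶜ, 1 / g c ≤ 10 / 9 * ((Sᶜ).card : ℝ) := by
    have h1 : ∑ c ∈ Sᶜ, 1 / g c ≤ ∑ _c ∈ Sᶜ, (10 / 9 : ℝ) := by
      apply sum_le_sum fun c _ => ?_
      rw [div_le_iff₀ (hg0 c)]
      linarith [(hg c).1]
    rw [sum_const, nsmul_eq_mul] at h1
    linarith
  rw [hSc] at hS1 hS2
  constructor
  · rw [le_div_iff₀ hN]
    have h3 : (1 / s - 10 / 9 * (1 - (S.card : ℝ) / N)) * N = N / s - 10 / 9 * (N - S.card) := by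
      field_simp
    rw [h3]
    linarith
  · rw [div_le_iff₀ hN]
    have h3 : (1 + 10 / 9 * (1 - s) - (1 - (S.card : ℝ) / N)) * N =
        N * (1 + 10 / 9 * (1 - s)) - (N - S.card) := by
      field_simp
    rw [h3]
    linarith

private lemma F5_sum_le {C : Type} (T : Finset C) (f g : C → ℝ) (G : ℝ) (hG : 0 ≤ G)
    (hg : ∀ c, 9 / 10 ≤ g c) (hf : ∀ c ∈ T, f c ≤ G) :
    ∑ c ∈ T, f c / g c ≤ 10 / 9 * G * T.card := by
  have h1 : ∑ c ∈ T, f c / g c ≤ ∑ _c ∈ T, (10 / 9 * G) := by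
    apply sum_le_sum fun c hc => ?_
    have h0 : 0 < g c := by linarith [hg c]
    rw [div_le_iff₀ h0]
    have := hf c hc
    have := hg c
    nlinarith
  rw [sum_const, nsmul_eq_mul] at h1
  linarith

private lemma F5_le_sum {C : Type} (T : Finset C) (f g : C → ℝ) (G : ℝ) (hG : 0 ≤ G)
    (hg : ∀ c, 9 / 10 ≤ g c) (hf : ∀ c ∈ T, -G ≤ f c) :
    -(10 / 9 * G * T.card) ≤ ∑ c ∈ T, f c / g c := by
  have h := F5_sum_le T (fun c => -f c) g G hG hg (fun c hc => by linarith [hf c hc])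
  have h2 : ∑ c ∈ T, -f c / g c = -∑ c ∈ T, f c / g c := by
    rw [← sum_neg_distrib]
    exact sum_congr rfl fun c _ => by ring
  rw [h2] at h
  linarith

/-- [F5] -/
theorem p_F5 : S_F5 := by
  classical
  intro h5a A B C _ _ _ ab bc ac N gA gB gC s P Q m y Gp Gm Yp Ym hT hF hGp hGm hYp hYm hQ hy a b hab
  have hN := hT.N0
  -- the four sets
  set NA : Finset C := univ.filter (fun c => ac a c) with hNA
  set NB : Finset C := univ.filter (fun c => bc b c) with hNB
  set S : Finset C := univ.filter (fun c => ac a c ∧ bc b c) with hS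
  set D1 : Finset C := univ.filter (fun c => ac a c ∧ ¬ bc b c) with hD1
  set D2 : Finset C := univ.filter (fun c => ¬ ac a c ∧ bc b c) with hD2
  set K : Finset C := univ.filter (fun c => ¬ ac a c ∧ ¬ bc b c) with hK
  have hcA : (NA.card : ℝ) = gA a * N := by
    have := hT.dAC a
    convert this
  have hcB : (NB.card : ℝ) = gB b * N := by
    have := hT.dBC b
    convert this
  have hkK : kC bc ac N a b = (K.card : ℝ) / N := by
    rw [kC, hK]
  -- partitions
  have dA : Disjoint S D1 := by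
    rw [disjoint_left]
    intro c h1 h2
    rw [hS, mem_filter] at h1
    rw [hD1, mem_filter] at h2
    exact h2.2.2 h1.2.2
  have dB : Disjoint S D2 := by
    rw [disjoint_left]
    intro c h1 h2
    rw [hS, mem_filter] at h1
    rw [hD2, mem_filter] at h2
    exact h2.2.1 h1.2.1
  have uA : NA = S ∪ D1 := by
    ext c
    simp only [hNA, hS, hD1, mem_filter, mem_union, mem_univ, true_and]
    tauto
  have uB : NB = S ∪ D2 := by
    ext c
    simp only [hNB, hS, hD2, mem_filter, mem_union, mem_univ, true_and]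
    tauto
  have dK : Disjoint NB (D1 ∪ K) := by
    rw [disjoint_left]
    intro c h1 h2
    simp only [hNB, hD1, hK, mem_filter, mem_union, mem_univ, true_and] at h1 h2
    tauto
  have dK2 : Disjoint D1 K := by
    rw [disjoint_left]
    intro c h1 h2
    simp only [hD1, hK, mem_filter, mem_univ, true_and] at h1 h2
    tauto
  have uU : (univ : Finset C) = NB ∪ (D1 ∪ K) := by
    ext c
    simp only [hNB, hD1, hK, mem_filter, mem_union, mem_univ, true_and, true_iff]
    tauto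
  have cA1 : (NA.card : ℝ) = S.card + D1.card := by
    rw [uA, card_union_of_disjoint dA]; push_cast; ring
  have cB1 : (NB.card : ℝ) = S.card + D2.card := by
    rw [uB, card_union_of_disjoint dB]; push_cast; ring
  have cU : N = NB.card + (D1.card + K.card) := by
    rw [← hT.cC, ← card_univ, uU, card_union_of_disjoint dK, card_union_of_disjoint dK2]
    push_cast; ring
  have hSN : (S.card : ℝ) = (gA a + gB b - 1 + kC bc ac N a b) * N := by
    rw [hkK]
    have : (gA a + gB b - 1 + (K.card : ℝ) / N) * N = gA a * N + gB b * N - N + K.card := by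
      field_simp
    rw [this, ← hcA, ← hcB]
    linarith
  have hD1N : (D1.card : ℝ) = (1 - gB b - kC bc ac N a b) * N := by
    rw [hkK]
    have : (1 - gB b - (K.card : ℝ) / N) * N = N - gB b * N - K.card := by
      field_simp
    rw [this, ← hcB]
    linarith
  have hD2N : (D2.card : ℝ) = (1 - gA a - kC bc ac N a b) * N := by
    rw [hkK]
    have : (1 - gA a - (K.card : ℝ) / N) * N = N - gA a * N - K.card := by
      field_simp
    rw [this, ← hcA]
    linarith
  have k0 : 0 ≤ kC bc ac N a b := by rw [hkK]; exact div_nonneg (Nat.cast_nonneg _) hN.le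
  have kA : kC bc ac N a b ≤ 1 - gA a := by
    have h1 : (0 : ℝ) ≤ D2.card := Nat.cast_nonneg _
    rw [hD2N] at h1
    have := nonneg_of_mul_nonneg_left h1 hN
    linarith
  have kB : kC bc ac N a b ≤ 1 - gB b := by
    have h1 : (0 : ℝ) ≤ D1.card := Nat.cast_nonneg _
    rw [hD1N] at h1
    have := nonneg_of_mul_nonneg_left h1 hN
    linarith
  -- the bounds for `Ω`
  have hΩ := h5a C N s gC S hN hT.cC (fun c => ⟨hT.lC c, hT.uC c⟩) hT.sC
  have hSd : 1 - (S.card : ℝ) / N = (1 - gA a) + (1 - gB b) - kC bc ac N a b := by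
    rw [hSN]
    field_simp
    ring
  rw [hSd] at hΩ
  -- the equation
  have e1 := hF.e1 a b hab
  have zQ := hF.zQ a
  have zy := hF.zy1 b
  have e1' : ∑ c ∈ S, (y b c + P a b + Q a c - m a) / gC c = N * gA a * gB b / s := by
    convert e1
  have zQ' : ∑ c ∈ NA, (Q a c - m a) / gC c = 0 := by
    convert zQ
  have zy' : ∑ c ∈ NB, y b c / gC c = 0 := by
    convert zy
  rw [uA, sum_union dA] at zQ'
  rw [uB, sum_union dB] at zy'
  have hsplit : ∑ c ∈ S, (y b c + P a b + Q a c - m a) / gC c =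
      ∑ c ∈ S, y b c / gC c + P a b * ∑ c ∈ S, 1 / gC c + ∑ c ∈ S, (Q a c - m a) / gC c := by
    rw [mul_sum, ← sum_add_distrib, ← sum_add_distrib]
    exact sum_congr rfl fun c _ => by ring
  rw [hsplit] at e1'
  have b1 := F5_sum_le D1 (fun c => Q a c - m a) gC Gp hGp hT.lC (fun c hc => by
    rw [hD1, mem_filter] at hc
    exact (hQ a c hc.2.1).2)
  have b2 := F5_le_sum D1 (fun c => Q a c - m a) gC Gm hGm hT.lC (fun c hc => by
    rw [hD1, mem_filter] at hc
    exact (hQ a c hc.2.1).1)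
  have b3 := F5_sum_le D2 (fun c => y b c) gC Yp hYp hT.lC (fun c hc => by
    rw [hD2, mem_filter] at hc
    exact (hy b c hc.2.2).2)
  have b4 := F5_le_sum D2 (fun c => y b c) gC Ym hYm hT.lC (fun c hc => by
    rw [hD2, mem_filter] at hc
    exact (hy b c hc.2.2).1)
  rw [hD1N] at b1 b2
  rw [hD2N] at b3 b4
  refine ⟨(∑ c ∈ S, 1 / gC c) / N, k0, kA, kB, hΩ.1, hΩ.2, ?_, ?_⟩
  · have h1 : P a b * ((∑ c ∈ S, 1 / gC c) / N) = (P a b * ∑ c ∈ S, 1 / gC c) / N := by ring
    rw [h1, div_le_iff₀ hN]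
    have h2 : (gA a * gB b / s + 10 / 9 * ((1 - gB b - kC bc ac N a b) * Gp
        + (1 - gA a - kC bc ac N a b) * Yp)) * N = N * gA a * gB b / s +
        10 / 9 * Gp * ((1 - gB b - kC bc ac N a b) * N) +
        10 / 9 * Yp * ((1 - gA a - kC bc ac N a b) * N) := by ring
    rw [h2]
    linarith
  · have h1 : P a b * ((∑ c ∈ S, 1 / gC c) / N) = (P a b * ∑ c ∈ S, 1 / gC c) / N := by ring
    rw [h1, le_div_iff₀ hN]
    have h2 : (gA a * gB b / s - 10 / 9 * ((1 - gB b - kC bc ac N a b) * Gm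
        + (1 - gA a - kC bc ac N a b) * Ym)) * N = N * gA a * gB b / s -
        10 / 9 * Gm * ((1 - gB b - kC bc ac N a b) * N) -
        10 / 9 * Ym * ((1 - gA a - kC bc ac N a b) * N) := by ring
    rw [h2]
    linarith

end DH
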