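import Pool.Agent.Lib.MP_fe8cb7_co.h25.P_F6ab

open Finset

namespace DH

/-- reduction to the corners -/
theorem F6_main (x y k s q Gm Ym : ℝ) (hx1 : x ≤ 1 / 10) (hy1 : y ≤ 1 / 10)
    (hkx : k ≤ x) (hky : k ≤ y) (hs0 : 9 / 10 ≤ s) (hGm : 0 ≤ Gm) (hYm : 0 ≤ Ym)
    (hA : 0 ≤ (1 - k) * (1 - k) - q * s * (1 + 10 / 9 * (1 - s) - k))
    (hB : 0 ≤ 0.9 * (1 - k) - 10 / 9 * s * (1 / 10 - k) * (Gm + Ym)
      - q * s * (0.9 + 10 / 9 * (1 - s)))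
    (hC : 0 ≤ 0.81 - 10 / 9 * s * (1 / 10 - k) * (Gm + Ym)
      - q * s * (0.8 + 10 / 9 * (1 - s) + k)) :
    0 ≤ (1 - x) * (1 - y) - 10 / 9 * s * ((y - k) * Gm + (x - k) * Ym)
      - q * s * (1 + 10 / 9 * (1 - s) - (x + y - k)) := by
  have hk1 : 0 ≤ 1 / 10 - k := by linarith
  have hs : 0 ≤ s := by linarith
  have g1 : 0 ≤ 10 / 9 * s * (1 / 10 - k) * Gm := by positivity
  have g2 : 0 ≤ 10 / 9 * s * (1 / 10 - k) * Ym := by positivity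
  have := F6_bil k (1/10) x y
    (1 + 10 / 9 * s * k * (Gm + Ym) - q * s * (1 + 10 / 9 * (1 - s) + k))
    (-1 - 10 / 9 * s * Ym + q * s) (-1 - 10 / 9 * s * Gm + q * s) 1 (by linarith) hkx hx1 hky hy1
    (by linarith) (by norm_num at *; linarith) (by norm_num at *; linarith)
    (by norm_num at *; linarith)
  linarith

theorem F6_c1 (k s : ℝ) (hk0 : 0 ≤ k) (hk1 : k ≤ 1/10) (hs0 : 9/10 ≤ s) (hs1 : s ≤ 1) :
    0 ≤ 0.9*(1-k) - 11/9*s*(1/10-k) - (6.99/8.2 - 1.1*k)*s*(0.9 + 10/9*(1-s)) := by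
  nlinarith [mul_nonneg (sub_nonneg.2 hs0) (sub_nonneg.2 hs1), mul_nonneg hk0 (sub_nonneg.2 hk1), mul_nonneg hk0 (sub_nonneg.2 hs1), mul_nonneg hk0 (mul_nonneg (sub_nonneg.2 hs0) (sub_nonneg.2 hs1)), sq_nonneg (s - 0.95)]
theorem F6_c2 (k s : ℝ) (hk0 : 0 ≤ k) (hk1 : k ≤ 1/10) (hs0 : 9/10 ≤ s) (hs1 : s ≤ 1) :
    0 ≤ 0.81 - 11/9*s*(1/10-k) - (6.99/8.2 - 1.1*k)*s*(0.8 + 10/9*(1-s)+k) := by
  nlinarith [mul_nonneg (sub_nonneg.2 hs0) (sub_nonneg.2 hs1), mul_nonneg hk0 (sub_nonneg.2 hk1), mul_nonneg hk0 (sub_nonneg.2 hs1), mul_nonneg hk0 (mul_nonneg (sub_nonneg.2 hs0) (sub_nonneg.2 hs1)), sq_nonneg (s - 0.925), mul_nonneg hk0 (sub_nonneg.2 hs0)]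
theorem F6_d1 (k s : ℝ) (hk0 : 0 ≤ k) (hk1 : k ≤ 1/10) (hs0 : 9/10 ≤ s) (hs1 : s ≤ 1) :
    0 ≤ (1-k)*(1-k) - 7.29/8.2*s*(1 + 10/9*(1-s) - k) := by
  nlinarith [mul_nonneg (sub_nonneg.2 hs0) (sub_nonneg.2 hs1), mul_nonneg hk0 (sub_nonneg.2 hk1), mul_nonneg (sub_nonneg.2 hk1) (sub_nonneg.2 hs0), mul_nonneg hk0 (sub_nonneg.2 hs1), sq_nonneg (s - 0.95), sq_nonneg (s - 0.9 - k/2)]
theorem F6_d2 (k s : ℝ) (hk0 : 0 ≤ k) (hk1 : k ≤ 1/10) (hs0 : 9/10 ≤ s) (hs1 : s ≤ 1) :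
    0 ≤ 0.9*(1-k) - 8/9*s*(1/10-k) - 7.29/8.2*s*(0.9 + 10/9*(1-s)) := by
  nlinarith [mul_nonneg (sub_nonneg.2 hs0) (sub_nonneg.2 hs1), mul_nonneg hk0 (sub_nonneg.2 hk1), mul_nonneg (sub_nonneg.2 hk1) (sub_nonneg.2 hs0), mul_nonneg hk0 (sub_nonneg.2 hs1), sq_nonneg (s - 0.95), sq_nonneg (s - 0.9 - k/2)]
theorem F6_d3 (k s : ℝ) (hk0 : 0 ≤ k) (hk1 : k ≤ 1/10) (hs0 : 9/10 ≤ s) (hs1 : s ≤ 1) :
    0 ≤ 0.81 - 8/9*s*(1/10-k) - 7.29/8.2*s*(0.8 + 10/9*(1-s)+k) := by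
  nlinarith [mul_nonneg (sub_nonneg.2 hs0) (sub_nonneg.2 hs1), mul_nonneg hk0 (sub_nonneg.2 hk1), mul_nonneg (sub_nonneg.2 hk1) (sub_nonneg.2 hs0), mul_nonneg hk0 (sub_nonneg.2 hs1), sq_nonneg (s - 0.95), sq_nonneg (s - 0.9 - k/2)]
theorem F6_d4 (k s : ℝ) (hk0 : 0 ≤ k) (hk1 : k ≤ 1/10) (hs0 : 9/10 ≤ s) (hs1 : s ≤ 1) :
    0 ≤ 0.9*(1-k) - 11/9*s*(1/10-k) - 6.99/8.2*s*(0.9 + 10/9*(1-s)) := by
  nlinarith [mul_nonneg (sub_nonneg.2 hs0) (sub_nonneg.2 hs1), mul_nonneg hk0 (sub_nonneg.2 hk1), mul_nonneg (sub_nonneg.2 hk1) (sub_nonneg.2 hs0), mul_nonneg hk0 (sub_nonneg.2 hs1), sq_nonneg (s - 0.95), sq_nonneg (s - 0.9 - k/2)]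
theorem F6_d5 (k s : ℝ) (hk0 : 0 ≤ k) (hk1 : k ≤ 1/10) (hs0 : 9/10 ≤ s) (hs1 : s ≤ 1) :
    0 ≤ 0.81 - 11/9*s*(1/10-k) - 6.99/8.2*s*(0.8 + 10/9*(1-s)+k) := by
  nlinarith [mul_nonneg (sub_nonneg.2 hs0) (sub_nonneg.2 hs1), mul_nonneg hk0 (sub_nonneg.2 hk1), mul_nonneg (sub_nonneg.2 hk1) (sub_nonneg.2 hs0), mul_nonneg hk0 (sub_nonneg.2 hs1), sq_nonneg (s - 0.925), sq_nonneg (s - 0.9 - k/2)]
theorem F6_e2 (k s : ℝ) (hk0 : 0 ≤ k) (hk1 : k ≤ 1/10) (hs0 : 9/10 ≤ s) (hs1 : s ≤ 1) :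
    0 ≤ 0.9*(1-k) - 8/9*s*(1/10-k) - 0.889*s*(0.9 + 10/9*(1-s)) := by
  nlinarith [mul_nonneg (sub_nonneg.2 hs0) (sub_nonneg.2 hs1), mul_nonneg hk0 (sub_nonneg.2 hk1), mul_nonneg (sub_nonneg.2 hk1) (sub_nonneg.2 hs0), mul_nonneg hk0 (sub_nonneg.2 hs1), sq_nonneg (s - 0.95), sq_nonneg (s - 0.9 - k/2)]
theorem F6_e3 (k s : ℝ) (hk0 : 0 ≤ k) (hk1 : k ≤ 1/10) (hs0 : 9/10 ≤ s) (hs1 : s ≤ 1) :
    0 ≤ 0.81 - 8/9*s*(1/10-k) - 0.889*s*(0.8 + 10/9*(1-s)+k) := by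
  nlinarith [mul_nonneg (sub_nonneg.2 hs0) (sub_nonneg.2 hs1), mul_nonneg hk0 (sub_nonneg.2 hk1), mul_nonneg (sub_nonneg.2 hk1) (sub_nonneg.2 hs0), mul_nonneg hk0 (sub_nonneg.2 hs1), sq_nonneg (s - 0.95), sq_nonneg (s - 0.9 - k/2)]

/-- an affine function is nonnegative between two points where it is nonnegative -/
theorem F6_aff (t1 t2 t α β : ℝ) (h12 : t1 < t2) (h1 : t1 ≤ t) (h2 : t ≤ t2)
    (ha : 0 ≤ α + β * t1) (hb : 0 ≤ α + β * t2) : 0 ≤ α + β * t := by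
  have e : (t2 - t1) * (α + β * t) = (t2 - t) * (α + β * t1) + (t - t1) * (α + β * t2) := by ring
  have h : 0 ≤ (t2 - t1) * (α + β * t) := by
    rw [e]
    exact add_nonneg (mul_nonneg (by linarith) ha) (mul_nonneg (by linarith) hb)
  exact nonneg_of_mul_nonneg_right h (by linarith)

theorem p_F6c : S_F6c := by
  intro x y k s Ω Gm Ym P hx0 hx1 hy0 hy1 hk0 hkx hky hs0 hs1 hGm hYm ht hΩ hΩ1 hP
  have hO := F6_omega x y k s Ω hx1 hy1 hk0 hs0 hs1 hΩ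
  have hs : 0 < s := by linarith
  have hk1 : k ≤ 1 / 10 := by linarith
  obtain ⟨a1, a2, a3⟩ := F6_corner k s hk0 hk1 hs0 hs1
  have c1 := F6_c1 k s hk0 hk1 hs0 hs1
  have c2 := F6_c2 k s hk0 hk1 hs0 hs1
  refine F6_red x y k s Ω Gm Ym P _ hs0 (by norm_num at *; linarith) (by linarith) hΩ1 hP ?_
  set t := Gm + Ym with htd
  have ht0 : 0 ≤ t := by positivity
  refine F6_main x y k s _ Gm Ym hx1 hy1 hkx hky hs0 hGm hYm ?_ ?_ ?_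
  · have h1 : ((8.09 - t) / 8.2 - 1.1 * k) * s * (1 + 10 / 9 * (1 - s) - k)
        ≤ (0.987 - 1.1 * k) * s * (1 + 10 / 9 * (1 - s) - k) := by
      refine mul_le_mul_of_nonneg_right (mul_le_mul_of_nonneg_right ?_ hs.le) (by linarith)
      norm_num; linarith
    linarith
  · have h0 : (8.09 / 8.2 - 1.1 * k) * s * (0.9 + 10 / 9 * (1 - s))
        ≤ (0.987 - 1.1 * k) * s * (0.9 + 10 / 9 * (1 - s)) := by
      refine mul_le_mul_of_nonneg_right (mul_le_mul_of_nonneg_right ?_ hs.le)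
        (by norm_num; linarith)
      norm_num
    have := F6_aff 0 1.1 t
      (0.9 * (1 - k) - (8.09 / 8.2 - 1.1 * k) * s * (0.9 + 10 / 9 * (1 - s)))
      (-(10 / 9 * s * (1 / 10 - k)) + 1 / 8.2 * s * (0.9 + 10 / 9 * (1 - s)))
      (by norm_num) ht0 ht (by linarith) (by norm_num at *; linarith)
    rw [← htd]
    norm_num at *
    linarith
  · have h0 : (8.09 / 8.2 - 1.1 * k) * s * (0.8 + 10 / 9 * (1 - s) + k)
        ≤ (0.987 - 1.1 * k) * s * (0.8 + 10 / 9 * (1 - s) + k) := by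
      refine mul_le_mul_of_nonneg_right (mul_le_mul_of_nonneg_right ?_ hs.le)
        (by norm_num; linarith)
      norm_num
    have := F6_aff 0 1.1 t
      (0.81 - (8.09 / 8.2 - 1.1 * k) * s * (0.8 + 10 / 9 * (1 - s) + k))
      (-(10 / 9 * s * (1 / 10 - k)) + 1 / 8.2 * s * (0.8 + 10 / 9 * (1 - s) + k))
      (by norm_num) ht0 ht (by linarith) (by norm_num at *; linarith)
    rw [← htd]
    norm_num at *
    linarith

theorem p_F6d : S_F6d := by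
  intro x y k s Ω Gm Ym P hx0 hx1 hy0 hy1 hk0 hkx hky hs0 hs1 hGm hYm ht8 ht hΩ hΩ1 hP
  have hO := F6_omega x y k s Ω hx1 hy1 hk0 hs0 hs1 hΩ
  have hs : 0 < s := by linarith
  have hk1 : k ≤ 1 / 10 := by linarith
  have d1 := F6_d1 k s hk0 hk1 hs0 hs1
  have d2 := F6_d2 k s hk0 hk1 hs0 hs1
  have d3 := F6_d3 k s hk0 hk1 hs0 hs1
  have d4 := F6_d4 k s hk0 hk1 hs0 hs1
  have d5 := F6_d5 k s hk0 hk1 hs0 hs1
  refine F6_red x y k s Ω Gm Ym P _ hs0 (by norm_num at *; linarith) (by linarith) hΩ1 hP ?_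
  set t := Gm + Ym with htd
  refine F6_main x y k s _ Gm Ym hx1 hy1 hkx hky hs0 hGm hYm ?_ ?_ ?_
  · have h1 : ((8.09 - t) / 8.2) * s * (1 + 10 / 9 * (1 - s) - k)
        ≤ (7.29 / 8.2) * s * (1 + 10 / 9 * (1 - s) - k) := by
      refine mul_le_mul_of_nonneg_right (mul_le_mul_of_nonneg_right ?_ hs.le) (by linarith)
      norm_num at *; linarith
    linarith
  · have := F6_aff 0.8 1.1 t
      (0.9 * (1 - k) - (8.09 / 8.2) * s * (0.9 + 10 / 9 * (1 - s)))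
      (-(10 / 9 * s * (1 / 10 - k)) + 1 / 8.2 * s * (0.9 + 10 / 9 * (1 - s)))
      (by norm_num) ht8 ht (by norm_num at *; linarith) (by norm_num at *; linarith)
    rw [← htd]
    norm_num at *
    linarith
  · have := F6_aff 0.8 1.1 t
      (0.81 - (8.09 / 8.2) * s * (0.8 + 10 / 9 * (1 - s) + k))
      (-(10 / 9 * s * (1 / 10 - k)) + 1 / 8.2 * s * (0.8 + 10 / 9 * (1 - s) + k))
      (by norm_num) ht8 ht (by norm_num at *; linarith) (by norm_num at *; linarith)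
    rw [← htd]
    norm_num at *
    linarith

theorem p_F6e : S_F6e := by
  intro x y k s Ω Gm Ym P hx0 hx1 hy0 hy1 hk0 hkx hky hs0 hs1 hGm hYm ht hΩ hΩ1 hP
  have hO := F6_omega x y k s Ω hx1 hy1 hk0 hs0 hs1 hΩ
  have hs : 0 < s := by linarith
  have hk1 : k ≤ 1 / 10 := by linarith
  obtain ⟨a1, a2, a3⟩ := F6_corner_b k s hk0 hk1 hs0 hs1
  have e2 := F6_e2 k s hk0 hk1 hs0 hs1
  have e3 := F6_e3 k s hk0 hk1 hs0 hs1
  refine F6_red x y k s Ω Gm Ym P _ hs0 (by norm_num) (by linarith) hΩ1 hP ?_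
  set t := Gm + Ym with htd
  have ht0 : 0 ≤ t := by positivity
  refine F6_main x y k s _ Gm Ym hx1 hy1 hkx hky hs0 hGm hYm ?_ ?_ ?_
  · linarith
  · have := F6_aff 0 0.8 t
      (0.9 * (1 - k) - 0.889 * s * (0.9 + 10 / 9 * (1 - s)))
      (-(10 / 9 * s * (1 / 10 - k)))
      (by norm_num) ht0 ht (by norm_num at *; linarith) (by norm_num at *; linarith)
    rw [← htd]
    norm_num at *
    linarith
  · have := F6_aff 0 0.8 t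
      (0.81 - 0.889 * s * (0.8 + 10 / 9 * (1 - s) + k))
      (-(10 / 9 * s * (1 / 10 - k)))
      (by norm_num) ht0 ht (by norm_num at *; linarith) (by norm_num at *; linarith)
    rw [← htd]
    norm_num at *
    linarith

end DH
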