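import Pool.Agent.Lib.MP_fe8cb7_co.h25.StF

/-!
# [F7]: averages of the relative numbers of common non-neighbours
-/

open Finset

namespace DH

open Classical in
private theorem F7_compl {Y : Type} [Fintype Y] (U : Y → Prop) {N g : ℝ} (hN : 0 < N)
    (hc : (Fintype.card Y : ℝ) = N) (hU : ((univ.filter (fun y => U y)).card : ℝ) = g * N)
    (hg : 9 / 10 ≤ g) : ((univ.filter (fun y => ¬ U y)).card : ℝ) ≤ N / 10 := by
  have h := card_filter_add_card_filter_not (s := (univ : Finset Y)) (fun y => U y)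
  have h' : ((univ.filter (fun y => U y)).card : ℝ) + ((univ.filter (fun y => ¬ U y)).card : ℝ)
      = N := by
    rw [← hc, ← Finset.card_univ, ← h]
    push_cast
    rfl
  nlinarith

open Classical in
private theorem F7_count {X Y : Type} [Fintype X] [Fintype Y] (R : X → Y → Prop) (U : Y → Prop)
    {N : ℝ} (hN : 0 < N) (hU : ((univ.filter (fun y => ¬ U y)).card : ℝ) ≤ N / 10)
    (hR : ∀ y, ((univ.filter (fun x => ¬ R x y)).card : ℝ) ≤ N / 10) :
    ∑ x, ((univ.filter (fun y => ¬ R x y ∧ ¬ U y)).card : ℝ) / N ≤ N / 100 := by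
  rw [← sum_div, div_le_iff₀ hN]
  have h1 : ∑ x, ((univ.filter (fun y => ¬ R x y ∧ ¬ U y)).card : ℝ) =
      ∑ y, if ¬ U y then ((univ.filter (fun x => ¬ R x y)).card : ℝ) else 0 := by
    have e1 : ∀ x, ((univ.filter (fun y => ¬ R x y ∧ ¬ U y)).card : ℝ) =
        ∑ y, if ¬ R x y ∧ ¬ U y then (1 : ℝ) else 0 := by
      intro x
      rw [sum_boole]
    have e2 : ∀ y, (if ¬ U y then ((univ.filter (fun x => ¬ R x y)).card : ℝ) else 0) =
        ∑ x, if ¬ R x y ∧ ¬ U y then (1 : ℝ) else 0 := by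
      intro y
      by_cases hy : U y
      · simp [hy]
      · simp only [hy, not_false_eq_true, and_true, if_true]
        rw [sum_boole]
    simp only [e1, e2]
    exact sum_comm
  have h2 : ∑ y, (if ¬ U y then ((univ.filter (fun x => ¬ R x y)).card : ℝ) else 0) ≤
      ∑ y, (if ¬ U y then N / 10 else 0) := by
    refine sum_le_sum fun y _ => ?_
    split_ifs
    · exact le_rfl
    · exact hR y
  have h3 : ∑ y, (if ¬ U y then N / 10 else 0) =
      ((univ.filter (fun y => ¬ U y)).card : ℝ) * (N / 10) := by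
    rw [← sum_filter, sum_const, nsmul_eq_mul]
  rw [h1]
  refine h2.trans ?_
  rw [h3]
  have := mul_le_mul_of_nonneg_right hU (by positivity : 0 ≤ N / 10)
  nlinarith

private theorem F7_weight {X : Type} [Fintype X] (S : Finset X) (k g : X → ℝ) {N c : ℝ}
    (hk0 : ∀ x, 0 ≤ k x) (hk : ∑ x, k x ≤ N / 100) (hg : ∀ x, 9 / 10 ≤ g x) (hg1 : ∀ x, g x ≤ 1)
    (hc0 : 0 ≤ c) (hc : N / 90 ≤ c * (S.card : ℝ)) :
    ∑ x ∈ S, k x / g x ≤ c * ∑ x ∈ S, 1 / g x := by
  have h1 : ∑ x ∈ S, k x / g x ≤ ∑ x ∈ S, 10 / 9 * k x := by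
    refine sum_le_sum fun x _ => ?_
    have h0 : 0 < g x := by linarith [hg x]
    rw [div_le_iff₀ h0]
    nlinarith [hk0 x, hg x, mul_nonneg (hk0 x) (sub_nonneg.2 (hg x))]
  have h2 : ∑ x ∈ S, 10 / 9 * k x ≤ ∑ x, 10 / 9 * k x :=
    sum_le_sum_of_subset_of_nonneg (subset_univ S)
      (fun x _ _ => mul_nonneg (by norm_num) (hk0 x))
  rw [← mul_sum univ] at h2
  have h3 : (S.card : ℝ) ≤ ∑ x ∈ S, 1 / g x := by
    have : ∑ x ∈ S, (1 : ℝ) ≤ ∑ x ∈ S, 1 / g x := by
      refine sum_le_sum fun x _ => ?_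
      have h0 : 0 < g x := by linarith [hg x]
      rw [le_div_iff₀ h0, one_mul]
      exact hg1 x
    simpa using this
  have h4 := mul_le_mul_of_nonneg_left h3 hc0
  linarith

open Classical in
private theorem F7_inter {A : Type} [Fintype A] (U W : A → Prop) {N g g' : ℝ} (hN : 0 < N)
    (hc : (Fintype.card A : ℝ) = N) (hU : ((univ.filter (fun y => U y)).card : ℝ) = g * N)
    (hW : ((univ.filter (fun y => W y)).card : ℝ) = g' * N)
    (hg : 9 / 10 ≤ g) (hg' : 9 / 10 ≤ g') :
    8 / 10 * N ≤ ((univ.filter (fun y => U y ∧ W y)).card : ℝ) := by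
  have h1 := card_union_add_card_inter (univ.filter (fun y => U y)) (univ.filter (fun y => W y))
  rw [← filter_and] at h1
  have h2 : (univ.filter (fun y => U y) ∪ univ.filter (fun y => W y)).card ≤ Fintype.card A :=
    card_le_univ _
  have h3 : ((univ.filter (fun y => U y) ∪ univ.filter (fun y => W y)).card : ℝ) ≤ N := by
    rw [← hc]
    exact_mod_cast h2
  have h4 : ((univ.filter (fun y => U y) ∪ univ.filter (fun y => W y)).card : ℝ) +
      ((univ.filter (fun y => U y ∧ W y)).card : ℝ) = g * N + g' * N := by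
    rw [← hU, ← hW]
    exact_mod_cast h1
  nlinarith

private theorem F7_kC_nonneg {A B C : Type} [Fintype C] (bc : B → C → Prop) (ac : A → C → Prop)
    {N : ℝ} (hN : 0 < N) (a : A) (b : B) : 0 ≤ kC bc ac N a b := by
  unfold kC
  positivity

theorem p_F7 : S_F7 := by
  classical
  intro A B C _ _ _ ab bc ac N gA gB gC s h
  have hN := h.N0
  refine ⟨fun a => ?_, fun b c hbc => ?_, fun b c hbc => ?_⟩
  · refine F7_weight (N := N) _ _ _ (fun b => F7_kC_nonneg bc ac hN a b) ?_ h.lB h.uB (by norm_num) ?_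
    · have := F7_count (fun b c => bc b c) (fun c => ac a c) hN
        (F7_compl _ hN h.cC (h.dAC a) (h.lA a)) (fun c => F7_compl _ hN h.cB (h.dCB c) (h.lC c))
      refine le_trans (le_of_eq ?_) this
      refine sum_congr rfl fun b _ => ?_
      unfold kC
      congr 3
      ext c
      simp only [mem_filter, mem_univ, true_and]
      tauto
    · have h1 := h.dAB a
      have h2 : ((univ.filter (fun b => ab a b)).card : ℝ) = gA a * N := by
        rw [← h1]
      rw [h2]
      nlinarith [h.lA a]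
  · refine F7_weight (N := N) _ _ _ (fun a => F7_kC_nonneg bc ac hN a b) ?_ h.lA h.uA (by norm_num) ?_
    · have := F7_count (fun a c => ac a c) (fun c => bc b c) hN
        (F7_compl _ hN h.cC (h.dBC b) (h.lB b)) (fun c => F7_compl _ hN h.cA (h.dCA c) (h.lC c))
      refine le_trans (le_of_eq ?_) this
      refine sum_congr rfl fun a _ => ?_
      unfold kC
      rfl
    · have h1 := F7_inter (fun a => ab a b) (fun a => ac a c) hN h.cA (h.dBA b) (h.dCA c)
        (h.lB b) (h.lC c)
      nlinarith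
  · refine F7_weight (N := N) _ _ _ (fun a => F7_kC_nonneg (fun c b => bc b c) ab hN a c) ?_
      h.lA h.uA (by norm_num) ?_
    · have := F7_count (fun a b => ab a b) (fun b => bc b c) hN
        (F7_compl _ hN h.cB (h.dCB c) (h.lC c)) (fun b => F7_compl _ hN h.cA (h.dBA b) (h.lB b))
      refine le_trans (le_of_eq ?_) this
      refine sum_congr rfl fun a _ => ?_
      unfold kC
      rfl
    · have h1 := F7_inter (fun a => ab a b) (fun a => ac a c) hN h.cA (h.dBA b) (h.dCA c)
        (h.lB b) (h.lC c)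
      nlinarith

end DH
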