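import Pool.Agent.Lib.MP_fe8cb7_co.h25.StF

open Finset

namespace DH

private lemma F8ab_s {A B C : Type} [Fintype A] [Fintype B] [Fintype C] {ab : A → B → Prop}
    {bc : B → C → Prop} {ac : A → C → Prop} {N : ℝ} {gA : A → ℝ} {gB : B → ℝ} {gC : C → ℝ} {s : ℝ}
    (hG : TGood ab bc ac N gA gB gC s) : 9 / 10 ≤ s ∧ s ≤ 1 := by
  constructor
  · have h3 : (9 / 10 : ℝ) * N ≤ s * N := by
      rw [← hG.sA, ← hG.cA]
      calc (9 / 10 : ℝ) * (Fintype.card A : ℝ) = ∑ _a : A, (9 / 10 : ℝ) := by
            rw [sum_const, card_univ, nsmul_eq_mul, mul_comm]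
        _ ≤ ∑ a, gA a := sum_le_sum fun a _ => hG.lA a
    exact le_of_mul_le_mul_right h3 hG.N0
  · have h3 : s * N ≤ 1 * N := by
      rw [← hG.sA, ← hG.cA]
      calc ∑ a, gA a ≤ ∑ _a : A, (1 : ℝ) := sum_le_sum fun a _ => hG.uA a
        _ = 1 * (Fintype.card A : ℝ) := by
            rw [sum_const, card_univ, nsmul_eq_mul, mul_comm]
    exact le_of_mul_le_mul_right h3 hG.N0

theorem p_F8a : S_F8a := by
  classical
  intro h7 A B C _ _ _ ab bc ac N gA gB gC s P Q m y l κ hG hF hκ hP a
  have hB : ∀ b, 0 < gB b := fun b => by linarith [hG.lB b]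
  obtain ⟨h71, -, -⟩ := h7 A B C ab bc ac N gA gB gC s hG
  have h1 := h71 a
  set T := univ.filter (fun b => ab a b) with hT
  set S := ∑ b ∈ T, 1 / gB b with hS
  have hcard : (T.card : ℝ) = gA a * N := hG.dAB a
  have hTne : T.Nonempty := by
    rw [← Finset.card_pos]
    have : (0 : ℝ) < T.card := by
      rw [hcard]
      exact mul_pos (by linarith [hG.lA a]) hG.N0
    exact_mod_cast this
  have hS0 : 0 < S := sum_pos (fun b _ => one_div_pos.mpr (hB b)) hTne
  have h2 : ∑ b ∈ T, P a b / gB b = m a * S := by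
    have h3 := hF.zP a
    have h4 : ∑ b ∈ T, (P a b - m a) / gB b = ∑ b ∈ T, P a b / gB b - m a * S := by
      rw [hS, mul_sum, ← sum_sub_distrib]
      apply sum_congr rfl
      intro b _
      ring
    rw [← hT, h4] at h3
    linarith
  have h5 : l * S - κ * ∑ b ∈ T, kC bc ac N a b / gB b ≤ ∑ b ∈ T, P a b / gB b := by
    rw [hS, mul_sum, mul_sum, ← sum_sub_distrib]
    apply sum_le_sum
    intro b hb
    rw [hT, mem_filter] at hb
    have h6 := hP a b hb.2
    have h7 : l * (1 / gB b) - κ * (kC bc ac N a b / gB b) = (l - κ * kC bc ac N a b) / gB b := by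
      ring
    rw [h7]
    exact div_le_div_of_nonneg_right h6 (hB b).le
  have h8 := mul_le_mul_of_nonneg_left h1 hκ
  have h9 : (l - κ / 81) * S ≤ m a * S := by
    rw [← h2]
    have : (l - κ / 81) * S = l * S - κ * (1 / 81 * S) := by ring
    rw [this]
    linarith
  exact le_of_mul_le_mul_right h9 hS0

theorem p_F8s : S_F8s := by
  intro A B C _ _ _ ab bc ac N gA gB gC s P Q m y hG hF
  refine ⟨⟨hG.N0, hG.cA, hG.cC, hG.cB, hG.dAC, hG.dAB, hG.dCA, hG.dCB, hG.dBA, hG.dBC, hG.lA,
    hG.lC, hG.lB, hG.uA, hG.uC, hG.uB, hG.sA, hG.sC, hG.sB⟩,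
    ⟨hF.zQ, hF.zP, hF.zy2, hF.zy1, ?_, ?_, ?_⟩⟩
  · intro a c hac
    rw [← hF.e2 a c hac]
    apply sum_congr rfl
    intro b _
    congr 1
    ring
  · intro a b hab
    rw [← hF.e1 a b hab]
    apply sum_congr rfl
    intro c _
    congr 1
    ring
  · intro c b hbc
    have h1 := hF.e3 b c hbc
    have h2 : N * gC c * gB b / s = N * gB b * gC c / s := by ring
    rw [h2, ← h1]
    apply sum_congr
    · ext a
      simp only [mem_filter, mem_univ, true_and]
      exact and_comm
    · intro a _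
      congr 1
      ring

theorem p_F8b : S_F8b := by
  classical
  intro h5 h6U h6e h7 A B C _ _ _ ab bc ac N gA gB gC s P Q m y l κ Ap M hG hF hκ hP hQ hm hPl hQl
    b c hbc
  obtain ⟨hs1, hs2⟩ := F8ab_s hG
  have hN := hG.N0
  have hA : ∀ a, 0 < gA a := fun a => by linarith [hG.lA a]
  have h3 := hF.e3 b c hbc
  obtain ⟨-, h72, h73⟩ := h7 A B C ab bc ac N gA gB gC s hG
  have h72 := h72 b c hbc
  have h73 := h73 b c hbc
  set T := univ.filter (fun a => ab a b ∧ ac a c) with hT
  set W := ∑ a ∈ T, 1 / gA a with hW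
  set S1 := univ.filter (fun a => ab a b) with hS1
  set S2 := univ.filter (fun a => ac a c) with hS2
  have hT12 : T = S1 ∩ S2 := by
    rw [hT, hS1, hS2, filter_and]
  have hc1 : (S1.card : ℝ) = gB b * N := hG.dBA b
  have hc2 : (S2.card : ℝ) = gC c * N := hG.dCA c
  have hcu : ((S1 ∪ S2).card : ℝ) + (T.card : ℝ) = S1.card + S2.card := by
    rw [hT12]
    exact_mod_cast card_union_add_card_inter S1 S2
  set U : ℝ := ((S1 ∪ S2).card : ℝ) with hU
  have hU1 : gB b * N ≤ U := by
    rw [← hc1, hU]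
    exact_mod_cast card_le_card subset_union_left
  have hU2 : gC c * N ≤ U := by
    rw [← hc2, hU]
    exact_mod_cast card_le_card subset_union_right
  have hU3 : U ≤ N := by
    rw [← hG.cA, hU]
    exact_mod_cast card_le_univ _
  set k : ℝ := 1 - U / N with hk
  have hkU : U = (1 - k) * N := by
    rw [hk]
    field_simp
    ring
  have hk0 : 0 ≤ k := by
    rw [hk, sub_nonneg, div_le_one hN]
    exact hU3
  have hkx : k ≤ 1 - gB b := by
    rw [hk]
    have : gB b ≤ U / N := by
      rw [le_div_iff₀ hN]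
      exact hU1
    linarith
  have hky : k ≤ 1 - gC c := by
    rw [hk]
    have : gC c ≤ U / N := by
      rw [le_div_iff₀ hN]
      exact hU2
    linarith
  have hTN : 1 - (T.card : ℝ) / N = (1 - gB b) + (1 - gC c) - k := by
    have h1 : (T.card : ℝ) = (gB b + gC c - (1 - k)) * N := by
      rw [hc1, hc2, hkU] at hcu
      linarith
    rw [h1, mul_div_assoc, div_self hN.ne']
    ring
  obtain ⟨h51, h52⟩ := h5 A N s gA T hN hG.cA (fun a => ⟨hG.lA a, hG.uA a⟩) hG.sA
  rw [hTN, ← hW] at h51 h52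
  set Ω : ℝ := W / N with hΩ
  have hWΩ : W = Ω * N := by
    rw [hΩ]
    field_simp
  have hs0 : 0 < s := by linarith
  have hsi : 1 ≤ 1 / s := by
    rw [le_div_iff₀ hs0]
    linarith
  have hΩ0 : 0 < Ω := by
    have := hG.lB b
    have := hG.lC c
    linarith
  have hW0 : 0 < W := by
    rw [hWΩ]
    exact mul_pos hΩ0 hN
  set r : ℝ := gB b * gC c / s / Ω with hr
  have hrΩ : r * Ω = gB b * gC c / s := by
    rw [hr]
    field_simp
  have hrW : r * W = N * gB b * gC c / s := by
    rw [hWΩ, ← mul_assoc, hrΩ]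
    ring
  have hprod : (1 - (1 - gB b)) * (1 - (1 - gC c)) / s = gB b * gC c / s := by ring
  have hb1 := hG.lB b
  have hb2 := hG.uB b
  have hc1' := hG.lC c
  have hc2' := hG.uC c
  have hrlow : 0.889 ≤ r := by
    apply h6e (1 - gB b) (1 - gC c) k s Ω 0 0 r (by linarith) (by linarith) (by linarith)
      (by linarith) hk0 hkx hky hs1 hs2 le_rfl le_rfl (by norm_num) h51 h52
    rw [hprod, hrΩ]
    linarith
  have hrup : r ≤ 7.29 / 7 := by
    have := h6U (1 - gB b) (1 - gC c) k s Ω 0 0 r (by linarith) (by linarith) (by linarith)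
      (by linarith) hk0 hkx hky hs1 hs2 le_rfl le_rfl h51 (by
        rw [hprod, hrΩ]
        linarith)
    linarith
  -- the equation
  have hsplit : ∑ a ∈ T, (y b c + P a b + Q a c - m a) / gA a =
      y b c * W + ∑ a ∈ T, P a b / gA a + ∑ a ∈ T, Q a c / gA a - ∑ a ∈ T, m a / gA a := by
    rw [hW, mul_sum, ← sum_add_distrib, ← sum_add_distrib, ← sum_sub_distrib]
    apply sum_congr rfl
    intro a _
    ring
  rw [hsplit, ← hrW] at h3
  have hmem : ∀ a ∈ T, ab a b ∧ ac a c := by
    intro a ha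
    rw [hT, mem_filter] at ha
    exact ha.2
  have hPu : ∑ a ∈ T, P a b / gA a ≤ Ap * W := by
    rw [hW, mul_sum]
    apply sum_le_sum
    intro a ha
    rw [mul_one_div]
    exact div_le_div_of_nonneg_right (hP a b (hmem a ha).1) (hA a).le
  have hQu : ∑ a ∈ T, Q a c / gA a ≤ Ap * W := by
    rw [hW, mul_sum]
    apply sum_le_sum
    intro a ha
    rw [mul_one_div]
    exact div_le_div_of_nonneg_right (hQ a c (hmem a ha).2) (hA a).le
  have hml : M * W ≤ ∑ a ∈ T, m a / gA a := by
    rw [hW, mul_sum]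
    apply sum_le_sum
    intro a ha
    rw [mul_one_div]
    exact div_le_div_of_nonneg_right (hm a).1 (hA a).le
  have hmu : ∑ a ∈ T, m a / gA a ≤ Ap * W := by
    rw [hW, mul_sum]
    apply sum_le_sum
    intro a ha
    rw [mul_one_div]
    exact div_le_div_of_nonneg_right (hm a).2 (hA a).le
  have hPlow : l * W - κ * ∑ a ∈ T, kC bc ac N a b / gA a ≤ ∑ a ∈ T, P a b / gA a := by
    rw [hW, mul_sum, mul_sum, ← sum_sub_distrib]
    apply sum_le_sum
    intro a ha
    have h8 : l * (1 / gA a) - κ * (kC bc ac N a b / gA a) = (l - κ * kC bc ac N a b) / gA a := by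
      ring
    rw [h8]
    exact div_le_div_of_nonneg_right (hPl a b (hmem a ha).1) (hA a).le
  have hQlow : l * W - κ * ∑ a ∈ T, kC (fun c b => bc b c) ab N a c / gA a ≤
      ∑ a ∈ T, Q a c / gA a := by
    rw [hW, mul_sum, mul_sum, ← sum_sub_distrib]
    apply sum_le_sum
    intro a ha
    have h8 : l * (1 / gA a) - κ * (kC (fun c b => bc b c) ab N a c / gA a) =
        (l - κ * kC (fun c b => bc b c) ab N a c) / gA a := by
      ring
    rw [h8]
    exact div_le_div_of_nonneg_right (hQl a c (hmem a ha).2) (hA a).le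
  have hk2 := mul_le_mul_of_nonneg_left h72 hκ
  have hk3 := mul_le_mul_of_nonneg_left h73 hκ
  constructor
  · have h9 : (r - (2 * Ap - M)) * W ≤ y b c * W := by
      have : (r - (2 * Ap - M)) * W = r * W - Ap * W - Ap * W + M * W := by ring
      rw [this]
      linarith
    have := le_of_mul_le_mul_right h9 hW0
    linarith
  · have h9 : y b c * W ≤ (r + Ap - 2 * l + κ / 35) * W := by
      have : (r + Ap - 2 * l + κ / 35) * W = r * W + Ap * W - l * W - l * W +
          κ * (1 / 70 * W) + κ * (1 / 70 * W) := by ring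
      rw [this]
      linarith
    have := le_of_mul_le_mul_right h9 hW0
    linarith

end DH
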