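import Pool.Agent.Lib.MP_fe8cb7_co.h25.StF

/-!
# Daykin-Haggkvist problem: piece F8c (extremal values and the system of inequalities)
-/

open Finset

namespace DH

private theorem F8c_ext {α : Type} [Fintype α] (p : α → Prop) (f : α → ℝ) (hne : ∃ x, p x) :
    ∃ lo hi : ℝ, (∀ x, p x → lo ≤ f x ∧ f x ≤ hi) ∧ (∀ u, (∀ x, p x → f x ≤ u) → hi ≤ u) ∧
      (∀ l, (∀ x, p x → l ≤ f x) → l ≤ lo) := by
  classical
  have hn : ((univ : Finset α).filter p).Nonempty := by
    obtain ⟨x, hx⟩ := hne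
    exact ⟨x, by simp [hx]⟩
  obtain ⟨x1, h1, h2⟩ := Finset.exists_max_image _ f hn
  obtain ⟨x2, h3, h4⟩ := Finset.exists_min_image _ f hn
  rw [mem_filter] at h1 h3
  refine ⟨f x2, f x1, fun x hx => ⟨h4 x (by simp [hx]), h2 x (by simp [hx])⟩,
    fun u hu => hu x1 h1.2, fun l hl => hl x2 h3.2⟩

private theorem F8c_avg {β : Type} {S : Finset β} {f w : β → ℝ} {u : ℝ} (hn : S.Nonempty)
    (hw : ∀ b ∈ S, 0 < w b) (hs : ∑ b ∈ S, f b / w b = 0) (hf : ∀ b ∈ S, f b ≤ u) : 0 ≤ u := by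
  by_contra h
  push Not at h
  have : ∑ b ∈ S, f b / w b < 0 := by
    apply Finset.sum_neg
    · intro b hb
      exact div_neg_of_neg_of_pos (lt_of_le_of_lt (hf b hb) h) (hw b hb)
    · exact hn
  linarith

private theorem F8c_avg' {β : Type} {S : Finset β} {f w : β → ℝ} {l : ℝ} (hn : S.Nonempty)
    (hw : ∀ b ∈ S, 0 < w b) (hs : ∑ b ∈ S, f b / w b = 0) (hf : ∀ b ∈ S, l ≤ f b) : l ≤ 0 := by
  have := F8c_avg (f := fun b => - f b) (w := w) (u := -l) hn hw
    (by simp only [neg_div, Finset.sum_neg_distrib, hs, neg_zero]) (fun b hb => by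
      have := hf b hb
      linarith)
  linarith

private theorem F8c_edge (h5a : S_F5a) (h5 : S_F5) (h6U : S_F6U) (h6a : S_F6a) (h6b : S_F6b)
    (h6c : S_F6c) (h6d : S_F6d) (h6e : S_F6e)
    {A B C : Type} [Fintype A] [Fintype B] [Fintype C] {ab : A → B → Prop}
    {bc : B → C → Prop} {ac : A → C → Prop} {N : ℝ} {gA : A → ℝ} {gB : B → ℝ} {gC : C → ℝ} {s : ℝ}
    {P : A → B → ℝ} {Q : A → C → ℝ} {m : A → ℝ} {y : B → C → ℝ} {Gp Gm Yp Ym : ℝ}
    (hG : TGood ab bc ac N gA gB gC s) (hF : FSol ab bc ac N gA gB gC s P Q m y)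
    (hs1 : 9 / 10 ≤ s) (hs2 : s ≤ 1)
    (g1 : 0 ≤ Gp) (g2 : 0 ≤ Gm) (g3 : 0 ≤ Yp) (g4 : 0 ≤ Ym)
    (hQ : ∀ a c, ac a c → -Gm ≤ Q a c - m a ∧ Q a c - m a ≤ Gp)
    (hy : ∀ b c, bc b c → -Ym ≤ y b c ∧ y b c ≤ Yp) (a : A) (b : B) (hab : ab a b) :
    P a b ≤ (7.29 + Gp + Yp) / 7 ∧
    0.987 - 1.1 * kC bc ac N a b - (Gm + Ym) / 7 ≤ P a b ∧
    0.889 - (Gm + Ym) / 7 ≤ P a b ∧
    (Gm + Ym ≤ 1.1 → (8.09 - (Gm + Ym)) / 8.2 - 1.1 * kC bc ac N a b ≤ P a b) ∧
    (0.8 ≤ Gm + Ym → Gm + Ym ≤ 1.1 → (8.09 - (Gm + Ym)) / 8.2 ≤ P a b) ∧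
    (Gm + Ym ≤ 0.8 → 0.889 ≤ P a b) := by
  obtain ⟨Ω, k0, k1, k2, o1, o2, u1, u2⟩ := h5 h5a A B C ab bc ac N gA gB gC s P Q m y Gp Gm Yp Ym
    hG hF g1 g2 g3 g4 hQ hy a b hab
  have a1 := hG.lA a
  have a2 := hG.uA a
  have b1 := hG.lB b
  have b2 := hG.uB b
  have e : (1 - (1 - gA a)) * (1 - (1 - gB b)) / s = gA a * gB b / s := by
    rw [sub_sub_cancel, sub_sub_cancel]
  set k := kC bc ac N a b with hk
  refine ⟨?_, ?_, ?_, ?_, ?_, ?_⟩
  · exact h6U (1 - gA a) (1 - gB b) k s Ω Gp Yp (P a b) (by linarith) (by linarith) (by linarith)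
      (by linarith) k0 k1 k2 hs1 hs2 g1 g3 o1 (by rw [e]; exact u1)
  · exact h6a (1 - gA a) (1 - gB b) k s Ω Gm Ym (P a b) (by linarith) (by linarith) (by linarith)
      (by linarith) k0 k1 k2 hs1 hs2 g2 g4 o1 o2 (by rw [e]; exact u2)
  · exact h6b (1 - gA a) (1 - gB b) k s Ω Gm Ym (P a b) (by linarith) (by linarith) (by linarith)
      (by linarith) k0 k1 k2 hs1 hs2 g2 g4 o1 o2 (by rw [e]; exact u2)
  · intro ht
    exact h6c (1 - gA a) (1 - gB b) k s Ω Gm Ym (P a b) (by linarith) (by linarith) (by linarith)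
      (by linarith) k0 k1 k2 hs1 hs2 g2 g4 ht o1 o2 (by rw [e]; exact u2)
  · intro ht ht'
    exact h6d (1 - gA a) (1 - gB b) k s Ω Gm Ym (P a b) (by linarith) (by linarith) (by linarith)
      (by linarith) k0 k1 k2 hs1 hs2 g2 g4 ht ht' o1 o2 (by rw [e]; exact u2)
  · intro ht
    exact h6e (1 - gA a) (1 - gB b) k s Ω Gm Ym (P a b) (by linarith) (by linarith) (by linarith)
      (by linarith) k0 k1 k2 hs1 hs2 g2 g4 ht o1 o2 (by rw [e]; exact u2)

theorem p_F8c : S_F8c := by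
  classical
  intro h5a h5 h6U h6a h6b h6c h6d h6e h7 h8a h8b h8s A B C _ _ _ ab bc ac N gA gB gC s P Q m y
    hG hF
  obtain ⟨hG', hF'⟩ := h8s A B C ab bc ac N gA gB gC s P Q m y hG hF
  have hN := hG.N0
  -- nonempty parts and neighbourhoods
  have hneA : Nonempty A := by
    rw [← Fintype.card_pos_iff]
    have := hG.cA
    have h : (0 : ℝ) < Fintype.card A := by rw [this]; exact hN
    exact_mod_cast h
  obtain ⟨a0⟩ := hneA
  have hneB : Nonempty B := by
    rw [← Fintype.card_pos_iff]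
    have := hG.cB
    have h : (0 : ℝ) < Fintype.card B := by rw [this]; exact hN
    exact_mod_cast h
  obtain ⟨b0⟩ := hneB
  have nAB : ∀ a, (univ.filter (fun b => ab a b)).Nonempty := by
    intro a
    rw [← card_pos]
    have h1 := hG.dAB a
    have h2 := hG.lA a
    have h : (0 : ℝ) < ((univ.filter (fun b => ab a b)).card : ℝ) := by
      have h3 : 0 < gA a * N := mul_pos (by linarith) hN
      convert h3 using 1
    exact_mod_cast h
  have nBC : ∀ b, (univ.filter (fun c => bc b c)).Nonempty := by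
    intro b
    rw [← card_pos]
    have h1 := hG.dBC b
    have h2 := hG.lB b
    have h : (0 : ℝ) < ((univ.filter (fun c => bc b c)).card : ℝ) := by
      have h3 : 0 < gB b * N := mul_pos (by linarith) hN
      convert h3 using 1
    exact_mod_cast h
  have hs1 : 9 / 10 ≤ s := by
    have h1 : ∑ a : A, (9 / 10 : ℝ) ≤ ∑ a, gA a := Finset.sum_le_sum fun a _ => hG.lA a
    rw [Finset.sum_const, card_univ, nsmul_eq_mul, hG.cA, hG.sA] at h1
    by_contra h
    push Not at h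
    nlinarith
  have hs2 : s ≤ 1 := by
    have h1 : ∑ a, gA a ≤ ∑ a : A, (1 : ℝ) := Finset.sum_le_sum fun a _ => hG.uA a
    rw [Finset.sum_const, card_univ, nsmul_eq_mul, hG.cA, hG.sA] at h1
    by_contra h
    push Not at h
    nlinarith
  -- extremal values
  obtain ⟨pm, Ap, hx1, hx2, hx3⟩ := F8c_ext
    (Sum.elim (fun x : A × B => ab x.1 x.2) (fun x : A × C => ac x.1 x.2))
    (Sum.elim (fun x : A × B => P x.1 x.2) (fun x : A × C => Q x.1 x.2)) (by
      obtain ⟨b, hb⟩ := nAB a0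
      rw [mem_filter] at hb
      exact ⟨Sum.inl (a0, b), hb.2⟩)
  obtain ⟨M, Mh, hm1, -, hm3⟩ := F8c_ext (fun _ : A => True) m ⟨a0, trivial⟩
  obtain ⟨ym, Yp, hy1, hy2, hy3⟩ := F8c_ext (fun x : B × C => bc x.1 x.2)
    (fun x => y x.1 x.2) (by
      obtain ⟨c, hc⟩ := nBC b0
      rw [mem_filter] at hc
      exact ⟨(b0, c), hc.2⟩)
  have hP : ∀ a b, ab a b → pm ≤ P a b ∧ P a b ≤ Ap := fun a b h => hx1 (Sum.inl (a, b)) h
  have hQ : ∀ a c, ac a c → pm ≤ Q a c ∧ Q a c ≤ Ap := fun a c h => hx1 (Sum.inr (a, c)) h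
  have hup : ∀ u, (∀ a b, ab a b → P a b ≤ u) → (∀ a c, ac a c → Q a c ≤ u) → Ap ≤ u := by
    intro u h1 h2
    apply hx2
    rintro (x | x) hx
    · exact h1 _ _ hx
    · exact h2 _ _ hx
  have hlo : ∀ u, (∀ a b, ab a b → u ≤ P a b) → (∀ a c, ac a c → u ≤ Q a c) → u ≤ pm := by
    intro u h1 h2
    apply hx3
    rintro (x | x) hx
    · exact h1 _ _ hx
    · exact h2 _ _ hx
  have hmA : ∀ a, m a ≤ Ap := by
    intro a
    have h := F8c_avg (f := fun b => P a b - m a) (w := gB) (u := Ap - m a) (nAB a)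
      (fun b _ => by have := hG.lB b; linarith) (by
        have := hF.zP a
        convert this) (fun b hb => by
        rw [mem_filter] at hb
        have := (hP a b hb.2).2
        linarith)
    linarith
  have hmM : ∀ a, M ≤ m a := fun a => (hm1 a trivial).1
  have hMA : M ≤ Ap := (hmM a0).trans (hmA a0)
  have hmlo : ∀ u, (∀ a, u ≤ m a) → u ≤ M := fun u h => hm3 u fun a _ => h a
  have hpA : pm ≤ Ap := by
    obtain ⟨b, hb⟩ := nAB a0
    rw [mem_filter] at hb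
    exact (hP a0 b hb.2).1.trans (hP a0 b hb.2).2
  have hyy : ∀ b c, bc b c → ym ≤ y b c ∧ y b c ≤ Yp := fun b c h => hy1 (b, c) h
  have hYp : 0 ≤ Yp := by
    apply F8c_avg (f := fun c => y b0 c) (w := gC) (nBC b0)
      (fun c _ => by have := hG.lC c; linarith)
    · have := hF.zy1 b0
      convert this
    · intro c hc
      rw [mem_filter] at hc
      exact (hyy b0 c hc.2).2
  have hYm : ym ≤ 0 := by
    apply F8c_avg' (f := fun c => y b0 c) (w := gC) (nBC b0)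
      (fun c _ => by have := hG.lC c; linarith)
    · have := hF.zy1 b0
      convert this
    · intro c hc
      rw [mem_filter] at hc
      exact (hyy b0 c hc.2).1
  have hyup : ∀ u, (∀ b c, bc b c → y b c ≤ u) → Yp ≤ u := fun u h => hy2 u fun x hx => h _ _ hx
  have hylo : ∀ u, (∀ b c, bc b c → u ≤ y b c) → u ≤ ym := fun u h => hy3 u fun x hx => h _ _ hx
  -- the estimates
  have hyb : ∀ b c, bc b c → -(-ym) ≤ y b c ∧ y b c ≤ Yp := fun b c h => by
    rw [neg_neg]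
    exact hyy b c h
  have eP := F8c_edge h5a h5 h6U h6a h6b h6c h6d h6e (Gp := Ap - M) (Gm := Ap - pm) (Yp := Yp)
    (Ym := -ym) hG hF hs1 hs2 (by linarith) (by linarith) hYp (by linarith) (fun a c h => by
      have h1 := hQ a c h
      have h2 := hmA a
      have h3 := hmM a
      constructor <;> linarith) hyb
  have eQ := F8c_edge h5a h5 h6U h6a h6b h6c h6d h6e (Gp := Ap - M) (Gm := Ap - pm) (Yp := Yp)
    (Ym := -ym) hG' hF' hs1 hs2 (by linarith) (by linarith) hYp (by linarith) (fun a b h => by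
      have h1 := hP a b h
      have h2 := hmA a
      have h3 := hmM a
      constructor <;> linarith) (fun c b h => hyb b c h)
  have hbd : ∀ l : ℝ, (∀ a b, ab a b → l - 1.1 * kC bc ac N a b ≤ P a b) →
      (∀ a c, ac a c → l - 1.1 * kC (fun c b => bc b c) ab N a c ≤ Q a c) →
      l - 1.1 / 81 ≤ M ∧ 0.889 - (2 * Ap - M) ≤ ym ∧
        Yp ≤ 7.29 / 7 + Ap - 2 * l + 1.1 / 35 := by
    intro l h1 h2
    have h3 := h8a h7 A B C ab bc ac N gA gB gC s P Q m y l 1.1 hG hF (by norm_num) h1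
    have h4 := h8b h5a h6U h6e h7 A B C ab bc ac N gA gB gC s P Q m y l 1.1 Ap M hG hF
      (by norm_num) (fun a b h => (hP a b h).2) (fun a c h => (hQ a c h).2)
      (fun a => ⟨hmM a, hmA a⟩) h1 h2
    exact ⟨hmlo _ h3, hylo _ fun b c h => (h4 b c h).1, hyup _ fun b c h => (h4 b c h).2⟩
  refine ⟨Ap, pm, M, Yp, -ym, Ap - pm + -ym, hP, hQ, fun a => ⟨hmM a, hmA a⟩, hyb, rfl, ?_, ?_,
    ?_, ?_, ?_, ?_⟩
  · have := hup _ (fun a b h => (eP a b h).1) (fun a c h => (eQ a c h).1)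
    linarith
  · exact hlo _ (fun a b h => (eP a b h).2.2.1) (fun a c h => (eQ a c h).2.2.1)
  · have := (hbd (0.987 - (Ap - pm + -ym) / 7) (fun a b h => by
      have := (eP a b h).2.1
      linarith) (fun a c h => by
      have := (eQ a c h).2.1
      linarith)).1
    linarith
  · have := (hbd (0.987 - (Ap - pm + -ym) / 7) (fun a b h => by
      have := (eP a b h).2.1
      linarith) (fun a c h => by
      have := (eQ a c h).2.1
      linarith)).2.1
    linarith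
  · have := (hbd (0.987 - (Ap - pm + -ym) / 7) (fun a b h => by
      have := (eP a b h).2.1
      linarith) (fun a c h => by
      have := (eQ a c h).2.1
      linarith)).2.2
    linarith
  · intro ht
    obtain ⟨r1, -, r3⟩ := hbd ((8.09 - (Ap - pm + -ym)) / 8.2)
      (fun a b h => (eP a b h).2.2.2.1 ht) (fun a c h => (eQ a c h).2.2.2.1 ht)
    refine ⟨r1, r3, fun ht' => ?_, fun ht' => ?_⟩
    · exact hlo _ (fun a b h => (eP a b h).2.2.2.2.1 ht' ht)
        (fun a c h => (eQ a c h).2.2.2.2.1 ht' ht)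
    · exact hlo _ (fun a b h => (eP a b h).2.2.2.2.2 ht') (fun a c h => (eQ a c h).2.2.2.2.2 ht')

end DH
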