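import Pool.Agent.Lib.MP_fe8cb7_co.h25.StF

/-! Piece F9: nonnegative weights. (helper74) -/

open Finset

namespace DH

theorem p_F9 : S_F9 := by
  classical
  intro h A B C _ _ _ ab bc ac N gA gB gC s hT
  obtain ⟨P, Q, m, y, Ap, pm, M, Yp, Ym, hF, hP, hQ, hm, hy, hlo, hhi⟩ :=
    h A B C ab bc ac N gA gB gC s hT
  have hN := hT.N0
  have hs0 : 0 < s := by
    have h1 : (9 / 10 : ℝ) * N ≤ s * N := by
      rw [← hT.sA, ← hT.cA, mul_comm, ← nsmul_eq_mul, ← Finset.card_univ, ← Finset.sum_const]
      exact Finset.sum_le_sum fun a _ => hT.lA a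
    have h2 : (0 : ℝ) < s * N := lt_of_lt_of_le (by positivity) h1
    exact pos_of_mul_pos_left h2 hN.le
  have hs1 : s ≤ 1 := by
    have h1 : s * N ≤ 1 * N := by
      rw [← hT.sA, ← hT.cA, mul_comm, ← nsmul_eq_mul, ← Finset.card_univ, ← Finset.sum_const]
      exact Finset.sum_le_sum fun a _ => hT.uA a
    exact le_of_mul_le_mul_right h1 hN
  have gA0 : ∀ a, 0 < gA a := fun a => lt_of_lt_of_le (by norm_num) (hT.lA a)
  have gB0 : ∀ b, 0 < gB b := fun b => lt_of_lt_of_le (by norm_num) (hT.lB b)
  have gC0 : ∀ c, 0 < gC c := fun c => lt_of_lt_of_le (by norm_num) (hT.lC c)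
  refine ⟨fun a b c => if ab a b ∧ bc b c ∧ ac a c then
    s * (y b c + P a b + Q a c - m a) / (N * gA a * gB b * gC c) else 0, ?_, ?_, ?_, ?_⟩
  · intro a b c
    have hA := gA0 a
    have hB := gB0 b
    have hC := gC0 c
    by_cases ht : ab a b ∧ bc b c ∧ ac a c
    · simp only [if_pos ht]
      have b1 := hP a b ht.1
      have b2 := hQ a c ht.2.2
      have b3 := hm a
      have b4 := hy b c ht.2.1
      have hX0 : 0 ≤ y b c + P a b + Q a c - m a := by linarith
      have hX1 : y b c + P a b + Q a c - m a ≤ 1.83 := by linarith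
      refine ⟨by positivity, ?_⟩
      rw [div_le_div_iff₀ (by positivity) hN]
      have h1 : s * (y b c + P a b + Q a c - m a) ≤ 1.83 := by
        calc s * (y b c + P a b + Q a c - m a) ≤ 1 * (y b c + P a b + Q a c - m a) :=
              mul_le_mul_of_nonneg_right hs1 hX0
          _ ≤ 1.83 := by linarith
      have h2 : (0.729 : ℝ) ≤ gA a * gB b * gC c := by
        have e1 : (9 / 10 : ℝ) * (9 / 10) ≤ gA a * gB b :=
          mul_le_mul (hT.lA a) (hT.lB b) (by norm_num) hA.le
        have e2 : (9 / 10 : ℝ) * (9 / 10) * (9 / 10) ≤ gA a * gB b * gC c :=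
          mul_le_mul e1 (hT.lC c) (by norm_num) (by positivity)
        linarith
      have h3 : s * (y b c + P a b + Q a c - m a) * N ≤ 1.83 * N :=
        mul_le_mul_of_nonneg_right h1 hN.le
      have h4 : 0.729 * N ≤ gA a * gB b * gC c * N := mul_le_mul_of_nonneg_right h2 hN.le
      linarith
    · simp only [if_neg ht]
      exact ⟨le_rfl, by positivity⟩
  · intro a b hab
    have e := hF.e1 a b hab
    have hA := gA0 a
    have hB := gB0 b
    have h1 : ∀ c ∈ univ.filter (fun c => ac a c ∧ bc b c),
        (if ab a b ∧ bc b c ∧ ac a c then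
          s * (y b c + P a b + Q a c - m a) / (N * gA a * gB b * gC c) else 0) =
        s / (N * gA a * gB b) * ((y b c + P a b + Q a c - m a) / gC c) := by
      intro c hc
      rw [mem_filter] at hc
      rw [if_pos ⟨hab, hc.2.2, hc.2.1⟩]
      have hC := gC0 c
      field_simp
    rw [Finset.sum_congr rfl h1, ← Finset.mul_sum, e]
    field_simp
  · intro a c hac
    have e := hF.e2 a c hac
    have hA := gA0 a
    have hC := gC0 c
    have h1 : ∀ b ∈ univ.filter (fun b => ab a b ∧ bc b c),
        (if ab a b ∧ bc b c ∧ ac a c then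
          s * (y b c + P a b + Q a c - m a) / (N * gA a * gB b * gC c) else 0) =
        s / (N * gA a * gC c) * ((y b c + P a b + Q a c - m a) / gB b) := by
      intro b hb
      rw [mem_filter] at hb
      rw [if_pos ⟨hb.2.1, hb.2.2, hac⟩]
      have hB := gB0 b
      field_simp
    rw [Finset.sum_congr rfl h1, ← Finset.mul_sum, e]
    field_simp
  · intro b c hbc
    have e := hF.e3 b c hbc
    have hB := gB0 b
    have hC := gC0 c
    have h1 : ∀ a ∈ univ.filter (fun a => ab a b ∧ ac a c),
        (if ab a b ∧ bc b c ∧ ac a c then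
          s * (y b c + P a b + Q a c - m a) / (N * gA a * gB b * gC c) else 0) =
        s / (N * gB b * gC c) * ((y b c + P a b + Q a c - m a) / gA a) := by
      intro a ha
      rw [mem_filter] at ha
      rw [if_pos ⟨ha.2.1, hbc, ha.2.2⟩]
      have hA := gA0 a
      field_simp
    rw [Finset.sum_congr rfl h1, ← Finset.mul_sum, e]
    field_simp

end DH
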