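import Pool.Agent.Lib.MP_fe8cb7_co.h25.StC

/-! [Hall] perfect matchings in dense bipartite graphs. -/

open Finset

namespace DH

theorem p_Hall : S_Hall := by
  intro V _ X Y r _ hXY hX hY
  have key : ∀ s : Finset {x // x ∈ X},
      s.card ≤ (s.biUnion (fun x => Y.filter (fun y => r x.1 y))).card := by
    intro s
    set B := s.biUnion (fun x => Y.filter (fun y => r x.1 y)) with hB
    rcases s.eq_empty_or_nonempty with rfl | ⟨x0, hx0⟩
    · simp
    · have h1 : Y.filter (fun y => r x0.1 y) ⊆ B := fun y hy => mem_biUnion.2 ⟨x0, hx0, hy⟩
      have h2 := card_le_card h1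
      have h3 := hX x0.1 x0.2
      by_cases hs : 2 * s.card ≤ Y.card
      · omega
      · have h4 : Y ⊆ B := by
          intro y hy
          have h5 := hY y hy
          set S : Finset V := s.map (Function.Embedding.subtype _) with hS
          have hSc : S.card = s.card := card_map _
          have hSX : S ⊆ X := by
            intro v hv
            obtain ⟨a, _, rfl⟩ := mem_map.1 hv
            exact a.2
          have h6 : ¬ Disjoint S (X.filter (fun x => r x y)) := by
            intro hd
            have h7 : (S ∪ X.filter (fun x => r x y)).card ≤ X.card :=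
              card_le_card (union_subset hSX (filter_subset _ _))
            rw [card_union_of_disjoint hd] at h7
            omega
          rw [not_disjoint_iff] at h6
          obtain ⟨v, hv1, hv2⟩ := h6
          obtain ⟨a, ha, rfl⟩ := mem_map.1 hv1
          exact mem_biUnion.2 ⟨a, ha, mem_filter.2 ⟨hy, (mem_filter.1 hv2).2⟩⟩
        have h8 := card_le_card h4
        have h9 : s.card ≤ X.card := by
          have := card_le_univ s
          simpa using this
        omega
  obtain ⟨f, hf1, hf2⟩ := (Finset.all_card_le_biUnion_card_iff_exists_injective
    (fun x : {x // x ∈ X} => Y.filter (fun y => r x.1 y))).1 key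
  refine ⟨fun x => if h : x ∈ X then f ⟨x, h⟩ else x, ?_, ?_⟩
  · intro x hx
    have := hf2 ⟨x, hx⟩
    rw [mem_filter] at this
    simpa [hx] using this
  · intro x hx x' hx' h
    have hx : x ∈ X := hx
    have hx' : x' ∈ X := hx'
    simp only [dif_pos hx, dif_pos hx'] at h
    have := hf1 h
    simpa using this

end DH
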