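import Pool.Agent.Lib.MP_fe8cb7_co.h25.StM
import Pool.Agent.Lib.MP_fe8cb7_co.h25.Basic

/-!
# Daykin-Haggkvist problem: piece M1, iteration of the cover-down lemma
-/

open Finset

namespace DH

private theorem M1_abs {a b : ℤ} {B : ℝ} (ha : 0 ≤ a) (hb : 0 ≤ b) (ha' : (a : ℝ) ≤ B)
    (hb' : (b : ℝ) ≤ B) : |((a - b : ℤ) : ℝ)| ≤ B := by
  have h1 : (0 : ℝ) ≤ (a : ℝ) := by exact_mod_cast ha
  have h2 : (0 : ℝ) ≤ (b : ℝ) := by exact_mod_cast hb
  push_cast
  rw [abs_le]
  constructor <;> linarith

private theorem M1_imb {V : Type} {π : V → ZMod 3} {H : SimpleGraph V} {S : Finset V} {w : V}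
    {B : ℝ} (h : ∀ i : ZMod 3, (dg H w (pt π S i) : ℝ) ≤ B) : |(imb π H S w : ℝ)| ≤ B := by
  rw [imb]
  refine M1_abs (by positivity) (by positivity) ?_ ?_
  · exact_mod_cast h _
  · exact_mod_cast h _

private theorem M1_dg_zero {V : Type} {H : SimpleGraph V} {S : Finset V} {w : V}
    (h : ∀ v ∈ S, ¬ H.Adj w v) : dg H w S = 0 := by
  rw [dg, card_eq_zero, eq_empty_iff_forall_notMem]
  intro v hv
  exact h v (mem_nb.1 hv).1 (mem_nb.1 hv).2

private theorem M1_imb_zero {V : Type} {π : V → ZMod 3} {H : SimpleGraph V} {S : Finset V} {w : V}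
    (h : ∀ v ∈ S, ¬ H.Adj w v) : imb π H S w = 0 := by
  rw [imb, M1_dg_zero (fun v hv => h v (pt_subset _ hv)), M1_dg_zero (fun v hv => h v (pt_subset _ hv))]
  simp

private theorem M1_triangle {V : Type} {π : V → ZMod 3} {G H : SimpleGraph V} (hH : H ≤ G)
    {S : Finset V} {w : V} {A B : ℝ} (hA : |(imb π G S w : ℝ)| ≤ A) (hB : |(imb π H S w : ℝ)| ≤ B) :
    |(imb π (G \ H) S w : ℝ)| ≤ A + B := by
  rw [imb_sdiff hH]
  push_cast
  exact (abs_sub _ _).trans (add_le_add hA hB)

theorem p_M1 : S_M1 := by
  intro c η γ0 γ1 K N0 l n V _ _ π G U hη hK hγ0 hγ01 hγ1 hN0 hCD hU0 hUs hEq hUl hNl hTri hBal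
    hdeg himb
  have hanti : Antitone U := antitone_nat_of_succ_le hUs
  have hmono : ∀ j, j ≤ l → N0 ≤ n / K ^ j := by
    intro j hj
    refine hNl.trans (Nat.div_le_div_left (Nat.pow_le_pow_right (by omega) hj) ?_)
    positivity
  have claim : ∀ j, j ≤ l → ∃ T : Finset (Finset V), Pack G T ∧
      (∀ u v : V, G.Adj u v → ¬ (u ∈ U j ∧ v ∈ U j) → (cov T).Adj u v) ∧
      (∀ u ∈ U (j + 1), ∀ v ∈ U (j + 1), ¬ (cov T).Adj u v) ∧
      (∀ u ∈ U j, ∀ i : ZMod 3, (dg (cov T) u (pt π (U j) i) : ℝ) ≤ η * ((n / K ^ j : ℕ) : ℝ)) ∧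
      (j + 1 ≤ l → ∀ u ∈ U j, ∀ i : ZMod 3,
        (dg (cov T) u (pt π (U (j + 1)) i) : ℝ) ≤ (γ1 - γ0) * ((n / K ^ (j + 1) : ℕ) : ℝ)) := by
    intro j
    induction j with
    | zero =>
      intro _
      have h0 : ∀ (u : V) (S : Finset V), dg (cov (∅ : Finset (Finset V))) u S = 0 := by
        intro u S
        refine M1_dg_zero fun v _ => ?_
        rw [cov_empty]
        exact fun h => h
      refine ⟨∅, Pack.empty, ?_, ?_, ?_, ?_⟩
      · intro u v _ h
        exact absurd ⟨by rw [hU0]; exact mem_univ _, by rw [hU0]; exact mem_univ _⟩ h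
      · intro u _ v _
        rw [cov_empty]
        exact fun h => h
      · intro u _ i
        rw [h0, Nat.cast_zero]
        positivity
      · intro _ u _ i
        rw [h0, Nat.cast_zero]
        exact mul_nonneg (by linarith) (Nat.cast_nonneg _)
    | succ j ih =>
      intro hj
      obtain ⟨T, hT, h1, h2, h3, h4⟩ := ih (by omega)
      have h4 := h4 hj
      have hle : cov T ≤ G := hT.cov_le
      set G' : SimpleGraph V := G \ cov T with hG'
      have hwithin : Within G' (U j) := by
        intro u v huv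
        rw [hG', SimpleGraph.sdiff_adj] at huv
        by_contra hcon
        exact huv.2 (h1 u v huv.1 hcon)
      have hsub1 : U (j + 1) ⊆ U j := hUs j
      have hsub2 : U (j + 2) ⊆ U (j + 1) := hUs (j + 1)
      have hn : ∀ m, n / K ^ (m + 1) = n / K ^ m / K := by
        intro m
        rw [pow_succ, Nat.div_div_eq_div_mul]
      set N2 : ℕ := if j + 2 ≤ l then n / K ^ (j + 2) else 0 with hN2
      have hγ : 0 ≤ γ1 - γ0 := by linarith
      have hcast1 : (0 : ℝ) ≤ ((n / K ^ (j + 1) : ℕ) : ℝ) := Nat.cast_nonneg _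
      have hyp : CDHyp π G' (U j) (U (j + 1)) (U (j + 2)) (n / K ^ j) (n / K ^ (j + 1)) N2 K c η
          γ0 γ1 := by
        refine
          { sub1 := hsub1
            sub2 := hsub2
            szU := hEq j (by omega)
            szU1 := hEq (j + 1) hj
            szU2 := ?_
            hN1 := hn j
            hN2 := ?_
            tri := hTri.mono sdiff_le
            within := hwithin
            bal := ?_
            deg := ?_
            deg1 := ?_
            imb1 := ?_
            imbW1 := ?_
            imbW2 := ?_ }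
        · by_cases h : j + 2 ≤ l
          · rw [hN2, if_pos h]
            exact hEq (j + 2) h
          · rw [hN2, if_neg h]
            intro i
            rw [hUl (j + 2) (by omega)]
            simp [pt]
        · by_cases h : j + 2 ≤ l
          · left
            rw [hN2, if_pos h]
            exact hn (j + 1)
          · right
            rw [hN2, if_neg h]
        · intro v
          rw [imb_within hwithin, hG', imb_sdiff hle, hBal v, hT.bal hTri v, sub_zero]
        · intro v hv i hi
          have hd := hdeg j (by omega) v (hanti (Nat.sub_le j 2) hv) i hi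
          have h5 := h3 v hv i
          have h6 : (dg G' v (pt π (U j) i) : ℝ) + (dg (cov T) v (pt π (U j) i) : ℝ)
              = (dg G v (pt π (U j) i) : ℝ) := by
            exact_mod_cast dg_sdiff hle v
          linarith
        · intro v hv i hi
          have hd := hdeg (j + 1) hj v (hanti (by omega : j + 1 - 2 ≤ j) hv) i hi
          have h5 := h4 v hv i
          have h6 : (dg G' v (pt π (U (j + 1)) i) : ℝ) + (dg (cov T) v (pt π (U (j + 1)) i) : ℝ)
              = (dg G v (pt π (U (j + 1)) i) : ℝ) := by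
            exact_mod_cast dg_sdiff hle v
          have h7 : (γ1 - γ0) * ((n / K ^ (j + 1) : ℕ) : ℝ) ≤ η * ((n / K ^ (j + 1) : ℕ) : ℝ) :=
            mul_le_mul_of_nonneg_right (by linarith) hcast1
          linarith
        · intro u hu
          have h5 : imb π G' (U (j + 1)) u = imb π G (U (j + 1)) u := by
            rw [hG', imb_sdiff hle, M1_imb_zero (fun v hv => h2 u hu v hv), sub_zero]
          rw [h5]
          exact himb (j + 1) hj u (hanti (by omega : j + 1 - 2 ≤ j + 1) hu)
        · intro w hw
          have h5 := M1_triangle hle (himb (j + 1) hj w (hanti (by omega : j + 1 - 2 ≤ j) hw))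
            (M1_imb (fun i => h4 w hw i))
          refine h5.trans (le_of_eq ?_)
          ring
        · intro w hw
          by_cases h : j + 2 ≤ l
          · have h8 : ∀ i : ZMod 3, (dg (cov T) w (pt π (U (j + 2)) i) : ℝ)
                ≤ (γ1 - γ0) * ((n / K ^ (j + 1) : ℕ) : ℝ) := by
              intro i
              refine le_trans ?_ (h4 w hw i)
              exact_mod_cast dg_mono_set (pt_mono hsub2 i) w
            have h5 := M1_triangle hle (himb (j + 2) h w (hanti (by omega : j + 2 - 2 ≤ j) hw))
              (M1_imb h8)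
            have h9 : ((n / K ^ (j + 2) : ℕ) : ℝ) ≤ ((n / K ^ (j + 1) : ℕ) : ℝ) := by
              rw [hn (j + 1)]
              exact_mod_cast Nat.div_le_self _ _
            have h10 : γ0 * ((n / K ^ (j + 2) : ℕ) : ℝ) ≤ γ0 * ((n / K ^ (j + 1) : ℕ) : ℝ) :=
              mul_le_mul_of_nonneg_left h9 hγ0.le
            linarith
          · rw [hUl (j + 2) (by omega), M1_imb_zero (fun v hv => absurd hv (notMem_empty v))]
            rw [Int.cast_zero, abs_zero]
            exact mul_nonneg (by linarith) hcast1
      obtain ⟨T', hT'⟩ := hCD G' (U j) (U (j + 1)) (U (j + 2)) (n / K ^ j) (n / K ^ (j + 1)) N2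
        (fun _ => hmono _ hj) (by
          intro h
          by_cases h' : j + 2 ≤ l
          · rw [hN2, if_pos h']
            exact hmono _ h'
          · rw [hN2, if_neg h'] at h
            exact absurd rfl h) hyp
      refine ⟨T ∪ T', hT.union_sdiff hT'.pack, ?_, ?_, ?_, ?_⟩
      · intro u v huv hn'
        rw [cov_union, SimpleGraph.sup_adj]
        by_cases h : (cov T).Adj u v
        · exact Or.inl h
        · right
          refine hT'.cover u v ?_ hn'
          rw [hG', SimpleGraph.sdiff_adj]
          exact ⟨huv, h⟩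
      · intro u hu v hv
        rw [cov_union, SimpleGraph.sup_adj]
        rintro (h | h)
        · exact h2 u (hsub2 hu) v (hsub2 hv) h
        · exact hT'.out2 u hu v hv h
      · intro u hu i
        have h5 : dg (cov T) u (pt π (U (j + 1)) i) = 0 :=
          M1_dg_zero fun v hv => h2 u hu v (pt_subset _ hv)
        have h6 : dg (cov (T ∪ T')) u (pt π (U (j + 1)) i)
            ≤ dg (cov T) u (pt π (U (j + 1)) i) + dg (cov T') u (pt π (U (j + 1)) i) := by
          rw [cov_union]
          exact dg_sup_le u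
        rw [h5, zero_add] at h6
        refine le_trans ?_ (hT'.deg1 u hu i)
        exact_mod_cast h6
      · intro hj2 u hu i
        have h5 : dg (cov T) u (pt π (U (j + 2)) i) = 0 :=
          M1_dg_zero fun v hv => h2 u hu v (hsub2 (pt_subset _ hv))
        have h6 : dg (cov (T ∪ T')) u (pt π (U (j + 2)) i)
            ≤ dg (cov T) u (pt π (U (j + 2)) i) + dg (cov T') u (pt π (U (j + 2)) i) := by
          rw [cov_union]
          exact dg_sup_le u
        rw [h5, zero_add] at h6
        have h7 := hT'.deg2 u hu i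
        rw [hN2, if_pos (by omega : j + 2 ≤ l)] at h7
        refine le_trans ?_ h7
        exact_mod_cast h6
  obtain ⟨T, hT, h1, _⟩ := claim l le_rfl
  exact ⟨T, hT, h1⟩

end DH
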