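import Pool.Agent.Lib.MP_fe8cb7_co.h25.StM
import Pool.Agent.Lib.MP_fe8cb7_co.h25.Basic

/-!
# Daykin-Haggkvist problem: piece M4, from graphs to precolourings
-/

open Finset

namespace DH

/-- the filled cells as triples (row, column, symbol) -/
private def M4_P {n : ℕ} (f : Fin n → Fin n → Option (Fin n)) : Finset (ZMod 3 → Fin n) :=
  univ.filter (fun p => f (p 0) (p 1) = some (p 2))

private theorem M4_mem_P {n : ℕ} {f : Fin n → Fin n → Option (Fin n)} {p : ZMod 3 → Fin n} :
    p ∈ M4_P f ↔ f (p 0) (p 1) = some (p 2) := by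
  simp [M4_P]

private theorem M4_cases (a : ZMod 3) : a = 0 ∨ a = 1 ∨ a = 2 := by
  revert a; decide

private theorem M4_ext {n : ℕ} {p q : ZMod 3 → Fin n} (h0 : p 0 = q 0) (h1 : p 1 = q 1)
    (h2 : p 2 = q 2) : p = q := by
  funext a
  rcases M4_cases a with rfl | rfl | rfl
  · exact h0
  · exact h1
  · exact h2

private theorem M4_P_inj {n : ℕ} {f : Fin n → Fin n → Option (Fin n)} (hf : ProperPre f)
    {p q : ZMod 3 → Fin n} (hp : p ∈ M4_P f) (hq : q ∈ M4_P f) {a b : ZMod 3} (hab : a ≠ b)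
    (ha : p a = q a) (hb : p b = q b) : p = q := by
  rw [M4_mem_P] at hp hq
  have h01 : p 0 = q 0 → p 1 = q 1 → p = q := by
    intro h0 h1
    refine M4_ext h0 h1 ?_
    rw [h0, h1, hq] at hp
    exact (Option.some.inj hp).symm
  have h02 : p 0 = q 0 → p 2 = q 2 → p = q := by
    intro h0 h2
    rw [h0, h2] at hp
    exact M4_ext h0 (hf.1 _ _ _ _ hp hq) h2
  have h12 : p 1 = q 1 → p 2 = q 2 → p = q := by
    intro h1 h2
    rw [h1, h2] at hp
    exact M4_ext (hf.2 _ _ _ _ hp hq) h1 h2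
  rcases M4_cases a with rfl | rfl | rfl <;> rcases M4_cases b with rfl | rfl | rfl
  · exact absurd rfl hab
  · exact h01 ha hb
  · exact h02 ha hb
  · exact h01 hb ha
  · exact absurd rfl hab
  · exact h12 ha hb
  · exact h02 hb ha
  · exact h12 hb ha
  · exact absurd rfl hab

/-- the graph of the empty cells -/
private def M4_G {n : ℕ} (f : Fin n → Fin n → Option (Fin n)) : SimpleGraph (ZMod 3 × Fin n) where
  Adj u v := u.1 ≠ v.1 ∧ ∀ p ∈ M4_P f, ¬ (p u.1 = u.2 ∧ p v.1 = v.2)
  symm := ⟨fun _ _ h => ⟨h.1.symm, fun p hp h' => h.2 p hp ⟨h'.2, h'.1⟩⟩⟩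
  loopless := ⟨fun _ h => h.1 rfl⟩

private theorem M4_dg {n : ℕ} {f : Fin n → Fin n → Option (Fin n)} (hf : ProperPre f)
    (a b : ZMod 3) (x : Fin n) (hab : b ≠ a) :
    dg (M4_G f) (a, x) (pt Prod.fst univ b) + ((M4_P f).filter (fun p => p a = x)).card = n := by
  classical
  set S := (M4_P f).filter (fun p => p a = x) with hS
  have h1 : (S.image (fun p => p b)).card = S.card := by
    apply card_image_of_injOn
    intro p hp q hq hpq
    rw [mem_coe, hS, mem_filter] at hp hq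
    exact M4_P_inj hf hp.1 hq.1 hab.symm (hp.2.trans hq.2.symm) hpq
  have h2 : dg (M4_G f) (a, x) (pt Prod.fst univ b)
      = ((univ : Finset (Fin n)) \ S.image (fun p => p b)).card := by
    rw [dg]
    symm
    refine card_bij (fun y _ => (b, y)) ?_ ?_ ?_
    · intro y hy
      rw [mem_sdiff] at hy
      refine mem_nb.2 ⟨mem_pt.2 ⟨mem_univ _, rfl⟩, hab.symm, fun p hp h => hy.2 ?_⟩
      exact mem_image.2 ⟨p, mem_filter.2 ⟨hp, h.1⟩, h.2⟩
    · intro y _ z _ h
      exact (Prod.mk.inj h).2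
    · rintro ⟨c, y⟩ hy
      rw [mem_nb, mem_pt] at hy
      obtain ⟨⟨_, h3⟩, h4⟩ := hy
      have h3 : c = b := h3
      subst h3
      refine ⟨y, ?_, rfl⟩
      rw [mem_sdiff]
      refine ⟨mem_univ _, fun h => ?_⟩
      obtain ⟨p, hp, hpy⟩ := mem_image.1 h
      rw [hS, mem_filter] at hp
      exact h4.2 p hp.1 ⟨hp.2, hpy⟩
  rw [h2, ← h1, card_sdiff_add_card_eq_card (subset_univ _)]
  simp

private theorem M4_dense {n : ℕ} {α : ℝ} {f : Fin n → Fin n → Option (Fin n)}
    (hd : DensePre α f) (a : ZMod 3) (x : Fin n) :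
    (((M4_P f).filter (fun p => p a = x)).card : ℝ) ≤ α * n := by
  classical
  rcases M4_cases a with rfl | rfl | rfl
  · refine le_trans ?_ (hd.2.1 x)
    rw [Nat.cast_le]
    refine card_le_card_of_injOn (fun p => p 1) ?_ ?_
    · intro p hp
      rw [mem_coe, mem_filter, M4_mem_P] at hp
      rw [mem_coe, mem_filter]
      refine ⟨mem_univ _, ?_⟩
      rw [← hp.2, hp.1]
      simp
    · intro p hp q hq hpq
      rw [mem_coe, mem_filter, M4_mem_P] at hp hq
      have h0 : p 0 = q 0 := hp.2.trans hq.2.symm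
      have h1 : p 1 = q 1 := hpq
      refine M4_ext h0 h1 ?_
      have := hp.1
      rw [h0, h1, hq.1] at this
      exact (Option.some.inj this).symm
  · refine le_trans ?_ (hd.2.2 x)
    rw [Nat.cast_le]
    refine card_le_card_of_injOn (fun p => p 0) ?_ ?_
    · intro p hp
      rw [mem_coe, mem_filter, M4_mem_P] at hp
      rw [mem_coe, mem_filter]
      refine ⟨mem_univ _, ?_⟩
      rw [← hp.2, hp.1]
      simp
    · intro p hp q hq hpq
      rw [mem_coe, mem_filter, M4_mem_P] at hp hq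
      have h1 : p 1 = q 1 := hp.2.trans hq.2.symm
      have h0 : p 0 = q 0 := hpq
      refine M4_ext h0 h1 ?_
      have := hp.1
      rw [h0, h1, hq.1] at this
      exact (Option.some.inj this).symm
  · refine le_trans ?_ (hd.1 x)
    rw [Nat.cast_le]
    refine card_le_card_of_injOn (fun p => (p 0, p 1)) ?_ ?_
    · intro p hp
      rw [mem_coe, mem_filter, M4_mem_P] at hp
      rw [mem_coe, mem_filter]
      exact ⟨mem_univ _, by rw [← hp.2]; exact hp.1⟩
    · intro p hp q hq hpq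
      rw [mem_coe, mem_filter, M4_mem_P] at hp hq
      have h0 : p 0 = q 0 := (Prod.mk.inj hpq).1
      have h1 : p 1 = q 1 := (Prod.mk.inj hpq).2
      exact M4_ext h0 h1 (hp.2.trans hq.2.symm)

private theorem M4_eq3 (n : ℕ) :
    Eq3 (Prod.fst : ZMod 3 × Fin n → ZMod 3) (univ : Finset (ZMod 3 × Fin n)) n := by
  classical
  intro i
  have : (pt (Prod.fst : ZMod 3 × Fin n → ZMod 3) univ i)
      = (univ : Finset (Fin n)).map ⟨fun y => (i, y), fun y z h => (Prod.mk.inj h).2⟩ := by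
    ext ⟨a, y⟩
    simp only [mem_pt, mem_univ, true_and, mem_map]
    constructor
    · rintro rfl
      exact ⟨y, rfl⟩
    · rintro ⟨z, hz⟩
      exact (Prod.mk.inj hz).1.symm
  rw [this, card_map, card_univ, Fintype.card_fin]

/-- all triples: filled cells and triangles of the packing -/
private def M4_Q {n : ℕ} (f : Fin n → Fin n → Option (Fin n)) (T : Finset (Finset (ZMod 3 × Fin n)))
    (p : ZMod 3 → Fin n) : Prop :=
  p ∈ M4_P f ∨ ∃ t ∈ T, ∀ a : ZMod 3, (a, p a) ∈ t

private theorem M4_Q_inj {n : ℕ} {f : Fin n → Fin n → Option (Fin n)} (hf : ProperPre f)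
    {T : Finset (Finset (ZMod 3 × Fin n))} (hT : Pack (M4_G f) T)
    {p q : ZMod 3 → Fin n} (hp : M4_Q f T p) (hq : M4_Q f T q) {a b : ZMod 3} (hab : a ≠ b)
    (ha : p a = q a) (hb : p b = q b) : p = q := by
  have hTri : Tri Prod.fst (M4_G f) := fun u v h => h.1
  have key : ∀ p q : ZMod 3 → Fin n, p ∈ M4_P f → (∃ t ∈ T, ∀ a : ZMod 3, (a, q a) ∈ t) →
      p a = q a → p b = q b → False := by
    rintro p q hp ⟨t, ht, hq⟩ ha hb
    have hadj : (M4_G f).Adj (a, q a) (b, q b) := by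
      refine (hT.1 t ht).1 (mem_coe.2 (hq a)) (mem_coe.2 (hq b)) ?_
      intro h
      exact hab (Prod.mk.inj h).1
    exact hadj.2 p hp ⟨ha, hb⟩
  rcases hp with hp | hp <;> rcases hq with hq | hq
  · exact M4_P_inj hf hp hq hab ha hb
  · exact (key p q hp hq ha hb).elim
  · exact (key q p hq hp ha.symm hb.symm).elim
  · obtain ⟨t, ht, hp⟩ := hp
    obtain ⟨t', ht', hq⟩ := hq
    have htt : t = t' := by
      by_contra hne
      have h1 := hp a
      have h2 := hp b
      have := hT.2 t ht t' ht' hne (a, p a) h1 (b, p b) h2 (by rw [ha]; exact hq a)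
        (by rw [hb]; exact hq b)
      exact hab (Prod.mk.inj this).1
    subst htt
    funext c
    obtain ⟨u, _, _, hu⟩ := clique_part hTri (hT.1 t ht) c
    have h1 := hu _ (hp c) rfl
    have h2 := hu _ (hq c) rfl
    exact (Prod.mk.inj (h1.trans h2.symm)).2

private theorem M4_exists {n : ℕ} {f : Fin n → Fin n → Option (Fin n)}
    {T : Finset (Finset (ZMod 3 × Fin n))} (hT : Pack (M4_G f) T) (hc : cov T = M4_G f)
    (i j : Fin n) : ∃ p : ZMod 3 → Fin n, M4_Q f T p ∧ p 0 = i ∧ p 1 = j := by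
  classical
  have hTri : Tri Prod.fst (M4_G f) := fun u v h => h.1
  by_cases h : ∃ s, f i j = some s
  · obtain ⟨s, hs⟩ := h
    refine ⟨fun a => if a = 0 then i else if a = 1 then j else s, Or.inl ?_, ?_, ?_⟩
    · rw [M4_mem_P]
      have h10 : (1 : ZMod 3) ≠ 0 := by decide
      have h20 : (2 : ZMod 3) ≠ 0 := by decide
      have h21 : (2 : ZMod 3) ≠ 1 := by decide
      simp only [if_true, h10, h20, h21, if_false]
      exact hs
    · simp
    · have h10 : (1 : ZMod 3) ≠ 0 := by decide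
      simp [h10]
  · have hadj : (M4_G f).Adj (0, i) (1, j) := by
      refine ⟨?_, fun p hp h' => ?_⟩
      · show (0 : ZMod 3) ≠ 1
        decide
      · rw [M4_mem_P] at hp
        have h0 : p 0 = i := h'.1
        have h1 : p 1 = j := h'.2
        rw [h0, h1] at hp
        exact h ⟨_, hp⟩
    rw [← hc] at hadj
    obtain ⟨_, t, ht, h1, h2⟩ := hadj
    obtain ⟨⟨c, s⟩, hu, hc2, _⟩ := clique_part hTri (hT.1 t ht) 2
    have hc2 : c = 2 := hc2
    subst hc2
    have h10 : (1 : ZMod 3) ≠ 0 := by decide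
    have h20 : (2 : ZMod 3) ≠ 0 := by decide
    have h21 : (2 : ZMod 3) ≠ 1 := by decide
    refine ⟨fun a => if a = 0 then i else if a = 1 then j else s, Or.inr ⟨t, ht, ?_⟩, ?_, ?_⟩
    · intro a
      rcases M4_cases a with rfl | rfl | rfl
      · simpa using h1
      · simpa [h10] using h2
      · simpa [h20, h21] using hu
    · simp
    · simp [h10]

theorem p_M4 : S_M4 := by
  intro c hM α hα
  obtain ⟨n0, hn0⟩ := hM α hα
  refine ⟨n0, fun n hn f hf hd => ?_⟩
  have hTri : Tri Prod.fst (M4_G f) := fun u v h => h.1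
  have hBal : Bal Prod.fst (M4_G f) univ := by
    rintro ⟨a, x⟩
    have h1 := M4_dg hf a (a + 1) x (zmod3_ne1 a)
    have h2 := M4_dg hf a (a - 1) x (zmod3_ne2 a)
    rw [imb]
    show ((dg (M4_G f) (a, x) (pt Prod.fst univ (a + 1)) : ℕ) : ℤ)
      - ((dg (M4_G f) (a, x) (pt Prod.fst univ (a - 1)) : ℕ) : ℤ) = 0
    omega
  obtain ⟨T, hT, hc⟩ := hn0 (ZMod 3 × Fin n) Prod.fst (M4_G f) n hn (M4_eq3 n) hTri hBal (by
    rintro ⟨a, x⟩ i hi
    have h1 := M4_dg hf a i x hi
    have h2 := M4_dense hd a x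
    have h3 : ((dg (M4_G f) (a, x) (pt Prod.fst univ i) : ℕ) : ℝ)
        + (((M4_P f).filter (fun p => p a = x)).card : ℝ) = n := by
      exact_mod_cast h1
    linarith)
  choose P hPQ hP0 hP1 using M4_exists hT hc
  refine ⟨fun i j => P i j 2, ?_, ?_, ?_⟩
  · intro i j j' h
    have h02 : (0 : ZMod 3) ≠ 2 := by decide
    have h2 : P i j 2 = P i j' 2 := h
    have := M4_Q_inj hf hT (hPQ i j) (hPQ i j') h02 (by rw [hP0, hP0]) h2
    rw [← hP1 i j, this, hP1]
  · intro j i i' h
    have h12 : (1 : ZMod 3) ≠ 2 := by decide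
    have h2 : P i j 2 = P i' j 2 := h
    have := M4_Q_inj hf hT (hPQ i j) (hPQ i' j) h12 (by rw [hP1, hP1]) h2
    rw [← hP0 i j, this, hP0]
  · intro i j s hs
    have h01 : (0 : ZMod 3) ≠ 1 := by decide
    have h10 : (1 : ZMod 3) ≠ 0 := by decide
    have h20 : (2 : ZMod 3) ≠ 0 := by decide
    have h21 : (2 : ZMod 3) ≠ 1 := by decide
    set q : ZMod 3 → Fin n := fun a => if a = 0 then i else if a = 1 then j else s with hq
    have hq0 : q 0 = i := by simp [hq]
    have hq1 : q 1 = j := by simp [hq, h10]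
    have hq2 : q 2 = s := by simp [hq, h20, h21]
    have hqQ : M4_Q f T q := Or.inl (by rw [M4_mem_P, hq0, hq1, hq2]; exact hs)
    have := M4_Q_inj hf hT (hPQ i j) hqQ h01 (by rw [hP0, hq0]) (by rw [hP1, hq1])
    show P i j 2 = s
    rw [this, hq2]

end DH
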