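import Pool.Agent.Lib.MP_fe8cb7_co.h25.StN

open Finset

namespace DH

private theorem N10_card {V : Type} [Fintype V] (π : V → ZMod 3) (N : ℕ) (h : Eq3 π univ N) :
    Fintype.card V = 3 * N := by
  classical
  have h1 := card_eq_sum_card_fiberwise (f := π) (s := (univ : Finset V)) (t := univ)
    (fun _ _ => mem_coe.2 (mem_univ _))
  rw [← Finset.card_univ, h1]
  have h2 : ∀ i : ZMod 3, (univ.filter (fun v => π v = i)).card = N := fun i => h i
  simp only [h2, sum_const, card_univ, ZMod.card, smul_eq_mul]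

private theorem N10_exp (c x : ℝ) (hc : 0 < c) (hx : 1200 / c ^ 3 < x) :
    200 * x ^ 2 < Real.exp (c * x) := by
  have hx0 : 0 < x := lt_trans (by positivity) hx
  have h1 := Real.pow_div_factorial_le_exp (c * x) (by positivity) 3
  refine lt_of_lt_of_le ?_ h1
  have h2 : ((3).factorial : ℝ) = 6 := by norm_num [Nat.factorial]
  rw [h2, lt_div_iff₀ (by norm_num), mul_pow]
  rw [div_lt_iff₀ (by positivity)] at hx
  have h3 : 0 < x ^ 2 := by positivity
  nlinarith [mul_lt_mul_of_pos_right hx h3]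

/-- the exponents -/
private noncomputable def N10_Φ {V : Type} [Fintype V] [DecidableEq V] (π : V → ZMod 3)
    (H : SimpleGraph V) (W : Finset V → ℝ) (N : ℕ) (θ ρ δ η l1 l2 : ℝ) :
    (V × V × Bool) ⊕ ((V × ZMod 3) ⊕ (V × ZMod 3 × ZMod 3 × Fin 3)) → Finset (Finset V) → ℝ
  | Sum.inl (x, y, true), S => l1 * N *
      (DS H W x y S - (ρ ^ 2 * Real.exp (-2 * θ) + (1 + 5 * θ) * η + δ))
  | Sum.inl (x, y, false), S => l1 * N *
      ((ρ ^ 2 * Real.exp (-2 * θ) - (1 + 5 * θ) * η - δ) - DS H W x y S)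
  | Sum.inr (Sum.inl (v, i)), S => l2 *
      (dS π H v i S - (Real.exp (-(7 * θ / 8)) * dg H v (pt π univ i) + δ * N))
  | Sum.inr (Sum.inr (v, i, _, 0)), S => B1 π H v i S - 3 * θ ^ 2 * N
  | Sum.inr (Sum.inr (v, _, k, 1)), S => B2 π H v k S - 19 / 2 * θ ^ 2 * N
  | Sum.inr (Sum.inr (v, i, k, 2)), S => B3 π H v i k S - 3 * θ ^ 2 * N

/-- the relevant indices -/
private def N10_R {V : Type} (π : V → ZMod 3) (H : SimpleGraph V) :
    (V × V × Bool) ⊕ ((V × ZMod 3) ⊕ (V × ZMod 3 × ZMod 3 × Fin 3)) → Prop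
  | Sum.inl (x, y, _) => H.Adj x y
  | Sum.inr (Sum.inl (v, i)) => i ≠ π v
  | Sum.inr (Sum.inr (v, i, k, _)) => i ≠ π v ∧ k ≠ π v ∧ i ≠ k

theorem p_N10 : S_N10 := by
  classical
  intro hN4 hN8a hN8b hN8c hN9 hN2 hN3 hN5 hN6 hN7 hN8m C0 θ ρ δ hC hθ hθ1 hρ hρ1 hδ
  obtain ⟨l1, hl1, c1, hc1, N1, h1⟩ := hN8a hN3 hN5 hN7 hN8m C0 θ ρ δ hC hθ hθ1 hρ hρ1 hδ
  obtain ⟨l2, hl2, c2, hc2, N2, h2⟩ := hN8b hN3 hN5 hN7 C0 θ ρ δ hC hθ hθ1 hρ hρ1 hδ
  obtain ⟨N3, h3⟩ := hN8c hN2 hN6 hN7 C0 θ ρ hC hθ hθ1 hρ hρ1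
  set c : ℝ := min (min c1 c2) (θ ^ 2 / 4) with hc
  have hcpos : 0 < c := lt_min (lt_min hc1 hc2) (by positivity)
  refine ⟨max (max N1 N2) (max N3 (max (⌈θ * C0 / ρ ^ 2⌉₊ + 1) (⌈1200 / c ^ 3⌉₊ + 1))), ?_⟩
  intro V _ _ π H W N η hN hB
  have hNN1 : N1 ≤ N := le_trans (le_trans (le_max_left _ _) (le_max_left _ _)) hN
  have hNN2 : N2 ≤ N := le_trans (le_trans (le_max_right _ _) (le_max_left _ _)) hN
  have hNN3 : N3 ≤ N := le_trans (le_trans (le_max_left _ _) (le_max_right _ _)) hN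
  have hNN4 : ⌈θ * C0 / ρ ^ 2⌉₊ + 1 ≤ N :=
    le_trans (le_trans (le_trans (le_max_left _ _) (le_max_right _ _)) (le_max_right _ _)) hN
  have hNN5 : ⌈1200 / c ^ 3⌉₊ + 1 ≤ N :=
    le_trans (le_trans (le_trans (le_max_right _ _) (le_max_right _ _)) (le_max_right _ _)) hN
  have hNpos : (0 : ℝ) < N := by
    have : 0 < N := by omega
    exact_mod_cast this
  have hN1' : (1 : ℝ) ≤ N := by
    have : 1 ≤ N := by omega
    exact_mod_cast this
  have hp : ∀ t ∈ triSet H, 0 ≤ θ * W t / ρ ^ 2 ∧ θ * W t / ρ ^ 2 ≤ 1 := by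
    intro t _
    have hw0 := hB.W0 t
    refine ⟨by positivity, ?_⟩
    have hw1 := hB.W1 t
    have hle : θ * C0 / ρ ^ 2 ≤ N := by
      refine le_trans (Nat.le_ceil _) ?_
      exact_mod_cast (by omega : ⌈θ * C0 / ρ ^ 2⌉₊ ≤ N)
    rw [div_le_one (by positivity)]
    rw [div_le_iff₀ (by positivity)] at hle
    rw [le_div_iff₀ hNpos] at hw1
    have h5 : θ * (W t * N) ≤ θ * C0 := mul_le_mul_of_nonneg_left hw1 hθ.le
    by_contra hcon
    push Not at hcon
    have h6 : ρ ^ 2 * N < θ * W t * N := mul_lt_mul_of_pos_right hcon hNpos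
    nlinarith
  have hexp : 200 * (N : ℝ) ^ 2 < Real.exp (c * N) := by
    refine N10_exp c N hcpos ?_
    refine lt_of_le_of_lt (Nat.le_ceil _) ?_
    exact_mod_cast (by omega : ⌈1200 / c ^ 3⌉₊ < N)
  have hcard : Fintype.card V = 3 * N := N10_card π N hB.sz
  obtain ⟨S, hS, hΦ⟩ := hN4 (Finset V)
    ((V × V × Bool) ⊕ ((V × ZMod 3) ⊕ (V × ZMod 3 × ZMod 3 × Fin 3))) (triSet H)
    (fun t => θ * W t / ρ ^ 2) (univ.filter (N10_R π H)) (N10_Φ π H W N θ ρ δ η l1 l2) (c * N) hp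
    (by
      intro i hi
      have hi2 := (mem_filter.1 hi).2
      have hm1 : Real.exp (-(c1 * N)) ≤ Real.exp (-(c * N)) := by
        apply Real.exp_le_exp.2
        have : c ≤ c1 := le_trans (min_le_left _ _) (min_le_left _ _)
        nlinarith
      have hm2 : Real.exp (-(c2 * N)) ≤ Real.exp (-(c * N)) := by
        apply Real.exp_le_exp.2
        have : c ≤ c2 := le_trans (min_le_left _ _) (min_le_right _ _)
        nlinarith
      have hm3 : Real.exp (-(θ ^ 2 / 4 * N)) ≤ Real.exp (-(c * N)) := by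
        apply Real.exp_le_exp.2
        have : c ≤ θ ^ 2 / 4 := min_le_right _ _
        nlinarith
      match i with
      | Sum.inl (x, y, true) => exact ((h1 V π H W N η hNN1 hB x y hi2).1).trans hm1
      | Sum.inl (x, y, false) => exact ((h1 V π H W N η hNN1 hB x y hi2).2).trans hm1
      | Sum.inr (Sum.inl (v, i)) => exact (h2 V π H W N η hNN2 hB v i hi2).trans hm2
      | Sum.inr (Sum.inr (v, i, k, 0)) =>
        exact ((h3 V π H W N η hNN3 hB v i k hi2.1 hi2.2.1 hi2.2.2).1).trans hm3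
      | Sum.inr (Sum.inr (v, i, k, 1)) =>
        exact ((h3 V π H W N η hNN3 hB v i k hi2.1 hi2.2.1 hi2.2.2).2.1).trans hm3
      | Sum.inr (Sum.inr (v, i, k, 2)) =>
        exact ((h3 V π H W N η hNN3 hB v i k hi2.1 hi2.2.1 hi2.2.2).2.2).trans hm3)
    (by
      refine lt_of_le_of_lt ?_ hexp
      have hle : ((univ.filter (N10_R π H)).card : ℝ) ≤
          (Fintype.card ((V × V × Bool) ⊕ ((V × ZMod 3) ⊕ (V × ZMod 3 × ZMod 3 × Fin 3))) : ℝ) := by
        exact_mod_cast card_le_univ _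
      refine hle.trans ?_
      have h7 : Fintype.card ((V × V × Bool) ⊕ ((V × ZMod 3) ⊕ (V × ZMod 3 × ZMod 3 × Fin 3)))
          = 3 * N * (3 * N * 2) + (3 * N * 3 + 3 * N * (3 * (3 * 3))) := by
        simp only [Fintype.card_sum, Fintype.card_prod, hcard, ZMod.card, Fintype.card_bool,
          Fintype.card_fin]
      rw [h7]
      push_cast
      nlinarith)
  have hmem : ∀ j, N10_R π H j → N10_Φ π H W N θ ρ δ η l1 l2 j S < 0 :=
    fun j hj => hΦ j (mem_filter.2 ⟨mem_univ _, hj⟩)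
  obtain ⟨Q, H', hQ, hH', hA, hd, hw⟩ := hN9 V π H W S hB.tri hS
  have hH'H : H' ≤ H := hH'.trans sdiff_le
  refine ⟨Q, H', hQ, hH', ?_, ?_, ?_⟩
  · intro x y hxy
    rw [hA x y hxy]
    have e1 := hmem (Sum.inl (x, y, true)) (hH'H hxy)
    have e2 := hmem (Sum.inl (x, y, false)) (hH'H hxy)
    simp only [N10_Φ] at e1 e2
    have hpos : 0 < l1 * N := by positivity
    have e1' := (neg_of_mul_neg_right e1 hpos.le)
    have e2' := (neg_of_mul_neg_right e2 hpos.le)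
    rw [abs_le]
    constructor <;> linarith
  · intro v i
    rw [hd v i]
    by_cases hi : i = π v
    · have h0 : dS π H v i S = 0 := by
        have := hd v i
        rw [hi, dg_own (hB.tri.mono hH'H) v] at this
        rw [hi, ← this]
        simp
      rw [h0]
      positivity
    · have e1 := hmem (Sum.inr (Sum.inl (v, i))) hi
      simp only [N10_Φ] at e1
      have e1' := (neg_of_mul_neg_right e1 hl2.le)
      linarith
  · intro v i
    by_cases hi : i = π v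
    · have h0 : dg ((H \ cov Q) \ H') v (pt π univ i) = 0 := by
        rw [hi]
        exact dg_own (hB.tri.mono (sdiff_le.trans sdiff_le)) v
      rw [h0]
      push_cast
      positivity
    · have key : ∀ a b : ZMod 3, ∃ k : ZMod 3, k ≠ a ∧ b ≠ k := by decide
      obtain ⟨k, hk1, hk2⟩ := key (π v) i
      have e1 := hmem (Sum.inr (Sum.inr (v, i, k, 0))) ⟨hi, hk1, hk2⟩
      have e2 := hmem (Sum.inr (Sum.inr (v, i, k, 1))) ⟨hi, hk1, hk2⟩
      have e3 := hmem (Sum.inr (Sum.inr (v, i, k, 2))) ⟨hi, hk1, hk2⟩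
      simp only [N10_Φ] at e1 e2 e3
      have := hw v i k hi hk1 hk2
      have h9 : 0 < θ ^ 2 * N := by positivity
      nlinarith

end DH
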