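import Pool.Agent.Lib.MP_fe8cb7_co.h25.StN

open Finset

namespace DH

private theorem N11_claim (hBite : S_Bite) (C0 θ : ℝ) (hC : 0 < C0) (hθ : 0 < θ)
    (hθ1 : θ ≤ 1 / 8) (j : ℕ) : ∀ δ : ℝ, 0 < δ → ∃ N0 : ℕ,
    ∀ (V : Type) [Fintype V] [DecidableEq V] (π : V → ZMod 3) (G : SimpleGraph V)
      (W : Finset V → ℝ) (N : ℕ),
    N0 ≤ N → Eq3 π univ N → Tri π G → (∀ t, 0 ≤ W t) → (∀ t, W t ≤ C0 / N) →
    (∀ x y : V, G.Adj x y → ∑ z ∈ cn G x y, W {x, y, z} = 1) →
    ∃ (P : Finset (Finset V)) (H : SimpleGraph V), Pack G P ∧ H ≤ G \ cov P ∧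
      (∀ x y : V, H.Adj x y → |∑ z ∈ cn H x y, W {x, y, z} - Real.exp (-2 * j * θ)| ≤ δ) ∧
      (∀ (v : V) (i : ZMod 3), (dg H v (pt π univ i) : ℝ)
        ≤ (Real.exp (-(7 * j * θ / 8)) + δ) * N) ∧
      (∀ (v : V) (i : ZMod 3), (dg ((G \ cov P) \ H) v (pt π univ i) : ℝ)
        ≤ 16 * θ ^ 2 * j * N) := by
  induction j with
  | zero =>
    intro δ hδ
    refine ⟨0, ?_⟩
    intro V _ _ π G W N _ hE _ _ _ hD
    refine ⟨∅, G, Pack.empty, ?_, ?_, ?_, ?_⟩
    · rw [cov_empty, sdiff_bot]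
    · intro x y hxy
      rw [hD x y hxy]
      simp [hδ.le]
    · intro v i
      have h1 : dg G v (pt π univ i) ≤ N := by
        refine (dg_le_card v).trans ?_
        rw [hE i]
      have h2 : (dg G v (pt π univ i) : ℝ) ≤ N := by exact_mod_cast h1
      have h3 : (0 : ℝ) ≤ N := Nat.cast_nonneg _
      have h4 : 0 ≤ δ * N := by positivity
      simp only [CharP.cast_eq_zero, mul_zero, zero_mul, zero_div, neg_zero, Real.exp_zero]
      nlinarith
    · intro v i
      have h0 : dg ((G \ cov ∅) \ G) v (pt π univ i) = 0 := by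
        rw [dg, card_eq_zero, eq_empty_iff_forall_notMem]
        intro w hw
        have := (mem_nb.1 hw).2
        rw [SimpleGraph.sdiff_adj, SimpleGraph.sdiff_adj] at this
        exact this.2 this.1.1
      rw [h0]
      simp
  | succ j ih =>
    intro δ hδ
    set ρ : ℝ := Real.exp (-(j * θ)) with hρdef
    have hρ : 0 < ρ := Real.exp_pos _
    have hρ1 : ρ ≤ 1 := by
      rw [hρdef]
      apply Real.exp_le_one_iff.2
      have : (0 : ℝ) ≤ j * θ := by positivity
      linarith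
    have hρ2 : ρ ^ 2 = Real.exp (-2 * j * θ) := by
      rw [hρdef, ← Real.exp_nat_mul]
      congr 1
      push_cast
      ring
    set δ' : ℝ := min (δ / 4) (ρ ^ 2 / 8) with hδ'
    have hδ'0 : 0 < δ' := lt_min (by positivity) (by positivity)
    have hδ'1 : δ' ≤ δ / 4 := min_le_left _ _
    have hδ'2 : δ' ≤ ρ ^ 2 / 8 := min_le_right _ _
    obtain ⟨N1, h1⟩ := ih δ' hδ'0
    obtain ⟨N2, h2⟩ := hBite C0 θ ρ (δ / 2) hC hθ hθ1 hρ hρ1 (by positivity)
    refine ⟨max N1 N2, ?_⟩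
    intro V _ _ π G W N hN hE hT hW0 hW1 hD
    obtain ⟨P, H, hP, hH, hi, hii, hiii⟩ :=
      h1 V π G W N ((le_max_left _ _).trans hN) hE hT hW0 hW1 hD
    have hHG : H ≤ G := hH.trans sdiff_le
    have hBH : BiteHyp π H W N C0 θ ρ δ' :=
      { sz := hE
        tri := hT.mono hHG
        W0 := hW0
        W1 := hW1
        hC := hC
        hθ := hθ
        hθ1 := hθ1
        hρ := hρ
        hρ1 := hρ1
        hη := hδ'0.le
        hη1 := hδ'2
        hD := fun x y hxy => by rw [hρ2]; exact hi x y hxy }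
    obtain ⟨Q, H', hQ, hH', ki, kii, kiii⟩ :=
      h2 V π H W N δ' ((le_max_right _ _).trans hN) hBH
    have hN0 : (0 : ℝ) ≤ N := Nat.cast_nonneg _
    refine ⟨P ∪ Q, H', hP.union_sdiff (hQ.mono hH), ?_, ?_, ?_, ?_⟩
    · intro x y hxy
      have k1 := hH' hxy
      rw [SimpleGraph.sdiff_adj] at k1
      have k2 := hH k1.1
      rw [SimpleGraph.sdiff_adj] at k2
      rw [SimpleGraph.sdiff_adj, cov_union, SimpleGraph.sup_adj]
      exact ⟨k2.1, fun h => h.elim k2.2 k1.2⟩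
    · intro x y hxy
      have k1 := ki x y hxy
      have k2 : ρ ^ 2 * Real.exp (-2 * θ) = Real.exp (-2 * ((j + 1 : ℕ) : ℝ) * θ) := by
        rw [hρ2, ← Real.exp_add]
        congr 1
        push_cast
        ring
      rw [k2] at k1
      refine k1.trans ?_
      nlinarith
    · intro v i
      have k1 := kii v i
      have k2 := hii v i
      have k3 : Real.exp (-(7 * θ / 8)) ≤ 1 := by
        apply Real.exp_le_one_iff.2
        linarith
      have k4 : 0 < Real.exp (-(7 * θ / 8)) := Real.exp_pos _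
      have k5 : Real.exp (-(7 * ((j + 1 : ℕ) : ℝ) * θ / 8)) =
          Real.exp (-(7 * θ / 8)) * Real.exp (-(7 * j * θ / 8)) := by
        rw [← Real.exp_add]
        congr 1
        push_cast
        ring
      rw [k5]
      have k6 : Real.exp (-(7 * θ / 8)) * dg H v (pt π univ i) ≤
          Real.exp (-(7 * θ / 8)) * ((Real.exp (-(7 * j * θ / 8)) + δ') * N) :=
        mul_le_mul_of_nonneg_left k2 k4.le
      have k7 : Real.exp (-(7 * θ / 8)) * (δ' * N) ≤ 1 * (δ' * N) :=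
        mul_le_mul_of_nonneg_right k3 (by positivity)
      have k8 : δ' * N ≤ δ / 4 * N := mul_le_mul_of_nonneg_right hδ'1 hN0
      have k9 : 0 ≤ δ * N := by positivity
      nlinarith
    · intro v i
      have k0 : (G \ cov (P ∪ Q)) \ H' ≤ ((G \ cov P) \ H) ⊔ ((H \ cov Q) \ H') := by
        intro x y hxy
        rw [SimpleGraph.sdiff_adj, SimpleGraph.sdiff_adj, cov_union, SimpleGraph.sup_adj] at hxy
        rw [SimpleGraph.sup_adj, SimpleGraph.sdiff_adj, SimpleGraph.sdiff_adj,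
          SimpleGraph.sdiff_adj, SimpleGraph.sdiff_adj]
        tauto
      have k1 : dg ((G \ cov (P ∪ Q)) \ H') v (pt π univ i) ≤
          dg ((G \ cov P) \ H) v (pt π univ i) + dg ((H \ cov Q) \ H') v (pt π univ i) :=
        (dg_mono k0 v).trans (dg_sup_le v)
      have k2 : (dg ((G \ cov (P ∪ Q)) \ H') v (pt π univ i) : ℝ) ≤
          dg ((G \ cov P) \ H) v (pt π univ i) + dg ((H \ cov Q) \ H') v (pt π univ i) := by
        exact_mod_cast k1
      have k3 := hiii v i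
      have k4 := kiii v i
      push_cast
      nlinarith

theorem p_N11 : S_N11 := by
  intro hBite C0 hC γ0 hγ0
  set γ : ℝ := min γ0 1 with hγdef
  have hγ : 0 < γ := lt_min hγ0 one_pos
  have hγ1 : γ ≤ 1 := min_le_right _ _
  have hγ2 : γ ≤ γ0 := min_le_left _ _
  set L : ℝ := Real.log (8 / γ) + 1 with hL
  have hlog : 0 ≤ Real.log (8 / γ) := by
    apply Real.log_nonneg
    rw [le_div_iff₀ hγ]
    linarith
  have hL1 : 1 ≤ L := by linarith
  set θ : ℝ := min (1 / 8) (γ / (32 * (2 * L + 1))) with hθdef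
  have hθ : 0 < θ := lt_min (by norm_num) (by positivity)
  have hθ1 : θ ≤ 1 / 8 := min_le_left _ _
  have hθ2 : 16 * θ * (2 * L + 1) ≤ γ / 2 := by
    have h1 : θ ≤ γ / (32 * (2 * L + 1)) := min_le_right _ _
    rw [le_div_iff₀ (by positivity)] at h1
    linarith
  set j : ℕ := ⌈2 * L / θ⌉₊ with hj
  have hj1 : 2 * L ≤ j * θ := by
    have h1 : 2 * L / θ ≤ j := Nat.le_ceil _
    rwa [div_le_iff₀ hθ] at h1
  have hj2 : j * θ ≤ 2 * L + 1 := by
    have h1 : (j : ℝ) < 2 * L / θ + 1 := Nat.ceil_lt_add_one (by positivity)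
    have h2 : j * θ ≤ (2 * L / θ + 1) * θ := mul_le_mul_of_nonneg_right h1.le hθ.le
    have h3 : (2 * L / θ + 1) * θ = 2 * L + θ := by
      field_simp
    linarith
  obtain ⟨N0, h0⟩ := N11_claim hBite C0 θ hC hθ hθ1 j (γ / 8) (by positivity)
  refine ⟨N0, ?_⟩
  intro V _ _ π G W N hN hE hT hW0 hW1 hD
  obtain ⟨P, H, hP, hH, _, hii, hiii⟩ := h0 V π G W N hN hE hT hW0 hW1 hD
  refine ⟨P, hP, ?_⟩
  intro v i
  have k0 : G \ cov P ≤ H ⊔ ((G \ cov P) \ H) := by
    intro x y hxy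
    rw [SimpleGraph.sup_adj, SimpleGraph.sdiff_adj (G \ cov P) H]
    by_cases h : H.Adj x y
    · exact Or.inl h
    · exact Or.inr ⟨hxy, h⟩
  have k1 : dg (G \ cov P) v (pt π univ i) ≤
      dg H v (pt π univ i) + dg ((G \ cov P) \ H) v (pt π univ i) :=
    (dg_mono k0 v).trans (dg_sup_le v)
  have k2 : (dg (G \ cov P) v (pt π univ i) : ℝ) ≤
      dg H v (pt π univ i) + dg ((G \ cov P) \ H) v (pt π univ i) := by
    exact_mod_cast k1
  have k3 := hii v i
  have k4 := hiii v i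
  have hN0 : (0 : ℝ) ≤ N := Nat.cast_nonneg _
  have k5 : Real.exp (-(7 * j * θ / 8)) ≤ γ / 8 := by
    have h1 : Real.exp (-(7 * j * θ / 8)) ≤ Real.exp (-Real.log (8 / γ)) := by
      apply Real.exp_le_exp.2
      nlinarith
    have h2 : Real.exp (-Real.log (8 / γ)) = γ / 8 := by
      rw [Real.exp_neg, Real.exp_log (by positivity), inv_div]
    rwa [h2] at h1
  have k6 : (Real.exp (-(7 * j * θ / 8)) + γ / 8) * N ≤ (γ / 8 + γ / 8) * N :=
    mul_le_mul_of_nonneg_right (by linarith) hN0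
  have k7 : 16 * θ ^ 2 * j * N ≤ γ / 2 * N := by
    apply mul_le_mul_of_nonneg_right _ hN0
    have h1 : 16 * θ * (j * θ) ≤ 16 * θ * (2 * L + 1) :=
      mul_le_mul_of_nonneg_left hj2 (by positivity)
    nlinarith
  have k8 : γ * N ≤ γ0 * N := mul_le_mul_of_nonneg_right hγ2 hN0
  have k9 : 0 ≤ γ * N := by positivity
  nlinarith

end DH
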