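import Pool.Agent.Lib.MP_fe8cb7_co.h25.StN

/-!
# Daykin-Haggkvist problem: piece N3 (exponential moment of a sum over disjoint blocks)
-/

open Finset

namespace DH

/-- one block -/
private theorem N3_block {τ : Type} [DecidableEq τ] {B : Finset τ} {p : τ → ℝ}
    {Y : Finset τ → ℝ} {M l : ℝ} (hp : ∀ t ∈ B, 0 ≤ p t ∧ p t ≤ 1)
    (hY : ∀ S ⊆ B, 0 ≤ Y S ∧ Y S ≤ M) (hl : |l| * M ≤ 1) :
    Ex B p (fun S => Real.exp (l * (Y S - Ex B p Y))) ≤ Real.exp ((l * M) ^ 2) := by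
  have hE0 : 0 ≤ Ex B p Y := Ex_nonneg hp fun S hS => (hY S hS).1
  have hEM : Ex B p Y ≤ M := by
    have := Ex_mono hp (F := Y) (F' := fun _ => M) fun S hS => (hY S hS).2
    rwa [Ex_const] at this
  set E := Ex B p Y with hE
  have h1 : ∀ S ⊆ B, Real.exp (l * (Y S - E)) ≤ (1 + (l * M) ^ 2) + l * (Y S - E) := by
    intro S hS
    obtain ⟨h0, hM⟩ := hY S hS
    have hz : |Y S - E| ≤ M := abs_le.2 ⟨by linarith, by linarith⟩
    have hz2 : |l * (Y S - E)| ≤ |l| * M := by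
      rw [abs_mul]
      exact mul_le_mul_of_nonneg_left hz (abs_nonneg l)
    have h2 := Real.abs_exp_sub_one_sub_id_le (hz2.trans hl)
    have h3 := (abs_le.1 h2).2
    have h4 : (l * (Y S - E)) ^ 2 ≤ (l * M) ^ 2 := by
      have e1 : (l * (Y S - E)) ^ 2 = |l * (Y S - E)| ^ 2 := (sq_abs _).symm
      have e2 : (l * M) ^ 2 = (|l| * M) ^ 2 := by
        rw [mul_pow, mul_pow, sq_abs]
      rw [e1, e2]
      exact pow_le_pow_left₀ (abs_nonneg _) hz2 2
    linarith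
  calc Ex B p (fun S => Real.exp (l * (Y S - E)))
      ≤ Ex B p (fun S => (1 + (l * M) ^ 2) + l * (Y S - E)) := Ex_mono hp h1
    _ = (1 + (l * M) ^ 2) + l * (Ex B p Y - E) := by
        rw [Ex_add (fun _ => 1 + (l * M) ^ 2) (fun S => l * (Y S - E)), Ex_const,
          Ex_mul l (fun S => Y S - E), Ex_sub Y (fun _ => E), Ex_const]
    _ = (l * M) ^ 2 + 1 := by
        rw [← hE]
        ring
    _ ≤ Real.exp ((l * M) ^ 2) := Real.add_one_le_exp _

/-- [N3] from [N2] -/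
theorem p_N3 (h2 : S_N2) : S_N3 := by
  intro τ ι _ _ X p I B Y M l hp hB hdisj hY hl
  have e1 : (fun S : Finset τ => Real.exp (l * ∑ k ∈ I, (Y k (S ∩ B k) - Ex (B k) p (Y k))))
      = fun S => ∏ k ∈ I, (fun k S' => Real.exp (l * (Y k S' - Ex (B k) p (Y k)))) k (S ∩ B k) := by
    funext S
    rw [mul_sum, Real.exp_sum]
  rw [e1, h2 τ ι X p I B (fun k S' => Real.exp (l * (Y k S' - Ex (B k) p (Y k)))) hB hdisj]
  calc ∏ k ∈ I, Ex (B k) p (fun S' => Real.exp (l * (Y k S' - Ex (B k) p (Y k))))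
      ≤ ∏ _k ∈ I, Real.exp ((l * M) ^ 2) := by
        refine prod_le_prod (fun k hk => ?_) fun k hk => ?_
        · exact Ex_nonneg (fun t ht => hp t (hB k hk ht)) fun S _ => (Real.exp_pos _).le
        · exact N3_block (fun t ht => hp t (hB k hk ht)) (hY k hk) hl
    _ = Real.exp ((I.card : ℝ) * (l * M) ^ 2) := by
        rw [prod_const, Real.exp_nat_mul]

end DH
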