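import Pool.Agent.Lib.MP_fe8cb7_co.h25.StN

open Finset

namespace DH

theorem p_N4 : S_N4 := by
  intro τ ι _ X p I Φ L hp h hI
  have h1 : Ex X p (fun S => ∑ i ∈ I, Real.exp (Φ i S)) < 1 := by
    rw [Ex_sum I (fun i S => Real.exp (Φ i S))]
    refine lt_of_le_of_lt (sum_le_sum h) ?_
    rw [sum_const, nsmul_eq_mul, Real.exp_neg]
    rw [mul_inv_lt_iff₀ (Real.exp_pos L)]
    linarith
  obtain ⟨S, hS, h2⟩ := Ex_exists hp h1
  refine ⟨S, hS, fun i hi => ?_⟩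
  have h3 : Real.exp (Φ i S) ≤ ∑ i ∈ I, Real.exp (Φ i S) :=
    single_le_sum (f := fun i => Real.exp (Φ i S)) (fun j _ => (Real.exp_pos _).le) hi
  have h4 : Real.exp (Φ i S) < 1 := lt_of_le_of_lt h3 h2
  exact Real.exp_lt_one_iff.1 h4

end DH
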