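import Pool.Agent.Lib.MP_fe8cb7_co.h25.StN

/-!
# [N5]: the probability that a random subset of a block is empty
-/

open Finset

namespace DH

private theorem N5_exp_le {x κ : ℝ} (hx : 0 ≤ x) (hxk : x ≤ κ) (hk : κ ≤ 1 / 2) :
    Real.exp (-((1 + κ) * x)) ≤ 1 - x := by
  have hx2 : x ≤ 1 / 2 := hxk.trans hk
  have h1 : Real.exp (-((1 + κ) * x)) ≤ Real.exp (-(x + x ^ 2)) := by
    apply Real.exp_le_exp.2
    nlinarith
  refine h1.trans ?_
  have hy : 0 ≤ x + x ^ 2 := by positivity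
  have h2 := Real.quadratic_le_exp_of_nonneg hy
  have h3 : 1 ≤ (1 - x) * Real.exp (x + x ^ 2) := by
    have h4 : (1 - x) * (1 + (x + x ^ 2) + (x + x ^ 2) ^ 2 / 2) ≤
        (1 - x) * Real.exp (x + x ^ 2) := mul_le_mul_of_nonneg_left h2 (by linarith)
    refine le_trans ?_ h4
    have h5 : 0 ≤ 1 - x - x ^ 2 - x ^ 3 := by nlinarith [mul_nonneg hx hx, mul_nonneg (mul_nonneg hx hx) hx, pow_le_pow_left₀ hx hx2 2, pow_le_pow_left₀ hx hx2 3]
    have h6 : 0 ≤ x ^ 2 * (1 - x - x ^ 2 - x ^ 3) := mul_nonneg (by positivity) h5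
    nlinarith
  rw [Real.exp_neg]
  have hpos := Real.exp_pos (x + x ^ 2)
  rw [inv_le_iff_one_le_mul₀ hpos]
  exact h3

theorem p_N5 : S_N5 := by
  intro τ _ B p κ hp hk
  refine ⟨?_, ?_, ?_⟩
  · unfold Ex
    rw [sum_eq_single ∅]
    · simp
    · intro S _ hS
      simp [hS]
    · intro h
      exact absurd (empty_mem_powerset B) h
  · rw [mul_sum, ← sum_neg_distrib, Real.exp_sum]
    exact prod_le_prod (fun t _ => (Real.exp_pos _).le)
      (fun t ht => N5_exp_le (hp t ht).1 (hp t ht).2 hk)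
  · rw [← sum_neg_distrib, Real.exp_sum]
    refine prod_le_prod (fun t ht => ?_) (fun t _ => ?_)
    · have := (hp t ht).2
      linarith
    · have := Real.add_one_le_exp (-p t)
      linarith

end DH
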