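import Pool.Agent.Lib.MP_fe8cb7_co.h25.StN

/-!
Daykin-Haggkvist problem, piece N6 (helper96).
-/

open Finset

namespace DH

variable {τ : Type} [DecidableEq τ]

private theorem N6_prod (B : Finset τ) (p f : τ → ℝ) :
    Ex B p (fun S => ∏ t ∈ S, f t) = ∏ t ∈ B, (1 + (f t - 1) * p t) := by
  have h := prod_add (fun t => p t * f t) (fun t => 1 - p t) B
  have h2 : ∏ t ∈ B, (1 + (f t - 1) * p t) = ∏ t ∈ B, (p t * f t + (1 - p t)) :=
    prod_congr rfl fun t _ => by ring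
  rw [h2, h, Ex]
  refine sum_congr rfl fun S _ => ?_
  rw [prod_mul_distrib]
  ring

private theorem N6_notmem (B : Finset τ) (p : τ → ℝ) (t0 : τ) (h0 : t0 ∈ B) :
    Ex B p (fun S => if t0 ∈ S then (0 : ℝ) else 1) = 1 - p t0 := by
  have h := N6_prod B p (fun t => if t = t0 then 0 else 1)
  have h1 : (fun S : Finset τ => ∏ t ∈ S, (if t = t0 then (0 : ℝ) else 1)) =
      fun S => if t0 ∈ S then (0 : ℝ) else 1 := by
    funext S
    by_cases hS : t0 ∈ S
    · rw [if_pos hS]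
      exact prod_eq_zero hS (by simp)
    · rw [if_neg hS]
      refine prod_eq_one fun t ht => if_neg ?_
      rintro rfl
      exact hS ht
  rw [h1] at h
  rw [h, prod_eq_single_of_mem t0 h0]
  · simp; ring
  · intro t _ hne
    simp [hne]

private theorem N6_mem (B : Finset τ) (p : τ → ℝ) (t0 : τ) (h0 : t0 ∈ B) :
    Ex B p (fun S => if t0 ∈ S then (1 : ℝ) else 0) = p t0 := by
  have h := Ex_sub (X := B) (p := p) (fun _ => 1) (fun S => if t0 ∈ S then (0 : ℝ) else 1)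
  rw [N6_notmem B p t0 h0, Ex_one] at h
  rw [show p t0 = 1 - (1 - p t0) by ring, ← h]
  refine Ex_congr fun S _ => ?_
  split_ifs <;> norm_num

private theorem N6_notmem2 (B : Finset τ) (p : τ → ℝ) (t0 t1 : τ) (h0 : t0 ∈ B) (h1 : t1 ∈ B)
    (hne : t1 ≠ t0) :
    Ex B p (fun S => if t0 ∈ S ∨ t1 ∈ S then (0 : ℝ) else 1) = (1 - p t0) * (1 - p t1) := by
  have h := N6_prod B p (fun t => if t = t0 ∨ t = t1 then 0 else 1)
  have h2 : (fun S : Finset τ => ∏ t ∈ S, (if t = t0 ∨ t = t1 then (0 : ℝ) else 1)) =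
      fun S => if t0 ∈ S ∨ t1 ∈ S then (0 : ℝ) else 1 := by
    funext S
    by_cases hS : t0 ∈ S ∨ t1 ∈ S
    · rw [if_pos hS]
      rcases hS with hS | hS
      · exact prod_eq_zero hS (by simp)
      · exact prod_eq_zero hS (by simp)
    · rw [if_neg hS]
      refine prod_eq_one fun t ht => if_neg ?_
      rintro (rfl | rfl)
      · exact hS (Or.inl ht)
      · exact hS (Or.inr ht)
  rw [h2] at h
  rw [h]
  have h3 : ∏ t ∈ B, (1 + ((if t = t0 ∨ t = t1 then (0 : ℝ) else 1) - 1) * p t) =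
      ∏ t ∈ ({t0, t1} : Finset τ), (1 + ((if t = t0 ∨ t = t1 then (0 : ℝ) else 1) - 1) * p t) := by
    symm
    apply prod_subset
    · intro t ht
      rcases mem_insert.1 ht with rfl | ht
      · exact h0
      · rw [mem_singleton.1 ht]; exact h1
    · intro t _ ht
      rw [mem_insert, mem_singleton] at ht
      simp [ht]
  rw [h3, prod_insert (by simpa using hne.symm), prod_singleton]
  simp
  ring

private theorem N6_mem2 (B : Finset τ) (p : τ → ℝ) (t0 t1 : τ) (h0 : t0 ∈ B) (h1 : t1 ∈ B)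
    (hne : t1 ≠ t0) :
    Ex B p (fun S => if t0 ∈ S ∧ t1 ∈ S then (1 : ℝ) else 0) = p t0 * p t1 := by
  have e : Ex B p (fun S => if t0 ∈ S ∧ t1 ∈ S then (1 : ℝ) else 0) =
      Ex B p (fun S => (1 - (if t0 ∈ S then (0 : ℝ) else 1)) + ((if t0 ∈ S ∨ t1 ∈ S then (0 : ℝ)
        else 1) - (if t1 ∈ S then (0 : ℝ) else 1))) := by
    refine Ex_congr fun S _ => ?_
    by_cases ha : t0 ∈ S <;> by_cases hb : t1 ∈ S <;> simp [ha, hb]
  rw [e, Ex_add (fun S => 1 - (if t0 ∈ S then (0 : ℝ) else 1))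
    (fun S => ((if t0 ∈ S ∨ t1 ∈ S then (0 : ℝ) else 1) - (if t1 ∈ S then (0 : ℝ) else 1))),
    Ex_sub (fun _ => 1) (fun S => if t0 ∈ S then (0 : ℝ) else 1), Ex_sub, Ex_one,
    N6_notmem B p t0 h0, N6_notmem B p t1 h1, N6_notmem2 B p t0 t1 h0 h1 hne]
  ring

private theorem N6_card (B : Finset τ) (p : τ → ℝ) :
    Ex B p (fun S => (S.card : ℝ)) = ∑ t ∈ B, p t := by
  have e : Ex B p (fun S => (S.card : ℝ)) =
      Ex B p (fun S => ∑ t ∈ B, if t ∈ S then (1 : ℝ) else 0) := by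
    refine Ex_congr fun S hS => ?_
    rw [sum_boole]
    congr 1
    rw [filter_mem_eq_inter, inter_eq_right.2 hS]
  rw [e, Ex_sum B (fun t S => if t ∈ S then (1 : ℝ) else 0)]
  exact sum_congr rfl fun t ht => N6_mem B p t ht

private theorem N6_exp (B : Finset τ) (p : τ → ℝ) (hp : ∀ t ∈ B, 0 ≤ p t ∧ p t ≤ 1) :
    Ex B p (fun S => Real.exp (S.card : ℝ)) ≤ Real.exp ((Real.exp 1 - 1) * ∑ t ∈ B, p t) := by
  have h := N6_prod B p (fun _ => Real.exp 1)
  have e : (fun S : Finset τ => ∏ _t ∈ S, Real.exp 1) = fun S => Real.exp (S.card : ℝ) := by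
    funext S
    rw [prod_const, ← Real.exp_nat_mul, mul_one]
  have ha : 0 ≤ Real.exp 1 - 1 := by linarith [Real.one_le_exp (zero_le_one)]
  rw [e] at h
  rw [h, mul_sum, Real.exp_sum]
  refine prod_le_prod (fun t ht => ?_) (fun t ht => ?_)
  · have := mul_nonneg ha (hp t ht).1
    linarith
  · have := Real.add_one_le_exp ((Real.exp 1 - 1) * p t)
    linarith

private theorem N6_quad {x : ℝ} (h0 : 0 ≤ x) (h1 : x ≤ 1) : Real.exp x ≤ 1 + x + x ^ 2 := by
  have := Real.abs_exp_sub_one_sub_id_le (x := x) (by rw [abs_of_nonneg h0]; exact h1)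
  have := (abs_le.1 this).2
  linarith

private theorem N6_key (n : ℕ) (hn : 2 ≤ n) :
    (Real.exp 1 - 1) ^ 2 ≤ Real.exp (n : ℝ) - 1 - (Real.exp 1 - 1) * n ∧
      Real.exp (n : ℝ) - 1 ≤ 11 / 5 * (Real.exp (n : ℝ) - 1 - (Real.exp 1 - 1) * n) := by
  have e1 := Real.exp_one_gt_d9
  have e2 := Real.exp_one_lt_d9
  induction n, hn using Nat.le_induction with
  | base =>
    have : Real.exp ((2 : ℕ) : ℝ) = Real.exp 1 ^ 2 := by
      rw [← Real.exp_nat_mul, mul_one]
    rw [this]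
    push_cast
    constructor <;> nlinarith
  | succ n hn ih =>
    have h3 : Real.exp ((n + 1 : ℕ) : ℝ) = Real.exp (n : ℝ) * Real.exp 1 := by
      push_cast
      rw [Real.exp_add]
    have h4 : Real.exp 1 ≤ Real.exp (n : ℝ) := by
      apply Real.exp_le_exp.2
      exact_mod_cast (by omega : 1 ≤ n)
    have h5 : (2 : ℝ) ≤ n := by exact_mod_cast hn
    have h6 : (n : ℝ) + 1 ≤ Real.exp (n : ℝ) := Real.add_one_le_exp _
    rw [h3]
    push_cast
    set E := Real.exp 1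
    set F := Real.exp (n : ℝ)
    obtain ⟨h7, h8⟩ := ih
    constructor
    · have : 0 ≤ (F - 1) * (E - 1) := mul_nonneg (by linarith) (by linarith)
      nlinarith
    · have : 0 ≤ (F - 2) * (E - 1) := mul_nonneg (by linarith) (by linarith)
      nlinarith

private theorem N6_main (B : Finset τ) (p : τ → ℝ) (hp : ∀ t ∈ B, 0 ≤ p t ∧ p t ≤ 1)
    (hP : ∑ t ∈ B, p t ≤ 1 / 2) :
    Ex B p (fun S => Real.exp (S.card : ℝ) - 1 - (Real.exp 1 - 1) * (S.card : ℝ)) ≤
      ((Real.exp 1 - 1) * ∑ t ∈ B, p t) ^ 2 := by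
  have e1 := Real.exp_one_gt_d9
  have e2 := Real.exp_one_lt_d9
  have hP0 : 0 ≤ ∑ t ∈ B, p t := sum_nonneg fun t ht => (hp t ht).1
  have h1 : Ex B p (fun S => Real.exp (S.card : ℝ) - 1 - (Real.exp 1 - 1) * (S.card : ℝ)) =
      Ex B p (fun S => Real.exp (S.card : ℝ)) - 1 - (Real.exp 1 - 1) * ∑ t ∈ B, p t := by
    rw [Ex_sub (fun S => Real.exp (S.card : ℝ) - 1) (fun S => (Real.exp 1 - 1) * (S.card : ℝ)),
      Ex_sub (fun S => Real.exp (S.card : ℝ)) (fun _ => 1), Ex_one, Ex_mul, N6_card]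
  rw [h1]
  have h2 := N6_exp B p hp
  have hx0 : 0 ≤ (Real.exp 1 - 1) * ∑ t ∈ B, p t := mul_nonneg (by linarith) hP0
  have hx1 : (Real.exp 1 - 1) * ∑ t ∈ B, p t ≤ 1 := by nlinarith
  have h3 := N6_quad hx0 hx1
  linarith

theorem p_N6 : S_N6 := by
  intro τ _ B p hp hP
  have e1 := Real.exp_one_gt_d9
  have e2 := Real.exp_one_lt_d9
  have hP0 : 0 ≤ ∑ t ∈ B, p t := sum_nonneg fun t ht => (hp t ht).1
  have hmain := N6_main B p hp hP
  set P := ∑ t ∈ B, p t
  set a := Real.exp 1 - 1 with ha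
  have ha0 : 0 < a := by linarith
  have hsmall : ∀ n : ℕ, ¬ 2 ≤ n → Real.exp (n : ℝ) - 1 - a * n = 0 := by
    intro n hn
    have : n = 0 ∨ n = 1 := by omega
    rcases this with rfl | rfl
    · simp
    · simp [ha]
  refine ⟨?_, ?_, ?_⟩
  · have h1 : Ex B p (fun S => Real.exp (if 2 ≤ S.card then (1 : ℝ) else 0)) ≤
        Ex B p (fun S => 1 + a⁻¹ * (Real.exp (S.card : ℝ) - 1 - a * (S.card : ℝ))) := by
      refine Ex_mono hp fun S _ => ?_
      by_cases hS : 2 ≤ S.card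
      · rw [if_pos hS]
        have h2 := mul_le_mul_of_nonneg_left (N6_key _ hS).1 (inv_pos.2 ha0).le
        have h3 : a⁻¹ * a ^ 2 = a := by field_simp
        rw [h3] at h2
        linarith
      · rw [if_neg hS, hsmall _ hS, Real.exp_zero]
        simp
    have h4 : Ex B p (fun S => 1 + a⁻¹ * (Real.exp (S.card : ℝ) - 1 - a * (S.card : ℝ))) ≤
        1 + a⁻¹ * (a * P) ^ 2 := by
      rw [Ex_add (fun _ => 1) (fun S => a⁻¹ * (Real.exp (S.card : ℝ) - 1 - a * (S.card : ℝ))),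
        Ex_one, Ex_mul]
      have := mul_le_mul_of_nonneg_left hmain (inv_pos.2 ha0).le
      linarith
    have h5 : a⁻¹ * (a * P) ^ 2 = a * P ^ 2 := by field_simp
    have h6 := Real.add_one_le_exp (2 * P ^ 2)
    have h7 : a * P ^ 2 ≤ 2 * P ^ 2 := mul_le_mul_of_nonneg_right (by linarith) (sq_nonneg _)
    linarith
  · have h1 : Ex B p (fun S => Real.exp (if 2 ≤ S.card then (S.card : ℝ) else 0)) ≤
        Ex B p (fun S => 1 + 11 / 5 * (Real.exp (S.card : ℝ) - 1 - a * (S.card : ℝ))) := by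
      refine Ex_mono hp fun S _ => ?_
      by_cases hS : 2 ≤ S.card
      · rw [if_pos hS]
        have h2 := (N6_key _ hS).2
        linarith
      · rw [if_neg hS, hsmall _ hS, Real.exp_zero]
        simp
    have h4 : Ex B p (fun S => 1 + 11 / 5 * (Real.exp (S.card : ℝ) - 1 - a * (S.card : ℝ))) ≤
        1 + 11 / 5 * (a * P) ^ 2 := by
      rw [Ex_add (fun _ => 1) (fun S => 11 / 5 * (Real.exp (S.card : ℝ) - 1 - a * (S.card : ℝ))),
        Ex_one, Ex_mul]
      linarith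
    have h6 := Real.add_one_le_exp (7 * P ^ 2)
    have h7 : 11 / 5 * (a * P) ^ 2 ≤ 7 * P ^ 2 := by
      have h8 : 11 / 5 * a ^ 2 ≤ 7 := by nlinarith
      have := mul_le_mul_of_nonneg_right h8 (sq_nonneg P)
      linarith [mul_pow a P 2]
    linarith
  · intro t0 ht0
    have h1 : Ex B p (fun S => Real.exp (if t0 ∈ S ∧ 2 ≤ S.card then (1 : ℝ) else 0)) ≤
        Ex B p (fun S => 1 + a * ∑ t ∈ B.erase t0, if t0 ∈ S ∧ t ∈ S then (1 : ℝ) else 0) := by
      refine Ex_mono hp fun S hSB => ?_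
      have hnn : 0 ≤ ∑ t ∈ B.erase t0, if t0 ∈ S ∧ t ∈ S then (1 : ℝ) else 0 :=
        sum_nonneg fun t _ => by split_ifs <;> norm_num
      by_cases hS : t0 ∈ S ∧ 2 ≤ S.card
      · rw [if_pos hS]
        obtain ⟨t1, ht1, hne⟩ := exists_mem_ne (by omega : 1 < S.card) t0
        have h2 : (1 : ℝ) ≤ ∑ t ∈ B.erase t0, if t0 ∈ S ∧ t ∈ S then (1 : ℝ) else 0 := by
          have h3 := single_le_sum (f := fun t => if t0 ∈ S ∧ t ∈ S then (1 : ℝ) else 0)
            (fun t _ => by split_ifs <;> norm_num) (mem_erase.2 ⟨hne, hSB ht1⟩)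
          simpa [hS.1, ht1] using h3
        have := mul_le_mul_of_nonneg_left h2 ha0.le
        linarith
      · rw [if_neg hS, Real.exp_zero]
        have := mul_nonneg ha0.le hnn
        linarith
    have h4 : Ex B p (fun S => 1 + a * ∑ t ∈ B.erase t0, if t0 ∈ S ∧ t ∈ S then (1 : ℝ) else 0) =
        1 + a * ∑ t ∈ B.erase t0, p t0 * p t := by
      rw [Ex_add (fun _ => 1)
        (fun S => a * ∑ t ∈ B.erase t0, if t0 ∈ S ∧ t ∈ S then (1 : ℝ) else 0), Ex_one, Ex_mul,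
        Ex_sum (B.erase t0) (fun t S => if t0 ∈ S ∧ t ∈ S then (1 : ℝ) else 0)]
      congr 2
      refine sum_congr rfl fun t ht => ?_
      exact N6_mem2 B p t0 t ht0 (mem_erase.1 ht).2 (mem_erase.1 ht).1
    have h5 : ∑ t ∈ B.erase t0, p t0 * p t ≤ p t0 * P := by
      rw [← mul_sum]
      refine mul_le_mul_of_nonneg_left ?_ (hp t0 ht0).1
      exact sum_le_sum_of_subset_of_nonneg (erase_subset _ _) fun t ht _ => (hp t ht).1
    have h6 := Real.add_one_le_exp (2 * p t0 * P)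
    have h7 : 0 ≤ p t0 * P := mul_nonneg (hp t0 ht0).1 hP0
    have h8 : a * ∑ t ∈ B.erase t0, p t0 * p t ≤ 2 * p t0 * P := by
      have := mul_le_mul_of_nonneg_left h5 ha0.le
      have : a * (p t0 * P) ≤ 2 * (p t0 * P) := mul_le_mul_of_nonneg_right (by linarith) h7
      linarith
    linarith

end DH
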