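import Pool.Agent.Lib.MP_fe8cb7_co.h25.StN

/-!
# Daykin-Haggkvist problem: piece N7 (blocks of triangles)
-/

open Finset

namespace DH

private theorem N7_mem_blkV {V : Type} [Fintype V] [DecidableEq V] {H : SimpleGraph V} {x y : V}
    {t : Finset V} : t ∈ blkV H x y ↔ H.IsNClique 3 t ∧ x ∈ t ∧ y ∈ t := by
  unfold blkV
  rw [mem_filter, mem_triSet]

private theorem N7_mem_blkE {V : Type} [Fintype V] [DecidableEq V] {H : SimpleGraph V} {x y z : V}
    {t : Finset V} : t ∈ blkE H x y z ↔ H.IsNClique 3 t ∧ z ∈ t ∧ (x ∈ t ∨ y ∈ t) := by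
  unfold blkE
  rw [mem_filter, mem_triSet]

private theorem N7_mem_cn {V : Type} [Fintype V] [DecidableEq V] {H : SimpleGraph V} {x y z : V} :
    z ∈ cn H x y ↔ H.Adj x z ∧ H.Adj y z := by
  unfold cn
  rw [mem_inter, mem_nb, mem_nb]
  simp

private theorem N7_key {V : Type} [DecidableEq V] {H : SimpleGraph V} {x y : V}
    {t : Finset V} (hxy : x ≠ y) (ht : H.IsNClique 3 t) (hx : x ∈ t) (hy : y ∈ t) :
    ∃ z, z ≠ x ∧ z ≠ y ∧ t = {x, y, z} := by
  have h2 : ({x, y} : Finset V).card = 2 := card_pair hxy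
  have h3 : ({x, y} : Finset V) ⊆ t := by
    intro w hw
    rw [mem_insert, mem_singleton] at hw
    rcases hw with rfl | rfl
    · exact hx
    · exact hy
  have h4 : (t \ {x, y}).Nonempty := by
    rw [← card_pos, card_sdiff_of_subset h3, h2, ht.2]
    norm_num
  obtain ⟨z, hz⟩ := h4
  rw [mem_sdiff, mem_insert, mem_singleton, not_or] at hz
  refine ⟨z, hz.2.1, hz.2.2, ?_⟩
  symm
  apply eq_of_subset_of_card_le
  · intro w hw
    rw [mem_insert, mem_insert, mem_singleton] at hw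
    rcases hw with rfl | rfl | rfl
    · exact hx
    · exact hy
    · exact hz.1
  · rw [ht.2, card_insert_of_notMem, card_insert_of_notMem, card_singleton]
    · rw [mem_singleton]
      exact fun h => hz.2.2 h.symm
    · rw [mem_insert, mem_singleton, not_or]
      exact ⟨hxy, fun h => hz.2.1 h.symm⟩

private theorem N7_blkV {V : Type} [Fintype V] [DecidableEq V] {H : SimpleGraph V} {x y : V}
    (hxy : H.Adj x y) : blkV H x y = (cn H x y).image (fun z => ({x, y, z} : Finset V)) := by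
  ext t
  rw [N7_mem_blkV, mem_image]
  constructor
  · rintro ⟨h1, h2, h3⟩
    obtain ⟨z, -, -, rfl⟩ := N7_key hxy.ne h1 h2 h3
    rw [SimpleGraph.is3Clique_triple_iff] at h1
    exact ⟨z, N7_mem_cn.2 ⟨h1.2.1, h1.2.2⟩, rfl⟩
  · rintro ⟨z, hz, rfl⟩
    rw [N7_mem_cn] at hz
    refine ⟨SimpleGraph.is3Clique_triple_iff.2 ⟨hxy, hz.1, hz.2⟩, ?_, ?_⟩
    · exact mem_insert_self _ _
    · exact mem_insert_of_mem (mem_insert_self _ _)

private theorem N7_one {V : Type} [Fintype V] [DecidableEq V] {H : SimpleGraph V}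
    (W : Finset V → ℝ) {x y : V} (hxy : H.Adj x y) :
    ∑ t ∈ blkV H x y, W t = ∑ z ∈ cn H x y, W {x, y, z} := by
  rw [N7_blkV hxy, sum_image]
  intro z hz z' hz' h
  rw [mem_coe, N7_mem_cn] at hz hz'
  simp only at h
  have h1 : z ∈ ({x, y, z'} : Finset V) := by
    rw [← h]
    simp
  rw [mem_insert, mem_insert, mem_singleton] at h1
  rcases h1 with h1 | h1 | h1
  · exact absurd h1 hz.1.ne'
  · exact absurd h1 hz.2.ne'
  · exact h1

/-- two vertices of a triangle in the same part are equal -/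
private theorem N7_part {V : Type} {π : V → ZMod 3} {H : SimpleGraph V} (hT : Tri π H)
    {t : Finset V} (ht : H.IsNClique 3 t) {u w : V} (hu : u ∈ t) (hw : w ∈ t)
    (h : π u = π w) : u = w := by
  by_contra hne
  exact hT u w (ht.1 hu hw hne) h

private theorem N7_zmod : ∀ a b c d : ZMod 3, a ≠ b ∧ a ≠ c ∧ b ≠ c ∧ a ≠ d ∧ b ≠ d → c = d := by
  decide

theorem p_N7 : S_N7 := by
  intro V _ _ π H W hT
  refine ⟨fun x y hxy => N7_one W hxy, ?_, ?_, ?_, ?_⟩
  · intro x y hxy z hz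
    rw [N7_mem_cn] at hz
    have e1 : blkE H x y z = blkV H x z ∪ blkV H y z := by
      ext t
      rw [mem_union, N7_mem_blkE, N7_mem_blkV, N7_mem_blkV]
      tauto
    have e2 : blkV H x z ∩ blkV H y z = {({x, y, z} : Finset V)} := by
      ext t
      rw [mem_inter, mem_singleton, N7_mem_blkV, N7_mem_blkV]
      constructor
      · rintro ⟨⟨h1, h2, h3⟩, -, h4, -⟩
        obtain ⟨w, hw1, hw2, rfl⟩ := N7_key hxy.ne h1 h2 h4
        rw [mem_insert, mem_insert, mem_singleton] at h3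
        rcases h3 with h3 | h3 | h3
        · exact absurd h3 hz.1.ne'
        · exact absurd h3 hz.2.ne'
        · rw [h3]
      · rintro rfl
        have h1 : H.IsNClique 3 {x, y, z} :=
          SimpleGraph.is3Clique_triple_iff.2 ⟨hxy, hz.1, hz.2⟩
        refine ⟨⟨h1, ?_, ?_⟩, h1, ?_, ?_⟩ <;> simp
    rw [e1, ← N7_one W hz.1, ← N7_one W hz.2]
    have := sum_union_inter (s₁ := blkV H x z) (s₂ := blkV H y z) (f := W)
    rw [e2, sum_singleton] at this
    linarith
  · intro x y hxy z hz z' hz' hne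
    rw [N7_mem_cn] at hz hz'
    rw [disjoint_left]
    intro t h1 h2
    rw [N7_mem_blkE] at h1 h2
    apply hne
    apply N7_part hT h1.1 h1.2.1 h2.2.1
    exact N7_zmod _ _ _ _ ⟨hT _ _ hxy, hT _ _ hz.1, hT _ _ hz.2, hT _ _ hz'.1, hT _ _ hz'.2⟩
  · intro v u u' hu hne
    rw [disjoint_left]
    intro t h1 h2
    rw [N7_mem_blkV] at h1 h2
    exact hne (N7_part hT h1.1 h1.2.2 h2.2.2 hu)
  · intro u u' x x' hu hx hne
    rw [disjoint_left]
    intro t h1 h2
    rw [N7_mem_blkV] at h1 h2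
    apply hne
    rw [N7_part hT h1.1 h1.2.1 h2.2.1 hu, N7_part hT h1.1 h1.2.2 h2.2.2 hx]

end DH
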