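import Pool.Agent.Lib.MP_fe8cb7_co.h25.StN

/-!
# Daykin-Haggkvist problem: concentration of the surviving weight at an edge ([N8a])
-/

open Finset

namespace DH

private theorem N8a_third : ∀ a b c : ZMod 3, a ≠ b → a ≠ c → b ≠ c → c = -a - b := by decide

private theorem N8a_card {V : Type} [Fintype V] [DecidableEq V] {π : V → ZMod 3}
    {H : SimpleGraph V} {N : ℕ} (hs : Eq3 π univ N) (hT : Tri π H) {x y : V} (hxy : H.Adj x y) :
    (cn H x y).card ≤ N := by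
  rw [← hs (-π x - π y)]
  refine card_le_card fun z hz => ?_
  rw [cn, mem_inter, mem_nb, mem_nb] at hz
  exact mem_pt.2 ⟨mem_univ _, N8a_third _ _ _ (hT _ _ hxy) (hT _ _ hz.1.2) (hT _ _ hz.2.2)⟩

/-- from the exponential moment of the centred sum to the one of the shifted sum -/
private theorem N8a_shift {τ : Type} [DecidableEq τ] {X : Finset τ} {p : τ → ℝ}
    (hp : ∀ t ∈ X, 0 ≤ p t ∧ p t ≤ 1) {F D : Finset τ → ℝ} {a b s : ℝ}
    (h1 : Ex X p (fun S => Real.exp (F S)) ≤ Real.exp b)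
    (h2 : ∀ S, D S ≤ F S + a) (h3 : a + b ≤ s) :
    Ex X p (fun S => Real.exp (D S)) ≤ Real.exp s := by
  have h4 : Ex X p (fun S => Real.exp (D S)) ≤ Ex X p (fun S => Real.exp a * Real.exp (F S)) := by
    refine Ex_mono hp fun S _ => ?_
    rw [← Real.exp_add, Real.exp_le_exp]
    linarith [h2 S]
  refine h4.trans ?_
  rw [Ex_mul]
  calc Real.exp a * Ex X p (fun S => Real.exp (F S)) ≤ Real.exp a * Real.exp b := by gcongr
    _ = Real.exp (a + b) := by rw [Real.exp_add]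
    _ ≤ _ := Real.exp_le_exp.2 h3

theorem p_N8a : S_N8a := by
  intro hN3 hN5 hN7 hN8m C0 θ ρ δ hC0 hθ hθ1 hρ hρ1 hδ
  obtain ⟨N1, hN1⟩ := hN8m hN5 hN7 C0 θ ρ δ hC0 hθ hθ1 hρ hρ1 hδ
  obtain ⟨N2, hN2⟩ := exists_nat_ge (2 * (θ * C0 / ρ ^ 2))
  obtain ⟨l, hl⟩ : ∃ l : ℝ, l = min (1 / C0) (δ / (4 * C0 ^ 2)) := ⟨_, rfl⟩
  have hl0 : 0 < l := by rw [hl]; positivity
  have hl1 : l * C0 ≤ 1 := by
    have : l ≤ 1 / C0 := by rw [hl]; exact min_le_left _ _
    calc l * C0 ≤ 1 / C0 * C0 := by gcongr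
      _ = 1 := by field_simp
  have hl2 : l ^ 2 * C0 ^ 2 ≤ l * δ / 4 := by
    have : l ≤ δ / (4 * C0 ^ 2) := by rw [hl]; exact min_le_right _ _
    calc l ^ 2 * C0 ^ 2 = l * (l * C0 ^ 2) := by ring
      _ ≤ l * (δ / (4 * C0 ^ 2) * C0 ^ 2) := by gcongr
      _ = l * δ / 4 := by field_simp
  refine ⟨l, hl0, l * δ / 4, by positivity, max (max N1 N2) 1, ?_⟩
  intro V _ _ π H W N η hN hb x y hxy
  have hNN1 : N1 ≤ N := (le_max_left _ _).trans ((le_max_left _ _).trans hN)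
  have hNN2 : N2 ≤ N := (le_max_right _ _).trans ((le_max_left _ _).trans hN)
  have hN0 : 1 ≤ N := (le_max_right _ _).trans hN
  have hN' : (0 : ℝ) < N := by exact_mod_cast hN0
  obtain ⟨p, hp⟩ : ∃ p : Finset V → ℝ, p = fun t => θ * W t / ρ ^ 2 := ⟨_, rfl⟩
  have hpb : ∀ t, 0 ≤ p t ∧ p t ≤ θ * C0 / (ρ ^ 2 * N) := by
    intro t
    rw [hp]
    refine ⟨div_nonneg (mul_nonneg hθ.le (hb.W0 t)) (by positivity), ?_⟩
    calc θ * W t / ρ ^ 2 ≤ θ * (C0 / N) / ρ ^ 2 := by gcongr; exact hb.W1 t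
      _ = _ := by field_simp
  have hκ : θ * C0 / (ρ ^ 2 * N) ≤ 1 / 2 := by
    rw [div_le_div_iff₀ (by positivity) (by norm_num)]
    have h3 : 2 * (θ * C0 / ρ ^ 2) ≤ N := hN2.trans (by exact_mod_cast hNN2)
    calc θ * C0 * 2 = (2 * (θ * C0 / ρ ^ 2)) * ρ ^ 2 := by field_simp
      _ ≤ N * ρ ^ 2 := by gcongr
      _ = _ := by ring
  have hp1 : ∀ t ∈ triSet H, 0 ≤ p t ∧ p t ≤ 1 := fun t _ =>
    ⟨(hpb t).1, by linarith [(hpb t).2]⟩
  -- the blocks
  obtain ⟨Y, hY⟩ : ∃ Y : V → Finset (Finset V) → ℝ,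
      Y = fun z S => if S = ∅ then W {x, y, z} else 0 := ⟨_, rfl⟩
  have hYb : ∀ z ∈ cn H x y, ∀ S ⊆ blkE H x y z, 0 ≤ Y z S ∧ Y z S ≤ C0 / N := by
    intro z _ S _
    simp only [hY]
    split_ifs
    · exact ⟨hb.W0 _, hb.W1 _⟩
    · exact ⟨le_rfl, by positivity⟩
  have hEx : ∀ z ∈ cn H x y, Ex (blkE H x y z) p (Y z)
      = W {x, y, z} * ∏ t ∈ blkE H x y z, (1 - θ * W t / ρ ^ 2) := by
    intro z _
    have h1 := (hN5 (Finset V) (blkE H x y z) p _ (fun t _ => hpb t) hκ).1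
    have h2 : Y z = fun S => W {x, y, z} * (if S = ∅ then (1 : ℝ) else 0) := by
      rw [hY]
      funext S
      by_cases h : S = ∅ <;> simp [h]
    rw [h2, Ex_mul, h1, hp]
  obtain ⟨m, hm⟩ : ∃ m : ℝ, m = ∑ z ∈ cn H x y,
      W {x, y, z} * ∏ t ∈ blkE H x y z, (1 - θ * W t / ρ ^ 2) := ⟨_, rfl⟩
  have hmean := hN1 V π H W N η hNN1 hb x y hxy
  rw [← hm] at hmean
  have hcen : ∀ S : Finset (Finset V), ∑ z ∈ cn H x y,
      (Y z (S ∩ blkE H x y z) - Ex (blkE H x y z) p (Y z)) = DS H W x y S - m := by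
    intro S
    rw [sum_sub_distrib, sum_congr rfl hEx, ← hm]
    congr 1
    rw [hY]
    rfl
  have hdisj := (hN7 V π H W hb.tri).2.2.1 x y hxy
  have hsub : ∀ z ∈ cn H x y, blkE H x y z ⊆ triSet H := fun z _ => filter_subset _ _
  have hcard : ((cn H x y).card : ℝ) ≤ N := by exact_mod_cast N8a_card hb.sz hb.tri hxy
  have hmom : ∀ l' : ℝ, |l'| = l * N →
      Ex (triSet H) p (fun S => Real.exp (l' * (DS H W x y S - m)))
        ≤ Real.exp (N * (l ^ 2 * C0 ^ 2)) := by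
    intro l' hl'
    have h1 := hN3 (Finset V) V (triSet H) p (cn H x y) (blkE H x y) Y (C0 / N) l' hp1 hsub
      hdisj hYb (by
        rw [hl']
        calc l * N * (C0 / N) = l * C0 := by field_simp
          _ ≤ 1 := hl1)
    have h2 : (fun S : Finset (Finset V) => Real.exp (l' * ∑ z ∈ cn H x y,
        (Y z (S ∩ blkE H x y z) - Ex (blkE H x y z) p (Y z))))
        = fun S => Real.exp (l' * (DS H W x y S - m)) := by
      funext S
      rw [hcen S]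
    rw [h2] at h1
    refine h1.trans (Real.exp_le_exp.2 ?_)
    have h3 : (l' * (C0 / N)) ^ 2 = l ^ 2 * C0 ^ 2 := by
      rw [mul_pow, ← sq_abs l', hl']
      field_simp
    rw [h3]
    gcongr
  obtain ⟨hm1, hm2⟩ := abs_le.1 hmean
  have hlN : 0 < l * N := by positivity
  have hfin : -(l * N * (δ / 2)) + N * (l ^ 2 * C0 ^ 2) ≤ -(l * δ / 4 * N) := by
    have : N * (l ^ 2 * C0 ^ 2) ≤ N * (l * δ / 4) := by gcongr
    linarith
  rw [← hp]
  constructor
  · refine N8a_shift hp1 (F := fun S => l * N * (DS H W x y S - m)) (a := -(l * N * (δ / 2)))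
      (hmom (l * N) (abs_of_pos hlN)) (fun S => ?_) hfin
    have h1 : l * N * (m - (ρ ^ 2 * Real.exp (-2 * θ) + (1 + 5 * θ) * η + δ))
        ≤ l * N * (-(δ / 2)) := by
      refine mul_le_mul_of_nonneg_left ?_ hlN.le
      linarith
    have e1 : l * N * (DS H W x y S - (ρ ^ 2 * Real.exp (-2 * θ) + (1 + 5 * θ) * η + δ))
        = l * N * (DS H W x y S - m)
          + l * N * (m - (ρ ^ 2 * Real.exp (-2 * θ) + (1 + 5 * θ) * η + δ)) := by ring
    rw [e1]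
    linarith
  · refine N8a_shift hp1 (F := fun S => -(l * N) * (DS H W x y S - m))
      (a := -(l * N * (δ / 2))) (hmom (-(l * N)) (by rw [abs_neg, abs_of_pos hlN]))
      (fun S => ?_) hfin
    have h1 : l * N * ((ρ ^ 2 * Real.exp (-2 * θ) - (1 + 5 * θ) * η - δ) - m)
        ≤ l * N * (-(δ / 2)) := by
      refine mul_le_mul_of_nonneg_left ?_ hlN.le
      linarith
    have e1 : l * N * ((ρ ^ 2 * Real.exp (-2 * θ) - (1 + 5 * θ) * η - δ) - DS H W x y S)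
        = -(l * N) * (DS H W x y S - m)
          + l * N * ((ρ ^ 2 * Real.exp (-2 * θ) - (1 + 5 * θ) * η - δ) - m) := by ring
    rw [e1]
    linarith

end DH
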