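import Pool.Agent.Lib.MP_fe8cb7_co.h25.StN

/-!
# Daykin-Haggkvist problem: [N8b] upper tail of the surviving degrees
-/

open Finset

namespace DH

theorem p_N8b : S_N8b := by
  intro hN3 hN5 hN7 C0 θ ρ δ hC0 hθ hθ1 hρ hρ1 hδ
  have hl0 : 0 < min 1 (δ / 2) := lt_min one_pos (by linarith)
  refine ⟨min 1 (δ / 2), hl0, min 1 (δ / 2) * δ / 2, by positivity, ⌈2 * θ * C0 / ρ ^ 2⌉₊ + 1, ?_⟩
  intro V _ _ π H W N η hN hB v i hi
  set l : ℝ := min 1 (δ / 2) with hl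
  have hl1 : l ≤ 1 := min_le_left _ _
  have hl2 : l ≤ δ / 2 := min_le_right _ _
  have hNr : 2 * θ * C0 / ρ ^ 2 + 1 ≤ N := by
    have h1 : (2 * θ * C0 / ρ ^ 2 : ℝ) ≤ ⌈2 * θ * C0 / ρ ^ 2⌉₊ := Nat.le_ceil _
    have h2 : ((⌈2 * θ * C0 / ρ ^ 2⌉₊ + 1 : ℕ) : ℝ) ≤ N := by exact_mod_cast hN
    push_cast at h2
    linarith
  have hN0 : (0 : ℝ) < N := by
    have : 0 ≤ 2 * θ * C0 / ρ ^ 2 := by positivity
    linarith
  have hρ2 : 0 < ρ ^ 2 := by positivity
  -- bounds for p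
  have hp : ∀ t : Finset V, 0 ≤ θ * W t / ρ ^ 2 ∧ θ * W t / ρ ^ 2 ≤ 1 / 2 := by
    intro t
    have h0 := hB.W0 t
    have h1 := hB.W1 t
    refine ⟨by positivity, ?_⟩
    calc θ * W t / ρ ^ 2 ≤ θ * (C0 / N) / ρ ^ 2 := by gcongr
      _ = (2 * θ * C0 / ρ ^ 2) / N / 2 := by field_simp
      _ ≤ 1 / 2 := by
          have : (2 * θ * C0 / ρ ^ 2) / N ≤ 1 := by
            rw [div_le_one hN0]; linarith
          linarith
  have hpX : ∀ t ∈ triSet H, 0 ≤ θ * W t / ρ ^ 2 ∧ θ * W t / ρ ^ 2 ≤ 1 :=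
    fun t _ => ⟨(hp t).1, (hp t).2.trans (by norm_num)⟩
  obtain ⟨h71, -, -, h74, -⟩ := hN7 V π H W hB.tri
  set p : Finset V → ℝ := fun t => θ * W t / ρ ^ 2 with hpdef
  set I : Finset V := nb H v (pt π univ i) with hI
  have hmean : ∀ u ∈ I, Ex (blkV H v u) p (fun S => if S = ∅ then 1 else 0) ≤
      Real.exp (-(7 * θ / 8)) := by
    intro u hu
    have hadj : H.Adj v u := (mem_nb.1 hu).2
    obtain ⟨e1, -, e3⟩ := hN5 (Finset V) (blkV H v u) p (1 / 2) (fun t _ => hp t) le_rfl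
    rw [e1]
    refine e3.trans ?_
    apply Real.exp_le_exp.2
    have e4 : ∑ t ∈ blkV H v u, p t = θ / ρ ^ 2 * ∑ z ∈ cn H v u, W {v, u, z} := by
      rw [← h71 v u hadj, mul_sum]
      refine sum_congr rfl fun t _ => ?_
      rw [hpdef]; ring
    have e5 := (abs_le.1 (hB.hD v u hadj)).1
    have e6 := hB.hη1
    have e7 : 7 / 8 * ρ ^ 2 ≤ ∑ z ∈ cn H v u, W {v, u, z} := by linarith
    have e8 : 7 * θ / 8 = θ / ρ ^ 2 * (7 / 8 * ρ ^ 2) := by field_simp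
    rw [e4, e8, neg_le_neg_iff]
    gcongr
  have hcard : (I.card : ℝ) ≤ N := by
    have h1 : I.card ≤ (pt π univ i).card := card_le_card (nb_subset v)
    rw [hB.sz i] at h1
    exact_mod_cast h1
  have h3 := hN3 (Finset V) V (triSet H) p I (fun u => blkV H v u)
    (fun _ S => if S = ∅ then 1 else 0) 1 l hpX (fun u _ => filter_subset _ _)
    (fun u hu u' hu' hne => h74 v u u' (by
      rw [(mem_pt.1 (mem_nb.1 hu).1).2, (mem_pt.1 (mem_nb.1 hu').1).2]) hne)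
    (fun u _ S _ => by
      split_ifs
      · exact ⟨zero_le_one, le_rfl⟩
      · exact ⟨le_rfl, zero_le_one⟩)
    (by rw [abs_of_pos hl0, mul_one]; exact hl1)
  rw [mul_one] at h3
  have hpt : ∀ S ⊆ triSet H,
      Real.exp (l * (dS π H v i S - (Real.exp (-(7 * θ / 8)) * dg H v (pt π univ i) + δ * N))) ≤
      Real.exp (-(l * δ * N)) * Real.exp (l * ∑ k ∈ I, ((if S ∩ blkV H v k = ∅ then (1 : ℝ) else 0) -
        Ex (blkV H v k) p (fun S => if S = ∅ then 1 else 0))) := by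
    intro S _
    rw [← Real.exp_add]
    apply Real.exp_le_exp.2
    have e1 : ∑ k ∈ I, Ex (blkV H v k) p (fun S => if S = ∅ then 1 else 0) ≤
        Real.exp (-(7 * θ / 8)) * dg H v (pt π univ i) := by
      refine (sum_le_sum hmean).trans ?_
      rw [sum_const, nsmul_eq_mul, mul_comm]
      exact le_rfl
    rw [sum_sub_distrib]
    have e2 : dS π H v i S = ∑ k ∈ I, (if S ∩ blkV H v k = ∅ then (1 : ℝ) else 0) := rfl
    rw [e2]
    have e3 := mul_le_mul_of_nonneg_left e1 hl0.le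
    linarith
  refine (Ex_mono hpX hpt).trans ?_
  rw [Ex_mul]
  calc _ ≤ Real.exp (-(l * δ * N)) * Real.exp ((I.card : ℝ) * l ^ 2) := by
        gcongr
    _ ≤ Real.exp (-(l * δ * N)) * Real.exp (N * (l * (δ / 2))) := by
        gcongr
        rw [pow_two]
        gcongr
    _ = Real.exp (-(l * δ / 2 * N)) := by
        rw [← Real.exp_add]; congr 1; ring

end DH
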