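import Pool.Agent.Lib.MP_fe8cb7_co.h25.StN

/-!
# Daykin-Haggkvist problem: proof of [N8m]
-/

open Finset

namespace DH

/-- one summand of the mean -/
private theorem N8m_one {θ ρ η κ D1 D2 w Q : ℝ} (hθ : 0 < θ) (hθ1 : θ ≤ 1 / 8) (hρ : 0 < ρ)
    (hη1 : η ≤ ρ ^ 2 / 8) (hκ1 : κ ≤ 1 / 20)
    (hD1 : |D1 - ρ ^ 2| ≤ η) (hD2 : |D2 - ρ ^ 2| ≤ η) (hw0 : 0 ≤ θ * w / ρ ^ 2)
    (hw : θ * w / ρ ^ 2 ≤ κ)
    (hlo : Real.exp (-((1 + κ) * (θ / ρ ^ 2 * (D1 + D2 - w)))) ≤ Q)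
    (hhi : Q ≤ Real.exp (-(θ / ρ ^ 2 * (D1 + D2 - w)))) :
    |Q - Real.exp (-2 * θ)| ≤ 11 / 10 * (2 * θ * η / ρ ^ 2 + κ) := by
  have hr2 : 0 < ρ ^ 2 := by positivity
  have hη : 0 ≤ η := le_trans (abs_nonneg _) hD1
  have hκ : 0 ≤ κ := le_trans hw0 hw
  obtain ⟨h1a, h1b⟩ := abs_le.1 hD1
  obtain ⟨h2a, h2b⟩ := abs_le.1 hD2
  set b : ℝ := 2 * θ * η / ρ ^ 2 with hb
  have hb0 : 0 ≤ b := by positivity
  have hb1 : b ≤ 1 / 32 := by
    rw [hb, div_le_iff₀ hr2]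
    nlinarith
  set P : ℝ := θ / ρ ^ 2 * (D1 + D2 - w) with hP
  have hPe : P = 2 * θ + θ / ρ ^ 2 * (D1 + D2 - 2 * ρ ^ 2) - θ * w / ρ ^ 2 := by
    rw [hP]; field_simp; ring
  have hc0 : 0 < θ / ρ ^ 2 := by positivity
  have hbe : θ / ρ ^ 2 * (2 * η) = b := by rw [hb]; ring
  have hu : θ / ρ ^ 2 * (D1 + D2 - 2 * ρ ^ 2) ≤ b := by
    rw [← hbe]; exact mul_le_mul_of_nonneg_left (by linarith) hc0.le
  have hl : -b ≤ θ / ρ ^ 2 * (D1 + D2 - 2 * ρ ^ 2) := by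
    rw [← hbe, ← mul_neg]; exact mul_le_mul_of_nonneg_left (by linarith) hc0.le
  have hPu : P ≤ 2 * θ + b := by rw [hPe]; linarith
  have hPl : 2 * θ - b - κ ≤ P := by rw [hPe]; linarith
  have hP1 : P ≤ 1 := by linarith
  have hKP : (1 + κ) * P ≤ 2 * θ + b + κ := by nlinarith
  have ha0 : 0 ≤ b + κ := by linarith
  have ha1 : b + κ ≤ 1 / 10 := by linarith
  have hE : |Real.exp (b + κ) - 1 - (b + κ)| ≤ (b + κ) ^ 2 :=
    Real.abs_exp_sub_one_sub_id_le (by rw [abs_of_nonneg ha0]; linarith)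
  have hE1 : Real.exp (b + κ) - 1 ≤ 11 / 10 * (b + κ) := by
    have := (abs_le.1 hE).2
    nlinarith
  have hE2 : 1 - Real.exp (-(b + κ)) ≤ 11 / 10 * (b + κ) := by
    have := Real.add_one_le_exp (-(b + κ))
    linarith
  have hs1 : Real.exp (-2 * θ) ≤ 1 := Real.exp_le_one_iff.2 (by linarith)
  have hs0 : 0 ≤ Real.exp (-2 * θ) := (Real.exp_pos _).le
  rw [abs_le]
  constructor
  · have h1 : Real.exp (-2 * θ) * Real.exp (-(b + κ)) ≤ Q := by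
      rw [← Real.exp_add]
      exact le_trans (Real.exp_le_exp.2 (by linarith)) hlo
    have h2 : 0 ≤ 1 - Real.exp (-(b + κ)) := sub_nonneg.2 (Real.exp_le_one_iff.2 (by linarith))
    nlinarith
  · have h1 : Q ≤ Real.exp (-2 * θ) * Real.exp (b + κ) := by
      rw [← Real.exp_add]
      exact le_trans hhi (Real.exp_le_exp.2 (by linarith))
    have h2 : 0 ≤ Real.exp (b + κ) - 1 := sub_nonneg.2 (Real.one_le_exp ha0)
    nlinarith

theorem p_N8m : S_N8m := by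
  intro hN5 hN7 C0 θ ρ δ hC hθ hθ1 hρ hρ1 hδ
  obtain ⟨n1, hn1⟩ := exists_nat_ge (20 * θ * C0 / ρ ^ 2)
  obtain ⟨n2, hn2⟩ := exists_nat_ge (99 / 40 * θ * C0 / δ)
  refine ⟨n1 + n2 + 1, ?_⟩
  intro V _ _ π H W N η hN hB x y hxy
  have hr2 : 0 < ρ ^ 2 := by positivity
  have hNpos : (0 : ℝ) < N := by
    have : 0 < N := by omega
    exact_mod_cast this
  have hNn1 : (n1 : ℝ) ≤ N := by
    have : n1 ≤ N := by omega
    exact_mod_cast this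
  have hNn2 : (n2 : ℝ) ≤ N := by
    have : n2 ≤ N := by omega
    exact_mod_cast this
  set κ : ℝ := θ * (C0 / N) / ρ ^ 2 with hκdef
  have hκ1 : κ ≤ 1 / 20 := by
    have h1 : 20 * θ * C0 / ρ ^ 2 ≤ N := hn1.trans hNn1
    rw [div_le_iff₀ hr2] at h1
    rw [hκdef, div_le_iff₀ hr2, ← mul_div_assoc, div_le_iff₀ hNpos]
    nlinarith
  have hκ2 : 99 / 80 * (ρ ^ 2 * κ) ≤ δ / 2 := by
    have h1 : 99 / 40 * θ * C0 / δ ≤ N := hn2.trans hNn2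
    rw [div_le_iff₀ hδ] at h1
    have h2 : ρ ^ 2 * κ = θ * C0 / N := by rw [hκdef]; field_simp
    rw [h2, ← mul_div_assoc, div_le_iff₀ hNpos]
    nlinarith
  have hκ0 : 0 ≤ κ := by positivity
  have hp : ∀ t, 0 ≤ θ * W t / ρ ^ 2 ∧ θ * W t / ρ ^ 2 ≤ κ := by
    intro t
    have h0 := hB.W0 t
    refine ⟨by positivity, ?_⟩
    rw [hκdef]
    exact div_le_div_of_nonneg_right (mul_le_mul_of_nonneg_left (hB.W1 t) hθ.le) hr2.le
  obtain ⟨-, h72, -⟩ := hN7 V π H W hB.tri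
  have hone : ∀ z ∈ cn H x y,
      |∏ t ∈ blkE H x y z, (1 - θ * W t / ρ ^ 2) - Real.exp (-2 * θ)|
        ≤ 11 / 10 * (2 * θ * η / ρ ^ 2 + κ) := by
    intro z hz
    have hz' := mem_inter.1 hz
    have hxz : H.Adj x z := (mem_nb.1 hz'.1).2
    have hyz : H.Adj y z := (mem_nb.1 hz'.2).2
    obtain ⟨-, hlo, hhi⟩ := hN5 (Finset V) (blkE H x y z) (fun t => θ * W t / ρ ^ 2) κ
      (fun t _ => hp t) (by linarith)
    have hsum : ∑ t ∈ blkE H x y z, θ * W t / ρ ^ 2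
        = θ / ρ ^ 2 * (∑ w ∈ cn H x z, W {x, z, w} + ∑ w ∈ cn H y z, W {y, z, w}
          - W {x, y, z}) := by
      rw [← h72 x y hxy z hz, mul_sum]
      exact sum_congr rfl fun t _ => by ring
    rw [hsum] at hlo hhi
    exact N8m_one hθ hθ1 hρ hB.hη1 hκ1 (hB.hD x z hxz) (hB.hD y z hyz) (hp _).1 (hp _).2 hlo hhi
  have hη := hB.hη
  have hη1 := hB.hη1
  have hD := abs_le.1 (hB.hD x y hxy)
  set A : ℝ := 11 / 10 * (2 * θ * η / ρ ^ 2 + κ) with hA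
  have hA0 : 0 ≤ A := by positivity
  have hsplit : ∑ z ∈ cn H x y, W {x, y, z} * ∏ t ∈ blkE H x y z, (1 - θ * W t / ρ ^ 2)
      - ρ ^ 2 * Real.exp (-2 * θ)
      = ∑ z ∈ cn H x y, W {x, y, z} *
          (∏ t ∈ blkE H x y z, (1 - θ * W t / ρ ^ 2) - Real.exp (-2 * θ))
        + (∑ z ∈ cn H x y, W {x, y, z} - ρ ^ 2) * Real.exp (-2 * θ) := by
    simp only [mul_sub, sum_sub_distrib, ← sum_mul]
    ring
  have h1 : |∑ z ∈ cn H x y, W {x, y, z} *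
      (∏ t ∈ blkE H x y z, (1 - θ * W t / ρ ^ 2) - Real.exp (-2 * θ))|
      ≤ (∑ z ∈ cn H x y, W {x, y, z}) * A := by
    refine (abs_sum_le_sum_abs _ _).trans ?_
    rw [sum_mul]
    refine sum_le_sum fun z hz => ?_
    rw [abs_mul, abs_of_nonneg (hB.W0 _)]
    exact mul_le_mul_of_nonneg_left (hone z hz) (hB.W0 _)
  have h2 : |(∑ z ∈ cn H x y, W {x, y, z} - ρ ^ 2) * Real.exp (-2 * θ)| ≤ η := by
    rw [abs_mul, abs_of_nonneg (Real.exp_pos (-2 * θ)).le]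
    calc _ ≤ η * 1 := mul_le_mul (hB.hD x y hxy) (Real.exp_le_one_iff.2 (by linarith))
          (Real.exp_pos _).le hη
      _ = η := mul_one _
  have h3 : (∑ z ∈ cn H x y, W {x, y, z}) * A ≤ 9 / 8 * ρ ^ 2 * A :=
    mul_le_mul_of_nonneg_right (by linarith [hD.2]) hA0
  have h4 : 9 / 8 * ρ ^ 2 * A = 99 / 40 * θ * η + 99 / 80 * (ρ ^ 2 * κ) := by
    rw [hA]; field_simp; ring
  rw [hsplit]
  refine (abs_add_le _ _).trans ?_
  have h5 : 0 ≤ θ * η := by positivity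
  linarith

end DH
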