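import Pool.Agent.Lib.MP_fe8cb7_co.h25.StN

/-!
# Daykin-Haggkvist problem: [N9], the deterministic part of a bite
-/

open Finset

namespace DH

private theorem N9_cov_le {V : Type} {Q S : Finset (Finset V)} (h : Q ⊆ S) : cov Q ≤ cov S := by
  rintro u v ⟨huv, t, ht, hu, hv⟩
  exact ⟨huv, t, h ht, hu, hv⟩

private theorem N9_blkE {V : Type} [Fintype V] [DecidableEq V] {H : SimpleGraph V}
    {S : Finset (Finset V)} (hS : S ⊆ triSet H) {x y z : V} :
    S ∩ blkE H x y z = ∅ ↔ ∀ t ∈ S, ¬ (z ∈ t ∧ (x ∈ t ∨ y ∈ t)) := by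
  rw [eq_empty_iff_forall_notMem]
  constructor
  · intro h t ht hz
    exact h t (mem_inter.2 ⟨ht, mem_filter.2 ⟨hS ht, hz⟩⟩)
  · intro h t ht
    rw [mem_inter] at ht
    exact h t ht.1 (mem_filter.1 ht.2).2

private theorem N9_blkV {V : Type} [Fintype V] [DecidableEq V] {H : SimpleGraph V}
    {S : Finset (Finset V)} (hS : S ⊆ triSet H) {x y : V} :
    S ∩ blkV H x y = ∅ ↔ ∀ t ∈ S, ¬ (x ∈ t ∧ y ∈ t) := by
  rw [eq_empty_iff_forall_notMem]
  constructor
  · intro h t ht hz
    exact h t (mem_inter.2 ⟨ht, mem_filter.2 ⟨hS ht, hz⟩⟩)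
  · intro h t ht
    rw [mem_inter] at ht
    exact h t ht.1 (mem_filter.1 ht.2).2

private theorem N9_mem {V : Type} [Fintype V] [DecidableEq V] {H : SimpleGraph V}
    {S : Finset (Finset V)} (hS : S ⊆ triSet H) {x y : V} {t : Finset V} :
    t ∈ S ∩ blkV H x y ↔ t ∈ S ∧ x ∈ t ∧ y ∈ t := by
  rw [mem_inter, blkV, mem_filter]
  constructor
  · rintro ⟨h1, _, h2⟩
    exact ⟨h1, h2⟩
  · rintro ⟨h1, h2⟩
    exact ⟨h1, hS h1, h2⟩

theorem p_N9 : S_N9 := by
  classical
  intro V _ _ π H W S hT hS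
  set Q : Finset (Finset V) := S.filter (fun t => ∀ t' ∈ S, t' ≠ t →
    ∀ u ∈ t, ∀ v ∈ t, u ∈ t' → v ∈ t' → u = v) with hQ
  have hQS : Q ⊆ S := filter_subset _ _
  refine ⟨Q, H \ cov S, ⟨?_, ?_⟩, ?_, ?_, ?_, ?_⟩
  · intro t ht
    exact mem_triSet.1 (hS (hQS ht))
  · intro t ht t' ht' hne u hu v hv hu' hv'
    exact (mem_filter.1 ht).2 t' (hQS ht') (fun h => hne h.symm) u hu v hv hu' hv'
  · exact sdiff_le_sdiff_left (N9_cov_le hQS)
  · intro x y _
    rw [DS, ← sum_filter]
    refine sum_congr ?_ fun _ _ => rfl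
    ext z
    simp only [cn, mem_inter, mem_nb, mem_univ, true_and, mem_filter, SimpleGraph.sdiff_adj,
      N9_blkE hS, cov_adj]
    constructor
    · rintro ⟨⟨h1, h2⟩, h3, h4⟩
      refine ⟨⟨h1, h3⟩, ?_⟩
      rintro t ht ⟨hz, hx | hy⟩
      · exact h2 ⟨h1.ne, t, ht, hx, hz⟩
      · exact h4 ⟨h3.ne, t, ht, hy, hz⟩
    · rintro ⟨⟨h1, h3⟩, h⟩
      refine ⟨⟨h1, ?_⟩, h3, ?_⟩
      · rintro ⟨_, t, ht, hx, hz⟩
        exact h t ht ⟨hz, Or.inl hx⟩
      · rintro ⟨_, t, ht, hy, hz⟩
        exact h t ht ⟨hz, Or.inr hy⟩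
  · intro v i
    rw [dS, ← sum_filter, sum_const, nsmul_eq_mul, mul_one, dg]
    congr 2
    ext u
    simp only [mem_nb, mem_filter, SimpleGraph.sdiff_adj, N9_blkV hS, cov_adj]
    constructor
    · rintro ⟨h1, h2, h3⟩
      refine ⟨⟨h1, h2⟩, ?_⟩
      rintro t ht ⟨hv, hu⟩
      exact h3 ⟨h2.ne, t, ht, hv, hu⟩
    · rintro ⟨⟨h1, h2⟩, h⟩
      refine ⟨h1, h2, ?_⟩
      rintro ⟨_, t, ht, hv, hu⟩
      exact h t ht ⟨hv, hu⟩
  · intro v i k hi hk hik
    -- the three exceptional sets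
    set A1 : Finset V := (nb H v (pt π univ i)).filter
      (fun u => 2 ≤ (S ∩ blkV H v u).card) with hA1
    set X2 : Finset V := (nb H v (pt π univ k)).filter
      (fun x => 2 ≤ (S ∩ blkV H v x).card) with hX2
    set A2 : Finset V := X2.biUnion (fun x => (S ∩ blkV H v x).biUnion
      (fun t => t.filter (fun u => π u = i))) with hA2
    set A3 : Finset V := (nb H v (pt π univ i)).filter
      (fun u => ∃ x ∈ nb H v (pt π univ k) ∩ nb H u univ,
        ({v, u, x} : Finset V) ∈ S ∩ blkV H u x ∧ 2 ≤ (S ∩ blkV H u x).card) with hA3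
    have hcov : nb ((H \ cov Q) \ (H \ cov S)) v (pt π univ i) ⊆ A1 ∪ A2 ∪ A3 := by
      intro u hu
      rw [mem_nb, SimpleGraph.sdiff_adj, SimpleGraph.sdiff_adj, SimpleGraph.sdiff_adj] at hu
      obtain ⟨hui, ⟨hvu, hnQ⟩, hn⟩ := hu
      have hui' : π u = i := (mem_pt.1 hui).2
      have hcS : (cov S).Adj v u := by
        by_contra hc
        exact hn ⟨hvu, hc⟩
      obtain ⟨hne, t, ht, hvt, hut⟩ := hcS
      have htQ : t ∉ Q := fun h => hnQ ⟨hne, t, h, hvt, hut⟩
      have htc : H.IsNClique 3 t := mem_triSet.1 (hS ht)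
      obtain ⟨x, hxt, hxk, -⟩ := clique_part hT htc k
      have hvx : v ≠ x := by rintro rfl; exact hk hxk.symm
      have hux : u ≠ x := by rintro rfl; exact hik (hui'.symm.trans hxk)
      have htt : t = {v, u, x} := by
        symm
        apply eq_of_subset_of_card_le
        · intro a ha
          simp only [mem_insert, mem_singleton] at ha
          rcases ha with rfl | rfl | rfl
          exacts [hvt, hut, hxt]
        · rw [htc.2, card_insert_of_notMem, card_insert_of_notMem, card_singleton]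
          · simpa using hux
          · simp only [mem_insert, mem_singleton, not_or]
            exact ⟨hne, hvx⟩
      have hAvx : H.Adj v x := htc.1 hvt hxt hvx
      have hAux : H.Adj u x := htc.1 hut hxt hux
      have : ∃ t' ∈ S, t' ≠ t ∧ ∃ a ∈ t, ∃ b ∈ t, a ∈ t' ∧ b ∈ t' ∧ a ≠ b := by
        by_contra hcon
        push Not at hcon
        exact htQ (mem_filter.2 ⟨ht, fun t' ht' hne' a ha b hb ha' hb' =>
          hcon t' ht' hne' a ha b hb ha' hb'⟩)
      obtain ⟨t', ht', hne', a, ha, b, hb, ha', hb', hab⟩ := this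
      have two : ∀ c d : V, c ∈ t → d ∈ t → c ∈ t' → d ∈ t' → 2 ≤ (S ∩ blkV H c d).card := by
        intro c d h1 h2 h3 h4
        have hsub : ({t, t'} : Finset (Finset V)) ⊆ S ∩ blkV H c d := by
          intro r hr
          simp only [mem_insert, mem_singleton] at hr
          rcases hr with rfl | rfl
          · exact (N9_mem hS).2 ⟨ht, h1, h2⟩
          · exact (N9_mem hS).2 ⟨ht', h3, h4⟩
        have := card_le_card hsub
        rwa [card_pair (fun h => hne' h.symm)] at this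
      have hpairs : (v ∈ t' ∧ u ∈ t') ∨ (v ∈ t' ∧ x ∈ t') ∨ (u ∈ t' ∧ x ∈ t') := by
        rw [htt] at ha hb
        simp only [mem_insert, mem_singleton] at ha hb
        rcases ha with rfl | rfl | rfl <;> rcases hb with rfl | rfl | rfl <;> tauto
      rw [mem_union, mem_union]
      rcases hpairs with ⟨h1, h2⟩ | ⟨h1, h2⟩ | ⟨h1, h2⟩
      · left; left
        exact mem_filter.2 ⟨mem_nb.2 ⟨hui, hvu⟩, two v u hvt hut h1 h2⟩
      · left; right
        rw [hA2, mem_biUnion]
        refine ⟨x, mem_filter.2 ⟨mem_nb.2 ⟨mem_pt.2 ⟨mem_univ _, hxk⟩, hAvx⟩,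
          two v x hvt hxt h1 h2⟩, ?_⟩
        rw [mem_biUnion]
        exact ⟨t, (N9_mem hS).2 ⟨ht, hvt, hxt⟩, mem_filter.2 ⟨hut, hui'⟩⟩
      · right
        refine mem_filter.2 ⟨mem_nb.2 ⟨hui, hvu⟩, x, mem_inter.2
          ⟨mem_nb.2 ⟨mem_pt.2 ⟨mem_univ _, hxk⟩, hAvx⟩, mem_nb.2 ⟨mem_univ _, hAux⟩⟩, ?_,
          two u x hut hxt h1 h2⟩
        rw [← htt]
        exact (N9_mem hS).2 ⟨ht, hut, hxt⟩
    have h1 : (A1.card : ℝ) = B1 π H v i S := by
      rw [B1, ← sum_filter, sum_const, nsmul_eq_mul, mul_one]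
    have h2 : (A2.card : ℝ) ≤ B2 π H v k S := by
      rw [B2, ← sum_filter]
      calc (A2.card : ℝ) ≤ ((∑ x ∈ X2, (S ∩ blkV H v x).card : ℕ) : ℝ) := by
            norm_cast
            refine le_trans card_biUnion_le (sum_le_sum fun x _ => ?_)
            refine le_trans card_biUnion_le ?_
            calc ∑ t ∈ S ∩ blkV H v x, (t.filter (fun u => π u = i)).card
                ≤ ∑ t ∈ S ∩ blkV H v x, 1 := by
                  refine sum_le_sum fun t ht => ?_
                  obtain ⟨u, _, _, huu⟩ := clique_part hT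
                    (mem_triSet.1 (hS ((N9_mem hS).1 ht).1)) i
                  refine card_le_one.2 fun a ha b hb => ?_
                  rw [mem_filter] at ha hb
                  rw [huu a ha.1 ha.2, huu b hb.1 hb.2]
              _ = (S ∩ blkV H v x).card := by simp
        _ = ∑ x ∈ X2, ((S ∩ blkV H v x).card : ℝ) := by push_cast; rfl
    have h3 : (A3.card : ℝ) ≤ B3 π H v i k S := by
      rw [B3]
      calc (A3.card : ℝ) = ∑ u ∈ A3, (1 : ℝ) := by simp
        _ ≤ ∑ u ∈ A3, ∑ x ∈ nb H v (pt π univ k) ∩ nb H u univ,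
            if ({v, u, x} : Finset V) ∈ S ∩ blkV H u x ∧ 2 ≤ (S ∩ blkV H u x).card
              then (1 : ℝ) else 0 := by
            refine sum_le_sum fun u hu => ?_
            obtain ⟨x, hx, hx2⟩ := (mem_filter.1 hu).2
            refine le_trans ?_ (single_le_sum (f := fun x =>
              if ({v, u, x} : Finset V) ∈ S ∩ blkV H u x ∧ 2 ≤ (S ∩ blkV H u x).card
              then (1 : ℝ) else 0) (fun y _ => ?_) hx)
            · show (1 : ℝ) ≤ if _ then (1 : ℝ) else 0
              rw [if_pos hx2]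
            · show (0 : ℝ) ≤ if _ then (1 : ℝ) else 0
              split_ifs <;> norm_num
        _ ≤ _ := by
            refine sum_le_sum_of_subset_of_nonneg (filter_subset _ _) fun u _ _ => ?_
            refine sum_nonneg fun x _ => ?_
            split_ifs <;> norm_num
    have hle : (dg ((H \ cov Q) \ (H \ cov S)) v (pt π univ i) : ℝ)
        ≤ A1.card + A2.card + A3.card := by
      have h := le_trans (card_le_card hcov)
        (le_trans (card_union_le _ _) (Nat.add_le_add_right (card_union_le _ _) _))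
      rw [dg]
      exact_mod_cast h
    linarith

end DH
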