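import Pool.Agent.Lib.MP_fe8cb7_co.h25.StR

/-!
Daykin-Haggkvist problem, pieces R0 and R1 (helper96).
-/

open Finset

namespace DH

theorem p_R0 : S_R0 := by
  intro V _ _ π G
  classical
  simp only [imb, sum_sub_distrib]
  rw [sub_eq_zero]
  have h : ∀ (f : V → V → Prop) [∀ v w, Decidable (f v w)], (∑ v : V, (((univ : Finset V).filter (fun w => f v w)).card : ℤ)) =
      ∑ w : V, (((univ : Finset V).filter (fun v => f v w)).card : ℤ) := by
    intro f _
    simp only [card_filter]
    push_cast
    exact sum_comm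
  have e1 : ∀ v, (dg G v (pt π univ (π v + 1)) : ℤ) =
      ((univ : Finset V).filter (fun w => G.Adj v w ∧ π w = π v + 1)).card := by
    intro v
    rw [dg]
    congr 2
    ext w
    simp only [mem_nb, mem_pt, mem_filter, mem_univ, true_and]
    tauto
  have e2 : ∀ v, (dg G v (pt π univ (π v - 1)) : ℤ) =
      ((univ : Finset V).filter (fun w => G.Adj w v ∧ π v = π w + 1)).card := by
    intro v
    rw [dg]
    congr 2
    ext w
    simp only [mem_nb, mem_pt, mem_filter, mem_univ, true_and]
    constructor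
    · rintro ⟨h1, h2⟩
      exact ⟨h2.symm, by rw [h1]; ring⟩
    · rintro ⟨h1, h2⟩
      exact ⟨by rw [h2]; ring, h1.symm⟩
  simp only [e1, e2]
  exact h (fun v w => G.Adj v w ∧ π w = π v + 1)

private theorem R01_nb_a {V : Type} {a b : V} (hab : a ≠ b) (S : Finset V) [DecidableEq V] :
    nb (SimpleGraph.edge a b) a S = S.filter (fun w => w = b) := by
  ext w
  rw [mem_nb, mem_filter, SimpleGraph.edge_adj]
  constructor
  · rintro ⟨h1, (h2 | h2), h3⟩
    · exact ⟨h1, h2.2⟩
    · exact absurd h2.1 hab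
  · rintro ⟨h1, h2⟩
    exact ⟨h1, Or.inl ⟨rfl, h2⟩, by rw [h2]; exact hab⟩

private theorem R01_nb_b {V : Type} {a b : V} (hab : a ≠ b) (S : Finset V) [DecidableEq V] :
    nb (SimpleGraph.edge a b) b S = S.filter (fun w => w = a) := by
  ext w
  rw [mem_nb, mem_filter, SimpleGraph.edge_adj]
  constructor
  · rintro ⟨h1, (h2 | h2), h3⟩
    · exact absurd h2.1.symm hab
    · exact ⟨h1, h2.2⟩
  · rintro ⟨h1, h2⟩
    exact ⟨h1, Or.inr ⟨rfl, h2⟩, by rw [h2]; exact hab.symm⟩

private theorem R01_nb_o {V : Type} {a b v : V} (ha : v ≠ a) (hb : v ≠ b) (S : Finset V) :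
    nb (SimpleGraph.edge a b) v S = ∅ := by
  rw [eq_empty_iff_forall_notMem]
  intro w hw
  rw [mem_nb, SimpleGraph.edge_adj] at hw
  rcases hw.2.1 with h | h
  · exact ha h.1
  · exact hb h.1

theorem p_R1 : S_R1 := by
  intro V _ _ π G F a b hT hFG hab hπ hF
  have hne : a ≠ b := hab.ne
  have hdis : Disjoint F (SimpleGraph.edge a b) := by
    rw [SimpleGraph.disjoint_left]
    intro u v h1 h2
    rw [SimpleGraph.edge_adj] at h2
    rcases h2.1 with h | h
    · rw [h.1, h.2] at h1; exact hF h1
    · rw [h.1, h.2] at h1; exact hF h1.symm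
  have e1 : π b ≠ π a - 1 := by rw [hπ]; exact zmod3_ne3 _
  have e2 : π a = π b - 1 := by rw [hπ]; ring
  have e3 : π a ≠ π b + 1 := by
    rw [hπ]
    generalize π a = i
    revert i; decide
  have hfil : ∀ (S : Finset V) (c : V), c ∈ S → (S.filter (fun w => w = c)).card = 1 := by
    intro S c hc
    rw [filter_eq' S c, if_pos hc, card_singleton]
  have hfil0 : ∀ (S : Finset V) (c : V), c ∉ S → (S.filter (fun w => w = c)).card = 0 := by
    intro S c hc
    rw [filter_eq' S c, if_neg hc, card_empty]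
  refine ⟨F ⊔ SimpleGraph.edge a b, le_sup_left, ?_, ?_, ?_, ?_⟩
  · refine sup_le hFG ?_
    intro u v h
    rw [SimpleGraph.edge_adj] at h
    rcases h.1 with h | h
    · rw [h.1, h.2]; exact hab
    · rw [h.1, h.2]; exact hab.symm
  · intro v
    rw [imb_sup hdis]
    have key : imb π (SimpleGraph.edge a b) univ v =
        (if v = a then 1 else 0) - (if v = b then 1 else 0) := by
      by_cases ha : v = a
      · subst ha
        rw [if_pos rfl, if_neg hne, imb, dg, dg, R01_nb_a hne, R01_nb_a hne,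
          hfil _ _ (mem_pt.2 ⟨mem_univ _, hπ⟩), hfil0 _ _ (fun h => e1 (mem_pt.1 h).2)]
        norm_num
      · by_cases hb : v = b
        · subst hb
          rw [if_pos rfl, if_neg ha, imb, dg, dg, R01_nb_b hne, R01_nb_b hne,
            hfil _ _ (mem_pt.2 ⟨mem_univ _, e2⟩), hfil0 _ _ (fun h => e3 (mem_pt.1 h).2)]
          norm_num
        · rw [if_neg ha, if_neg hb, imb, dg, dg, R01_nb_o ha hb, R01_nb_o ha hb]
          simp
    rw [key]
    ring
  · intro v
    rw [dg_sup hdis]
    have key : dg (SimpleGraph.edge a b) v univ =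
        (if v = a then 1 else 0) + (if v = b then 1 else 0) := by
      by_cases ha : v = a
      · subst ha
        rw [if_pos rfl, if_neg hne, dg, R01_nb_a hne, hfil _ _ (mem_univ _)]
      · by_cases hb : v = b
        · subst hb
          rw [if_pos rfl, if_neg ha, dg, R01_nb_b hne, hfil _ _ (mem_univ _)]
        · rw [if_neg ha, if_neg hb, dg, R01_nb_o ha hb]
          simp
    rw [key]
    ring
  · intro u v h
    rcases h with h | h
    · exact Or.inl h
    · rw [SimpleGraph.edge_adj] at h
      exact Or.inr h.1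

end DH
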