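import Pool.Agent.Lib.MP_fe8cb7_co.h25.StM

/-!
# Daykin-Haggkvist problem: one step of the vortex
-/

open Finset

namespace DH

private theorem V1_sub {V : Type} [DecidableEq V] {P Q S : Finset V} (h : P ⊆ Q) :
    |((S ∩ P).card : ℝ) - (S ∩ Q).card| ≤ |(P.card : ℝ) - Q.card| := by
  have h1 : (S ∩ P).card ≤ (S ∩ Q).card := card_le_card (inter_subset_inter_left h)
  have h2 : (S ∩ Q).card ≤ (S ∩ P).card + (Q \ P).card := by
    refine le_trans (card_le_card ?_) (card_union_le _ _)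
    intro x hx
    rw [mem_inter] at hx
    rw [mem_union, mem_inter, mem_sdiff]
    by_cases hxP : x ∈ P
    · exact Or.inl ⟨hx.1, hxP⟩
    · exact Or.inr ⟨hx.2, hxP⟩
  have h3 : (Q \ P).card + P.card = Q.card := card_sdiff_add_card_eq_card h
  have h1' : ((S ∩ P).card : ℝ) ≤ (S ∩ Q).card := by exact_mod_cast h1
  have h2' : ((S ∩ Q).card : ℝ) ≤ (S ∩ P).card + (Q \ P).card := by exact_mod_cast h2
  have h3' : ((Q \ P).card : ℝ) + P.card = Q.card := by exact_mod_cast h3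
  rw [abs_sub_comm, abs_of_nonneg (by linarith), abs_sub_comm, abs_of_nonneg (by linarith)]
  linarith

private theorem V1_sub' {V : Type} [DecidableEq V] {P Q S : Finset V} (h : P ⊆ Q ∨ Q ⊆ P) :
    |((S ∩ P).card : ℝ) - (S ∩ Q).card| ≤ |(P.card : ℝ) - Q.card| := by
  rcases h with h | h
  · exact V1_sub h
  · rw [abs_sub_comm, abs_sub_comm (P.card : ℝ)]
    exact V1_sub h

/-- adjust the size of a set -/
private theorem V1_adj {V : Type} [DecidableEq V] {P Q : Finset V} {m : ℕ} (h : P ⊆ Q)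
    (hm : m ≤ Q.card) : ∃ R : Finset V, R ⊆ Q ∧ R.card = m ∧ (R ⊆ P ∨ P ⊆ R) := by
  rcases le_total m P.card with h1 | h1
  · obtain ⟨R, hR, hRc⟩ := exists_subset_card_eq h1
    exact ⟨R, hR.trans h, hRc, Or.inl hR⟩
  · obtain ⟨R, hR1, hR2, hRc⟩ := exists_subsuperset_card_eq h h1 hm
    exact ⟨R, hR2, hRc, Or.inr hR1⟩

private theorem V1_asym1 (K : ℕ) : ∀ᶠ N : ℕ in Filter.atTop,
    606 * (K : ℝ) ^ 2 * (N * Real.exp (-((N : ℝ) ^ (1 / 5 : ℝ) / 12))) < 1 := by
  have h1 : Filter.Tendsto (fun N : ℕ => (N : ℝ) ^ (1 / 5 : ℝ) / 12) Filter.atTop Filter.atTop := by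
    refine Filter.Tendsto.atTop_div_const (by norm_num) ?_
    exact (tendsto_rpow_atTop (by norm_num)).comp tendsto_natCast_atTop_atTop
  have h2 := (Real.tendsto_pow_mul_exp_neg_atTop_nhds_zero 5).comp h1
  have h3 : Filter.Tendsto (fun N : ℕ => 606 * (K : ℝ) ^ 2 * 12 ^ 5 *
      (((N : ℝ) ^ (1 / 5 : ℝ) / 12) ^ 5 * Real.exp (-((N : ℝ) ^ (1 / 5 : ℝ) / 12))))
      Filter.atTop (nhds 0) := by
    have := h2.const_mul (606 * (K : ℝ) ^ 2 * 12 ^ 5)
    rw [mul_zero] at this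
    exact this
  filter_upwards [h3.eventually (gt_mem_nhds one_pos)] with N hN
  refine lt_of_eq_of_lt ?_ hN
  have h4 : ((N : ℝ) ^ (1 / 5 : ℝ)) ^ 5 = N := by
    rw [← Real.rpow_natCast, ← Real.rpow_mul (Nat.cast_nonneg _)]
    norm_num
  rw [div_pow, h4]
  field_simp

private theorem V1_asym2 (K : ℕ) (hK : 2 ≤ K) : ∀ᶠ N : ℕ in Filter.atTop,
    2 * K ≤ N ∧ 2 * (N : ℝ) ^ (3 / 5 : ℝ) + 2 ≤ ((N : ℝ) / (2 * K)) ^ (2 / 3 : ℝ) := by
  have h1 : Filter.Tendsto (fun N : ℕ => (N : ℝ) ^ (1 / 15 : ℝ)) Filter.atTop Filter.atTop :=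
    (tendsto_rpow_atTop (by norm_num)).comp tendsto_natCast_atTop_atTop
  filter_upwards [h1.eventually_ge_atTop (4 * (2 * K : ℝ) ^ (2 / 3 : ℝ)),
    Filter.eventually_ge_atTop (2 * K)] with N hN hN2
  refine ⟨hN2, ?_⟩
  have hN1 : (1 : ℝ) ≤ N := by
    have : 1 ≤ N := by omega
    exact_mod_cast this
  have hK0 : (0 : ℝ) < 2 * K := by
    have : 0 < 2 * K := by omega
    exact_mod_cast this
  have h2 : (1 : ℝ) ≤ (N : ℝ) ^ (3 / 5 : ℝ) := Real.one_le_rpow hN1 (by norm_num)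
  have h3 : (N : ℝ) ^ (2 / 3 : ℝ) = (N : ℝ) ^ (1 / 15 : ℝ) * (N : ℝ) ^ (3 / 5 : ℝ) := by
    rw [← Real.rpow_add (by linarith)]
    norm_num
  rw [Real.div_rpow (by linarith) hK0.le, le_div_iff₀ (Real.rpow_pos_of_pos hK0 _), h3]
  have h5 : 0 < (2 * (K : ℝ)) ^ (2 / 3 : ℝ) := Real.rpow_pos_of_pos hK0 _
  calc (2 * (N : ℝ) ^ (3 / 5 : ℝ) + 2) * (2 * (K : ℝ)) ^ (2 / 3 : ℝ)
      ≤ (4 * (N : ℝ) ^ (3 / 5 : ℝ)) * (2 * (K : ℝ)) ^ (2 / 3 : ℝ) := by
        refine mul_le_mul_of_nonneg_right ?_ h5.le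
        linarith
    _ = (4 * (2 * (K : ℝ)) ^ (2 / 3 : ℝ)) * (N : ℝ) ^ (3 / 5 : ℝ) := by ring
    _ ≤ (N : ℝ) ^ (1 / 15 : ℝ) * (N : ℝ) ^ (3 / 5 : ℝ) :=
        mul_le_mul_of_nonneg_right hN (by linarith)

theorem p_V1 : S_V1 := by
  intro hCol K hK
  classical
  obtain ⟨N0, hN0⟩ := Filter.eventually_atTop.1 ((V1_asym1 K).and (V1_asym2 K hK))
  refine ⟨N0, ?_⟩
  intro V _ π U N 𝓕 hN hEq hF hFc
  obtain ⟨has1, hNK, has2⟩ := hN0 N hN
  have hNpos : 0 < N := by omega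
  have hNr : (1 : ℝ) ≤ N := by exact_mod_cast hNpos
  have hK0 : (0 : ℝ) < K := by
    have : 0 < K := by omega
    exact_mod_cast this
  have : NeZero K := ⟨by omega⟩
  -- the set family
  set 𝓖 : Finset (Finset V) := (𝓕 ×ˢ (univ : Finset (ZMod 3))).image (fun p => pt π p.1 p.2) ∪
    (univ : Finset (ZMod 3)).image (fun i => pt π U i) with h𝓖
  have hGc : 𝓖.card ≤ 303 * K * N := by
    have h1 : 𝓖.card ≤ 𝓕.card * 3 + 3 := by
      refine le_trans (card_union_le _ _) (add_le_add (le_trans card_image_le ?_)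
        (le_trans card_image_le ?_))
      · rw [card_product, card_univ, ZMod.card]
      · rw [card_univ, ZMod.card]
    have h2 : 1 ≤ K * N := Nat.mul_pos (by omega) hNpos
    nlinarith
  have hUc : U.card = 3 * N := by
    rw [card_eq_sum_card_fiberwise (f := π) (t := univ) (fun _ _ => mem_coe.2 (mem_univ _))]
    have : ∀ i ∈ (univ : Finset (ZMod 3)), (U.filter (fun v => π v = i)).card = N :=
      fun i _ => hEq i
    rw [sum_congr rfl this, sum_const, card_univ, ZMod.card, smul_eq_mul]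
  set t : ℝ := (N : ℝ) ^ (3 / 5 : ℝ) with ht
  have ht1 : 1 ≤ t := Real.one_le_rpow hNr (by norm_num)
  have htN : t ≤ N := by
    have := Real.rpow_le_rpow_of_exponent_le hNr (show (3 / 5 : ℝ) ≤ 1 by norm_num)
    rwa [Real.rpow_one] at this
  obtain ⟨f, hf⟩ := hCol V (Fin K) U 𝓖 t
    (by
      intro S hS
      rw [h𝓖, mem_union, mem_image, mem_image] at hS
      rcases hS with ⟨p, hp, rfl⟩ | ⟨i, -, rfl⟩
      · exact (pt_subset _).trans (hF _ (mem_product.1 hp).1)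
      · exact pt_subset _)
    (by linarith)
    (by
      rw [hUc]
      push_cast
      linarith)
    (by
      have e1 : t ^ 2 / (4 * (U.card : ℝ)) = (N : ℝ) ^ (1 / 5 : ℝ) / 12 := by
        rw [hUc, ht, ← Real.rpow_natCast, ← Real.rpow_mul (by linarith)]
        have e2 : (N : ℝ) ^ (3 / 5 * ((2 : ℕ) : ℝ)) = (N : ℝ) ^ (1 / 5 : ℝ) * N := by
          conv_rhs => rw [← Real.rpow_one (N : ℝ)]
          rw [← Real.rpow_mul (by linarith), ← Real.rpow_add (by linarith)]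
          norm_num
        rw [e2]
        push_cast
        have : (N : ℝ) ≠ 0 := by linarith
        field_simp
        ring
      rw [e1, Fintype.card_fin]
      have e3 : (𝓖.card : ℝ) ≤ 303 * K * N := by exact_mod_cast hGc
      have e4 : 0 < Real.exp (-((N : ℝ) ^ (1 / 5 : ℝ) / 12)) := Real.exp_pos _
      calc 2 * (𝓖.card : ℝ) * K * Real.exp (-((N : ℝ) ^ (1 / 5 : ℝ) / 12))
          ≤ 2 * (303 * K * N) * K * Real.exp (-((N : ℝ) ^ (1 / 5 : ℝ) / 12)) := by
            refine mul_le_mul_of_nonneg_right ?_ e4.le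
            refine mul_le_mul_of_nonneg_right ?_ hK0.le
            linarith
        _ = 606 * (K : ℝ) ^ 2 * (N * Real.exp (-((N : ℝ) ^ (1 / 5 : ℝ) / 12))) := by ring
        _ < 1 := has1)
  rw [Fintype.card_fin] at hf
  -- floor
  set N' : ℕ := N / K with hN'
  have hN'1 : (N' : ℝ) * K ≤ N := by exact_mod_cast Nat.div_mul_le_self N K
  have hN'2 : (N : ℝ) < (N' + 1) * K := by
    have : N < (N' + 1) * K := by
      have h1 := Nat.lt_mul_div_succ N (show 0 < K by omega)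
      rw [mul_comm]
      exact h1
    exact_mod_cast this
  have hN'3 : (N : ℝ) / (2 * K) ≤ N' := by
    rw [div_le_iff₀ (by linarith)]
    have : (2 * K : ℝ) ≤ N := by exact_mod_cast hNK
    nlinarith
  have hN'0 : (0 : ℝ) < N' := lt_of_lt_of_le (by positivity) hN'3
  have hNle : N' ≤ N := Nat.div_le_self _ _
  -- the new set
  have hadj : ∀ i : ZMod 3, ∃ R : Finset V, R ⊆ pt π U i ∧ R.card = N' ∧
      (R ⊆ (pt π U i).filter (fun x => f x = 0) ∨ (pt π U i).filter (fun x => f x = 0) ⊆ R) :=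
    fun i => V1_adj (filter_subset _ _) (by rw [hEq i]; exact hNle)
  choose R hR1 hR2 hR3 using hadj
  set U' : Finset V := U.filter (fun x => x ∈ R (π x)) with hU'
  have hpt : ∀ i, pt π U' i = R i := by
    intro i
    ext x
    rw [mem_pt, hU', mem_filter]
    constructor
    · rintro ⟨⟨h1, h2⟩, rfl⟩
      exact h2
    · intro h
      have h1 := mem_pt.1 (hR1 i h)
      exact ⟨⟨h1.1, by rw [h1.2]; exact h⟩, h1.2⟩
  have hptS : ∀ (S : Finset V) i, pt π (S ∩ U') i = pt π S i ∩ R i := by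
    intro S i
    rw [← hpt i]
    ext x
    simp only [mem_pt, mem_inter]
    tauto
  refine ⟨U', filter_subset _ _, fun i => by rw [hpt, hR2], ?_⟩
  intro S hS i
  have hS1 := hf (pt π S i) (by
    rw [h𝓖, mem_union, mem_image]
    exact Or.inl ⟨(S, i), mem_product.2 ⟨hS, mem_univ _⟩, rfl⟩) 0
  have hU1 := hf (pt π U i) (by
    rw [h𝓖, mem_union, mem_image, mem_image]
    exact Or.inr ⟨i, mem_univ _, rfl⟩) 0
  rw [hEq i] at hU1
  have e1 := V1_sub' (S := pt π S i) (hR3 i)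
  rw [hR2] at e1
  have e2 : pt π S i ∩ (pt π U i).filter (fun x => f x = 0) =
      (pt π S i).filter (fun x => f x = 0) := by
    ext x
    simp only [mem_inter, mem_filter, mem_pt]
    constructor
    · rintro ⟨h1, -, h3⟩
      exact ⟨h1, h3⟩
    · rintro ⟨h1, h3⟩
      exact ⟨h1, ⟨hF S hS h1.1, h1.2⟩, h3⟩
  rw [e2] at e1
  have e3 : |(N' : ℝ) - (N : ℝ) / K| ≤ 1 := by
    rw [abs_le]
    constructor
    · rw [neg_le_sub_iff_le_add, div_le_iff₀ hK0]
      linarith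
    · have : (N' : ℝ) ≤ N / K := by
        rw [le_div_iff₀ hK0]
        exact hN'1
      linarith
  have e4 : |((pt π S i ∩ R i).card : ℝ) - ((pt π S i).card : ℝ) / K| ≤ 2 * t + 1 := by
    rw [abs_le] at *
    constructor <;>
    · have h1 := e1.1
      have h2 := e1.2
      have h3 : |(N' : ℝ) - ((pt π U i).filter (fun x => f x = 0)).card| ≤ t + 1 := by
        rw [abs_le]
        constructor <;> linarith [e3.1, e3.2, hU1.1, hU1.2]
      linarith [hS1.1, hS1.2]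
  have e5 : ((pt π S i).card : ℝ) ≤ N := by
    rw [← hEq i]
    exact_mod_cast card_le_card (pt_mono (hF S hS) i)
  have e5' : (0 : ℝ) ≤ ((pt π S i).card : ℝ) := Nat.cast_nonneg _
  rw [hptS]
  have hNpos' : (0 : ℝ) < N := by linarith
  have e6 : ((pt π S i ∩ R i).card : ℝ) / (N' : ℝ) - ((pt π S i).card : ℝ) / N =
      (((pt π S i ∩ R i).card : ℝ) - ((pt π S i).card : ℝ) / K) / N' +
      ((pt π S i).card : ℝ) / N * ((N / K - N') / N') := by
    field_simp
    ring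
  rw [e6]
  refine (abs_add_le _ _).trans ?_
  have e7 : |(((pt π S i ∩ R i).card : ℝ) - ((pt π S i).card : ℝ) / K) / N'| ≤
      (2 * t + 1) / N' := by
    rw [abs_div, abs_of_pos hN'0]
    exact div_le_div_of_nonneg_right e4 hN'0.le
  have e8 : |((pt π S i).card : ℝ) / N * ((N / K - N') / N')| ≤ 1 / N' := by
    rw [abs_mul, abs_of_nonneg (div_nonneg e5' hNpos'.le), abs_div, abs_of_pos hN'0]
    have h1 : ((pt π S i).card : ℝ) / N ≤ 1 := by
      rw [div_le_one hNpos']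
      exact e5
    have h2 : |(N : ℝ) / K - N'| / N' ≤ 1 / N' := by
      rw [abs_sub_comm] at e3
      exact div_le_div_of_nonneg_right e3 hN'0.le
    calc ((pt π S i).card : ℝ) / N * (|(N : ℝ) / K - N'| / N')
        ≤ 1 * (|(N : ℝ) / K - N'| / N') := mul_le_mul_of_nonneg_right h1 (by positivity)
      _ ≤ 1 / N' := by rw [one_mul]; exact h2
  have e9 : (2 * t + 1) / (N' : ℝ) + 1 / N' ≤ (N' : ℝ) ^ (-(1 / 3 : ℝ)) := by
    rw [← add_div, div_le_iff₀ hN'0]
    have h1 : (N' : ℝ) ^ (-(1 / 3 : ℝ)) * N' = (N' : ℝ) ^ (2 / 3 : ℝ) := by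
      conv_lhs => rw [← Real.rpow_one (N' : ℝ)]
      rw [← Real.rpow_mul hN'0.le, ← Real.rpow_add hN'0]
      norm_num
    rw [h1]
    have h2 : ((N : ℝ) / (2 * K)) ^ (2 / 3 : ℝ) ≤ (N' : ℝ) ^ (2 / 3 : ℝ) :=
      Real.rpow_le_rpow (by positivity) hN'3 (by norm_num)
    linarith
  linarith

end DH
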