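import Pool.Agent.Lib.MP_fe8cb7_co.h25.StM

/-!
# Daykin-Haggkvist problem: the vortex
-/

open Finset

namespace DH

private theorem V2_card {V : Type} {π : V → ZMod 3} {U : Finset V} {N : ℕ} (h : Eq3 π U N) :
    U.card = 3 * N := by
  classical
  rw [card_eq_sum_card_fiberwise (f := π) (t := univ) (fun _ _ => mem_coe.2 (mem_univ _))]
  have : ∀ i ∈ (univ : Finset (ZMod 3)), (U.filter (fun v => π v = i)).card = N :=
    fun i _ => h i
  rw [sum_congr rfl this, sum_const, card_univ, ZMod.card, smul_eq_mul]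

private theorem V2_div {K n m : ℕ} : n / K ^ (m + 1) = n / K ^ m / K := by
  rw [pow_succ, Nat.div_div_eq_div_mul]

private theorem V2_anti {K n l m : ℕ} (hK : 8 ≤ K) (h : m ≤ l) : n / K ^ l ≤ n / K ^ m :=
  Nat.div_le_div_left (Nat.pow_le_pow_right (by omega) h) (by positivity)

/-- the chain of sets with the one step estimates -/
private theorem V2_chain (hCol : S_Col) (hV1 : S_V1) {K : ℕ} (hK : 8 ≤ K) : ∃ N0 : ℕ, 1 ≤ N0 ∧
    ∀ (V : Type) [Fintype V] [DecidableEq V] (π : V → ZMod 3) (G : SimpleGraph V) (n l : ℕ),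
    Eq3 π univ n → N0 ≤ n / K ^ l → ∀ m ≤ l,
    ∃ U : ℕ → Finset V, U 0 = univ ∧ (∀ j < m, U (j + 1) ⊆ U j) ∧
      (∀ j ≤ m, Eq3 π (U j) (n / K ^ j)) ∧
      ∀ j < m, ∀ v ∈ U (j - 1), ∀ i : ZMod 3,
        |(dg G v (pt π (U (j + 1)) i) : ℝ) / ((n / K ^ (j + 1) : ℕ) : ℝ) -
          (dg G v (pt π (U j) i) : ℝ) / ((n / K ^ j : ℕ) : ℝ)|
            ≤ ((n / K ^ (j + 1) : ℕ) : ℝ) ^ (-(1 / 3 : ℝ)) := by
  classical
  obtain ⟨N0, hN0⟩ := hV1 hCol K (by omega)
  refine ⟨max N0 1, le_max_right _ _, ?_⟩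
  intro V _ _ π G n l hEq hn m
  have hn1 : N0 ≤ n / K ^ l := le_trans (le_max_left _ _) hn
  have hn2 : 1 ≤ n / K ^ l := le_trans (le_max_right _ _) hn
  induction m with
  | zero =>
    intro _
    refine ⟨fun _ => univ, rfl, fun j hj => absurd hj (Nat.not_lt_zero _), ?_,
      fun j hj => absurd hj (Nat.not_lt_zero _)⟩
    intro j hj
    obtain rfl : j = 0 := by omega
    rw [pow_zero, Nat.div_one]
    exact hEq
  | succ m ih =>
    intro hm
    obtain ⟨U, hU0, hUs, hUe, hUd⟩ := ih (by omega)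
    have hnm : N0 ≤ n / K ^ m := le_trans hn1 (V2_anti hK (by omega))
    have hnm1 : 1 ≤ n / K ^ (m + 1) := le_trans hn2 (V2_anti hK hm)
    have hcard : ((U (m - 1)).image (fun v => nb G v (U m))).card ≤ 100 * K * (n / K ^ m) := by
      refine le_trans card_image_le ?_
      rw [V2_card (hUe (m - 1) (by omega))]
      have h1 : n / K ^ (m - 1) ≤ 2 * K * (n / K ^ m) := by
        rcases Nat.eq_zero_or_pos m with rfl | hpos
        · have : 1 * (n / K ^ 0) ≤ 2 * K * (n / K ^ 0) := Nat.mul_le_mul_right _ (by omega)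
          simpa using this
        · obtain ⟨m', rfl⟩ : ∃ m', m = m' + 1 := ⟨m - 1, by omega⟩
          have h2 : n / K ^ m' < K * (n / K ^ m' / K + 1) :=
            Nat.lt_mul_div_succ _ (by omega)
          have h3 : 1 ≤ n / K ^ (m' + 1) := le_trans hn2 (V2_anti hK (by omega))
          rw [Nat.add_sub_cancel]
          rw [V2_div] at h3 ⊢
          have h4 : K * (n / K ^ m' / K + 1) ≤ K * (2 * (n / K ^ m' / K)) :=
            Nat.mul_le_mul_left _ (by omega)
          have h5 : K * (2 * (n / K ^ m' / K)) = 2 * K * (n / K ^ m' / K) := by ring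
          omega
      have h6 : 3 * (2 * K * (n / K ^ m)) ≤ 100 * K * (n / K ^ m) := by
        have : 3 * (2 * K * (n / K ^ m)) = 6 * (K * (n / K ^ m)) := by ring
        have h7 : 100 * K * (n / K ^ m) = 100 * (K * (n / K ^ m)) := by ring
        omega
      omega
    obtain ⟨W, hW1, hW2, hW3⟩ := hN0 V π (U m) (n / K ^ m)
      ((U (m - 1)).image (fun v => nb G v (U m))) hnm (hUe m le_rfl)
      (by
        intro S hS
        obtain ⟨v, -, rfl⟩ := mem_image.1 hS
        exact nb_subset v) hcard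
    obtain ⟨X, hX1, hX2⟩ : ∃ X : ℕ → Finset V, (∀ j ≤ m, X j = U j) ∧ ∀ j, m < j → X j = W :=
      ⟨fun j => if j ≤ m then U j else W, fun j hj => if_pos hj, fun j hj => if_neg (by omega)⟩
    refine ⟨X, ?_, ?_, ?_, ?_⟩
    · rw [hX1 0 (Nat.zero_le _)]
      exact hU0
    · intro j hj
      rcases Nat.lt_or_ge j m with h | h
      · rw [hX1 (j + 1) (by omega), hX1 j (by omega)]
        exact hUs j h
      · obtain rfl : j = m := by omega
        rw [hX2 (j + 1) (by omega), hX1 j le_rfl]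
        exact hW1
    · intro j hj
      rcases Nat.lt_or_ge m j with h | h
      · obtain rfl : j = m + 1 := by omega
        rw [hX2 (m + 1) (by omega), V2_div]
        exact hW2
      · rw [hX1 j h]
        exact hUe j h
    · intro j hj v hv i
      rw [hX1 (j - 1) (by omega)] at hv
      rcases Nat.lt_or_ge j m with h | h
      · rw [hX1 (j + 1) (by omega), hX1 j (by omega)]
        exact hUd j h v hv i
      · obtain rfl : j = m := by omega
        rw [hX2 (j + 1) (by omega), hX1 j le_rfl]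
        have h1 := hW3 (nb G v (U j)) (mem_image.2 ⟨v, hv, rfl⟩) i
        have h2 : pt π (nb G v (U j) ∩ W) i = nb G v (pt π W i) := by
          ext w
          simp only [mem_pt, mem_inter, mem_nb]
          constructor
          · rintro ⟨⟨⟨-, h3⟩, h4⟩, h5⟩
            exact ⟨⟨h4, h5⟩, h3⟩
          · rintro ⟨⟨h4, h5⟩, h3⟩
            exact ⟨⟨⟨hW1 h4, h3⟩, h4⟩, h5⟩
        have h3 : pt π (nb G v (U j)) i = nb G v (pt π (U j) i) := by
          ext w
          simp only [mem_pt, mem_nb]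
          tauto
        rw [h2, h3] at h1
        rw [V2_div]
        exact h1

theorem p_V2 : S_V2 := by
  intro hCol hV1 K hK δ hδ
  classical
  obtain ⟨N1, hN11, hN1⟩ := V2_chain hCol hV1 hK
  have htend : Filter.Tendsto (fun N : ℕ => 2 * (N : ℝ) ^ (-(1 / 3 : ℝ))) Filter.atTop
      (nhds 0) := by
    have := ((tendsto_rpow_neg_atTop (show (0 : ℝ) < 1 / 3 by norm_num)).comp
      tendsto_natCast_atTop_atTop).const_mul 2
    rw [mul_zero] at this
    exact this
  obtain ⟨N2, hN2⟩ := Filter.eventually_atTop.1 (htend.eventually (gt_mem_nhds hδ))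
  refine ⟨max N1 N2, ?_⟩
  intro V _ _ π G n l hEq hn
  have hn1 : N1 ≤ n / K ^ l := le_trans (le_max_left _ _) hn
  have hn2 : N2 ≤ n / K ^ l := le_trans (le_max_right _ _) hn
  obtain ⟨U, hU0, hUs, hUe, hUd⟩ := hN1 V π G n l hEq hn1 l le_rfl
  have hanti : ∀ i j, i ≤ j → j ≤ l → U j ⊆ U i := by
    intro i j hij
    induction hij with
    | refl => exact fun _ _ hx => hx
    | step _ ih => exact fun hl _ hx => ih (by omega) (hUs _ (by omega) hx)
  have hpos : ∀ j ≤ l, (0 : ℝ) < ((n / K ^ j : ℕ) : ℝ) := by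
    intro j hj
    have h1 := V2_anti (n := n) hK hj
    have h2 : 0 < n / K ^ j := by omega
    exact_mod_cast h2
  have key : ∀ j ≤ l, ∀ v ∈ U (j - 2), ∀ i : ZMod 3,
      |(dg G v (pt π (U j) i) : ℝ) / ((n / K ^ j : ℕ) : ℝ) - (dg G v (pt π univ i) : ℝ) / n| ≤
        2 * ((n / K ^ j : ℕ) : ℝ) ^ (-(1 / 3 : ℝ)) := by
    intro j
    induction j with
    | zero =>
      intro _ v _ i
      rw [pow_zero, Nat.div_one, hU0, sub_self, abs_zero]
      positivity
    | succ j ih =>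
      intro hj v hv i
      have hj' : j ≤ l := by omega
      have h1 := ih hj' v (hanti (j - 2) (j + 1 - 2) (by omega) (by omega) hv) i
      have h2 := hUd j (by omega) v (by
        have : j + 1 - 2 = j - 1 := by omega
        rwa [this] at hv) i
      have h3 : ((n / K ^ j : ℕ) : ℝ) ^ (-(1 / 3 : ℝ)) ≤
          ((n / K ^ (j + 1) : ℕ) : ℝ) ^ (-(1 / 3 : ℝ)) / 2 := by
        have h4 : 8 * ((n / K ^ (j + 1) : ℕ) : ℝ) ≤ ((n / K ^ j : ℕ) : ℝ) := by
          have h5 : 8 * (n / K ^ (j + 1)) ≤ n / K ^ j := by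
            rw [V2_div]
            calc 8 * (n / K ^ j / K) ≤ K * (n / K ^ j / K) := Nat.mul_le_mul_right _ hK
              _ ≤ n / K ^ j := Nat.mul_div_le _ _
          exact_mod_cast h5
        have h6 := hpos (j + 1) hj
        calc ((n / K ^ j : ℕ) : ℝ) ^ (-(1 / 3 : ℝ))
            ≤ (8 * ((n / K ^ (j + 1) : ℕ) : ℝ)) ^ (-(1 / 3 : ℝ)) :=
              Real.rpow_le_rpow_of_nonpos (by positivity) h4 (by norm_num)
          _ = (8 : ℝ) ^ (-(1 / 3 : ℝ)) * ((n / K ^ (j + 1) : ℕ) : ℝ) ^ (-(1 / 3 : ℝ)) :=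
              Real.mul_rpow (by norm_num) h6.le
          _ = ((n / K ^ (j + 1) : ℕ) : ℝ) ^ (-(1 / 3 : ℝ)) / 2 := by
              have h7 : (8 : ℝ) ^ (-(1 / 3 : ℝ)) = 1 / 2 := by
                rw [show (8 : ℝ) = 2 ^ (3 : ℝ) by norm_num, ← Real.rpow_mul (by norm_num)]
                norm_num [Real.rpow_neg_one]
              rw [h7]
              ring
      have h8 : (dg G v (pt π (U (j + 1)) i) : ℝ) / ((n / K ^ (j + 1) : ℕ) : ℝ) -
          (dg G v (pt π univ i) : ℝ) / n =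
          ((dg G v (pt π (U (j + 1)) i) : ℝ) / ((n / K ^ (j + 1) : ℕ) : ℝ) -
          (dg G v (pt π (U j) i) : ℝ) / ((n / K ^ j : ℕ) : ℝ)) +
          ((dg G v (pt π (U j) i) : ℝ) / ((n / K ^ j : ℕ) : ℝ) -
          (dg G v (pt π univ i) : ℝ) / n) := by ring
      rw [h8]
      refine (abs_add_le _ _).trans ?_
      linarith
  obtain ⟨X, hX1, hX2⟩ : ∃ X : ℕ → Finset V, (∀ j ≤ l, X j = U j) ∧ ∀ j, l < j → X j = ∅ :=
    ⟨fun j => if j ≤ l then U j else ∅, fun j hj => if_pos hj, fun j hj => if_neg (by omega)⟩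
  refine ⟨X, ?_, ?_, ?_, ?_, ?_⟩
  · rw [hX1 0 (Nat.zero_le _)]
    exact hU0
  · intro j
    rcases Nat.lt_or_ge j l with h | h
    · rw [hX1 (j + 1) (by omega), hX1 j (by omega)]
      exact hUs j h
    · rw [hX2 (j + 1) (by omega)]
      exact empty_subset _
  · intro j hj
    rw [hX1 j hj]
    exact hUe j hj
  · intro j hj
    exact hX2 j hj
  · intro j hj v hv i
    rw [hX1 (j - 2) (by omega)] at hv
    rw [hX1 j hj]
    refine (key j hj v hv i).trans ?_
    exact (hN2 _ (le_trans hn2 (V2_anti hK hj))).le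

end DH
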