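import Pool.Agent.Lib.MP_fe8cb7_co.h25.P_N2
import Pool.Agent.Lib.MP_fe8cb7_co.h25.P_N3
import Pool.Agent.Lib.MP_fe8cb7_co.h25.P_N4
import Pool.Agent.Lib.MP_fe8cb7_co.h25.P_N5
import Pool.Agent.Lib.MP_fe8cb7_co.h25.P_N6
import Pool.Agent.Lib.MP_fe8cb7_co.h25.P_N7
import Pool.Agent.Lib.MP_fe8cb7_co.h25.P_N8m
import Pool.Agent.Lib.MP_fe8cb7_co.h25.P_N8a
import Pool.Agent.Lib.MP_fe8cb7_co.h25.P_N8b
import Pool.Agent.Lib.MP_fe8cb7_co.h25.P_N8c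
import Pool.Agent.Lib.MP_fe8cb7_co.h25.P_N9
import Pool.Agent.Lib.MP_fe8cb7_co.h25.P_N10
import Pool.Agent.Lib.MP_fe8cb7_co.h25.P_N11
import Pool.Agent.Lib.MP_fe8cb7_co.h25.P_F1a
import Pool.Agent.Lib.MP_fe8cb7_co.h25.P_F1c
import Pool.Agent.Lib.MP_fe8cb7_co.h25.P_F1
import Pool.Agent.Lib.MP_fe8cb7_co.h25.P_F2
import Pool.Agent.Lib.MP_fe8cb7_co.h25.P_F3
import Pool.Agent.Lib.MP_fe8cb7_co.h25.P_F4a
import Pool.Agent.Lib.MP_fe8cb7_co.h25.P_F4b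
import Pool.Agent.Lib.MP_fe8cb7_co.h25.P_F5
import Pool.Agent.Lib.MP_fe8cb7_co.h25.P_F6cde
import Pool.Agent.Lib.MP_fe8cb7_co.h25.P_F7
import Pool.Agent.Lib.MP_fe8cb7_co.h25.P_F8ab
import Pool.Agent.Lib.MP_fe8cb7_co.h25.P_F8c
import Pool.Agent.Lib.MP_fe8cb7_co.h25.P_F9
import Pool.Agent.Lib.MP_fe8cb7_co.h25.P_F10
import Pool.Agent.Lib.MP_fe8cb7_co.h25.P_R01
import Pool.Agent.Lib.MP_fe8cb7_co.h25.P_R2
import Pool.Agent.Lib.MP_fe8cb7_co.h25.P_R3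
import Pool.Agent.Lib.MP_fe8cb7_co.h25.P_AD1
import Pool.Agent.Lib.MP_fe8cb7_co.h25.P_AD2
import Pool.Agent.Lib.MP_fe8cb7_co.h25.P_Col
import Pool.Agent.Lib.MP_fe8cb7_co.h25.P_Cells
import Pool.Agent.Lib.MP_fe8cb7_co.h25.P_C1
import Pool.Agent.Lib.MP_fe8cb7_co.h25.P_C2
import Pool.Agent.Lib.MP_fe8cb7_co.h25.P_C3
import Pool.Agent.Lib.MP_fe8cb7_co.h25.P_C4
import Pool.Agent.Lib.MP_fe8cb7_co.h25.P_Hall
import Pool.Agent.Lib.MP_fe8cb7_co.h25.P_C5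
import Pool.Agent.Lib.MP_fe8cb7_co.h25.P_C6
import Pool.Agent.Lib.MP_fe8cb7_co.h25.P_C7
import Pool.Agent.Lib.MP_fe8cb7_co.h25.P_A0
import Pool.Agent.Lib.MP_fe8cb7_co.h25.P_A1
import Pool.Agent.Lib.MP_fe8cb7_co.h25.P_A2
import Pool.Agent.Lib.MP_fe8cb7_co.h25.P_A3
import Pool.Agent.Lib.MP_fe8cb7_co.h25.P_A4
import Pool.Agent.Lib.MP_fe8cb7_co.h25.P_A5
import Pool.Agent.Lib.MP_fe8cb7_co.h25.P_A6
import Pool.Agent.Lib.MP_fe8cb7_co.h25.P_A7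
import Pool.Agent.Lib.MP_fe8cb7_co.h25.P_V1
import Pool.Agent.Lib.MP_fe8cb7_co.h25.P_V2
import Pool.Agent.Lib.MP_fe8cb7_co.h25.P_M1
import Pool.Agent.Lib.MP_fe8cb7_co.h25.P_M3
import Pool.Agent.Lib.MP_fe8cb7_co.h25.P_M4

/-!
# Daykin-Haggkvist problem: assembly
-/

open Finset

namespace DH

/-- the nibble theorem -/
theorem nib_holds : Nib :=
  p_N11 (p_N10 p_N4 p_N8a p_N8b p_N8c p_N9 p_N2 (p_N3 p_N2) p_N5 p_N6 p_N7 p_N8m)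

theorem reb : Reb := p_R3 p_R0 p_R1 p_R2

/-- modular form: a fractional theorem with minimum degree `(1 - c) N` and weights `O(1/N)`
gives the decomposition theorem for all `α < c` -/
theorem mainG_of (c C0 : ℝ) (hC0 : 0 < C0) (hc : c ≤ 1 / 7) (hF : Frac c C0) :
    MainG c := by
  have hAD : AD c := p_AD1 c C0 hC0 (by linarith) hF nib_holds reb
  have hCD : CD c := p_C7 p_Col p_Cells p_C1 p_C2 p_C3 p_C4 p_Hall p_C5 p_C6 c (by linarith)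
    (p_AD2 c hAD)
  exact p_M3 p_Col p_V1 p_V2 p_M1 p_M2 p_A0 p_A1 p_A2 p_A3 p_A4 p_A5 p_A6 p_A7 c hc hCD

/-- the fractional theorem with minimum degree `(9/10) N` -/
theorem frac_tenth : Frac (1 / 10) 3 := by
  apply p_F10
  apply p_F9
  intro A B C _ _ _ ab bc ac N gA gB gC s hT
  obtain ⟨P, Q, m, y, hS⟩ := p_F4b p_F1a p_F1c p_F1 p_F2 p_F3 p_F4a A B C ab bc ac N gA gB gC s hT
  obtain ⟨Ap, pm, M, Yp, Ym, t, h1, h2, h3, h4, ht, h5, h6, h7, h8, h9, h10⟩ :=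
    p_F8c p_F5a p_F5 p_F6U p_F6a p_F6b p_F6c p_F6d p_F6e p_F7 p_F8a p_F8b p_F8s
      A B C ab bc ac N gA gB gC s P Q m y hT hS
  obtain ⟨g1, g2⟩ := p_F8d Ap pm M Yp Ym t ht h5 h6 h7 h8 h9 h10
  exact ⟨P, Q, m, y, Ap, pm, M, Yp, Ym, hS, h1, h2, h3, h4, g1, g2⟩

theorem admissible_of (α : ℝ) (hα : α < 1 / 10) : Admissible α :=
  p_M4 (1 / 10) (mainG_of (1 / 10) 3 (by norm_num) (by norm_num) frac_tenth) α hα

end DH
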