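import Pool.Agent.Lib.MP_fe8cb7_co.h25.Basic

/-!
# Daykin-Haggkvist problem: finite expectations over independent random subsets
-/

open Finset

namespace DH

/-- `E F(S)`, where `S` is a random subset of `X` which contains each `t ∈ X` independently
with probability `p t` -/
noncomputable def Ex {τ : Type} [DecidableEq τ] (X : Finset τ) (p : τ → ℝ)
    (F : Finset τ → ℝ) : ℝ :=
  ∑ S ∈ X.powerset, ((∏ t ∈ S, p t) * ∏ t ∈ X \ S, (1 - p t)) * F S

variable {τ : Type} [DecidableEq τ] {X : Finset τ} {p : τ → ℝ}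

theorem Ex_one : Ex X p (fun _ => 1) = 1 := by
  have := (prod_add p (fun t => 1 - p t) X).symm
  simp only [Ex, mul_one]
  rw [this]
  exact prod_eq_one fun t _ => by ring

theorem Ex_add (F F' : Finset τ → ℝ) :
    Ex X p (fun S => F S + F' S) = Ex X p F + Ex X p F' := by
  simp only [Ex, mul_add, sum_add_distrib]

theorem Ex_mul (c : ℝ) (F : Finset τ → ℝ) :
    Ex X p (fun S => c * F S) = c * Ex X p F := by
  simp only [Ex, mul_sum]
  exact sum_congr rfl fun S _ => by ring

theorem Ex_const (c : ℝ) : Ex X p (fun _ => c) = c := by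
  have := Ex_mul (X := X) (p := p) c (fun _ => 1)
  simpa [Ex_one] using this

theorem Ex_sub (F F' : Finset τ → ℝ) :
    Ex X p (fun S => F S - F' S) = Ex X p F - Ex X p F' := by
  simp only [Ex, mul_sub, sum_sub_distrib]

theorem Ex_sum {ι : Type} (I : Finset ι) (F : ι → Finset τ → ℝ) :
    Ex X p (fun S => ∑ i ∈ I, F i S) = ∑ i ∈ I, Ex X p (F i) := by
  simp only [Ex, mul_sum]
  exact sum_comm

theorem Ex_weight_nonneg (hp : ∀ t ∈ X, 0 ≤ p t ∧ p t ≤ 1) {S : Finset τ} (hS : S ⊆ X) :
    0 ≤ (∏ t ∈ S, p t) * ∏ t ∈ X \ S, (1 - p t) := by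
  refine mul_nonneg (prod_nonneg fun t ht => (hp t (hS ht)).1)
    (prod_nonneg fun t ht => sub_nonneg.2 (hp t (mem_sdiff.1 ht).1).2)

theorem Ex_mono (hp : ∀ t ∈ X, 0 ≤ p t ∧ p t ≤ 1) {F F' : Finset τ → ℝ}
    (h : ∀ S ⊆ X, F S ≤ F' S) : Ex X p F ≤ Ex X p F' :=
  sum_le_sum fun S hS => mul_le_mul_of_nonneg_left (h S (mem_powerset.1 hS))
    (Ex_weight_nonneg hp (mem_powerset.1 hS))

theorem Ex_congr {F F' : Finset τ → ℝ} (h : ∀ S ⊆ X, F S = F' S) : Ex X p F = Ex X p F' :=
  sum_congr rfl fun S hS => by rw [h S (mem_powerset.1 hS)]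

theorem Ex_nonneg (hp : ∀ t ∈ X, 0 ≤ p t ∧ p t ≤ 1) {F : Finset τ → ℝ}
    (h : ∀ S ⊆ X, 0 ≤ F S) : 0 ≤ Ex X p F := by
  have := Ex_mono hp (F := fun _ => 0) h
  rwa [Ex_const] at this

/-- if `E F < c` then `F S < c` for some `S` -/
theorem Ex_exists (hp : ∀ t ∈ X, 0 ≤ p t ∧ p t ≤ 1) {F : Finset τ → ℝ} {c : ℝ}
    (h : Ex X p F < c) : ∃ S ⊆ X, F S < c := by
  by_contra hc
  push Not at hc
  have := Ex_mono hp (F := fun _ => c) hc
  rw [Ex_const] at this
  linarith

open Classical in
/-- the triangles of `H` -/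
noncomputable def triSet {V : Type} [Fintype V] [DecidableEq V] (H : SimpleGraph V) :
    Finset (Finset V) := univ.filter (fun t => H.IsNClique 3 t)

theorem mem_triSet {V : Type} [Fintype V] [DecidableEq V] {H : SimpleGraph V} {t : Finset V} :
    t ∈ triSet H ↔ H.IsNClique 3 t := by
  classical
  simp [triSet]

/-- the triangles of `H` through `x` and `y` -/
noncomputable def blkV {V : Type} [Fintype V] [DecidableEq V] (H : SimpleGraph V) (x y : V) :
    Finset (Finset V) := (triSet H).filter (fun t => x ∈ t ∧ y ∈ t)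

/-- the triangles of `H` through `x` and `z` or through `y` and `z` -/
noncomputable def blkE {V : Type} [Fintype V] [DecidableEq V] (H : SimpleGraph V) (x y z : V) :
    Finset (Finset V) := (triSet H).filter (fun t => z ∈ t ∧ (x ∈ t ∨ y ∈ t))

/-- weight of the surviving triangles at the edge `x y` when the set `S` of triangles was chosen -/
noncomputable def DS {V : Type} [Fintype V] [DecidableEq V] (H : SimpleGraph V)
    (W : Finset V → ℝ) (x y : V) (S : Finset (Finset V)) : ℝ :=
  ∑ z ∈ cn H x y, if S ∩ blkE H x y z = ∅ then W {x, y, z} else 0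

/-- number of surviving edges from `v` to part `i` -/
noncomputable def dS {V : Type} [Fintype V] [DecidableEq V] (π : V → ZMod 3) (H : SimpleGraph V)
    (v : V) (i : ZMod 3) (S : Finset (Finset V)) : ℝ :=
  ∑ u ∈ nb H v (pt π univ i), if S ∩ blkV H v u = ∅ then (1 : ℝ) else 0

/-- number of edges from `v` to part `i` in at least two chosen triangles -/
noncomputable def B1 {V : Type} [Fintype V] [DecidableEq V] (π : V → ZMod 3) (H : SimpleGraph V)
    (v : V) (i : ZMod 3) (S : Finset (Finset V)) : ℝ :=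
  ∑ u ∈ nb H v (pt π univ i), if 2 ≤ (S ∩ blkV H v u).card then (1 : ℝ) else 0

/-- number of chosen triangles at `v` whose edge `v x`, `x` in part `k`, is in another one -/
noncomputable def B2 {V : Type} [Fintype V] [DecidableEq V] (π : V → ZMod 3) (H : SimpleGraph V)
    (v : V) (k : ZMod 3) (S : Finset (Finset V)) : ℝ :=
  ∑ x ∈ nb H v (pt π univ k),
    if 2 ≤ (S ∩ blkV H v x).card then ((S ∩ blkV H v x).card : ℝ) else 0

/-- number of chosen triangles at `v` whose edge opposite to `v` is in another one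
(`i`, `k` are the two parts different from the part of `v`) -/
noncomputable def B3 {V : Type} [Fintype V] [DecidableEq V] (π : V → ZMod 3) (H : SimpleGraph V)
    (v : V) (i k : ZMod 3) (S : Finset (Finset V)) : ℝ :=
  ∑ u ∈ nb H v (pt π univ i), ∑ x ∈ nb H v (pt π univ k) ∩ nb H u univ,
    if ({v, u, x} : Finset V) ∈ S ∩ blkV H u x ∧ 2 ≤ (S ∩ blkV H u x).card then (1 : ℝ) else 0

end DH
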