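import Pool.Agent.Lib.MP_fe8cb7_co.h25.StA

/-!
Daykin-Haggkvist problem, piece A7 (helper96).
-/

open Finset

namespace DH

private theorem A7_adj {V ι : Type} [DecidableEq ι] (F : ι → SimpleGraph V) (I : Finset ι)
    (x y : V) : (I.sup F).Adj x y ↔ ∃ i ∈ I, (F i).Adj x y := by
  induction I using Finset.induction_on with
  | empty => simp
  | insert i I _ ih =>
    rw [sup_insert, SimpleGraph.sup_adj, ih]
    simp [or_and_right, exists_or]

private theorem A7_family {V ι : Type} [DecidableEq ι] (F : ι → SimpleGraph V) (I : Finset ι)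
    (h : ∀ i ∈ I, Dec (F i)) (hd : ∀ i ∈ I, ∀ j ∈ I, i ≠ j → Disjoint (F i) (F j)) :
    Dec (I.sup F) := by
  induction I using Finset.induction_on with
  | empty => rw [sup_empty]; exact dec_bot
  | insert i I hi ih =>
    rw [sup_insert]
    refine Dec.sup (h i (mem_insert_self _ _)) (ih (fun j hj => h j (mem_insert_of_mem hj))
      (fun j hj k hk => hd j (mem_insert_of_mem hj) k (mem_insert_of_mem hk))) ?_
    rw [SimpleGraph.disjoint_left]
    intro x y h1 h2
    obtain ⟨j, hj, h3⟩ := (A7_adj F I x y).1 h2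
    have hne : i ≠ j := by rintro rfl; exact hi hj
    exact SimpleGraph.disjoint_left.1
      (hd i (mem_insert_self _ _) j (mem_insert_of_mem hj) hne) x y h1 h3

theorem p_A7 : S_A7 := by
  intro V _ _ abs 𝓢 𝓦 D hsub hdec hd1 hd2 hd3 hD
  classical
  set F : SimpleGraph V → SimpleGraph V := fun W => if W ∈ 𝓦 then abs W ⊔ W else abs W with hF
  have hDF : D = 𝓢.sup F := by
    ext x y
    rw [hD, A7_adj]
    constructor
    · rintro (⟨W, hW, h⟩ | ⟨W, hW, h⟩)
      · refine ⟨W, hsub hW, ?_⟩
        rw [hF]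
        simp only [if_pos hW]
        exact Or.inr h
      · refine ⟨W, hW, ?_⟩
        rw [hF]
        by_cases hW' : W ∈ 𝓦
        · simp only [if_pos hW']
          exact Or.inl h
        · simp only [if_neg hW']
          exact h
    · rintro ⟨W, hW, h⟩
      rw [hF] at h
      by_cases hW' : W ∈ 𝓦
      · simp only [if_pos hW'] at h
        rcases h with h | h
        · exact Or.inr ⟨W, hW, h⟩
        · exact Or.inl ⟨W, hW', h⟩
      · simp only [if_neg hW'] at h
        exact Or.inr ⟨W, hW, h⟩
  rw [hDF]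
  refine A7_family F 𝓢 ?_ ?_
  · intro W hW
    rw [hF]
    by_cases hW' : W ∈ 𝓦
    · simp only [if_pos hW']
      exact (hdec W hW).2
    · simp only [if_neg hW']
      exact (hdec W hW).1
  · intro W hW W' hW' hne
    have h11 := hd1 W hW W' hW' hne
    have h12 := hd2 W hW W' hW'
    have h21 := (hd2 W' hW' W hW).symm
    rw [hF]
    by_cases ha : W ∈ 𝓦 <;> by_cases hb : W' ∈ 𝓦
    · simp only [if_pos ha, if_pos hb]
      exact disjoint_sup_left.2 ⟨disjoint_sup_right.2 ⟨h11, h12⟩,
        disjoint_sup_right.2 ⟨h21, hd3 W ha W' hb hne⟩⟩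
    · simp only [if_pos ha, if_neg hb]
      exact disjoint_sup_left.2 ⟨h11, h21⟩
    · simp only [if_neg ha, if_pos hb]
      exact disjoint_sup_right.2 ⟨h11, h12⟩
    · simp only [if_neg ha, if_neg hb]
      exact h11

end DH
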