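import Pool.Agent.Lib.MP_fe8cb7_co.h25.StC

/-! [C5] covering the reserved edges which are left. -/

open Finset

namespace DH

section

variable {V : Type} [DecidableEq V] {π : V → ZMod 3} {D Q : SimpleGraph V} {W Z : Finset V}
  {q : ℕ} {ρ χ : V → Fin q}

/-- neighbours of `w` in the next part -/
private noncomputable def C5_X (π : V → ZMod 3) (D : SimpleGraph V) (Z : Finset V) (w : V) :
    Finset V := nb D w (pt π Z (π w + 1))

/-- neighbours of `w` in the previous part -/
private noncomputable def C5_Y (π : V → ZMod 3) (D : SimpleGraph V) (Z : Finset V) (w : V) :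
    Finset V := nb D w (pt π Z (π w - 1))

private theorem C5_mX {w x : V} : x ∈ C5_X π D Z w ↔ x ∈ Z ∧ π x = π w + 1 ∧ D.Adj w x := by
  simp only [C5_X, mem_nb, mem_pt, and_assoc]

private theorem C5_mY {w x : V} : x ∈ C5_Y π D Z w ↔ x ∈ Z ∧ π x = π w - 1 ∧ D.Adj w x := by
  simp only [C5_Y, mem_nb, mem_pt, and_assoc]

/-- the conflict relation -/
private def C5_bad (x y x' y' : V) : Prop := (x = x' ∧ y = y') ∨ (x = y' ∧ y = x')

/-- good partial system of matchings -/
private def C5_good (π : V → ZMod 3) (D Q : SimpleGraph V) (Z : Finset V) (W' : Finset V)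
    (F : V → V → V) : Prop :=
  (∀ w ∈ W', ∀ x ∈ C5_X π D Z w, F w x ∈ C5_Y π D Z w ∧ Q.Adj x (F w x)) ∧
  (∀ w ∈ W', Set.InjOn (F w) (C5_X π D Z w)) ∧
  (∀ w ∈ W', ∀ w' ∈ W', w ≠ w' → ∀ x ∈ C5_X π D Z w, ∀ x' ∈ C5_X π D Z w',
    ¬ C5_bad x (F w x) x' (F w' x'))

private theorem C5_arith1 (a b : ZMod 3) (h : a + 1 = b + 1) : a = b := by
  revert a b; decide

private theorem C5_arith2 (a b : ZMod 3) (h : a + 1 = b - 1) (h' : a - 1 = b + 1) : False := by
  revert a b; decide

private theorem C5_exists (hHall : S_Hall) (m : ℕ) (hWZ : Disjoint W Z)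
    (hD : ∀ x y, D.Adj x y → (x ∈ W ∧ y ∈ Z ∧ Res π ρ χ x y) ∨ (y ∈ W ∧ x ∈ Z ∧ Res π ρ χ y x))
    (hbal : ∀ w ∈ W, dg D w (pt π Z (π w + 1)) = dg D w (pt π Z (π w - 1)))
    (hm : ∀ i s t, ((pt π W i).filter (fun w => ρ w = s ∧ χ w = t)).card ≤ m)
    (hdeg : ∀ w ∈ W, ∀ x ∈ Z, D.Adj w x → ∀ i : ZMod 3, i ≠ π w → i ≠ π x →
      dg D w (pt π Z i) + 2 * m ≤ 2 * (nb D w (pt π Z i) ∩ nb Q x (pt π Z i)).card)
    (W' : Finset V) (hW' : W' ⊆ W) : ∃ F : V → V → V, C5_good π D Q Z W' F := by
  classical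
  have hres : ∀ w ∈ W, ∀ x ∈ Z, D.Adj w x → Res π ρ χ w x := by
    intro w hw x hx hwx
    rcases hD w x hwx with h | h
    · exact h.2.2
    · exact absurd hx (disjoint_left.1 hWZ h.1)
  have hrX : ∀ w ∈ W, ∀ x ∈ C5_X π D Z w, ρ x = ρ w := by
    intro w hw x hx
    obtain ⟨h1, h2, h3⟩ := C5_mX.1 hx
    rcases hres w hw x h1 h3 with h | h
    · exact h.2
    · exact absurd (h2.symm.trans h.1) (zmod3_ne3 _)
  have hrY : ∀ w ∈ W, ∀ x ∈ C5_Y π D Z w, χ x = χ w := by
    intro w hw x hx
    obtain ⟨h1, h2, h3⟩ := C5_mY.1 hx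
    rcases hres w hw x h1 h3 with h | h
    · exact absurd (h.1.symm.trans h2) (zmod3_ne3 _)
    · exact h.2
  induction W' using Finset.induction_on with
  | empty =>
    refine ⟨fun _ x => x, ?_, ?_, ?_⟩
    · intro w hw; exact absurd hw (notMem_empty w)
    · intro w hw; exact absurd hw (notMem_empty w)
    · intro w hw; exact absurd hw (notMem_empty w)
  | insert w W' hw ih =>
    obtain ⟨F, g1, g2, g3⟩ := ih ((subset_insert _ _).trans hW')
    have hwW : w ∈ W := hW' (mem_insert_self _ _)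
    have hW'W : ∀ w' ∈ W', w' ∈ W := fun w' h => hW' (mem_insert_of_mem h)
    set C : Finset V := (pt π W (π w)).filter (fun w' => ρ w' = ρ w ∧ χ w' = χ w) with hC
    have hCm : C.card ≤ m := hm _ _ _
    -- the relation
    let r : V → V → Prop := fun x y => Q.Adj x y ∧
      ∀ w' ∈ W', ∀ x' ∈ C5_X π D Z w', ¬ C5_bad x y x' (F w' x')
    -- conflicts
    have hconf : ∀ x ∈ C5_X π D Z w, ∀ y ∈ C5_Y π D Z w, ∀ w' ∈ W', ∀ x' ∈ C5_X π D Z w',
        C5_bad x y x' (F w' x') → w' ∈ C ∧ x = x' ∧ y = F w' x' := by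
      intro x hx y hy w' hw' x' hx' hb
      have hF := (g1 w' hw' x' hx').1
      obtain ⟨_, px, _⟩ := C5_mX.1 hx
      obtain ⟨_, py, _⟩ := C5_mY.1 hy
      obtain ⟨_, px', _⟩ := C5_mX.1 hx'
      obtain ⟨_, pF, _⟩ := C5_mY.1 hF
      rcases hb with ⟨e1, e2⟩ | ⟨e1, e2⟩
      · refine ⟨?_, e1, e2⟩
        rw [hC, mem_filter, mem_pt]
        refine ⟨⟨hW'W w' hw', ?_⟩, ?_, ?_⟩
        · apply C5_arith1
          rw [← px', ← px, e1]
        · rw [← hrX w' (hW'W w' hw') x' hx', ← hrX w hwW x hx, e1]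
        · rw [← hrY w' (hW'W w' hw') _ hF, ← hrY w hwW y hy, e2]
      · exfalso
        apply C5_arith2 (π w) (π w')
        · rw [← px, ← pF, e1]
        · rw [← py, ← px', e2]
    have hcardXY : (C5_X π D Z w).card = (C5_Y π D Z w).card := hbal w hwW
    obtain ⟨f, hf1, hf2⟩ := hHall V (C5_X π D Z w) (C5_Y π D Z w) r hcardXY (by
      intro x hx
      obtain ⟨hxZ, px, hwx⟩ := C5_mX.1 hx
      have h1 := hdeg w hwW x hxZ hwx (π w - 1) (zmod3_ne2 _) (by
        rw [px]; exact (zmod3_ne3 _).symm)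
      have h2 : nb D w (pt π Z (π w - 1)) ∩ nb Q x (pt π Z (π w - 1)) ⊆
          (C5_Y π D Z w).filter (fun y => r x y) ∪ C.image (fun w' => F w' x) := by
        intro y hy
        rw [mem_inter] at hy
        have hyY : y ∈ C5_Y π D Z w := hy.1
        have hQ : Q.Adj x y := (mem_nb.1 hy.2).2
        rw [mem_union]
        by_cases hr : r x y
        · exact Or.inl (mem_filter.2 ⟨hyY, hr⟩)
        · right
          have : ∃ w' ∈ W', ∃ x' ∈ C5_X π D Z w', C5_bad x y x' (F w' x') := by
            by_contra hcon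
            push Not at hcon
            exact hr ⟨hQ, hcon⟩
          obtain ⟨w', hw', x', hx', hb⟩ := this
          obtain ⟨c1, c2, c3⟩ := hconf x hx y hyY w' hw' x' hx' hb
          refine mem_image.2 ⟨w', c1, ?_⟩
          rw [c3, c2]
      have h3 := (card_le_card h2).trans (card_union_le _ _)
      have h4 : (C.image (fun w' => F w' x)).card ≤ m := card_image_le.trans hCm
      have h5 : (C5_Y π D Z w).card = dg D w (pt π Z (π w - 1)) := rfl
      omega) (by
      intro y hy
      obtain ⟨hyZ, py, hwy⟩ := C5_mY.1 hy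
      have h1 := hdeg w hwW y hyZ hwy (π w + 1) (zmod3_ne1 _) (by
        rw [py]; exact (zmod3_ne3 _))
      have h2 : nb D w (pt π Z (π w + 1)) ∩ nb Q y (pt π Z (π w + 1)) ⊆
          (C5_X π D Z w).filter (fun x => r x y) ∪
            (C ∩ W').biUnion (fun w' => (C5_X π D Z w').filter (fun x => F w' x = y)) := by
        intro x hx
        rw [mem_inter] at hx
        have hxX : x ∈ C5_X π D Z w := hx.1
        have hQ : Q.Adj x y := (mem_nb.1 hx.2).2.symm
        rw [mem_union]
        by_cases hr : r x y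
        · exact Or.inl (mem_filter.2 ⟨hxX, hr⟩)
        · right
          have : ∃ w' ∈ W', ∃ x' ∈ C5_X π D Z w', C5_bad x y x' (F w' x') := by
            by_contra hcon
            push Not at hcon
            exact hr ⟨hQ, hcon⟩
          obtain ⟨w', hw', x', hx', hb⟩ := this
          obtain ⟨c1, c2, c3⟩ := hconf x hxX y hy w' hw' x' hx' hb
          refine mem_biUnion.2 ⟨w', mem_inter.2 ⟨c1, hw'⟩, mem_filter.2 ⟨?_, ?_⟩⟩
          · rw [c2]; exact hx'
          · rw [c3, c2]
      have h3 := (card_le_card h2).trans (card_union_le _ _)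
      have h4 : ((C ∩ W').biUnion
          (fun w' => (C5_X π D Z w').filter (fun x => F w' x = y))).card ≤ m := by
        refine card_biUnion_le.trans ?_
        calc ∑ w' ∈ C ∩ W', ((C5_X π D Z w').filter (fun x => F w' x = y)).card
            ≤ ∑ w' ∈ C ∩ W', 1 := by
              apply sum_le_sum
              intro w' hw'
              rw [card_le_one]
              intro a ha b hb
              rw [mem_filter] at ha hb
              exact g2 w' (mem_inter.1 hw').2 ha.1 hb.1 (ha.2.trans hb.2.symm)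
          _ = (C ∩ W').card := by simp
          _ ≤ C.card := card_le_card inter_subset_left
          _ ≤ m := hCm
      have h5 : (C5_X π D Z w).card = dg D w (pt π Z (π w + 1)) := rfl
      omega)
    refine ⟨Function.update F w f, ?_, ?_, ?_⟩
    · intro w' hw' x hx
      rcases mem_insert.1 hw' with rfl | h
      · rw [Function.update_self]
        exact ⟨(hf1 x hx).1, (hf1 x hx).2.1⟩
      · have hne : w' ≠ w := fun e => hw (e ▸ h)
        rw [Function.update_of_ne hne]
        exact g1 w' h x hx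
    · intro w' hw'
      rcases mem_insert.1 hw' with rfl | h
      · rw [Function.update_self]
        exact hf2
      · have hne : w' ≠ w := fun e => hw (e ▸ h)
        rw [Function.update_of_ne hne]
        exact g2 w' h
    · intro w1 hw1 w2 hw2 hne12 x hx x' hx'
      rcases mem_insert.1 hw1 with rfl | h1 <;> rcases mem_insert.1 hw2 with rfl | h2
      · exact absurd rfl hne12
      · rw [Function.update_self, Function.update_of_ne (Ne.symm hne12)]
        exact (hf1 x hx).2.2 w2 h2 x' hx'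
      · rw [Function.update_self, Function.update_of_ne hne12]
        intro hb
        refine (hf1 x' hx').2.2 w1 h1 x hx ?_
        rcases hb with ⟨e1, e2⟩ | ⟨e1, e2⟩
        · exact Or.inl ⟨e1.symm, e2.symm⟩
        · exact Or.inr ⟨e2.symm, e1.symm⟩
      · have hne1 : w1 ≠ w := fun e => hw (e ▸ h1)
        have hne2 : w2 ≠ w := fun e => hw (e ▸ h2)
        rw [Function.update_of_ne hne1, Function.update_of_ne hne2]
        exact g3 w1 h1 w2 h2 hne12 x hx x' hx'

end

theorem p_C5 : S_C5 := by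
  classical
  intro hHall V _ _ π D Q W Z q m ρ χ hWZ hD hbal hm hdeg
  obtain ⟨F, g1, g2, g3⟩ := C5_exists (π := π) (D := D) (Q := Q) (W := W) (Z := Z) (ρ := ρ)
    (χ := χ) hHall m hWZ hD hbal hm hdeg W (Subset.refl W)
  have hnWZ : ∀ v, v ∈ W → v ∈ Z → False := fun v h1 h2 => disjoint_left.1 hWZ h1 h2
  let T : Finset (Finset V) := W.biUnion fun w => (C5_X π D Z w).image fun x => {w, x, F w x}
  have mT : ∀ t, t ∈ T ↔ ∃ w ∈ W, ∃ x ∈ C5_X π D Z w, t = {w, x, F w x} := by
    intro t
    simp only [T, mem_biUnion, mem_image, eq_comm]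
  have hFY : ∀ w ∈ W, ∀ x ∈ C5_X π D Z w, F w x ∈ Z ∧ π (F w x) = π w - 1 ∧ D.Adj w (F w x) :=
    fun w hw x hx => C5_mY.1 (g1 w hw x hx).1
  have hxF : ∀ w ∈ W, ∀ x ∈ C5_X π D Z w, ∀ x' ∈ C5_X π D Z w, x ≠ F w x' := by
    intro w hw x hx x' hx' e
    have h1 := (C5_mX.1 hx).2.1
    have h2 := (hFY w hw x' hx').2.1
    rw [← e, h1] at h2
    exact zmod3_ne3 _ h2
  -- pairs inside a triangle
  have hpair : ∀ w ∈ W, ∀ x ∈ C5_X π D Z w, ∀ u v : V, u ≠ v → u ∈ ({w, x, F w x} : Finset V) →
      v ∈ ({w, x, F w x} : Finset V) →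
      (D.Adj u v) ∨ (u = x ∧ v = F w x) ∨ (u = F w x ∧ v = x) := by
    intro w hw x hx u v huv hu hv
    simp only [mem_insert, mem_singleton] at hu hv
    have h1 := (C5_mX.1 hx).2.2
    have h2 := (hFY w hw x hx).2.2
    rcases hu with rfl | rfl | rfl <;> rcases hv with rfl | rfl | rfl
    · exact absurd rfl huv
    · exact Or.inl h1
    · exact Or.inl h2
    · exact Or.inl h1.symm
    · exact absurd rfl huv
    · exact Or.inr (Or.inl ⟨rfl, rfl⟩)
    · exact Or.inl h2.symm
    · exact Or.inr (Or.inr ⟨rfl, rfl⟩)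
    · exact absurd rfl huv
  have hinZ : ∀ w ∈ W, ∀ x ∈ C5_X π D Z w, ∀ u ∈ Z, u ∈ ({w, x, F w x} : Finset V) →
      u = x ∨ u = F w x := by
    intro w hw x hx u hu hut
    simp only [mem_insert, mem_singleton] at hut
    rcases hut with rfl | h
    · exact absurd hu (hnWZ _ hw)
    · exact h
  refine ⟨T, ⟨?_, ?_⟩, ?_, ?_, ?_⟩
  · intro t ht
    obtain ⟨w, hw, x, hx, rfl⟩ := (mT t).1 ht
    rw [SimpleGraph.is3Clique_iff]
    exact ⟨w, x, F w x, Or.inl (C5_mX.1 hx).2.2, Or.inl (hFY w hw x hx).2.2,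
      Or.inr (g1 w hw x hx).2, rfl⟩
  · intro t ht t' ht' hne u hu v hv hu' hv'
    obtain ⟨w, hw, x, hx, rfl⟩ := (mT t).1 ht
    obtain ⟨w', hw', x', hx', rfl⟩ := (mT t').1 ht'
    have hxZ := (C5_mX.1 hx).1
    have hxZ' := (C5_mX.1 hx').1
    have hFZ := (hFY w hw x hx).1
    have hFZ' := (hFY w' hw' x' hx').1
    by_cases hww : w = w'
    · subst hww
      have hxx : x ≠ x' := by
        rintro rfl
        exact hne rfl
      have hFF : F w x ≠ F w x' := fun e => hxx (g2 w hw hx hx' e)
      have h1 := hxF w hw x hx x' hx'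
      have h2 := hxF w hw x' hx' x hx
      have key : ∀ z : V, z ∈ ({w, x, F w x} : Finset V) → z ∈ ({w, x', F w x'} : Finset V) →
          z = w := by
        intro z hz hz'
        simp only [mem_insert, mem_singleton] at hz hz'
        rcases hz with h | h | h
        · exact h
        · rcases hz' with h' | h' | h'
          · exact h'
          · exact absurd (h.symm.trans h') hxx
          · exact absurd (h.symm.trans h') h1
        · rcases hz' with h' | h' | h'
          · exact h'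
          · exact absurd (h'.symm.trans h) h2
          · exact absurd (h.symm.trans h') hFF
      rw [key u hu hu', key v hv hv']
    · by_contra huv
      have hZ : ∀ z : V, z ∈ ({w, x, F w x} : Finset V) → z ∈ ({w', x', F w' x'} : Finset V) →
          z ∈ Z := by
        intro z hz hz'
        simp only [mem_insert, mem_singleton] at hz hz'
        rcases hz with h | h | h
        · rcases hz' with h' | h' | h'
          · exact absurd (h.symm.trans h') hww
          · rw [h']; exact hxZ'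
          · rw [h']; exact hFZ'
        · rw [h]; exact hxZ
        · rw [h]; exact hFZ
      have huZ := hZ u hu hu'
      have hvZ := hZ v hv hv'
      refine g3 w hw w' hw' hww x hx x' hx' ?_
      rcases hinZ w hw x hx u huZ hu with a | a <;> rcases hinZ w hw x hx v hvZ hv with b | b <;>
      rcases hinZ w' hw' x' hx' u huZ hu' with a' | a' <;>
      rcases hinZ w' hw' x' hx' v hvZ hv' with b' | b'
      · exact absurd (a.trans b.symm) huv
      · exact absurd (a.trans b.symm) huv
      · exact absurd (a.trans b.symm) huv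
      · exact absurd (a.trans b.symm) huv
      · exact absurd (a'.trans b'.symm) huv
      · exact Or.inl ⟨a.symm.trans a', b.symm.trans b'⟩
      · exact Or.inr ⟨a.symm.trans a', b.symm.trans b'⟩
      · exact absurd (a'.trans b'.symm) huv
      · exact absurd (a'.trans b'.symm) huv
      · exact Or.inr ⟨b.symm.trans b', a.symm.trans a'⟩
      · exact Or.inl ⟨b.symm.trans b', a.symm.trans a'⟩
      · exact absurd (a'.trans b'.symm) huv
      · exact absurd (a.trans b.symm) huv
      · exact absurd (a.trans b.symm) huv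
      · exact absurd (a.trans b.symm) huv
      · exact absurd (a.trans b.symm) huv
  · -- all edges of `D` are covered
    have key : ∀ w b, w ∈ W → b ∈ Z → Res π ρ χ w b → D.Adj w b → (cov T).Adj w b := by
      intro w b hw hb hr hwb
      refine ⟨hwb.ne, ?_⟩
      rcases hr with ⟨h, _⟩ | ⟨h, _⟩
      · have hbX : b ∈ C5_X π D Z w := C5_mX.2 ⟨hb, h, hwb⟩
        exact ⟨{w, b, F w b}, (mT _).2 ⟨w, hw, b, hbX, rfl⟩, by simp, by simp⟩
      · have hbY : b ∈ C5_Y π D Z w := C5_mY.2 ⟨hb, h, hwb⟩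
        have himg : (C5_X π D Z w).image (F w) = C5_Y π D Z w := by
          apply eq_of_subset_of_card_le
          · intro y hy
            obtain ⟨x, hx, rfl⟩ := mem_image.1 hy
            exact (g1 w hw x hx).1
          · rw [card_image_of_injOn (g2 w hw)]
            exact (hbal w hw).ge
        rw [← himg] at hbY
        obtain ⟨x, hx, rfl⟩ := mem_image.1 hbY
        exact ⟨{w, x, F w x}, (mT _).2 ⟨w, hw, x, hx, rfl⟩, by simp, by simp⟩
    intro a b hab
    rcases hD a b hab with h | h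
    · exact key a b h.1 h.2.1 h.2.2 hab
    · exact (key b a h.1 h.2.1 h.2.2 hab.symm).symm
  · rintro u v ⟨huv, t, ht, hu, hv⟩
    obtain ⟨w, hw, x, hx, rfl⟩ := (mT t).1 ht
    rcases hpair w hw x hx u v huv hu hv with h | ⟨h1, h2⟩ | ⟨h1, h2⟩
    · exact Or.inl h
    · right
      rw [h1, h2]
      exact ⟨(g1 w hw x hx).2, (C5_mX.1 hx).1, (hFY w hw x hx).1⟩
    · right
      rw [h1, h2]
      exact ⟨(g1 w hw x hx).2.symm, (hFY w hw x hx).1, (C5_mX.1 hx).1⟩
  · intro u huZ
    have hex : ∀ v ∈ nb (cov T) u Z, ∃ w ∈ W, ∃ x ∈ C5_X π D Z w,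
        (u = x ∧ v = F w x) ∨ (u = F w x ∧ v = x) := by
      intro v hv
      obtain ⟨hvZ, huv, t, ht, hut, hvt⟩ := mem_nb.1 hv
      obtain ⟨w, hw, x, hx, rfl⟩ := (mT t).1 ht
      refine ⟨w, hw, x, hx, ?_⟩
      rcases hinZ w hw x hx u huZ hut with a | a <;> rcases hinZ w hw x hx v hvZ hvt with b | b
      · exact absurd (a.trans b.symm) huv
      · exact Or.inl ⟨a, b⟩
      · exact Or.inr ⟨a, b⟩
      · exact absurd (a.trans b.symm) huv
    have : Nonempty V := ⟨u⟩
    choose! g hgW x hx hcase using hex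
    rw [dg, dg]
    refine card_le_card_of_injOn g ?_ ?_
    · intro v hv
      have hv' : v ∈ nb (cov T) u Z := by exact_mod_cast hv
      have h1 : D.Adj (g v) u := by
        rcases hcase v hv' with ⟨a, _⟩ | ⟨a, _⟩
        · rw [a]; exact (C5_mX.1 (hx v hv')).2.2
        · rw [a]; exact (hFY _ (hgW v hv') _ (hx v hv')).2.2
      exact mem_coe.2 (mem_nb.2 ⟨hgW v hv', h1.symm⟩)
    · intro v hv v' hv' hgg
      have h1 : v ∈ nb (cov T) u Z := by exact_mod_cast hv
      have h2 : v' ∈ nb (cov T) u Z := by exact_mod_cast hv'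
      have hx1 := hx v h1
      have hx2 := hx v' h2
      have hW1 := hgW v h1
      have c1 := hcase v h1
      have c2 := hcase v' h2
      rw [← hgg] at hx2 c2
      rcases c1 with ⟨a, b⟩ | ⟨a, b⟩ <;> rcases c2 with ⟨a', b'⟩ | ⟨a', b'⟩
      · rw [b, b', ← a, ← a']
      · exact absurd (a.symm.trans a') (hxF _ hW1 _ hx1 _ hx2)
      · exact absurd (a'.symm.trans a) (hxF _ hW1 _ hx2 _ hx1)
      · rw [b, b']
        exact g2 _ hW1 hx1 hx2 (a.symm.trans a')

end DH
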