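import Pool.Agent.Lib.MP_fe8cb7_co.h25.StF

/-!
# Daykin-Haggkvist problem: piece F4b (the normalised solution)
-/

open Finset

namespace DH

/-- the weighted average -/
private noncomputable def F4b_av {B : Type} (S : Finset B) (g f : B → ℝ) : ℝ :=
  (∑ b ∈ S, f b / g b) / (∑ b ∈ S, 1 / g b)

private theorem F4b_av_zero {B : Type} (S : Finset B) (g f : B → ℝ) (hS : S.Nonempty)
    (hg : ∀ b, 0 < g b) : ∑ b ∈ S, (f b - F4b_av S g f) / g b = 0 := by
  have hW : 0 < ∑ b ∈ S, 1 / g b :=
    Finset.sum_pos (fun b _ => by have := hg b; positivity) hS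
  have key : ∀ b ∈ S, (f b - F4b_av S g f) / g b = f b / g b - F4b_av S g f * (1 / g b) := by
    intro b _
    ring
  rw [Finset.sum_congr rfl key, Finset.sum_sub_distrib, ← Finset.mul_sum]
  unfold F4b_av
  rw [div_mul_cancel₀ _ hW.ne']
  ring

open Classical in
theorem p_F4b : S_F4b := by
  intro h1a h1c h1 h2 h3 h4a A B C _ _ _ ab bc ac N gA gB gC s hT
  obtain ⟨x, y0, z, E1, E2, E3⟩ := h4a h1a h1c h1 h2 A B C ab bc ac N gA gB gC s hT
  have hgA : ∀ a, 0 < gA a := fun a => by have := hT.lA a; linarith
  have hgB : ∀ b, 0 < gB b := fun b => by have := hT.lB b; linarith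
  have hgC : ∀ c, 0 < gC c := fun c => by have := hT.lC c; linarith
  obtain ⟨u, v, hu, hv⟩ := h3 h2 B C bc (fun b => 1 / gB b) (fun c => 1 / gC c) y0
    (fun b => by have := hgB b; positivity) (fun c => by have := hgC c; positivity)
  have hne1 : ∀ a, (univ.filter (fun b => ab a b)).Nonempty := by
    intro a
    have h := hT.dAB a
    have hp : 0 < gA a * N := mul_pos (hgA a) hT.N0
    rw [← h] at hp
    exact Finset.card_pos.mp (by exact_mod_cast hp)
  have hne2 : ∀ a, (univ.filter (fun c => ac a c)).Nonempty := by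
    intro a
    have h := hT.dAC a
    have hp : 0 < gA a * N := mul_pos (hgA a) hT.N0
    rw [← h] at hp
    exact Finset.card_pos.mp (by exact_mod_cast hp)
  set X1 : A → ℝ := fun a => F4b_av (univ.filter (fun b => ab a b)) gB (fun b => x a b + u b)
    with hX1
  set X2 : A → ℝ := fun a => F4b_av (univ.filter (fun c => ac a c)) gC (fun c => z a c + v c)
    with hX2
  refine ⟨fun a b => x a b + u b + X2 a, fun a c => z a c + v c + X1 a, fun a => X1 a + X2 a,
    fun b c => y0 b c - u b - v c, ?_⟩
  refine ⟨?_, ?_, ?_, ?_, ?_, ?_, ?_⟩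
  · intro a
    have h := F4b_av_zero (univ.filter (fun b => ab a b)) gB (fun b => x a b + u b) (hne1 a) hgB
    rw [← h]
    refine Finset.sum_congr rfl fun b _ => ?_
    simp only [hX1]
    ring
  · intro a
    have h := F4b_av_zero (univ.filter (fun c => ac a c)) gC (fun c => z a c + v c) (hne2 a) hgC
    rw [← h]
    refine Finset.sum_congr rfl fun c _ => ?_
    simp only [hX2]
    ring
  · intro b
    rw [← hu b]
    refine Finset.sum_congr rfl fun c _ => ?_
    ring
  · intro c
    rw [← hv c]
    refine Finset.sum_congr rfl fun b _ => ?_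
    ring
  · intro a b hab
    rw [← E1 a b hab]
    refine Finset.sum_congr rfl fun c _ => ?_
    ring
  · intro a c hac
    rw [← E2 a c hac]
    refine Finset.sum_congr rfl fun b _ => ?_
    ring
  · intro b c hbc
    rw [← E3 b c hbc]
    refine Finset.sum_congr rfl fun a _ => ?_
    ring

end DH
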