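import Pool.Agent.Lib.MP_fe8cb7_co.h25.StF

open Finset

namespace DH

theorem p_F8d : S_F8d := by
  intro Ap pm M Yp Ym t h1 h2 h3 h4 h5 h6 h7
  have ht : t ≤ 1.1 := by norm_num at *; linarith
  obtain ⟨g1, g2, g3, g4⟩ := h7 ht
  have ht2 : t ≤ 0.8 := by
    by_contra hc
    push Not at hc
    have := g3 hc.le
    norm_num at *
    linarith
  have g5 := g4 ht2
  constructor <;> norm_num at * <;> linarith

theorem p_F6U : S_F6U := by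
  intro x y k s Ω Gp Yp P hx0 hx1 hy0 hy1 hk0 hkx hky hs0 hs1 hGp hYp hΩ hP
  have hs : 0 < s := by linarith
  have hs' : 1 ≤ 1 / s := by rw [le_div_iff₀ hs]; linarith
  have hΩ0 : 0 < Ω := by nlinarith
  rw [show (1 - x) * (1 - y) / s = (1 - x) * (1 - y) * (1 / s) by ring] at hP
  set r := 1 / s with hr
  have key : (1 - x) * (1 - y) * r + 10 / 9 * ((y - k) * Gp + (x - k) * Yp)
      ≤ (7.29 + Gp + Yp) / 7 * Ω := by
    have h1 : (7.29 + Gp + Yp) / 7 * (r - 10 / 9 * (x + y - k)) ≤ (7.29 + Gp + Yp) / 7 * Ω :=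
      mul_le_mul_of_nonneg_left hΩ (by positivity)
    refine le_trans ?_ h1
    have h2 : r - 10 / 9 * (x + y - k) ≥ 7 / 9 := by linarith
    have h3 : 10 / 9 * (y - k) * Gp ≤ Gp / 7 * (r - 10 / 9 * (x + y - k)) := by
      have : 10 / 9 * (y - k) ≤ 1 / 7 * (r - 10 / 9 * (x + y - k)) := by linarith
      nlinarith
    have h4 : 10 / 9 * (x - k) * Yp ≤ Yp / 7 * (r - 10 / 9 * (x + y - k)) := by
      have : 10 / 9 * (x - k) ≤ 1 / 7 * (r - 10 / 9 * (x + y - k)) := by linarith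
      nlinarith
    have h5 : (1 - x) * (1 - y) * r ≤ 7.29 / 7 * (r - 10 / 9 * (x + y - k)) := by
      have h6 : 7 * ((1 - x) * (1 - y)) ≤ 7.29 - 8.1 * (x + y) := by nlinarith
      nlinarith [mul_nonneg (sub_nonneg.2 hs') (add_nonneg hx0 hy0), mul_nonneg hk0 hk0]
    nlinarith
  have := le_trans hP key
  exact le_of_mul_le_mul_right this hΩ0

/-- bilinear functions on a square are nonnegative if they are so at the corners -/
theorem F6_bil (k b x y c0 c1 c2 c3 : ℝ) (hkb : k ≤ b) (hkx : k ≤ x) (hxb : x ≤ b) (hky : k ≤ y)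
    (hyb : y ≤ b)
    (h1 : 0 ≤ c0 + c1 * k + c2 * k + c3 * (k * k)) (h2 : 0 ≤ c0 + c1 * k + c2 * b + c3 * (k * b))
    (h3 : 0 ≤ c0 + c1 * b + c2 * k + c3 * (b * k)) (h4 : 0 ≤ c0 + c1 * b + c2 * b + c3 * (b * b)) :
    0 ≤ c0 + c1 * x + c2 * y + c3 * (x * y) := by
  rcases hkb.eq_or_lt with h | h
  · have hx : x = k := le_antisymm (by linarith) hkx
    have hy : y = k := le_antisymm (by linarith) hky
    rw [hx, hy]; exact h1
  · have e : (b - k) * (b - k) * (c0 + c1 * x + c2 * y + c3 * (x * y))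
        = (b - x) * (b - y) * (c0 + c1 * k + c2 * k + c3 * (k * k))
        + (b - x) * (y - k) * (c0 + c1 * k + c2 * b + c3 * (k * b))
        + (x - k) * (b - y) * (c0 + c1 * b + c2 * k + c3 * (b * k))
        + (x - k) * (y - k) * (c0 + c1 * b + c2 * b + c3 * (b * b)) := by ring
    have hp : 0 < (b - k) * (b - k) := mul_pos (by linarith) (by linarith)
    have h5 : 0 ≤ (b - k) * (b - k) * (c0 + c1 * x + c2 * y + c3 * (x * y)) := by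
      rw [e]
      have a1 := mul_nonneg (mul_nonneg (sub_nonneg.2 hxb) (sub_nonneg.2 hyb)) h1
      have a2 := mul_nonneg (mul_nonneg (sub_nonneg.2 hxb) (sub_nonneg.2 hky)) h2
      have a3 := mul_nonneg (mul_nonneg (sub_nonneg.2 hkx) (sub_nonneg.2 hyb)) h3
      have a4 := mul_nonneg (mul_nonneg (sub_nonneg.2 hkx) (sub_nonneg.2 hky)) h4
      linarith
    exact nonneg_of_mul_nonneg_right h5 hp

/-- the reduction common to all lower bounds -/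
theorem F6_red (x y k s Ω Gm Ym P q : ℝ) (hs0 : 9 / 10 ≤ s) (hq : 0 ≤ q) (hΩ0 : 0 < Ω)
    (hΩ1 : Ω ≤ 1 + 10 / 9 * (1 - s) - (x + y - k))
    (hP : (1 - x) * (1 - y) / s - 10 / 9 * ((y - k) * Gm + (x - k) * Ym) ≤ P * Ω)
    (hF : 0 ≤ (1 - x) * (1 - y) - 10 / 9 * s * ((y - k) * Gm + (x - k) * Ym)
      - q * s * (1 + 10 / 9 * (1 - s) - (x + y - k))) : q ≤ P := by
  have hs : 0 < s := by linarith
  by_contra hc
  push Not at hc
  have h1 : P * Ω < q * Ω := mul_lt_mul_of_pos_right hc hΩ0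
  have h2 : q * Ω ≤ q * (1 + 10 / 9 * (1 - s) - (x + y - k)) := mul_le_mul_of_nonneg_left hΩ1 hq
  have h3 : (1 - x) * (1 - y) / s - 10 / 9 * ((y - k) * Gm + (x - k) * Ym)
      < q * (1 + 10 / 9 * (1 - s) - (x + y - k)) := by linarith
  have h4 : ((1 - x) * (1 - y) / s - 10 / 9 * ((y - k) * Gm + (x - k) * Ym)) * s
      < q * (1 + 10 / 9 * (1 - s) - (x + y - k)) * s := mul_lt_mul_of_pos_right h3 hs
  have h5 : ((1 - x) * (1 - y) / s - 10 / 9 * ((y - k) * Gm + (x - k) * Ym)) * s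
      = (1 - x) * (1 - y) - 10 / 9 * s * ((y - k) * Gm + (x - k) * Ym) := by
    field_simp
  rw [h5] at h4
  linarith

theorem F6_omega (x y k s Ω : ℝ) (hx1 : x ≤ 1 / 10) (hy1 : y ≤ 1 / 10)
    (hk0 : 0 ≤ k) (hs0 : 9 / 10 ≤ s) (hs1 : s ≤ 1)
    (hΩ : 1 / s - 10 / 9 * (x + y - k) ≤ Ω) : 7 / 9 ≤ Ω := by
  have hs : 0 < s := by linarith
  have hs' : 1 ≤ 1 / s := by rw [le_div_iff₀ hs]; linarith
  linarith

/-- the term with `Gm`, `Ym` is small -/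
theorem F6_t (x y k s Gm Ym : ℝ) (hx0 : 0 ≤ x) (hx1 : x ≤ 1 / 10) (hy0 : 0 ≤ y) (hy1 : y ≤ 1 / 10)
    (hk0 : 0 ≤ k) (hkx : k ≤ x) (hky : k ≤ y)
    (hs1 : s ≤ 1) (hGm : 0 ≤ Gm) (hYm : 0 ≤ Ym) :
    10 / 9 * ((y - k) * Gm + (x - k) * Ym)
      ≤ (Gm + Ym) / 7 * (1 + 10 / 9 * (1 - s) - (x + y - k)) := by
  have h1 : (y - k) * Gm ≤ 1 / 10 * Gm := mul_le_mul_of_nonneg_right (by linarith) hGm
  have h2 : (x - k) * Ym ≤ 1 / 10 * Ym := mul_le_mul_of_nonneg_right (by linarith) hYm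
  have h3 : (Gm + Ym) / 7 * 0.8 ≤ (Gm + Ym) / 7 * (1 + 10 / 9 * (1 - s) - (x + y - k)) :=
    mul_le_mul_of_nonneg_left (by norm_num; linarith) (by positivity)
  norm_num at h3
  linarith

theorem F6_corner (k s : ℝ) (hk0 : 0 ≤ k) (hk1 : k ≤ 1/10) (hs0 : 9/10 ≤ s) (hs1 : s ≤ 1) :
    0 ≤ (1-k)*(1-k) - (0.987 - 1.1*k)*s*(1 + 10/9*(1-s) - k) ∧
    0 ≤ 0.9*(1-k) - (0.987 - 1.1*k)*s*(0.9 + 10/9*(1-s)) ∧
    0 ≤ 0.81 - (0.987 - 1.1*k)*s*(0.8 + 10/9*(1-s)+k) := by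
  refine ⟨?_, ?_, ?_⟩ <;>
  nlinarith [mul_nonneg (sub_nonneg.2 hs0) (sub_nonneg.2 hs1), mul_nonneg hk0 (sub_nonneg.2 hk1), mul_nonneg hk0 (sub_nonneg.2 hs1), mul_nonneg hk0 (mul_nonneg (sub_nonneg.2 hs0) (sub_nonneg.2 hs1)), sq_nonneg (s - 0.95)]

theorem F6_a0 (x y k s : ℝ) (hx1 : x ≤ 1 / 10) (hy1 : y ≤ 1 / 10)
    (hk0 : 0 ≤ k) (hkx : k ≤ x) (hky : k ≤ y) (hs0 : 9 / 10 ≤ s) (hs1 : s ≤ 1) :
    0 ≤ (1 - x) * (1 - y) - (0.987 - 1.1 * k) * s * (1 + 10 / 9 * (1 - s) - (x + y - k)) := by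
  obtain ⟨h1, h2, h3⟩ := F6_corner k s hk0 (by linarith) hs0 hs1
  have := F6_bil k (1/10) x y
    (1 - (0.987 - 1.1 * k) * s * (1 + 10 / 9 * (1 - s) + k))
    (-1 + (0.987 - 1.1 * k) * s) (-1 + (0.987 - 1.1 * k) * s) 1 (by linarith) hkx hx1 hky hy1
    (by linarith) (by norm_num at *; linarith) (by norm_num at *; linarith)
    (by norm_num at *; linarith)
  linarith

theorem F6_corner_b (k s : ℝ) (hk0 : 0 ≤ k) (hk1 : k ≤ 1/10) (hs0 : 9/10 ≤ s) (hs1 : s ≤ 1) :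
    0 ≤ (1-k)*(1-k) - 0.889*s*(1 + 10/9*(1-s) - k) ∧
    0 ≤ 0.9*(1-k) - 0.889*s*(0.9 + 10/9*(1-s)) ∧
    0 ≤ 0.81 - 0.889*s*(0.8 + 10/9*(1-s)+k) := by
  refine ⟨?_, ?_, ?_⟩ <;>
  nlinarith [mul_nonneg (sub_nonneg.2 hs0) (sub_nonneg.2 hs1), mul_nonneg hk0 (sub_nonneg.2 hk1), mul_nonneg (sub_nonneg.2 hk1) (sub_nonneg.2 hs0), mul_nonneg hk0 (sub_nonneg.2 hs1), sq_nonneg (s - 0.95), sq_nonneg (s - 0.9 - k/2)]

theorem F6_b0 (x y k s : ℝ) (hx1 : x ≤ 1 / 10) (hy1 : y ≤ 1 / 10)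
    (hk0 : 0 ≤ k) (hkx : k ≤ x) (hky : k ≤ y) (hs0 : 9 / 10 ≤ s) (hs1 : s ≤ 1) :
    0 ≤ (1 - x) * (1 - y) - 0.889 * s * (1 + 10 / 9 * (1 - s) - (x + y - k)) := by
  obtain ⟨h1, h2, h3⟩ := F6_corner_b k s hk0 (by linarith) hs0 hs1
  have := F6_bil k (1/10) x y
    (1 - 0.889 * s * (1 + 10 / 9 * (1 - s) + k))
    (-1 + 0.889 * s) (-1 + 0.889 * s) 1 (by linarith) hkx hx1 hky hy1
    (by linarith) (by norm_num at *; linarith) (by norm_num at *; linarith)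
    (by norm_num at *; linarith)
  linarith

theorem F6_num (x y s : ℝ) (hx1 : x ≤ 1 / 10) (hy1 : y ≤ 1 / 10)
    (hs0 : 9 / 10 ≤ s) (hs1 : s ≤ 1) : 0.81 ≤ (1 - x) * (1 - y) / s := by
  have hs : 0 < s := by linarith
  rw [le_div_iff₀ hs]
  nlinarith

theorem p_F6a : S_F6a := by
  intro x y k s Ω Gm Ym P hx0 hx1 hy0 hy1 hk0 hkx hky hs0 hs1 hGm hYm hΩ hΩ1 hP
  have hO := F6_omega x y k s Ω hx1 hy1 hk0 hs0 hs1 hΩ
  have hs : 0 < s := by linarith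
  have ht := F6_t x y k s Gm Ym hx0 hx1 hy0 hy1 hk0 hkx hky hs1 hGm hYm
  rcases le_total 0 (0.987 - 1.1 * k - (Gm + Ym) / 7) with hq | hq
  · refine F6_red x y k s Ω Gm Ym P _ hs0 hq (by linarith) hΩ1 hP ?_
    have h1 := F6_a0 x y k s hx1 hy1 hk0 hkx hky hs0 hs1
    have h2 := mul_le_mul_of_nonneg_left ht hs.le
    linarith
  · by_contra hc
    push Not at hc
    have h1 : P * Ω < (0.987 - 1.1 * k - (Gm + Ym) / 7) * Ω := mul_lt_mul_of_pos_right hc (by linarith)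
    have h2 : (0.987 - 1.1 * k - (Gm + Ym) / 7) * Ω ≤ (0.987 - 1.1 * k - (Gm + Ym) / 7) * (7/9) :=
      mul_le_mul_of_nonpos_left hO hq
    have h3 := F6_num x y s hx1 hy1 hs0 hs1
    have h4 : (y - k) * Gm ≤ 1 / 10 * Gm := mul_le_mul_of_nonneg_right (by linarith) hGm
    have h5 : (x - k) * Ym ≤ 1 / 10 * Ym := mul_le_mul_of_nonneg_right (by linarith) hYm
    norm_num at *
    linarith

theorem p_F6b : S_F6b := by
  intro x y k s Ω Gm Ym P hx0 hx1 hy0 hy1 hk0 hkx hky hs0 hs1 hGm hYm hΩ hΩ1 hP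
  have hO := F6_omega x y k s Ω hx1 hy1 hk0 hs0 hs1 hΩ
  have hs : 0 < s := by linarith
  have ht := F6_t x y k s Gm Ym hx0 hx1 hy0 hy1 hk0 hkx hky hs1 hGm hYm
  rcases le_total 0 (0.889 - (Gm + Ym) / 7) with hq | hq
  · refine F6_red x y k s Ω Gm Ym P _ hs0 hq (by linarith) hΩ1 hP ?_
    have h1 := F6_b0 x y k s hx1 hy1 hk0 hkx hky hs0 hs1
    have h2 := mul_le_mul_of_nonneg_left ht hs.le
    linarith
  · by_contra hc
    push Not at hc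
    have h1 : P * Ω < (0.889 - (Gm + Ym) / 7) * Ω := mul_lt_mul_of_pos_right hc (by linarith)
    have h2 : (0.889 - (Gm + Ym) / 7) * Ω ≤ (0.889 - (Gm + Ym) / 7) * (7/9) :=
      mul_le_mul_of_nonpos_left hO hq
    have h3 := F6_num x y s hx1 hy1 hs0 hs1
    have h4 : (y - k) * Gm ≤ 1 / 10 * Gm := mul_le_mul_of_nonneg_right (by linarith) hGm
    have h5 : (x - k) * Ym ≤ 1 / 10 * Ym := mul_le_mul_of_nonneg_right (by linarith) hYm
    norm_num at *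
    linarith

end DH
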