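import Pool.Agent.Lib.MP_fe8cb7_co.h25.StN

/-!
# Daykin-Haggkvist problem: piece N2 (product formula for disjoint blocks) (helper99)
-/

open Finset

namespace DH

private lemma N2_inter {τ : Type} [DecidableEq τ] {X1 X2 S1 S2 : Finset τ} (hd : Disjoint X1 X2)
    (h1 : S1 ⊆ X1) (h2 : S2 ⊆ X2) : (S1 ∪ S2) ∩ X1 = S1 ∧ (S1 ∪ S2) ∩ X2 = S2 := by
  constructor
  · ext t
    simp only [mem_inter, mem_union]
    constructor
    · rintro ⟨h | h, h'⟩
      · exact h
      · exact absurd (h2 h) (disjoint_left.1 hd h')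
    · exact fun h => ⟨Or.inl h, h1 h⟩
  · ext t
    simp only [mem_inter, mem_union]
    constructor
    · rintro ⟨h | h, h'⟩
      · exact absurd h' (disjoint_left.1 hd (h1 h))
      · exact h
    · exact fun h => ⟨Or.inr h, h2 h⟩

theorem N2_two {τ : Type} [DecidableEq τ] (X1 X2 : Finset τ) (hd : Disjoint X1 X2)
    (p : τ → ℝ) (f g : Finset τ → ℝ) :
    Ex (X1 ∪ X2) p (fun S => f (S ∩ X1) * g (S ∩ X2)) = Ex X1 p f * Ex X2 p g := by
  simp only [Ex]
  rw [sum_mul_sum, ← sum_product']
  symm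
  refine sum_bij' (fun a _ => a.1 ∪ a.2) (fun S _ => (S ∩ X1, S ∩ X2)) ?_ ?_ ?_ ?_ ?_
  · rintro ⟨S1, S2⟩ h
    rw [mem_product, mem_powerset, mem_powerset] at h
    exact mem_powerset.2 (union_subset_union h.1 h.2)
  · intro S h
    rw [mem_product, mem_powerset, mem_powerset]
    exact ⟨inter_subset_right, inter_subset_right⟩
  · rintro ⟨S1, S2⟩ h
    rw [mem_product, mem_powerset, mem_powerset] at h
    have := N2_inter hd h.1 h.2
    exact Prod.ext this.1 this.2
  · intro S h
    rw [mem_powerset] at h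
    show S ∩ X1 ∪ S ∩ X2 = S
    rw [← inter_union_distrib_left]
    exact inter_eq_left.2 h
  · rintro ⟨S1, S2⟩ h
    rw [mem_product, mem_powerset, mem_powerset] at h
    obtain ⟨h1, h2⟩ := h
    simp only at h1 h2
    obtain ⟨e1, e2⟩ := N2_inter hd h1 h2
    have hS : Disjoint S1 S2 := disjoint_of_subset_left h1 (disjoint_of_subset_right h2 hd)
    have hc : (X1 ∪ X2) \ (S1 ∪ S2) = (X1 \ S1) ∪ (X2 \ S2) := by
      ext t
      simp only [mem_sdiff, mem_union, not_or]
      constructor
      · rintro ⟨h | h, h3, h4⟩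
        · exact Or.inl ⟨h, h3⟩
        · exact Or.inr ⟨h, h4⟩
      · rintro (⟨h, h3⟩ | ⟨h, h3⟩)
        · exact ⟨Or.inl h, h3, fun h4 => disjoint_left.1 hd h (h2 h4)⟩
        · exact ⟨Or.inr h, fun h4 => disjoint_left.1 hd (h1 h4) h, h3⟩
    have hcd : Disjoint (X1 \ S1) (X2 \ S2) :=
      disjoint_of_subset_left sdiff_subset (disjoint_of_subset_right sdiff_subset hd)
    simp only
    rw [e1, e2, hc, prod_union hS, prod_union hcd]
    ring

/-- [N2] -/
theorem p_N2 : S_N2 := by
  intro τ ι _ _ X p I B F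
  induction I using Finset.induction_on generalizing X with
  | empty =>
    intro _ _
    simp only [prod_empty]
    exact Ex_one
  | insert k I hk ih =>
    intro hB hd
    have hkX : B k ⊆ X := hB k (mem_insert_self k I)
    have hX : X = B k ∪ (X \ B k) := (union_sdiff_of_subset hkX).symm
    have hsub : ∀ l ∈ I, B l ⊆ X \ B k := by
      intro l hl t ht
      refine mem_sdiff.2 ⟨hB l (mem_insert_of_mem hl) ht, fun h => ?_⟩
      have hne : k ≠ l := by
        rintro rfl
        exact hk hl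
      exact disjoint_left.1 (hd k (mem_insert_self k I) l (mem_insert_of_mem hl) hne) h ht
    have key : ∀ S : Finset τ, ∏ l ∈ insert k I, F l (S ∩ B l) =
        F k (S ∩ B k) * ∏ l ∈ I, F l ((S ∩ (X \ B k)) ∩ B l) := by
      intro S
      rw [prod_insert hk]
      congr 1
      refine prod_congr rfl fun l hl => ?_
      congr 1
      rw [inter_assoc, inter_eq_right.2 (hsub l hl)]
    have h1 : Ex X p (fun S => ∏ l ∈ insert k I, F l (S ∩ B l)) =
        Ex (B k ∪ (X \ B k)) p
          (fun S => F k (S ∩ B k) * (fun S' => ∏ l ∈ I, F l (S' ∩ B l)) (S ∩ (X \ B k))) := by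
      rw [← hX]
      exact Ex_congr fun S _ => key S
    rw [h1, N2_two _ _ disjoint_sdiff p (F k) (fun S' => ∏ l ∈ I, F l (S' ∩ B l)), prod_insert hk,
      ih (X \ B k) hsub fun l hl m hm hne =>
        hd l (mem_insert_of_mem hl) m (mem_insert_of_mem hm) hne]

end DH
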