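import Pool.Agent.Lib.MP_fe8cb7_co.h25.StN

/-!
# Daykin-Haggkvist problem: piece N8c
-/

open Finset

namespace DH

private theorem N8c_prod (h2 : S_N2) {τ ι : Type} [DecidableEq τ] [DecidableEq ι] (X : Finset τ)
    (p : τ → ℝ) (I : Finset ι) (B : ι → Finset τ) (f : ι → Finset τ → ℝ) (a : ι → ℝ) (c e : ℝ)
    (hp : ∀ t ∈ X, 0 ≤ p t ∧ p t ≤ 1)
    (hB : ∀ k ∈ I, B k ⊆ X) (hd : ∀ k ∈ I, ∀ l ∈ I, k ≠ l → Disjoint (B k) (B l))
    (hf : ∀ k ∈ I, Ex (B k) p (fun S => Real.exp (f k S)) ≤ Real.exp (a k))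
    (hsum : ∑ k ∈ I, a k - c ≤ e) :
    Ex X p (fun S => Real.exp (∑ k ∈ I, f k (S ∩ B k) - c)) ≤ Real.exp e := by
  have e1 : Ex X p (fun S => Real.exp (∑ k ∈ I, f k (S ∩ B k) - c)) =
      Real.exp (-c) * Ex X p (fun S => ∏ k ∈ I, Real.exp (f k (S ∩ B k))) := by
    rw [← Ex_mul]
    refine Ex_congr fun S _ => ?_
    rw [← Real.exp_sum, ← Real.exp_add]
    congr 1
    ring
  rw [e1, h2 τ ι X p I B (fun k S => Real.exp (f k S)) hB hd]
  have h3 : ∏ k ∈ I, Ex (B k) p (fun S => Real.exp (f k S)) ≤ ∏ k ∈ I, Real.exp (a k) := by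
    refine prod_le_prod (fun k hk => ?_) hf
    exact Ex_nonneg (fun t ht => hp t (hB k hk ht)) (fun S _ => (Real.exp_pos _).le)
  calc Real.exp (-c) * ∏ k ∈ I, Ex (B k) p (fun S => Real.exp (f k S))
      ≤ Real.exp (-c) * ∏ k ∈ I, Real.exp (a k) :=
        mul_le_mul_of_nonneg_left h3 (Real.exp_pos _).le
    _ = Real.exp (∑ k ∈ I, a k - c) := by
        rw [← Real.exp_sum, ← Real.exp_add]
        congr 1
        ring
    _ ≤ Real.exp e := Real.exp_le_exp.2 hsum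

private theorem N8c_blk {V : Type} [Fintype V] [DecidableEq V] {H : SimpleGraph V} (x y : V) :
    blkV H x y ⊆ triSet H := filter_subset _ _

private theorem N8c_tri {V : Type} [Fintype V] [DecidableEq V] {H : SimpleGraph V} {v u x : V}
    (h1 : H.Adj v u) (h2 : H.Adj v x) (h3 : H.Adj u x) : ({v, u, x} : Finset V) ∈ blkV H u x := by
  rw [blkV, mem_filter, mem_triSet]
  refine ⟨SimpleGraph.is3Clique_triple_iff.2 ⟨h1, h2, h3⟩, ?_, ?_⟩ <;> simp

theorem p_N8c : S_N8c := by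
  intro h2 h6 h7 C0 θ ρ hC hθ hθ1 hρ hρ1
  refine ⟨⌈θ * C0 / ρ ^ 2⌉₊ + 1, ?_⟩
  intro V _ _ π H W N η hN hyp v i k hi hk hik
  have hρ2 : 0 < ρ ^ 2 := by positivity
  have hN1 : 1 ≤ N := by omega
  have hNpos : (0 : ℝ) < N := by exact_mod_cast hN1
  have hNbig : θ * C0 / ρ ^ 2 ≤ (N : ℝ) := by
    refine (Nat.le_ceil _).trans ?_
    exact_mod_cast (by omega : ⌈θ * C0 / ρ ^ 2⌉₊ ≤ N)
  have h7' := h7 V π H W hyp.tri
  obtain ⟨hs, _, _, hdv, hdp⟩ := h7'
  set p : Finset V → ℝ := fun t => θ * W t / ρ ^ 2 with hp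
  have hp0 : ∀ t, 0 ≤ p t := fun t => div_nonneg (mul_nonneg hθ.le (hyp.W0 t)) hρ2.le
  have hp1 : ∀ t, p t ≤ 1 := by
    intro t
    have h1 : p t ≤ θ * (C0 / N) / ρ ^ 2 := by
      simp only [hp]
      gcongr
      exact hyp.W1 t
    refine h1.trans ?_
    have h2 : θ * (C0 / N) / ρ ^ 2 = (θ * C0 / ρ ^ 2) / N := by
      field_simp
    rw [h2, div_le_one hNpos]
    exact hNbig
  have hpp : ∀ t ∈ triSet H, 0 ≤ p t ∧ p t ≤ 1 := fun t _ => ⟨hp0 t, hp1 t⟩
  -- the sums over blocks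
  have hD : ∀ x y : V, H.Adj x y → ∑ z ∈ cn H x y, p {x, y, z} ≤ 9 / 8 * θ := by
    intro x y hxy
    have h1 := hyp.hD x y hxy
    have h2 := (abs_le.1 h1).2
    have h3 := hyp.hη1
    have h4 : ∑ z ∈ cn H x y, p {x, y, z} = θ / ρ ^ 2 * ∑ z ∈ cn H x y, W {x, y, z} := by
      rw [mul_sum]
      refine sum_congr rfl fun z _ => ?_
      simp only [hp]
      ring
    rw [h4]
    have h5 : ∑ z ∈ cn H x y, W {x, y, z} ≤ 9 / 8 * ρ ^ 2 := by linarith
    calc θ / ρ ^ 2 * ∑ z ∈ cn H x y, W {x, y, z} ≤ θ / ρ ^ 2 * (9 / 8 * ρ ^ 2) :=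
          mul_le_mul_of_nonneg_left h5 (by positivity)
      _ = 9 / 8 * θ := by field_simp
  have hPs : ∀ x y : V, H.Adj x y → ∑ t ∈ blkV H x y, p t = ∑ z ∈ cn H x y, p {x, y, z} := by
    intro x y hxy
    have h1 := hs x y hxy
    have h4 : ∑ z ∈ cn H x y, p {x, y, z} = θ / ρ ^ 2 * ∑ z ∈ cn H x y, W {x, y, z} := by
      rw [mul_sum]
      refine sum_congr rfl fun z _ => ?_
      simp only [hp]
      ring
    have h5 : ∑ t ∈ blkV H x y, p t = θ / ρ ^ 2 * ∑ t ∈ blkV H x y, W t := by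
      rw [mul_sum]
      refine sum_congr rfl fun z _ => ?_
      simp only [hp]
      ring
    rw [h4, h5, h1]
  have hP : ∀ x y : V, H.Adj x y → ∑ t ∈ blkV H x y, p t ≤ 9 / 8 * θ := by
    intro x y hxy
    rw [hPs x y hxy]
    exact hD x y hxy
  have hP0 : ∀ x y : V, 0 ≤ ∑ t ∈ blkV H x y, p t := fun x y => sum_nonneg fun t _ => hp0 t
  have hP2 : ∀ x y : V, H.Adj x y → ∑ t ∈ blkV H x y, p t ≤ 1 / 2 := by
    intro x y hxy
    have := hP x y hxy
    linarith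
  have hPsq : ∀ x y : V, H.Adj x y → (∑ t ∈ blkV H x y, p t) ^ 2 ≤ 81 / 64 * θ ^ 2 := by
    intro x y hxy
    have h1 := hP x y hxy
    have h2 := hP0 x y
    have h3 : (∑ t ∈ blkV H x y, p t) ^ 2 ≤ (9 / 8 * θ) ^ 2 := pow_le_pow_left₀ h2 h1 2
    calc _ ≤ (9 / 8 * θ) ^ 2 := h3
      _ = 81 / 64 * θ ^ 2 := by ring
  have hcard : ∀ j : ZMod 3, ((nb H v (pt π univ j)).card : ℝ) ≤ N := by
    intro j
    have h1 : (nb H v (pt π univ j)).card ≤ (pt π univ j).card := card_le_card (nb_subset v)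
    rw [hyp.sz j] at h1
    exact_mod_cast h1
  have hadj : ∀ (j : ZMod 3) (u : V), u ∈ nb H v (pt π univ j) → H.Adj v u ∧ π u = j := by
    intro j u hu
    have h1 := mem_nb.1 hu
    exact ⟨h1.2, (mem_pt.1 h1.1).2⟩
  have hθN : 0 ≤ θ ^ 2 * N := by positivity
  refine ⟨?_, ?_, ?_⟩
  · refine N8c_prod h2 (triSet H) p (nb H v (pt π univ i)) (fun u => blkV H v u)
      (fun _ S => if 2 ≤ S.card then (1 : ℝ) else 0) (fun _ => 2 * (81 / 64 * θ ^ 2)) _ _ hpp
      (fun u _ => N8c_blk v u) ?_ ?_ ?_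
    · intro u hu u' hu' hne
      exact hdv v u u' ((hadj i u hu).2.trans (hadj i u' hu').2.symm) hne
    · intro u hu
      have h := (h6 (Finset V) (blkV H v u) p (fun t _ => ⟨hp0 t, hp1 t⟩)
        (hP2 v u (hadj i u hu).1)).1
      refine h.trans (Real.exp_le_exp.2 ?_)
      have := hPsq v u (hadj i u hu).1
      linarith
    · rw [sum_const, nsmul_eq_mul]
      have h1 := mul_le_mul_of_nonneg_right (hcard i) (by positivity : 0 ≤ 2 * (81 / 64 * θ ^ 2))
      nlinarith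
  · refine N8c_prod h2 (triSet H) p (nb H v (pt π univ k)) (fun u => blkV H v u)
      (fun _ S => if 2 ≤ S.card then (S.card : ℝ) else 0) (fun _ => 7 * (81 / 64 * θ ^ 2)) _ _ hpp
      (fun u _ => N8c_blk v u) ?_ ?_ ?_
    · intro u hu u' hu' hne
      exact hdv v u u' ((hadj k u hu).2.trans (hadj k u' hu').2.symm) hne
    · intro u hu
      have h := (h6 (Finset V) (blkV H v u) p (fun t _ => ⟨hp0 t, hp1 t⟩)
        (hP2 v u (hadj k u hu).1)).2.1
      refine h.trans (Real.exp_le_exp.2 ?_)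
      have := hPsq v u (hadj k u hu).1
      linarith
    · rw [sum_const, nsmul_eq_mul]
      have h1 := mul_le_mul_of_nonneg_right (hcard k) (by positivity : 0 ≤ 7 * (81 / 64 * θ ^ 2))
      nlinarith
  · set I : Finset (Σ _ : V, V) := (nb H v (pt π univ i)).sigma
      (fun u => nb H v (pt π univ k) ∩ nb H u univ) with hI
    have hmem : ∀ q ∈ I, (H.Adj v q.1 ∧ π q.1 = i) ∧ (H.Adj v q.2 ∧ π q.2 = k) ∧
        H.Adj q.1 q.2 := by
      intro q hq
      rw [hI, mem_sigma] at hq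
      have h1 := hadj i q.1 hq.1
      have h3 := mem_inter.1 hq.2
      exact ⟨h1, hadj k q.2 h3.1, (mem_nb.1 h3.2).2⟩
    let f3 : (Σ _ : V, V) → Finset (Finset V) → ℝ := fun q S =>
      if ({v, q.1, q.2} : Finset V) ∈ S ∧ 2 ≤ S.card then (1 : ℝ) else 0
    have hB3 : ∀ S, B3 π H v i k S = ∑ q ∈ I, f3 q (S ∩ blkV H q.1 q.2) := by
      intro S
      rw [B3, hI, sum_sigma]
    have hmain : Ex (triSet H) p (fun S => Real.exp (∑ q ∈ I, f3 q (S ∩ blkV H q.1 q.2) -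
        3 * θ ^ 2 * N)) ≤ Real.exp (-(θ ^ 2 / 4 * N)) := by
      refine N8c_prod h2 (triSet H) p I (fun q => blkV H q.1 q.2) f3
        (fun q => 9 / 4 * θ * p {v, q.1, q.2}) (3 * θ ^ 2 * N) (-(θ ^ 2 / 4 * N)) hpp
        (fun q _ => N8c_blk q.1 q.2) ?_ ?_ ?_
      · intro q hq q' hq' hne
        have m1 := hmem q hq
        have m2 := hmem q' hq'
        refine hdp q.1 q'.1 q.2 q'.2 (m1.1.2.trans m2.1.2.symm) (m1.2.1.2.trans m2.2.1.2.symm) ?_
        intro heq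
        apply hne
        have h1 := congrArg Prod.fst heq
        have h2 := congrArg Prod.snd heq
        simp only at h1 h2
        exact Sigma.ext h1 (heq_of_eq h2)
      · intro q hq
        obtain ⟨⟨m1, _⟩, ⟨m2, _⟩, m3⟩ := hmem q hq
        have h := (h6 (Finset V) (blkV H q.1 q.2) p (fun t _ => ⟨hp0 t, hp1 t⟩)
          (hP2 q.1 q.2 m3)).2.2 {v, q.1, q.2} (N8c_tri m1 m2 m3)
        refine h.trans (Real.exp_le_exp.2 ?_)
        have h5 := hP q.1 q.2 m3
        have h6' := hp0 {v, q.1, q.2}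
        generalize p {v, q.1, q.2} = a at h6' ⊢
        generalize (∑ t ∈ blkV H q.1 q.2, p t) = b at h5 ⊢
        calc 2 * a * b ≤ 2 * a * (9 / 8 * θ) :=
              mul_le_mul_of_nonneg_left h5 (mul_nonneg zero_le_two h6')
          _ = 9 / 4 * θ * a := by ring
      · rw [hI, sum_sigma]
        have hin : ∀ u ∈ nb H v (pt π univ i),
            ∑ x ∈ nb H v (pt π univ k) ∩ nb H u univ, 9 / 4 * θ * p {v, u, x} ≤
              9 / 4 * θ * (9 / 8 * θ) := by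
          intro u hu
          rw [← mul_sum]
          refine mul_le_mul_of_nonneg_left ?_ (by positivity)
          refine le_trans ?_ (hD v u (hadj i u hu).1)
          refine sum_le_sum_of_subset_of_nonneg ?_ (fun _ _ _ => hp0 _)
          intro x hx
          rw [mem_inter] at hx
          rw [cn, mem_inter]
          exact ⟨mem_nb.2 ⟨mem_univ _, (mem_nb.1 hx.1).2⟩, hx.2⟩
        have h1 : ∑ u ∈ nb H v (pt π univ i),
            ∑ x ∈ nb H v (pt π univ k) ∩ nb H u univ, 9 / 4 * θ * p {v, u, x} ≤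
              N * (9 / 4 * θ * (9 / 8 * θ)) := by
          refine (sum_le_sum hin).trans ?_
          rw [sum_const, nsmul_eq_mul]
          exact mul_le_mul_of_nonneg_right (hcard i) (by positivity)
        refine (sub_le_sub_right h1 _).trans ?_
        nlinarith
    refine le_of_eq_of_le (Ex_congr fun S _ => ?_) hmain
    rw [hB3 S]

end DH
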