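import Pool.Agent.Lib.MP_fe8cb7_co.h25.Basic

/-!
# Daykin-Haggkvist problem: statements of block C (cover-down)

Picture: `U ⊃ U1 ⊃ U2`, `W = U \ U1`, `Z = U1 \ U2`. `ρ` (row) and `χ` (column) split `Z` into
`q × q` cells and `W` into `q × q` classes. A vertex `w ∈ W` in part `i` reserves its edges to the
vertices of `Z` in part `i+1` and in the same row, and to those in part `i-1` in the same column.
-/

open Finset

namespace DH

/-- `S` is split evenly by the `q × q` cells, error `E` -/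
def Evn {V : Type} {q : ℕ} (ρ χ : V → Fin q) (S : Finset V) (E : ℝ) : Prop :=
  ∀ s t : Fin q, |((S.filter (fun x => ρ x = s ∧ χ x = t)).card : ℝ) - (S.card : ℝ) / q ^ 2| ≤ E

theorem Evn.row {V : Type} {q : ℕ} {ρ χ : V → Fin q} {S : Finset V} {E : ℝ}
    (h : Evn ρ χ S E) (s : Fin q) :
    |((S.filter (fun x => ρ x = s)).card : ℝ) - (S.card : ℝ) / q| ≤ q * E := by
  have hq : (q : ℝ) ≠ 0 := by
    have := s.pos
    positivity
  have h1 : ((S.filter (fun x => ρ x = s)).card : ℝ)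
      = ∑ t : Fin q, ((S.filter (fun x => ρ x = s ∧ χ x = t)).card : ℝ) := by
    rw [card_eq_sum_card_fiberwise (f := χ) (t := univ) (fun _ _ => mem_coe.2 (mem_univ _))]
    push_cast
    refine sum_congr rfl fun t _ => ?_
    rw [filter_filter]
  have h2 : (S.card : ℝ) / q = ∑ _t : Fin q, (S.card : ℝ) / q ^ 2 := by
    rw [sum_const, card_univ, Fintype.card_fin, nsmul_eq_mul]
    field_simp
  rw [h1, h2, ← sum_sub_distrib]
  refine (abs_sum_le_sum_abs _ _).trans ((sum_le_sum fun t _ => h s t).trans ?_)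
  rw [sum_const, card_univ, Fintype.card_fin, nsmul_eq_mul]

theorem Evn.col {V : Type} {q : ℕ} {ρ χ : V → Fin q} {S : Finset V} {E : ℝ}
    (h : Evn ρ χ S E) (t : Fin q) :
    |((S.filter (fun x => χ x = t)).card : ℝ) - (S.card : ℝ) / q| ≤ q * E := by
  refine Evn.row (ρ := χ) (χ := ρ) (fun s t => ?_) t
  have := h t s
  rwa [filter_congr (fun x _ => and_comm)] at this

/-- the cells split all relevant sets evenly -/
structure Cells {V : Type} [DecidableEq V] (π : V → ZMod 3) (G : SimpleGraph V)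
    (U U1 U2 : Finset V) {q : ℕ} (ρ χ : V → Fin q) (E : ℝ) : Prop where
  w : ∀ i, Evn ρ χ (pt π (U \ U1) i) E
  nw : ∀ v ∈ U, ∀ i, Evn ρ χ (nb G v (pt π (U \ U1) i)) E
  nz : ∀ v ∈ U, ∀ v' ∈ U, ∀ i,
    Evn ρ χ (nb G v (pt π (U1 \ U2) i) ∩ nb G v' (pt π (U1 \ U2) i)) E

/-- `z` is reserved for `w` -/
def Res {V : Type} (π : V → ZMod 3) {q : ℕ} (ρ χ : V → Fin q) (w z : V) : Prop :=
  (π z = π w + 1 ∧ ρ z = ρ w) ∨ (π z = π w - 1 ∧ χ z = χ w)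

/-- the graph of reserved edges -/
def RG {V : Type} [DecidableEq V] (π : V → ZMod 3) (G : SimpleGraph V) (U U1 U2 : Finset V) {q : ℕ}
    (ρ χ : V → Fin q) : SimpleGraph V where
  Adj a b := G.Adj a b ∧ ((a ∈ U \ U1 ∧ b ∈ U1 \ U2 ∧ Res π ρ χ a b) ∨
    (b ∈ U \ U1 ∧ a ∈ U1 \ U2 ∧ Res π ρ χ b a))
  symm := ⟨fun _ _ h => ⟨h.1.symm, h.2.symm⟩⟩
  loopless := ⟨fun v h => G.loopless.irrefl v h.1⟩

/-- the graph to be almost decomposed -/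
def HG {V : Type} [DecidableEq V] (π : V → ZMod 3) (G : SimpleGraph V) (U U1 U2 : Finset V) {q : ℕ}
    (ρ χ : V → Fin q) : SimpleGraph V := (G \ ins G U1) \ RG π G U U1 U2 ρ χ

/-- [Col] random colouring, exponential moments.
PROOF. If `X` is empty everything is `0`. Count over all `f : X → κ` (extend to `V` arbitrarily),
`Q = Fintype.card κ`. For `S ∈ 𝓕`, `k`, and real `λ`, `|λ| ≤ 1`, the average over `f` of
`exp (λ (#{x ∈ S | f x = k} - |S|/Q)) = ∏_{x ∈ S} exp (λ (1[f x = k] - 1/Q))` is, by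
`Finset.prod_univ_sum` (`∑_f ∏_x g x (f x) = ∏_x ∑_c g x c`), the product over `x ∈ S` of
`(1/Q) ∑_c exp (λ (1[c = k] - 1/Q)) ≤ (1/Q) ∑_c (1 + y_c + y_c^2) ≤ 1 + λ^2 ≤ exp (λ^2)`
(`y_c = λ (1[c=k] - 1/Q)`, `|y_c| ≤ 1`, `∑_c y_c = 0`, `exp y ≤ 1 + y + y^2`). So it is at most
`exp (λ^2 |X|)`. With `λ = ± t / (2 |X|)`, the average over `f` of
`exp (λ (...) - λ t)` is at most `exp (- t^2/(4|X|))`; sum over `S`, `k`, both signs: the average of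
the total is `< 1`, so for some `f` the total is `< 1`, hence every exponent is `< 0`. (If `t = 0`
the hypothesis says `2 |𝓕| Q < 1`, so `𝓕 = ∅`.) -/
def S_Col : Prop := ∀ (V κ : Type) [DecidableEq V] [Fintype κ] [DecidableEq κ] [Nonempty κ]
    (X : Finset V) (𝓕 : Finset (Finset V)) (t : ℝ), (∀ S ∈ 𝓕, S ⊆ X) → 0 ≤ t →
    t ≤ 2 * X.card →
    2 * (𝓕.card : ℝ) * Fintype.card κ * Real.exp (-(t ^ 2 / (4 * X.card))) < 1 →
    ∃ f : V → κ, ∀ S ∈ 𝓕, ∀ k : κ,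
      |((S.filter (fun x => f x = k)).card : ℝ) - (S.card : ℝ) / Fintype.card κ| ≤ t

/-- [Cells] existence of the cells.
PROOF. [Col] with `κ = Fin q × Fin q`, `X = U` (`3 N` vertices), `t = min (δ N) (6 N)`, and `𝓕` = the
sets in `Cells` (images of `ZMod 3`, `U × ZMod 3`, `U × U × ZMod 3`: at most
`3 + 9N + 27 N^2 ≤ 40 N^2` sets); `80 N^2 q^2 exp (- t^2/(12 N)) < 1` for large `N`. Put
`ρ = Prod.fst ∘ f`, `χ = Prod.snd ∘ f` (`f x = (s,t) ↔ ρ x = s ∧ χ x = t`). -/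
def S_Cells : Prop := S_Col → ∀ q : ℕ, 1 ≤ q → ∀ δ : ℝ, 0 < δ → ∃ N0 : ℕ,
    ∀ (V : Type) [Fintype V] [DecidableEq V] (π : V → ZMod 3) (G : SimpleGraph V)
      (U U1 U2 : Finset V) (N : ℕ), N0 ≤ N → Eq3 π U N → U1 ⊆ U → U2 ⊆ U1 →
    ∃ ρ χ : V → Fin q, Cells π G U U1 U2 ρ χ (δ * N)

/-- [C1] the graph `HG` is nearly balanced with large degrees.
PROOF. Let `W = U \ U1`, `Z = U1 \ U2`, `V = W ∪ Z ∪ U2` inside `U`.
Reserved neighbours: for `w ∈ W`: `nb RG w (pt U (π w + 1)) = {z ∈ nb G w (pt Z (π w + 1)) | ρ z = ρ w}`,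
`nb RG w (pt U (π w - 1)) = {z ∈ nb G w (pt Z (π w - 1)) | χ z = χ w}`; for `z ∈ Z`:
`nb RG z (pt U (π z + 1)) = {w ∈ nb G z (pt W (π z + 1)) | χ w = χ z}`,
`nb RG z (pt U (π z - 1)) = {w ∈ nb G z (pt W (π z - 1)) | ρ w = ρ z}`; for `u ∈ U2` none.
(1) Degrees: an edge of `G` at `w ∈ W` not in `HG` is reserved, so goes to `Z ⊆ U1`: at most
`N1` to each part. At `z ∈ Z`: at most `N1` to `pt U1 i`, and the reserved ones, at most
`|pt W i|/q + q E ≤ N/q + q E` (`Evn.row`, `Evn.col` for `nw`: `|nb G z (pt W i)| ≤ N`). At `u ∈ U2`: at most `N1`.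
(2) `w ∈ W`: `imb HG U w = imb G U w - imb RG U w = - imb RG U w`, and by `Evn.row`, `Evn.col` for
`nz` (with `v = v' = w`) `|imb RG U w| ≤ |imb G Z w| / q + 2 q E`,
`imb G Z w = imb G U1 w - imb G U2 w`, at most `2 γ1 N1`.
`z ∈ Z`: `imb (G \ ins G U1) U z = imb G U z - imb G U1 z = - imb G U1 z = imb G W z`, and
`|imb RG U z - imb G W z / q| ≤ 2 q E`; so `|imb HG U z| ≤ γ0 N1 + 2 q E`.
(3) `u ∈ U2`: `imb HG U u = - imb G U1 u`. (`imb` into `Z`, `W`: `dg` into `U1 \ U2` is the difference.) -/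
def S_C1 : Prop := ∀ (V : Type) [Fintype V] [DecidableEq V] (π : V → ZMod 3) (G : SimpleGraph V)
    (U U1 U2 : Finset V) (N N1 N2 K q : ℕ) (c η γ0 γ1 E : ℝ) (ρ χ : V → Fin q),
    CDHyp π G U U1 U2 N N1 N2 K c η γ0 γ1 → Cells π G U U1 U2 ρ χ E → 0 < q → 0 ≤ E →
    0 ≤ γ0 → 0 ≤ γ1 →
    Tri π (HG π G U U1 U2 ρ χ) ∧ Within (HG π G U U1 U2 ρ χ) U ∧
    (∀ v ∈ U, ∀ i : ZMod 3, i ≠ π v → (1 - c + 2 * η) * N - N1 - N / q - q * E
      ≤ dg (HG π G U U1 U2 ρ χ) v (pt π U i)) ∧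
    (∀ v ∈ U, |(imb π (HG π G U U1 U2 ρ χ) U v : ℝ)| ≤ 2 * γ1 * N1 + γ0 * N1 + 2 * q * E) ∧
    (∀ v ∈ U2, |(imb π (HG π G U U1 U2 ρ χ) U v : ℝ)| ≤ γ0 * N1)

/-- [C2] counting reserved common neighbours.
PROOF. `|nb G x (pt U1 i) ∩ nb G y (pt U1 i)| ≥ 2 (1 - c + 2η) N1 - N1 ≥ (1 - 2c) N1` (the part has
`N1` vertices), and removing `U2` costs at most `N2`. Cells: `Evn` for `nz`.
(1) `x, y ∈ W`, `π y = π x + 1`, `i = π x - 1 = π y + 1`: the `z` in `pt Z i` adjacent to `x`, `y` with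
`χ z = χ x`, `ρ z = ρ y` are reserved neighbours of both, their number is at least
`((1-2c) N1 - N2)/q^2 - E`. (The case `π y = π x - 1` by symmetry.)
(2) `w ∈ W`, `u ∈ U`, `π u ≠ π w`, `i` the third part: the `z ∈ pt Z i` adjacent to `w` and `u` and
reserved for `w` (one condition `ρ z = ρ w` or `χ z = χ w`): `Evn.row`, `Evn.col`.
(3) upper bounds for reserved degrees. -/
def S_C2 : Prop := ∀ (V : Type) [Fintype V] [DecidableEq V] (π : V → ZMod 3) (G : SimpleGraph V)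
    (U U1 U2 : Finset V) (N N1 N2 K q : ℕ) (c η γ0 γ1 E : ℝ) (ρ χ : V → Fin q),
    CDHyp π G U U1 U2 N N1 N2 K c η γ0 γ1 → Cells π G U U1 U2 ρ χ E → 0 < q → 0 ≤ E → 0 < η →
    (∀ x ∈ U \ U1, ∀ y ∈ U \ U1, π x ≠ π y → ((1 - 2 * c) * N1 - N2) / q ^ 2 - E
      ≤ ((nb (RG π G U U1 U2 ρ χ) x (U1 \ U2) ∩ nb (RG π G U U1 U2 ρ χ) y (U1 \ U2)).card : ℝ)) ∧
    (∀ w ∈ U \ U1, ∀ u ∈ U, ∀ i : ZMod 3, π u ≠ π w → i ≠ π u → i ≠ π w →
      ((1 - 2 * c) * N1 - N2) / q - q * E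
      ≤ ((nb (RG π G U U1 U2 ρ χ) w (pt π (U1 \ U2) i) ∩ nb G u (pt π (U1 \ U2) i)).card : ℝ)) ∧
    (∀ w ∈ U \ U1, ∀ i : ZMod 3,
      (dg (RG π G U U1 U2 ρ χ) w (pt π (U1 \ U2) i) : ℝ) ≤ N1 / q + q * E) ∧
    (∀ z ∈ U1, (dg (RG π G U U1 U2 ρ χ) z (U \ U1) : ℝ) ≤ 2 * (N / q + q * E))

/-- [C3] covering the leftover edges inside `W` by triangles with the third vertex in `Z`.
PROOF. Let `P` be the finite set of the unordered pairs `{x, y} ⊆ W` with `L.Adj x y`. Claim by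
induction on subsets `P' ⊆ P`: there is `z : P' → Z`, `z e` adjacent in `R` to both ends of `e`,
with `z e ≠ z e'` for different `e, e' ∈ P'` sharing an end. Adding `e = {x, y}`: at most
`2 (d - 1)` pairs of `P'` share an end with `e` and the list `nb R x Z ∩ nb R y Z` has more than
`2 d` elements. `T` = all `{x, y, z e}`. Packing: the sets are 3-cliques of `L ⊔ R`; if two of them share
two vertices then they share a vertex `x ∈ W` and another one: if the other is in `W` then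
`e = e'`; if it is in `Z` then `z e = z e'` with a common end, excluded. The neighbours of `x ∈ W` in
`cov T` which are in `Z` are the `z e`, `e ∋ x`: at most `d`. -/
def S_C3 : Prop := ∀ (V : Type) [Fintype V] [DecidableEq V] (L R : SimpleGraph V)
    (W Z : Finset V) (d : ℕ), Disjoint W Z → (∀ x ∈ W, dg L x W ≤ d) →
    (∀ x ∈ W, ∀ y ∈ W, L.Adj x y → 2 * d < (nb R x Z ∩ nb R y Z).card) →
    ∃ T : Finset (Finset V), Pack (L ⊔ R) T ∧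
      (∀ x ∈ W, ∀ y ∈ W, L.Adj x y → (cov T).Adj x y) ∧
      (∀ x y, (cov T).Adj x y → (L.Adj x y ∧ x ∈ W ∧ y ∈ W) ∨
        (R.Adj x y ∧ x ∈ W ∧ y ∈ Z) ∨ (R.Adj x y ∧ x ∈ Z ∧ y ∈ W)) ∧
      (∀ x ∈ W, dg (cov T) x Z ≤ d)

/-- [C4] covering the leftover edges `w u`, `w ∈ W`, `u ∈ U1`, by triangles `{w, u, z}`, `z ∈ Z`.
PROOF. Let `P` be the set of the pairs `(w, u)`, `w ∈ W`, `u ∈ U1`, `L.Adj w u`. Claim by induction on
`P' ⊆ P`: there is `z : P' → Z` (`Z = U1 \ U2`) with (i) `R.Adj w (z (w,u))`, `Q.Adj u (z (w,u))`;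
(ii) for `(w,u) ≠ (w',u')` in `P'`: if `w = w'` then `z ≠ z'`; if `w ≠ w'` then not (`u = u'`, `z = z'`)
and not (`u = z'`, `z = u'`); (iii) for each `v`: `load v = #{e ∈ P' | z e = v} ≤ Λ` and
`load2 v = #{e ∈ P' | z e = v, u(e) ∈ U2} ≤ Λ2`.
Adding `(w, u)`: choose `z` in `nb R w Z ∩ nb Q u Z` different from the `z (w, u')` (at most `d - 1`), the
`z (w', u)` (at most `d - 1`), the `u'` with `z (w', u') = u` (at most `load u ≤ Λ`), the `v` with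
`load v = Λ` (at most `a`, as `Λ #{..} ≤ |P'| < ∑_{u∈U1} dg L u W ≤ a Λ`), and the `v` with
`load2 v = Λ2` (at most `a2`). `T` = all `{w, u, z}`. Packing: if `{w,u,z}` and `{w',u',z'}`
(different) share two vertices: `w = w'` and (`u = z'` impossible, since `L.Adj w u`, `R.Adj w z'`, `L`, `R`
disjoint; `z = z'` excluded), or `w ≠ w'` and `{u,z} = {u',z'}` excluded.
Neighbours of `u ∈ U1` in `cov T` inside `U1`: the `z (w,u)` (at most `dg L u W ≤ d`) and the `u'` with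
`z (w,u') = u` (at most `Λ`); inside `U2` only the latter with `u' ∈ U2` (at most `Λ2`), and if moreover
`u ∈ U2` then none, since `z` is never in `U2`. -/
def S_C4 : Prop := ∀ (V : Type) [Fintype V] [DecidableEq V] (L R Q : SimpleGraph V)
    (W U1 U2 : Finset V) (d Λ Λ2 a a2 : ℕ), Disjoint W U1 → U2 ⊆ U1 → Disjoint L R →
    (∀ w ∈ W, dg L w U1 ≤ d) → (∀ u ∈ U1, dg L u W ≤ d) → 1 ≤ Λ → 1 ≤ Λ2 →
    ∑ u ∈ U1, dg L u W ≤ a * Λ → ∑ u ∈ U2, dg L u W ≤ a2 * Λ2 →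
    (∀ w ∈ W, ∀ u ∈ U1, L.Adj w u →
      2 * d + Λ + a + a2 < (nb R w (U1 \ U2) ∩ nb Q u (U1 \ U2)).card) →
    ∃ T : Finset (Finset V), Pack (L ⊔ R ⊔ Q) T ∧
      (∀ w ∈ W, ∀ u ∈ U1, L.Adj w u → (cov T).Adj w u) ∧
      (∀ x y, (cov T).Adj x y →
        (L.Adj x y ∧ ((x ∈ W ∧ y ∈ U1) ∨ (y ∈ W ∧ x ∈ U1))) ∨
        (R.Adj x y ∧ ((x ∈ W ∧ y ∈ U1 \ U2) ∨ (y ∈ W ∧ x ∈ U1 \ U2))) ∨
        (Q.Adj x y ∧ x ∈ U1 ∧ y ∈ U1 ∧ ¬ (x ∈ U2 ∧ y ∈ U2))) ∧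
      (∀ w ∈ W, dg (cov T ⊓ R) w U1 ≤ d) ∧ (∀ u ∈ U1, dg (cov T) u U1 ≤ d + Λ) ∧
      (∀ u ∈ U1, dg (cov T) u U2 ≤ Λ2)

/-- [Hall] perfect matchings in dense bipartite graphs.
PROOF. Hall's theorem (`Finset.all_card_le_biUnion_card_iff_exists_injective`, indexed by the
subtype of `X`, with the sets `{y ∈ Y | r x y}`): for `A ⊆ X` nonempty the union `B` of these sets has at
least `|Y|/2` elements; if `|A| ≤ |Y|/2` fine; else `|A| > |X|/2` and every `y ∈ Y` has at least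
`|X|/2` partners in `X`, so one of them is in `A`: `B = Y`, `|B| = |X| ≥ |A|`. -/
def S_Hall : Prop := ∀ (V : Type) [DecidableEq V] (X Y : Finset V) (r : V → V → Prop)
    [DecidableRel r], X.card = Y.card →
    (∀ x ∈ X, Y.card ≤ 2 * (Y.filter (fun y => r x y)).card) →
    (∀ y ∈ Y, X.card ≤ 2 * (X.filter (fun x => r x y)).card) →
    ∃ f : V → V, (∀ x ∈ X, f x ∈ Y ∧ r x (f x)) ∧ Set.InjOn f X

/-- [C5] covering all reserved edges which are left: for each `w ∈ W` a perfect matching between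
its neighbours in the two parts.
PROOF. For `w ∈ W` let `X_w = nb D w (pt Z (π w + 1))`, `Y_w = nb D w (pt Z (π w - 1))`; all
`D`-neighbours of `w` are in `X_w ∪ Y_w` (`Res` forces the part), `|X_w| = |Y_w|`.
By induction on subsets `W' ⊆ W` we find injective `f_w : X_w → Y_w` (`w ∈ W'`) with `Q.Adj x (f_w x)`
such that the edges `x f_w(x)` are all different for different `w ∈ W'`. Adding `w`: let `r x y` =
`Q.Adj x y` and `{x, y}` is not an edge `x' f_{w'}(x')`, `w' ∈ W'`. If `{x,y}`, `x ∈ X_w`, `y ∈ Y_w`, is such an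
edge, then `{x, y}` meets the parts `π w ± 1`, so `π w' = π w` (the third part) and
`x ∈ X_{w'}`, `y ∈ Y_{w'}`, hence `ρ w' = ρ x = ρ w`, `χ w' = χ y = χ w` (`Res`): at most `m - 1` such
`w'` (different from `w`), and each uses at most one edge at `x` (at `y`). So every `x ∈ X_w` has at
least `(|Y_w| + 2m)/2 - m = |Y_w|/2` partners `y ∈ Y_w` with `r x y`, and symmetrically for `y`;
use [Hall]. `T` = all `{w, x, f_w x}`, `x ∈ X_w`: it covers all edges of `D`; packing: two different members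
with the same `w` share only `w`; with different `w`, `w'` they could only share
`{x, f_w x}`, excluded. Neighbours in `Z` of `u ∈ Z` in `cov T`: one for each `w` with `D.Adj w u`. -/
def S_C5 : Prop := S_Hall → ∀ (V : Type) [Fintype V] [DecidableEq V] (π : V → ZMod 3)
    (D Q : SimpleGraph V) (W Z : Finset V) (q m : ℕ) (ρ χ : V → Fin q), Disjoint W Z →
    (∀ x y, D.Adj x y → (x ∈ W ∧ y ∈ Z ∧ Res π ρ χ x y) ∨ (y ∈ W ∧ x ∈ Z ∧ Res π ρ χ y x)) →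
    (∀ w ∈ W, dg D w (pt π Z (π w + 1)) = dg D w (pt π Z (π w - 1))) →
    (∀ i s t, ((pt π W i).filter (fun w => ρ w = s ∧ χ w = t)).card ≤ m) →
    (∀ w ∈ W, ∀ x ∈ Z, D.Adj w x → ∀ i : ZMod 3, i ≠ π w → i ≠ π x →
      dg D w (pt π Z i) + 2 * m ≤ 2 * (nb D w (pt π Z i) ∩ nb Q x (pt π Z i)).card) →
    ∃ T : Finset (Finset V), Pack (D ⊔ Q) T ∧ D ≤ cov T ∧
      (∀ x y, (cov T).Adj x y → D.Adj x y ∨ (Q.Adj x y ∧ x ∈ Z ∧ y ∈ Z)) ∧
      (∀ u ∈ Z, dg (cov T) u Z ≤ dg D u W)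

/-- [C6] the deterministic part of the cover-down lemma.
PROOF. `W = U \ U1`, `Z = U1 \ U2`, `R0 = RG ..`, `H0 = HG ..`, `L = H0 \ cov T1`, `d = ⌊2 a⌋₊`
(`dg L v S ≤ 2 a` for all `v ∈ U`, `S ⊆ U`, so `≤ d`, by `dg_two`). `G` is the disjoint union of `H0`, `R0`,
`ins G U1`; `H0` and `R0` have no edges inside `U1`.
Step 3: [C3] for `L`, `R0`, `W`, `Z`, `d` ((n3) and [C2](1): `2 d ≤ 4 a < ..`; `L.Adj x y` gives
`π x ≠ π y`): `T2`.
Step 3': [C4] for `L`, `R = R0 \ cov T2`, `Q = ins G U1`, `a := ⌈6 N1 a / Λ⌉₊`,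
`a2 := ⌈6 N2 a2 / Λ2⌉₊` (`∑_{u ∈ U1} dg L u W ≤ 3 N1 * 2a`, `∑_{u ∈ U2} dg L u W ≤ 3 N2 * 2 a2`; `U1` has
`3 N1` vertices). Candidates: [C2](2) minus the at most `d` vertices `z` with `(cov T2).Adj w z`;
(n4). Result `T3`.
Step 4: [C5] for `D = R0 \ (cov T2 ⊔ cov T3)`, `Q = ins G U1 \ cov T3`, `m = ⌊N/q^2 + E⌋₊`
(`Cells.w`). Balance: for `w ∈ W`, `imb G U w = 0`, the packings are balanced (`Pack.bal`), and the edges of
`G` at `w` are the disjoint union of those of `cov T1`, `cov T2`, `cov T3`, `D` (an edge of `L` at `w` goes to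
`W`, covered by `T2`, or to `U1`, covered by `T3`), so `imb D U w = 0`, and all `D`-neighbours of `w` are in `Z`.
Degree condition: `dg D w (pt Z i) ≤ N1/q + q E` by [C2](3), and the common neighbours are at least
`((1-2c) N1 - N2)/q - q E - d - d - (d + Λ)`, by [C2](2), minus the edges of `w` covered by `T2` (`≤ d`),
`T3` (`dg (cov T3 ⊓ R) w U1 ≤ d`), minus the edges of `x` inside `U1` covered by `T3`; (n5). Result `T4`.
`T = T1 ∪ T2 ∪ T3 ∪ T4` (`Pack.union`: the covers are edge-disjoint: `cov T1 ≤ H0`, `cov T2 ≤ L[W] ⊔ R0`,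
`cov T3 ≤ L(W,U1) ⊔ (R0 \ cov T2) ⊔ ins G U1`, `cov T4 ≤ D ⊔ (ins G U1 \ cov T3)`).
`cover`: an edge not inside `U1` is in `cov T1`, in `L` (covered by `T2` or `T3`, since it has an end in `W`) or in `R0`
(covered by `T2`, `T3` or in `D ≤ cov T4`). `out2`: edges of the cover inside `U1` come from `T3`
(not both ends in `U2`) and `T4` (inside `Z`). `deg1`: `(d + Λ) + dg D u W ≤ 2a + Λ + 2 (N/q + q E)`, (n6).
`deg2`: if `N2 = 0` then `U2 = ∅`; else `≤ Λ2`, (n7). -/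
def S_C6 : Prop := S_C2 → S_C3 → S_C4 → S_Hall → S_C5 →
    ∀ (V : Type) [Fintype V] [DecidableEq V] (π : V → ZMod 3) (G : SimpleGraph V)
    (U U1 U2 : Finset V) (N N1 N2 K q Λ Λ2 : ℕ) (c η γ0 γ1 E a a2 : ℝ) (ρ χ : V → Fin q)
    (T1 : Finset (Finset V)),
    CDHyp π G U U1 U2 N N1 N2 K c η γ0 γ1 → Cells π G U U1 U2 ρ χ E → 0 < q → 0 ≤ E → 0 < η →
    0 ≤ a → 0 ≤ a2 → 1 ≤ Λ → 1 ≤ Λ2 →
    Pack (HG π G U U1 U2 ρ χ) T1 →
    (∀ v ∈ U, ∀ i : ZMod 3, (dg (HG π G U U1 U2 ρ χ \ cov T1) v (pt π U i) : ℝ) ≤ a) →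
    (∀ v ∈ U2, ∀ i : ZMod 3, (dg (HG π G U U1 U2 ρ χ \ cov T1) v (pt π U i) : ℝ) ≤ a2) →
    4 * a < ((1 - 2 * c) * N1 - N2) / q ^ 2 - E →
    6 * a + Λ + (6 * N1 * a / Λ + 1) + (6 * N2 * a2 / Λ2 + 1)
      < ((1 - 2 * c) * N1 - N2) / q - q * E →
    N1 / q + q * E + 2 * (N / q ^ 2 + E)
      ≤ 2 * (((1 - 2 * c) * N1 - N2) / q - q * E - 6 * a - Λ) →
    2 * a + Λ + 2 * (N / q + q * E) ≤ η * N1 →
    (N2 ≠ 0 → (Λ2 : ℝ) ≤ (γ1 - γ0) * N2) →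
    ∃ T : Finset (Finset V), CDCon π G U1 U2 N1 N2 η γ0 γ1 T

/-- [C7] choice of the parameters.
PROOF. Given `η > 0`: let `K ≥ 100`, `K ≥ 200/η`; `q ≥ 200 K`, `q ≥ 200 K/η`;
`γ = min 1 η / (10^4 K q^2)`; `ζ` from `ADU c` for `η`, `γ`; `γ1 = min η (ζ/8)`,
`γ0 = γ1/(2000 K q)`, `γ2 = γ0`; `δ = min γ (ζ/(16 q))`; `N0` large (also larger than the `N0` of `ADU`
for `γ2` and of [Cells] for `δ`). As `N1 = N/K` (floor), `N ≤ 2 K N1`, `N1 ≤ N/K`, `N2 ≤ N1/K`;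
`E = δ N`, `a = γ N`, `ζ0 = γ0` (`|imb| ≤ γ0 N1 ≤ γ0 N` on `U2`), `a2 = (γ0 + γ2) N`,
`Λ = ⌊N1/(20 q)⌋₊`, `Λ2 = max 1 ⌊(γ1 - γ0) N2⌋₊`.
Degrees of `HG`: `N1 + N/q + q E ≤ η N`. Balance: `2 γ1 N1 + γ0 N1 + 2 q E ≤ ζ N`.
`|pt U2 i| = N2 ≤ N/100`. Then with `1 - 2c ≥ 0.7`, `(1-2c) N1 - N2 ≥ 0.69 N1`:
(n3) `4 γ N ≤ 8 γ K N1 < 0.69 N1/q^2 - 2 δ K N1`;
(n4) `6a ≤ 12 γ K N1`, `Λ ≤ 0.05 N1/q`, `6 N1 a/Λ ≤ 240 q γ N ≤ 480 q K γ N1 ≤ 0.05 N1/q`,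
`6 N2 a2/Λ2 ≤ 12 a2/(γ1-γ0) ≤ 24 K (2 γ0) N1/(γ1 - γ0) ≤ 0.05 N1/q`, `q E ≤ 2 q δ K N1 ≤ 0.01 N1/q`;
(n5) left side `≤ (1 + 0.01 + 0.02 + 0.01) N1/q`, right side `≥ 1.2 N1/q`;
(n6) `2 N/q ≤ 4 K N1/q ≤ 0.02 η N1`, the other terms are smaller; (n7) `⌊(γ1-γ0) N2⌋ ≥ 1`. -/
def S_C7 : Prop := S_Col → S_Cells → S_C1 → S_C2 → S_C3 → S_C4 → S_Hall → S_C5 → S_C6 →
    ∀ c : ℝ, c ≤ 3 / 20 → ADU c → CD c

end DH
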