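import Pool.Agent.Lib.MP_fe8cb7_co.h25.Basic

/-!
# Daykin-Haggkvist problem: statements of block F (fractional theorem, minimum degree 9/10)

The three parts are three finite types `A`, `B`, `C`; `ab`, `bc`, `ac` are the adjacencies; all
part sizes are `N`; a vertex `a` has `gA a * N` neighbours in each of the other parts, etc.
`s` is the average of `gA` (and of `gB` and of `gC`).
-/

open Finset

namespace DH

open Classical in
/-- a balanced tripartite graph with minimum relative degree 9/10 -/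
structure TGood {A B C : Type} [Fintype A] [Fintype B] [Fintype C] (ab : A → B → Prop)
    (bc : B → C → Prop) (ac : A → C → Prop) (N : ℝ) (gA : A → ℝ) (gB : B → ℝ) (gC : C → ℝ)
    (s : ℝ) : Prop where
  N0 : 0 < N
  cA : (Fintype.card A : ℝ) = N
  cB : (Fintype.card B : ℝ) = N
  cC : (Fintype.card C : ℝ) = N
  dAB : ∀ a, ((univ.filter (fun b => ab a b)).card : ℝ) = gA a * N
  dAC : ∀ a, ((univ.filter (fun c => ac a c)).card : ℝ) = gA a * N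
  dBA : ∀ b, ((univ.filter (fun a => ab a b)).card : ℝ) = gB b * N
  dBC : ∀ b, ((univ.filter (fun c => bc b c)).card : ℝ) = gB b * N
  dCA : ∀ c, ((univ.filter (fun a => ac a c)).card : ℝ) = gC c * N
  dCB : ∀ c, ((univ.filter (fun b => bc b c)).card : ℝ) = gC c * N
  lA : ∀ a, 9 / 10 ≤ gA a
  lB : ∀ b, 9 / 10 ≤ gB b
  lC : ∀ c, 9 / 10 ≤ gC c
  uA : ∀ a, gA a ≤ 1
  uB : ∀ b, gB b ≤ 1
  uC : ∀ c, gC c ≤ 1
  sA : ∑ a, gA a = s * N
  sB : ∑ b, gB b = s * N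
  sC : ∑ c, gC c = s * N

/-- [F1a] potentials on a dense bipartite graph.
PROOF. Fix `b0`. For each `b` choose `c` adjacent to `b` and `b0` and put `p b = y b c - y b0 c`
(by the 4-cycle condition this does not depend on `c`). For `b`, `b'` choose `c` adjacent to
`b`, `b'`, `b0`: `p b - p b' = y b c - y b' c`, and by the 4-cycle condition this holds for all
common neighbours `c` of `b`, `b'`. Put `q c = y b c - p b` for a neighbour `b` of `c` (0 if there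
is none); independent of the choice of `b`. -/
def S_F1a : Prop := ∀ (B C : Type) (bc : B → C → Prop) (y : B → C → ℝ), Nonempty B →
    (∀ b1 b2 b3, ∃ c, bc b1 c ∧ bc b2 c ∧ bc b3 c) →
    (∀ b b' c c', bc b c → bc b' c → bc b c' → bc b' c' → y b c - y b' c = y b c' - y b' c') →
    ∃ (p : B → ℝ) (q : C → ℝ), ∀ b c, bc b c → y b c = p b + q c

/-- [F1c] common neighbours: any 4 vertices outside of a part have a common neighbour in it (and any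
two vertices `a`, `a'` have a common pair `b c`, and any two edges...).
PROOF. Inclusion-exclusion: each vertex has at most `N/10` non-neighbours in a part and
`4 N / 10 < N`. For the last three: choose `b` adjacent to `a`, `a'` and then `c` adjacent to
`a`, `a'`, `b`, etc. -/
def S_F1c : Prop := ∀ (A B C : Type) [Fintype A] [Fintype B] [Fintype C] (ab : A → B → Prop)
    (bc : B → C → Prop) (ac : A → C → Prop) (N : ℝ) (gA : A → ℝ) (gB : B → ℝ) (gC : C → ℝ) (s : ℝ),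
    TGood ab bc ac N gA gB gC s →
    (∀ b b' c c', ∃ a, ab a b ∧ ab a b' ∧ ac a c ∧ ac a c') ∧
    (∀ a a' c c', ∃ b, ab a b ∧ ab a' b ∧ bc b c ∧ bc b c') ∧
    (∀ a a' b b', ∃ c, ac a c ∧ ac a' c ∧ bc b c ∧ bc b' c) ∧
    (∀ b1 b2 b3, ∃ c, bc b1 c ∧ bc b2 c ∧ bc b3 c) ∧
    (∀ a1 a2 a3, ∃ b, ab a1 b ∧ ab a2 b ∧ ab a3 b) ∧
    (∀ a1 a2 a3, ∃ c, ac a1 c ∧ ac a2 c ∧ ac a3 c) ∧
    (∀ a a', ∃ b c, ab a b ∧ ab a' b ∧ ac a c ∧ ac a' c ∧ bc b c) ∧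
    (∀ b b', ∃ a c, ab a b ∧ ab a b' ∧ bc b c ∧ bc b' c ∧ ac a c) ∧
    (∀ c c', ∃ a b, ac a c ∧ ac a c' ∧ bc b c ∧ bc b c' ∧ ab a b)

open Classical in
/-- [F1] kernel lemma: if the sum over each triangle is zero then the total sum is zero.
PROOF. By [F1c] and the triangle condition `y` satisfies the 4-cycle condition of [F1a]:
`b, b', c, c'` have a common neighbour `a` and
`y b c - y b' c = x a b' - x a b = y b c' - y b' c'`. So `y b c = p b + q c` on edges; in the same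
way `x a b = α a + β b` and `z a c = r a + t c` on edges. Put `φ a = α a + r a`,
`ψ b = β b + p b`, `χ c = q c + t c`; for each triangle `φ a + ψ b + χ c = 0`. By the last
three parts of [F1c] `φ`, `ψ`, `χ` are constant, with sum `0` (`N > 0` so `A`, `B`, `C` are
nonempty and there is a triangle). The total sum is
`∑ a, gA a N (α a + r a) + ∑ b, gB b N (β b + p b) + ∑ c, gC c N (q c + t c)
= s N^2 (φ + ψ + χ) = 0` (`sum_comm`, `dAB`, ..., `sA`, `sB`, `sC`). -/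
def S_F1 : Prop := S_F1a → S_F1c →
    ∀ (A B C : Type) [Fintype A] [Fintype B] [Fintype C] (ab : A → B → Prop)
    (bc : B → C → Prop) (ac : A → C → Prop) (N : ℝ) (gA : A → ℝ) (gB : B → ℝ) (gC : C → ℝ) (s : ℝ),
    TGood ab bc ac N gA gB gC s → ∀ (x : A → B → ℝ) (y : B → C → ℝ) (z : A → C → ℝ),
    (∀ a b c, ab a b → bc b c → ac a c → x a b + y b c + z a c = 0) →
    ∑ a, ∑ b, (if ab a b then x a b else 0) + ∑ b, ∑ c, (if bc b c then y b c else 0)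
      + ∑ a, ∑ c, (if ac a c then z a c else 0) = 0

/-- [F2] solvability of weighted normal equations.
PROOF. The linear map `L : (E → ℝ) → (E → ℝ)`, `(L x) e = ∑ t, M t e * θ t * ∑ e', M t e' * x e'`
is symmetric for the standard scalar product, and `∑ e, x e * (L x) e = ∑ t, θ t (∑ e, M t e x e)^2`,
so `L x = 0` implies `∑ e, M t e x e = 0` for all `t`, hence `∑ e, r e x e = 0`. The range of a
symmetric map is the orthogonal complement of its kernel in finite dimension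
(`LinearMap.IsSymmetric.orthogonal_range` on `EuclideanSpace ℝ E`, plus
`Submodule.orthogonal_orthogonal`), so `r` is in the range.
Alternatively: let `x` minimise nothing but use `Matrix` rank..; any proof is fine. -/
def S_F2 : Prop := ∀ (E T : Type) [Fintype E] [Fintype T] (M : T → E → ℝ) (θ : T → ℝ) (r : E → ℝ),
    (∀ t, 0 < θ t) →
    (∀ x : E → ℝ, (∀ t, ∑ e, M t e * x e = 0) → ∑ e, r e * x e = 0) →
    ∃ x : E → ℝ, ∀ e, ∑ t, M t e * θ t * (∑ e', M t e' * x e') = r e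

open Classical in
/-- [F3] weighted orthogonal decomposition `y = (y - u - v) + (u + v)` on a bipartite graph.
PROOF. [F2] with `E = B ⊕ C`, `T = B × C`, `M (b,c) (inl b') = if bc b c ∧ b' = b then 1 else 0`,
`M (b,c) (inr c') = if bc b c ∧ c' = c then 1 else 0`, `θ (b,c) = ω b * ν c`,
`r (inl b) = ∑ c, if bc b c then ω b * ν c * y b c else 0`,
`r (inr c) = ∑ b, if bc b c then ω b * ν c * y b c else 0`. If `x (inl b) + x (inr c) = 0` for all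
edges then `∑ e, r e * x e = ∑ b, ∑ c, if bc b c then ω b ν c y b c (x (inl b) + x (inr c)) else 0`
is `0`. The solution `x = (u, v)` satisfies, for each `b`,
`∑ c with bc b c, ω b ν c (u b + v c) = ∑ c with bc b c, ω b ν c y b c`; divide by `ω b`. -/
def S_F3 : Prop := S_F2 → ∀ (B C : Type) [Fintype B] [Fintype C] (bc : B → C → Prop)
    (ω : B → ℝ) (ν : C → ℝ) (y : B → C → ℝ), (∀ b, 0 < ω b) → (∀ c, 0 < ν c) →
    ∃ (u : B → ℝ) (v : C → ℝ),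
      (∀ b, ∑ c ∈ univ.filter (fun c => bc b c), ν c * (y b c - u b - v c) = 0) ∧
      (∀ c, ∑ b ∈ univ.filter (fun b => bc b c), ω b * (y b c - u b - v c) = 0)

open Classical in
/-- [F4a] the weighted normal equations.
PROOF. [F2] with `E = (A × B) ⊕ (B × C) ⊕ (A × C)`, `T = A × B × C`, `M t e = 1` if `t = (a,b,c)` is
a triangle (`ab a b ∧ bc b c ∧ ac a c`) and `e` is one of `(a,b)`, `(b,c)`, `(a,c)` (in its
summand), else `0`; `θ (a,b,c) = s / (gA a * gB b * gC c)` (`s > 0`: `s N = ∑ gA a ≥ (9/10) N`),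
`r e = N` if `e` is an edge, else `0`. The kernel condition is [F1] (times `N`). The equations for
the three kinds of edges, divided by `s / (gA a * gB b)` etc., are the ones below. -/
def S_F4a : Prop := S_F1a → S_F1c → S_F1 → S_F2 →
    ∀ (A B C : Type) [Fintype A] [Fintype B] [Fintype C] (ab : A → B → Prop)
    (bc : B → C → Prop) (ac : A → C → Prop) (N : ℝ) (gA : A → ℝ) (gB : B → ℝ) (gC : C → ℝ) (s : ℝ),
    TGood ab bc ac N gA gB gC s → ∃ (x : A → B → ℝ) (y : B → C → ℝ) (z : A → C → ℝ),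
    (∀ a b, ab a b → ∑ c ∈ univ.filter (fun c => ac a c ∧ bc b c),
      (x a b + y b c + z a c) / gC c = N * gA a * gB b / s) ∧
    (∀ a c, ac a c → ∑ b ∈ univ.filter (fun b => ab a b ∧ bc b c),
      (x a b + y b c + z a c) / gB b = N * gA a * gC c / s) ∧
    (∀ b c, bc b c → ∑ a ∈ univ.filter (fun a => ab a b ∧ ac a c),
      (x a b + y b c + z a c) / gA a = N * gB b * gC c / s)

open Classical in
/-- the solution in normalised form: `X a b c = y b c + P a b + Q a c - m a` -/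
structure FSol {A B C : Type} [Fintype A] [Fintype B] [Fintype C] (ab : A → B → Prop)
    (bc : B → C → Prop) (ac : A → C → Prop) (N : ℝ) (gA : A → ℝ) (gB : B → ℝ) (gC : C → ℝ)
    (s : ℝ) (P : A → B → ℝ) (Q : A → C → ℝ) (m : A → ℝ) (y : B → C → ℝ) : Prop where
  zP : ∀ a, ∑ b ∈ univ.filter (fun b => ab a b), (P a b - m a) / gB b = 0
  zQ : ∀ a, ∑ c ∈ univ.filter (fun c => ac a c), (Q a c - m a) / gC c = 0
  zy1 : ∀ b, ∑ c ∈ univ.filter (fun c => bc b c), y b c / gC c = 0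
  zy2 : ∀ c, ∑ b ∈ univ.filter (fun b => bc b c), y b c / gB b = 0
  e1 : ∀ a b, ab a b → ∑ c ∈ univ.filter (fun c => ac a c ∧ bc b c),
    (y b c + P a b + Q a c - m a) / gC c = N * gA a * gB b / s
  e2 : ∀ a c, ac a c → ∑ b ∈ univ.filter (fun b => ab a b ∧ bc b c),
    (y b c + P a b + Q a c - m a) / gB b = N * gA a * gC c / s
  e3 : ∀ b c, bc b c → ∑ a ∈ univ.filter (fun a => ab a b ∧ ac a c),
    (y b c + P a b + Q a c - m a) / gA a = N * gB b * gC c / s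

/-- [F4b] existence of the normalised solution.
PROOF. Take `x`, `y0`, `z` from [F4a]; apply [F3] to `y0` with `ω b = 1 / gB b`, `ν c = 1 / gC c`:
`u`, `v`. Put `y b c = y0 b c - u b - v c` (then `zy1`, `zy2`). For each `a` let `X1 a` be the
weighted average of `x a b + u b` over the `b` with `ab a b` (weights `1 / gB b`) and `X2 a` the
weighted average of `z a c + v c` over the `c` with `ac a c` (weights `1 / gC c`) (the total weights
are positive since the neighbourhoods are nonempty). Put `m a = X1 a + X2 a`,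
`P a b = x a b + u b + X2 a`, `Q a c = z a c + v c + X1 a`. Then `zP`, `zQ`, and
`y b c + P a b + Q a c - m a = x a b + y0 b c + z a c`. -/
def S_F4b : Prop := S_F1a → S_F1c → S_F1 → S_F2 → S_F3 → S_F4a →
    ∀ (A B C : Type) [Fintype A] [Fintype B] [Fintype C] (ab : A → B → Prop)
    (bc : B → C → Prop) (ac : A → C → Prop) (N : ℝ) (gA : A → ℝ) (gB : B → ℝ) (gC : C → ℝ) (s : ℝ),
    TGood ab bc ac N gA gB gC s →
    ∃ (P : A → B → ℝ) (Q : A → C → ℝ) (m : A → ℝ) (y : B → C → ℝ),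
    FSol ab bc ac N gA gB gC s P Q m y

/-- [F5a] the bounds for `Ω`.
PROOF. `∑ c, 1 / g c ≥ N / s` (sum the tangent line inequality `1/g ≥ 2/s - g/s^2`; `s > 0` as
`s N ≥ (9/10) N`), and `∑ c, 1 / g c ≤ N (1 + (10/9)(1 - s))` (sum `1/g ≤ 1 + (10/9)(1-g)`,
valid for `9/10 ≤ g ≤ 1`). The sum of `1 / g c` over the complement of `S` is between `N - |S|` and
`(10/9) (N - |S|)`. Subtract. -/
def S_F5a : Prop := ∀ (C : Type) [Fintype C] [DecidableEq C] (N s : ℝ) (g : C → ℝ) (S : Finset C),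
    0 < N → (Fintype.card C : ℝ) = N → (∀ c, 9 / 10 ≤ g c ∧ g c ≤ 1) → ∑ c, g c = s * N →
    1 / s - 10 / 9 * (1 - (S.card : ℝ) / N) ≤ (∑ c ∈ S, 1 / g c) / N ∧
    (∑ c ∈ S, 1 / g c) / N ≤ 1 + 10 / 9 * (1 - s) - (1 - (S.card : ℝ) / N)

open Classical in
/-- relative number of vertices of `C` which are adjacent neither to `a` nor to `b` -/
noncomputable def kC {A B C : Type} [Fintype C] (bc : B → C → Prop) (ac : A → C → Prop) (N : ℝ)
    (a : A) (b : B) : ℝ := ((univ.filter (fun c => ¬ ac a c ∧ ¬ bc b c)).card : ℝ) / N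

/-- [F5] the estimates for `P` (equation `e1`).
PROOF. Let `h_a = 1 - gA a`, `h_b = 1 - gB b`, `k = kC bc ac N a b`,
`Ω = (1/N) ∑ c with (ac a c ∧ bc b c), 1 / gC c`.
Counting in `C`: `|N(a) ∩ N(b)| = (1 - h_a - h_b + k) N`, `|N(a) \ N(b)| = (h_b - k) N`,
`|N(b) \ N(a)| = (h_a - k) N`, so `0 ≤ k ≤ min (h_a, h_b)`. The bounds for `Ω` are [F5a] with
`S = N(a) ∩ N(b)`.
By `e1`, `N Ω P a b = N gA a gB b / s - ∑_{N(a)∩N(b)} (Q a c - m a)/gC c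
- ∑_{N(a)∩N(b)} y b c / gC c`, and by `zQ`, `zy1` the last two sums are
`-∑_{N(a)\N(b)} (Q a c - m a)/gC c` and `-∑_{N(b)\N(a)} y b c / gC c`; each term of
`∑_{N(a)\N(b)} (Q a c - m a)/gC c` is between `-(10/9) Gm` and `(10/9) Gp`, etc. -/
def S_F5 : Prop := S_F5a → ∀ (A B C : Type) [Fintype A] [Fintype B] [Fintype C] (ab : A → B → Prop)
    (bc : B → C → Prop) (ac : A → C → Prop) (N : ℝ) (gA : A → ℝ) (gB : B → ℝ) (gC : C → ℝ) (s : ℝ)
    (P : A → B → ℝ) (Q : A → C → ℝ) (m : A → ℝ) (y : B → C → ℝ) (Gp Gm Yp Ym : ℝ),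
    TGood ab bc ac N gA gB gC s → FSol ab bc ac N gA gB gC s P Q m y →
    0 ≤ Gp → 0 ≤ Gm → 0 ≤ Yp → 0 ≤ Ym →
    (∀ a c, ac a c → -Gm ≤ Q a c - m a ∧ Q a c - m a ≤ Gp) →
    (∀ b c, bc b c → -Ym ≤ y b c ∧ y b c ≤ Yp) →
    ∀ a b, ab a b → ∃ Ω : ℝ,
      0 ≤ kC bc ac N a b ∧ kC bc ac N a b ≤ 1 - gA a ∧ kC bc ac N a b ≤ 1 - gB b ∧
      1 / s - 10 / 9 * ((1 - gA a) + (1 - gB b) - kC bc ac N a b) ≤ Ω ∧
      Ω ≤ 1 + 10 / 9 * (1 - s) - ((1 - gA a) + (1 - gB b) - kC bc ac N a b) ∧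
      P a b * Ω ≤ gA a * gB b / s + 10 / 9 * ((1 - gB b - kC bc ac N a b) * Gp
        + (1 - gA a - kC bc ac N a b) * Yp) ∧
      gA a * gB b / s - 10 / 9 * ((1 - gB b - kC bc ac N a b) * Gm
        + (1 - gA a - kC bc ac N a b) * Ym) ≤ P a b * Ω

/-- [F6U] the upper bound as a real inequality (`x = h_a`, `y = h_b`).
PROOF. `Ω ≥ 1/s - (10/9)(x + y) ≥ 7/9 > 0` (`s ≤ 1`). It suffices that
`(1-x)(1-y)/s + (10/9)((y-k) Gp + (x-k) Yp) ≤ (7.29 + Gp + Yp)/7 * (1/s - (10/9)(x+y-k))`.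
Coefficient of `Gp`: `(10/9)(y-k) ≤ 1/9 ≤ (1/7)(7/9)`; the same for `Yp`. Constant term: multiply
by `s`: `(1-x)(1-y) ≤ (7.29/7)(1 - (10/9) s (x+y-k))`, and the right side is at least
`(7.29/7)(1 - (10/9)(x+y))`; `7 (1-x)(1-y) + 8.1 (x+y) = 7 + 1.1 (x+y) + 7xy ≤ 7.29`. -/
def S_F6U : Prop := ∀ x y k s Ω Gp Yp P : ℝ, 0 ≤ x → x ≤ 1 / 10 → 0 ≤ y → y ≤ 1 / 10 →
    0 ≤ k → k ≤ x → k ≤ y → 9 / 10 ≤ s → s ≤ 1 → 0 ≤ Gp → 0 ≤ Yp →
    1 / s - 10 / 9 * (x + y - k) ≤ Ω →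
    P * Ω ≤ (1 - x) * (1 - y) / s + 10 / 9 * ((y - k) * Gp + (x - k) * Yp) →
    P ≤ (7.29 + Gp + Yp) / 7

/-- [F6a] lower bound, first pass. Notation: `t = Gm + Ym`, `e = 1 - s ∈ [0, 1/10]`,
`hi = 1 + (10/9) e - (x + y - k)`, `q = 0.987 - 1.1 k - t/7`.
PROOF. `7/9 ≤ 1/s - (10/9)(x+y-k) ≤ Ω ≤ hi`, `0.8 ≤ hi`, and
`(10/9)((y-k) Gm + (x-k) Ym) ≤ (10/9)(1/10 - k) t ≤ t/9`. Suppose `P < q`.
Case `q ≥ 0`: then `P * Ω < q * Ω ≤ q * hi`, and `(t/7) hi ≥ (0.8/7) t ≥ t/9`, so it is enough to show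
`F := (1-x)(1-y)/(1-e) - (0.987 - 1.1 k)(1 + (10/9) e - x - y + k) ≥ 0`. For fixed `k`, `e` this is
bilinear in `(x, y) ∈ [k, 1/10]^2`, so it suffices to check `x, y ∈ {k, 1/10}` (a bilinear function is
at least the minimum of its values at the corners: `F` is a convex combination of them), three
inequalities in the two variables `k, e ∈ [0, 1/10]` (multiply by `1 - e`; margin `≥ 0.0007`).
Case `q < 0`: `P * Ω < q * Ω ≤ q * (7/9) ≤ (0.987 - t/7) * 7/9 ≤ 0.81 - t/9 ≤ P * Ω`, contradiction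
(`(1-x)(1-y)/s ≥ 0.81`). -/
def S_F6a : Prop := ∀ x y k s Ω Gm Ym P : ℝ, 0 ≤ x → x ≤ 1 / 10 → 0 ≤ y → y ≤ 1 / 10 →
    0 ≤ k → k ≤ x → k ≤ y → 9 / 10 ≤ s → s ≤ 1 → 0 ≤ Gm → 0 ≤ Ym →
    1 / s - 10 / 9 * (x + y - k) ≤ Ω → Ω ≤ 1 + 10 / 9 * (1 - s) - (x + y - k) →
    (1 - x) * (1 - y) / s - 10 / 9 * ((y - k) * Gm + (x - k) * Ym) ≤ P * Ω →
    0.987 - 1.1 * k - (Gm + Ym) / 7 ≤ P

/-- [F6b] lower bound, first pass, without `k`.
PROOF. As [F6a] with `q = 0.889 - t/7`: in the case `q ≥ 0` it is enough to show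
`F := (1-x)(1-y)/(1-e) - 0.889 (1 + (10/9) e - x - y + k) ≥ 0` (bilinear in `(x,y) ∈ [k,1/10]^2`, so check
`x, y ∈ {k, 1/10}`; or directly: assume `x ≤ y`; as `k ≤ x` the subtracted term is at most
`0.889 (1 - y + (10/9) e)`, `(1-e)(1 - y + (10/9) e) ≤ 1 - y + (9/40)(1/9 + y)^2 ≤ 1 - y + 0.0101`, and
`0.889 (1 - y + 0.0101) ≤ 0.9 (1 - y) ≤ (1-x)(1-y)`). Case `q < 0`: `q * 7/9 ≤ 0.81 - t/9`. -/
def S_F6b : Prop := ∀ x y k s Ω Gm Ym P : ℝ, 0 ≤ x → x ≤ 1 / 10 → 0 ≤ y → y ≤ 1 / 10 →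
    0 ≤ k → k ≤ x → k ≤ y → 9 / 10 ≤ s → s ≤ 1 → 0 ≤ Gm → 0 ≤ Ym →
    1 / s - 10 / 9 * (x + y - k) ≤ Ω → Ω ≤ 1 + 10 / 9 * (1 - s) - (x + y - k) →
    (1 - x) * (1 - y) / s - 10 / 9 * ((y - k) * Gm + (x - k) * Ym) ≤ P * Ω →
    0.889 - (Gm + Ym) / 7 ≤ P

/-- [F6c] lower bound, second pass (`t = Gm + Ym ≤ 1.1`, `q = (8.09 - t)/8.2 - 1.1 k > 0`).
PROOF. Suppose `P < q`; as `q > 0`, `P * Ω < q * hi`. So it is enough to show
`F := (1-x)(1-y)/(1-e) - (10/9)((y-k) Gm + (x-k) Ym) - q (1 + (10/9) e - x - y + k) ≥ 0`.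
For fixed `k, e, Gm, Ym` this is bilinear in `(x, y) ∈ [k, 1/10]^2`, so check `x, y ∈ {k, 1/10}`, where
`(10/9)((y-k) Gm + (x-k) Ym)` is `0`, `≤ (10/9)(1/10-k) t` (two corners) or `= (10/9)(1/10-k) t`. Each
case is linear in `t`, so check `t = 0` and `t = 1.1`: inequalities in `k, e ∈ [0, 1/10]`. The tight one
is `x = y = 1/10`, `t = 1.1`: `0.81/(1-e) - (11/9)(1/10 - k) - (6.99/8.2 - 1.1 k)(0.8 + (10/9) e + k) ≥ 0`:
it increases in `k`, and for `k = 0` it is `0.81/(1-e) - 0.12223 - 0.85244 (0.8 + (10/9) e) ≥ 0.0004`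
(minimum at `e = 0.075`). Margin overall `≥ 0.0005` (checked numerically on a grid). -/
def S_F6c : Prop := ∀ x y k s Ω Gm Ym P : ℝ, 0 ≤ x → x ≤ 1 / 10 → 0 ≤ y → y ≤ 1 / 10 →
    0 ≤ k → k ≤ x → k ≤ y → 9 / 10 ≤ s → s ≤ 1 → 0 ≤ Gm → 0 ≤ Ym → Gm + Ym ≤ 1.1 →
    1 / s - 10 / 9 * (x + y - k) ≤ Ω → Ω ≤ 1 + 10 / 9 * (1 - s) - (x + y - k) →
    (1 - x) * (1 - y) / s - 10 / 9 * ((y - k) * Gm + (x - k) * Ym) ≤ P * Ω →
    (8.09 - (Gm + Ym)) / 8.2 - 1.1 * k ≤ P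

/-- [F6d] lower bound, second pass, `0.8 ≤ t ≤ 1.1`, without `k`: `q = (8.09 - t)/8.2`.
PROOF. As [F6c]: enough `F := (1-x)(1-y)/(1-e) - (10/9)((y-k) Gm + (x-k) Ym) - q (1 + (10/9) e - x - y + k)
≥ 0`, bilinear in `(x, y) ∈ [k, 1/10]^2`; corners `x, y ∈ {k, 1/10}`, there linear in `t ∈ [0.8, 1.1]`:
check `t = 0.8`, `t = 1.1`. At the corner `(1/10, 1/10)` also linear in `k`, so check `k = 0` and
`k = 1/10`. Margin `≥ 0.0005` (grid). -/
def S_F6d : Prop := ∀ x y k s Ω Gm Ym P : ℝ, 0 ≤ x → x ≤ 1 / 10 → 0 ≤ y → y ≤ 1 / 10 →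
    0 ≤ k → k ≤ x → k ≤ y → 9 / 10 ≤ s → s ≤ 1 → 0 ≤ Gm → 0 ≤ Ym → 0.8 ≤ Gm + Ym →
    Gm + Ym ≤ 1.1 →
    1 / s - 10 / 9 * (x + y - k) ≤ Ω → Ω ≤ 1 + 10 / 9 * (1 - s) - (x + y - k) →
    (1 - x) * (1 - y) / s - 10 / 9 * ((y - k) * Gm + (x - k) * Ym) ≤ P * Ω →
    (8.09 - (Gm + Ym)) / 8.2 ≤ P

/-- [F6e] lower bound, second pass, `t ≤ 0.8`, `q = 0.889`.
PROOF. As [F6d] with `q = 0.889`, `t ∈ [0, 0.8]` (`t = 0` is [F6b]). Margin `≥ 0.001` (grid). -/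
def S_F6e : Prop := ∀ x y k s Ω Gm Ym P : ℝ, 0 ≤ x → x ≤ 1 / 10 → 0 ≤ y → y ≤ 1 / 10 →
    0 ≤ k → k ≤ x → k ≤ y → 9 / 10 ≤ s → s ≤ 1 → 0 ≤ Gm → 0 ≤ Ym → Gm + Ym ≤ 0.8 →
    1 / s - 10 / 9 * (x + y - k) ≤ Ω → Ω ≤ 1 + 10 / 9 * (1 - s) - (x + y - k) →
    (1 - x) * (1 - y) / s - 10 / 9 * ((y - k) * Gm + (x - k) * Ym) ≤ P * Ω →
    0.889 ≤ P

open Classical in
/-- [F7] averages of `k`.
PROOF. (1) `∑_{b ∼ a} kC a b / gB b ≤ (10/9) ∑_{b ∼ a} kC a b`, and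
`N ∑_{b ∼ a} kC a b ≤ #{(b, c) | ¬ ac a c ∧ ¬ bc b c} = ∑_{c ≁ a} (1 - gC c) N ≤ (N/10)(N/10)`; so the left
side is at most `N/90`; the right side is at least `(1/81) gA a N ≥ (1/81)(9/10) N = N/90`.
(2) `∑_{a ∈ N(b) ∩ N(c)} kC a b / gA a ≤ (10/9) ∑_a kC a b ≤ (10/9)(1/N) ∑_{c' ≁ b} (1 - gC c') N
≤ N/90`, and `∑_{a ∈ N(b)∩N(c)} 1/gA a ≥ |N(b)∩N(c)| ≥ (8/10) N ≥ (7/9) N`. (Third inequality for `kB a c`: symmetric, below
written with the roles of `B` and `C` exchanged: `kC (fun c b => bc b c) ab N a c`.) -/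
def S_F7 : Prop := ∀ (A B C : Type) [Fintype A] [Fintype B] [Fintype C] (ab : A → B → Prop)
    (bc : B → C → Prop) (ac : A → C → Prop) (N : ℝ) (gA : A → ℝ) (gB : B → ℝ) (gC : C → ℝ) (s : ℝ),
    TGood ab bc ac N gA gB gC s →
    (∀ a, ∑ b ∈ univ.filter (fun b => ab a b), kC bc ac N a b / gB b
      ≤ 1 / 81 * ∑ b ∈ univ.filter (fun b => ab a b), 1 / gB b) ∧
    (∀ b c, bc b c → ∑ a ∈ univ.filter (fun a => ab a b ∧ ac a c), kC bc ac N a b / gA a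
      ≤ 1 / 70 * ∑ a ∈ univ.filter (fun a => ab a b ∧ ac a c), 1 / gA a) ∧
    (∀ b c, bc b c → ∑ a ∈ univ.filter (fun a => ab a b ∧ ac a c),
        kC (fun c b => bc b c) ab N a c / gA a
      ≤ 1 / 70 * ∑ a ∈ univ.filter (fun a => ab a b ∧ ac a c), 1 / gA a)

/-- [F8a] lower bound for `m`.
PROOF. By `zP`, `m a * ∑_{b∼a} 1/gB b = ∑_{b∼a} P a b / gB b ≥ ℓ ∑ 1/gB b - κ ∑ kC a b / gB b
≥ (ℓ - κ/81) ∑ 1/gB b` by [F7](1), and the sum is positive. -/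
def S_F8a : Prop := S_F7 → ∀ (A B C : Type) [Fintype A] [Fintype B] [Fintype C]
    (ab : A → B → Prop)
    (bc : B → C → Prop) (ac : A → C → Prop) (N : ℝ) (gA : A → ℝ) (gB : B → ℝ) (gC : C → ℝ) (s : ℝ)
    (P : A → B → ℝ) (Q : A → C → ℝ) (m : A → ℝ) (y : B → C → ℝ) (l κ : ℝ),
    TGood ab bc ac N gA gB gC s → FSol ab bc ac N gA gB gC s P Q m y → 0 ≤ κ →
    (∀ a b, ab a b → l - κ * kC bc ac N a b ≤ P a b) → ∀ a, l - κ / 81 ≤ m a

/-- [F8b] bounds for `y`.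
PROOF. By `e3`, with `Ω = (1/N) ∑_{a ∈ N(b)∩N(c)} 1/gA a` (which satisfies by [F5a] (for `A` in the
role of `C`) `1/s - (10/9)(h_b + h_c - k') ≤ Ω ≤ 1 + (10/9)(1-s) - (h_b+h_c-k')`,
`k'` the relative number of `a` adjacent neither to `b` nor to `c`,
`0 ≤ k' ≤ min (h_b, h_c)`), and `r = gB b gC c / (s Ω)`:
`y b c = r - avg (P a b + Q a c - m a)`, the average over `a ∈ N(b)∩N(c)` with weights `1/gA a`.
By [F6U] (with `Gp = Yp = 0`) and [F6e] (with `Gm = Ym = 0`): `0.889 ≤ r ≤ 7.29/7`.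
Lower bound: `P a b + Q a c - m a ≤ 2 Ap - M`. Upper bound: `avg P a b ≥ ℓ - κ/70`,
`avg Q a c ≥ ℓ - κ/70` by [F7], `avg m a ≤ Ap`. -/
def S_F8b : Prop := S_F5a → S_F6U → S_F6e → S_F7 → ∀ (A B C : Type) [Fintype A] [Fintype B] [Fintype C]
    (ab : A → B → Prop)
    (bc : B → C → Prop) (ac : A → C → Prop) (N : ℝ) (gA : A → ℝ) (gB : B → ℝ) (gC : C → ℝ) (s : ℝ)
    (P : A → B → ℝ) (Q : A → C → ℝ) (m : A → ℝ) (y : B → C → ℝ) (l κ Ap M : ℝ),
    TGood ab bc ac N gA gB gC s → FSol ab bc ac N gA gB gC s P Q m y → 0 ≤ κ →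
    (∀ a b, ab a b → P a b ≤ Ap) → (∀ a c, ac a c → Q a c ≤ Ap) → (∀ a, M ≤ m a ∧ m a ≤ Ap) →
    (∀ a b, ab a b → l - κ * kC bc ac N a b ≤ P a b) →
    (∀ a c, ac a c → l - κ * kC (fun c b => bc b c) ab N a c ≤ Q a c) →
    ∀ b c, bc b c → 0.889 - (2 * Ap - M) ≤ y b c ∧ y b c ≤ 7.29 / 7 + Ap - 2 * l + κ / 35

/-- [F8s] symmetry: exchanging the roles of `B` and `C`.
PROOF. All fields by inspection (commute the conjunctions in the filters with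
`filter_congr`/`and_comm` and reorder the sums by `ring_nf`/`add_right_comm`). -/
def S_F8s : Prop := ∀ (A B C : Type) [Fintype A] [Fintype B] [Fintype C] (ab : A → B → Prop)
    (bc : B → C → Prop) (ac : A → C → Prop) (N : ℝ) (gA : A → ℝ) (gB : B → ℝ) (gC : C → ℝ) (s : ℝ)
    (P : A → B → ℝ) (Q : A → C → ℝ) (m : A → ℝ) (y : B → C → ℝ),
    TGood ab bc ac N gA gB gC s → FSol ab bc ac N gA gB gC s P Q m y →
    TGood ac (fun c b => bc b c) ab N gA gC gB s ∧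
    FSol ac (fun c b => bc b c) ab N gA gC gB s Q P m (fun c b => y b c)

/-- [F8c] extremal values and the system of inequalities.
PROOF. Let `Ap` (`pm`) be the maximum (minimum) of all `P a b` with `ab a b` and all `Q a c` with
`ac a c`; `M = min m a`; `Yp`, `-Ym` the maximum and the minimum of `y b c` over the edges (all these
sets are finite and nonempty). By `zP`, `m a` is a weighted average of `P a b`, so
`pm ≤ m a ≤ Ap`; by `zy1` `0 ≤ Yp`, `0 ≤ Ym`. Put `t = (Ap - pm) + Ym`, `Gp = Ap - M ≥ 0`,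
`Gm = Ap - pm ≥ 0`: the hypotheses of [F5] hold for `(P, Q)` and, by [F8s], also for `(Q, P)`.
(f1): [F5] and [F6U] at the edge where `Ap` is attained (for `Q` via [F8s]).
Lower bounds for all `P a b`, `Q a c`: [F6a] gives `≥ 0.987 - 1.1 k - t/7`, so [F8a] gives (f3) and
[F8b] gives (f5) (at the edge where the maximum `Yp` is attained); [F8b] also gives (f4);
[F6b] gives (f2); if `t ≤ 1.1`, [F6c] with [F8a], [F8b] gives (f6), (f7); [F6d], [F6e] give (f8), (f9)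
(at the edge where `pm` is attained). In [F8b], `κ = 1.1`. (`9/10 ≤ s ≤ 1` from `sA`, `lA`, `uA`.) -/
def S_F8c : Prop := S_F5a → S_F5 → S_F6U → S_F6a → S_F6b → S_F6c → S_F6d → S_F6e → S_F7 → S_F8a → S_F8b →
    S_F8s → ∀ (A B C : Type) [Fintype A] [Fintype B] [Fintype C] (ab : A → B → Prop)
    (bc : B → C → Prop) (ac : A → C → Prop) (N : ℝ) (gA : A → ℝ) (gB : B → ℝ) (gC : C → ℝ) (s : ℝ)
    (P : A → B → ℝ) (Q : A → C → ℝ) (m : A → ℝ) (y : B → C → ℝ),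
    TGood ab bc ac N gA gB gC s → FSol ab bc ac N gA gB gC s P Q m y →
    ∃ Ap pm M Yp Ym t : ℝ,
      (∀ a b, ab a b → pm ≤ P a b ∧ P a b ≤ Ap) ∧ (∀ a c, ac a c → pm ≤ Q a c ∧ Q a c ≤ Ap) ∧
      (∀ a, M ≤ m a ∧ m a ≤ Ap) ∧ (∀ b c, bc b c → -Ym ≤ y b c ∧ y b c ≤ Yp) ∧
      t = Ap - pm + Ym ∧
      7 * Ap ≤ 7.29 + (Ap - M) + Yp ∧ 0.889 - t / 7 ≤ pm ∧
      0.987 - t / 7 - 1.1 / 81 ≤ M ∧ Ym ≤ 2 * Ap - M - 0.889 ∧
      Yp ≤ 7.29 / 7 + Ap - 2 * (0.987 - t / 7) + 1.1 / 35 ∧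
      (t ≤ 1.1 → (8.09 - t) / 8.2 - 1.1 / 81 ≤ M ∧
        Yp ≤ 7.29 / 7 + Ap - 2 * ((8.09 - t) / 8.2) + 1.1 / 35 ∧
        (0.8 ≤ t → (8.09 - t) / 8.2 ≤ pm) ∧ (t ≤ 0.8 → 0.889 ≤ pm))

/-- [F8d] closing the system (linear arithmetic).
PROOF. From the first group `5 Ap ≤ 7.29*8/7 - 3(0.987 - t/7) + 1.1/81 + 1.1/35`, so
`Ap ≤ 1.08309 + 0.08572 t`, and `t ≤ 3 Ap - pm - M - 0.889` gives `t ≤ 1.0891 ≤ 1.1`. If `t ≥ 0.8`, the
second group gives `t ≤ 0.7482`, a contradiction. So `t ≤ 0.8`, and then `t ≤ 0.7578`,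
`Ap ≤ 1.1388`, `M ≥ 0.8805`, `Ym ≤ 0.508`, `Yp ≤ 0.4234`. All by `linarith`. -/
def S_F8d : Prop := ∀ Ap pm M Yp Ym t : ℝ,
      t = Ap - pm + Ym →
      7 * Ap ≤ 7.29 + (Ap - M) + Yp → 0.889 - t / 7 ≤ pm →
      0.987 - t / 7 - 1.1 / 81 ≤ M → Ym ≤ 2 * Ap - M - 0.889 →
      Yp ≤ 7.29 / 7 + Ap - 2 * (0.987 - t / 7) + 1.1 / 35 →
      (t ≤ 1.1 → (8.09 - t) / 8.2 - 1.1 / 81 ≤ M ∧
        Yp ≤ 7.29 / 7 + Ap - 2 * ((8.09 - t) / 8.2) + 1.1 / 35 ∧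
        (0.8 ≤ t → (8.09 - t) / 8.2 ≤ pm) ∧ (t ≤ 0.8 → 0.889 ≤ pm)) →
      0 ≤ 2 * pm - Ap - Ym ∧ Yp + 2 * Ap - M ≤ 1.83

open Classical in
/-- [F9] nonnegative weights.
PROOF. Take the solution of [F4b] and the numbers of [F8c]; by [F8d]
`X a b c = y b c + P a b + Q a c - m a ∈ [2 pm - Ap - Ym, Yp + 2 Ap - M] ⊆ [0, 1.83]` for triangles.
Put `w a b c = s X / (N gA a gB b gC c)` for triangles (and `0` otherwise); `s ≤ 1`,
`(10/9)^3 * 1.83 ≤ 3`. The three sums are `e1`, `e2`, `e3` divided by `N gA a gB b / s`, etc. -/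
def S_F9 : Prop := (∀ (A B C : Type) [Fintype A] [Fintype B] [Fintype C] (ab : A → B → Prop)
    (bc : B → C → Prop) (ac : A → C → Prop) (N : ℝ) (gA : A → ℝ) (gB : B → ℝ) (gC : C → ℝ) (s : ℝ),
    TGood ab bc ac N gA gB gC s → ∃ (P : A → B → ℝ) (Q : A → C → ℝ) (m : A → ℝ) (y : B → C → ℝ)
      (Ap pm M Yp Ym : ℝ), FSol ab bc ac N gA gB gC s P Q m y ∧
      (∀ a b, ab a b → pm ≤ P a b ∧ P a b ≤ Ap) ∧ (∀ a c, ac a c → pm ≤ Q a c ∧ Q a c ≤ Ap) ∧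
      (∀ a, M ≤ m a ∧ m a ≤ Ap) ∧ (∀ b c, bc b c → -Ym ≤ y b c ∧ y b c ≤ Yp) ∧
      0 ≤ 2 * pm - Ap - Ym ∧ Yp + 2 * Ap - M ≤ 1.83) →
    ∀ (A B C : Type) [Fintype A] [Fintype B] [Fintype C] (ab : A → B → Prop)
    (bc : B → C → Prop) (ac : A → C → Prop) (N : ℝ) (gA : A → ℝ) (gB : B → ℝ) (gC : C → ℝ) (s : ℝ),
    TGood ab bc ac N gA gB gC s → ∃ w : A → B → C → ℝ, (∀ a b c, 0 ≤ w a b c ∧ w a b c ≤ 3 / N) ∧
    (∀ a b, ab a b → ∑ c ∈ univ.filter (fun c => ac a c ∧ bc b c), w a b c = 1) ∧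
    (∀ a c, ac a c → ∑ b ∈ univ.filter (fun b => ab a b ∧ bc b c), w a b c = 1) ∧
    (∀ b c, bc b c → ∑ a ∈ univ.filter (fun a => ab a b ∧ ac a c), w a b c = 1)

open Classical in
/-- [F10] from three types to `π : V → ZMod 3`: `Frac (1/10) 3`.
PROOF. Given `V, π, G, N`, let `A = {v // π v = 0}`, `B = {v // π v = 1}`, `C = {v // π v = 2}` and
`ab a b = G.Adj a b`, etc., `gA a = dg G a (V_1) / N = dg G a (V_2) / N` (balanced), etc.;
`s = (1/N) ∑ gA`: `sB`, `sC` because `N^2 s` is the number of edges between `A` and `B`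
(double counting, `sum_comm`), between `A` and `C`. So `TGood` holds, `w` is given. Define
`W t = w a b c` if `t = {a, b, c}` with `a, b, c` in parts `0, 1, 2` (choose; they are unique), and
`W t = 0` if there are no such `a, b, c`. If `G.Adj x y`, then `x`, `y` are in two different parts; in each
of the six cases the sum over the common neighbours `z` (all in the third part) is one of the
three sums of the hypothesis (reindex by the subtype). Use symmetry of the statement in `x`, `y`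
(`{x, y, z} = {y, x, z}`, `cn G x y = cn G y x`) to reduce to three cases. -/
def S_F10 : Prop := (∀ (A B C : Type) [Fintype A] [Fintype B] [Fintype C] (ab : A → B → Prop)
    (bc : B → C → Prop) (ac : A → C → Prop) (N : ℝ) (gA : A → ℝ) (gB : B → ℝ) (gC : C → ℝ) (s : ℝ),
    TGood ab bc ac N gA gB gC s → ∃ w : A → B → C → ℝ, (∀ a b c, 0 ≤ w a b c ∧ w a b c ≤ 3 / N) ∧
    (∀ a b, ab a b → ∑ c ∈ univ.filter (fun c => ac a c ∧ bc b c), w a b c = 1) ∧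
    (∀ a c, ac a c → ∑ b ∈ univ.filter (fun b => ab a b ∧ bc b c), w a b c = 1) ∧
    (∀ b c, bc b c → ∑ a ∈ univ.filter (fun a => ab a b ∧ ac a c), w a b c = 1)) →
    Frac (1 / 10) 3

end DH
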