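import Pool.Agent.Lib.MP_fe8cb7_co.h25.ExBasic

/-!
# Daykin-Haggkvist problem: statements of block N (nibble)

Every `S_...` is a statement to be proved; the docstring contains the proof.  The probability
space is the elementary one of `Ex` (file ExBasic): a random subset `S` of a finite set `X`.
-/

open Finset

namespace DH

/-- [N2] product formula for disjoint blocks.
PROOF. (a) two blocks: if `X` is the disjoint union of `X1`, `X2`, then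
`Ex X p (fun S => f (S ∩ X1) * g (S ∩ X2)) = Ex X1 p f * Ex X2 p g`: expand the product of the two
sums and use the bijection `(S1, S2) ↦ S1 ∪ S2` from `X1.powerset ×ˢ X2.powerset` to
`X.powerset` (inverse `S ↦ (S ∩ X1, S ∩ X2)`); the weights multiply
(`prod_union`, `(X \ S) = (X1 \ S1) ∪ (X2 \ S2)`).
(b) Induction on `I` for all `X`: for `I = ∅` it is `Ex_one`. For `insert k I` apply (a) with
`X1 = B k`, `X2 = X \ B k` (for `l ∈ I`, `S ∩ B l = (S ∩ X2) ∩ B l` since `B l` is disjoint from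
`B k`), then the induction hypothesis for `X2`. -/
def S_N2 : Prop := ∀ (τ ι : Type) [DecidableEq τ] [DecidableEq ι] (X : Finset τ) (p : τ → ℝ)
    (I : Finset ι) (B : ι → Finset τ) (F : ι → Finset τ → ℝ),
    (∀ k ∈ I, B k ⊆ X) → (∀ k ∈ I, ∀ l ∈ I, k ≠ l → Disjoint (B k) (B l)) →
    Ex X p (fun S => ∏ k ∈ I, F k (S ∩ B k)) = ∏ k ∈ I, Ex (B k) p (F k)

/-- [N3] exponential moment of a sum over disjoint blocks.
PROOF. `exp` of the sum is the product over `k` of `exp (l * (Y k (S ∩ B k) - Ex (B k) p (Y k)))`;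
by [N2] the expectation is the product of the expectations over the blocks. In one block put
`Z S = Y k S - Ex (B k) p (Y k)`: since `0 ≤ Y ≤ M` also `0 ≤ Ex Y ≤ M` (Ex_mono, Ex_const), so
`|l * Z| ≤ |l| * M ≤ 1`, and `exp x ≤ 1 + x + x^2` for `|x| ≤ 1` (e.g. `Real.exp_bound'` or
`Real.abs_exp_sub_one_sub_id_le`), so
`Ex exp (l Z) ≤ 1 + l * 0 + (l M)^2 ≤ exp ((l M)^2)`. Multiply (`prod_le_prod`, `prod_const`). -/
def S_N3 : Prop := ∀ (τ ι : Type) [DecidableEq τ] [DecidableEq ι] (X : Finset τ) (p : τ → ℝ)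
    (I : Finset ι) (B : ι → Finset τ) (Y : ι → Finset τ → ℝ) (M l : ℝ),
    (∀ t ∈ X, 0 ≤ p t ∧ p t ≤ 1) →
    (∀ k ∈ I, B k ⊆ X) → (∀ k ∈ I, ∀ l ∈ I, k ≠ l → Disjoint (B k) (B l)) →
    (∀ k ∈ I, ∀ S ⊆ B k, 0 ≤ Y k S ∧ Y k S ≤ M) → |l| * M ≤ 1 →
    Ex X p (fun S => Real.exp (l * ∑ k ∈ I, (Y k (S ∩ B k) - Ex (B k) p (Y k))))
      ≤ Real.exp ((I.card : ℝ) * (l * M) ^ 2)

/-- [N4] union bound.
PROOF. `Ex X p (fun S => ∑ i ∈ I, exp (Φ i S)) ≤ I.card * exp (-L) < 1` (Ex_sum), so by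
`Ex_exists` some `S ⊆ X` has `∑ i ∈ I, exp (Φ i S) < 1`, hence every `exp (Φ i S) < 1`
(`single_le_sum`), i.e. `Φ i S < 0`. -/
def S_N4 : Prop := ∀ (τ ι : Type) [DecidableEq τ] (X : Finset τ) (p : τ → ℝ)
    (I : Finset ι) (Φ : ι → Finset τ → ℝ) (L : ℝ),
    (∀ t ∈ X, 0 ≤ p t ∧ p t ≤ 1) →
    (∀ i ∈ I, Ex X p (fun S => Real.exp (Φ i S)) ≤ Real.exp (-L)) →
    (I.card : ℝ) < Real.exp L → ∃ S ⊆ X, ∀ i ∈ I, Φ i S < 0

/-- [N5] probability that no element of `B` is chosen.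
PROOF. Only `S = ∅` contributes to the sum. For the bounds: `1 - x ≤ exp (-x)`
(`Real.one_sub_le_exp_neg`), and `exp (-x - x^2) ≤ 1 - x` for `0 ≤ x ≤ 1/2`
(equivalently `log (1 - x) ≥ -x - x^2`; proof: `exp (x + x^2) * (1 - x) ≥ (1 + x + x^2) * (1 - x)`
is not enough, use `1 / (1 - x) = 1 + x / (1 - x) ≤ ...`; simplest: the function
`g x = log (1 - x) + x + x^2` has `g 0 = 0`, `g' x = -1/(1-x) + 1 + 2x = x (1 - 2x)/(1-x) ≥ 0` on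
`[0, 1/2]`), and `x^2 ≤ κ x`. Multiply over `B` (`Real.exp_sum`). -/
def S_N5 : Prop := ∀ (τ : Type) [DecidableEq τ] (B : Finset τ) (p : τ → ℝ) (κ : ℝ),
    (∀ t ∈ B, 0 ≤ p t ∧ p t ≤ κ) → κ ≤ 1 / 2 →
    Ex B p (fun S => if S = ∅ then 1 else 0) = ∏ t ∈ B, (1 - p t) ∧
    Real.exp (-((1 + κ) * ∑ t ∈ B, p t)) ≤ ∏ t ∈ B, (1 - p t) ∧
    ∏ t ∈ B, (1 - p t) ≤ Real.exp (-∑ t ∈ B, p t)

/-- [N6] three exponential moments for a random subset `S` of a block `B` with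
`P = ∑ t ∈ B, p t ≤ 1/2`.
PROOF. Put `n = S.card`, `a = e - 1`. By `prod_add`,
`Ex B p (fun S => ∏ t ∈ S, (1 + a)) = ∏ t ∈ B, (1 + a * p t) ≤ exp (a P)`, that is
`E e^n ≤ exp (a P)`; and `E n = P` (write `n = ∑ t ∈ B, 1[t ∈ S]`; `Ex B p 1[t ∈ S] = p t`, again
by `prod_add` applied with the function equal to `p` off `t`..., or by [N2]). So
`E (e^n - 1 - a n) ≤ exp x - 1 - x ≤ x^2` with `x = a P ≤ 1` (`a < 1.72`).
(a) For `n ≥ 2`: `e^n - 1 - a n ≥ a^2` (`e^n = (1+a)^n ≥ 1 + n a + (n choose 2) a^2`), and it is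
`0` for `n = 0, 1`. So `exp (1[n ≥ 2]) - 1 = a 1[n ≥ 2] ≤ (1/a) (e^n - 1 - a n)` and
`E exp (1[n ≥ 2]) ≤ 1 + x^2 / a = 1 + a P^2 ≤ exp (2 P^2)`.
(b) For `n ≥ 2`: `e^n - 1 ≤ 2.2 (e^n - 1 - a n)`, i.e. `2.2 a n ≤ 1.2 (e^n - 1)` (for `n = 2`:
`7.56 ≤ 7.66`; induction, or `e^n - 1 ≥ (e^2-1) n / 2` for `n ≥ 2`).
So `E exp (n 1[n ≥ 2]) ≤ 1 + 2.2 x^2 ≤ 1 + 2.2 * 2.96 P^2 ≤ exp (7 P^2)`.
(c) `1[t0 ∈ S, n ≥ 2] ≤ ∑ t ∈ B \ {t0}, 1[t0 ∈ S, t ∈ S]` and `E 1[t0 ∈ S, t ∈ S] = p t0 * p t`,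
so `E exp (..) ≤ 1 + a * p t0 * P ≤ exp (2 p t0 P)`. -/
def S_N6 : Prop := ∀ (τ : Type) [DecidableEq τ] (B : Finset τ) (p : τ → ℝ),
    (∀ t ∈ B, 0 ≤ p t ∧ p t ≤ 1) → ∑ t ∈ B, p t ≤ 1 / 2 →
    Ex B p (fun S => Real.exp (if 2 ≤ S.card then (1 : ℝ) else 0))
      ≤ Real.exp (2 * (∑ t ∈ B, p t) ^ 2) ∧
    Ex B p (fun S => Real.exp (if 2 ≤ S.card then (S.card : ℝ) else 0))
      ≤ Real.exp (7 * (∑ t ∈ B, p t) ^ 2) ∧
    ∀ t0 ∈ B, Ex B p (fun S => Real.exp (if t0 ∈ S ∧ 2 ≤ S.card then (1 : ℝ) else 0))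
      ≤ Real.exp (2 * p t0 * ∑ t ∈ B, p t)

/-- [N7] the triangles through an edge `x y` are the sets `{x, y, z}`, `z` a common neighbour;
and blocks.
PROOF. (1) The map `z ↦ {x, y, z}` is a bijection from `cn H x y` to `blkV H x y` (a 3-clique
containing `x ≠ y` is `{x, y, z}`, `z` its third element; injective since `z ≠ x, y`).
(2) `blkE H x y z = blkV H x z ∪ blkV H y z`, the intersection is `{ {x, y, z} }`: a triangle with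
`x, y, z` distinct elements is `{x, y, z}`; so by (1) the sum over `blkE` is
`∑ blkV H x z + ∑ blkV H y z - W {x, y, z}`.
(3) `Tri`: a triangle has exactly one vertex in each part (`clique_part` in Basic); `z, z'` lie in
the same part (they are common neighbours of `x`, `y` which are in different parts; so
`π z = π z'` is the third element of `ZMod 3`), hence no triangle contains both.
(4) the same: `u, u'` are in the same part. (5) the same. -/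
def S_N7 : Prop := ∀ (V : Type) [Fintype V] [DecidableEq V] (π : V → ZMod 3) (H : SimpleGraph V)
    (W : Finset V → ℝ), Tri π H →
    (∀ x y : V, H.Adj x y → ∑ t ∈ blkV H x y, W t = ∑ z ∈ cn H x y, W {x, y, z}) ∧
    (∀ x y : V, H.Adj x y → ∀ z ∈ cn H x y, ∑ t ∈ blkE H x y z, W t
      = ∑ w ∈ cn H x z, W {x, z, w} + ∑ w ∈ cn H y z, W {y, z, w} - W {x, y, z}) ∧
    (∀ x y : V, H.Adj x y → ∀ z ∈ cn H x y, ∀ z' ∈ cn H x y, z ≠ z' →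
      Disjoint (blkE H x y z) (blkE H x y z')) ∧
    (∀ v u u' : V, π u = π u' → u ≠ u' → Disjoint (blkV H v u) (blkV H v u')) ∧
    (∀ u u' x x' : V, π u = π u' → π x = π x' → (u, x) ≠ (u', x') →
      Disjoint (blkV H u x) (blkV H u' x'))

/-- the common hypotheses of the estimates for one bite -/
structure BiteHyp {V : Type} [Fintype V] [DecidableEq V] (π : V → ZMod 3) (H : SimpleGraph V)
    (W : Finset V → ℝ) (N : ℕ) (C0 θ ρ η : ℝ) : Prop where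
  sz : Eq3 π univ N
  tri : Tri π H
  W0 : ∀ t, 0 ≤ W t
  W1 : ∀ t, W t ≤ C0 / N
  hC : 0 < C0
  hθ : 0 < θ
  hθ1 : θ ≤ 1 / 8
  hρ : 0 < ρ
  hρ1 : ρ ≤ 1
  hη : 0 ≤ η
  hη1 : η ≤ ρ ^ 2 / 8
  hD : ∀ x y : V, H.Adj x y → |∑ z ∈ cn H x y, W {x, y, z} - ρ ^ 2| ≤ η

/-- [N8m] the mean of `DS`.
PROOF. Write `p t = θ W t / ρ^2`, `κ = θ C0 / (ρ^2 N)` (small for large `N`), `a = 2θη/ρ^2 + κ`.
By [N7] `P_z = ∑ t ∈ blkE H x y z, p t = (θ/ρ^2) (D_xz + D_yz - W{x,y,z})` with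
`|D - ρ^2| ≤ η`, so `2θ - 2θη/ρ^2 - κ ≤ P_z ≤ 2θ + 2θη/ρ^2 ≤ (9/4) θ ≤ 9/32`.
By [N5] (with this `κ ≤ 1/2`) the product `Π_z = ∏ (1 - p t)` satisfies
`exp (-(1+κ) P_z) ≤ Π_z ≤ exp (-P_z)`, and `(1+κ) P_z ≤ 2θ + 2θη/ρ^2 + κ`, so
`exp (-2θ - a) ≤ Π_z ≤ exp (-2θ + a)`. As `a ≤ 1/32 + κ ≤ 1/10`, `exp a - 1 ≤ 1.06 a`,
so `|Π_z - exp (-2θ)| ≤ 1.06 a`. Therefore the left side is at most
`∑ W {x,y,z} * 1.06 a + |D_xy - ρ^2| exp (-2θ) ≤ (9/8) ρ^2 * 1.06 * (2θη/ρ^2 + κ) + η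
≤ (1 + 2.4 θ) η + 1.2 κ ≤ (1 + 5θ) η + δ/2` for large `N`. -/
def S_N8m : Prop := S_N5 → S_N7 → ∀ C0 θ ρ δ : ℝ, 0 < C0 → 0 < θ → θ ≤ 1 / 8 → 0 < ρ → ρ ≤ 1 →
    0 < δ → ∃ N0 : ℕ, ∀ (V : Type) [Fintype V] [DecidableEq V] (π : V → ZMod 3)
      (H : SimpleGraph V) (W : Finset V → ℝ) (N : ℕ) (η : ℝ), N0 ≤ N →
    BiteHyp π H W N C0 θ ρ η → ∀ x y : V, H.Adj x y →
    |∑ z ∈ cn H x y, W {x, y, z} * ∏ t ∈ blkE H x y z, (1 - θ * W t / ρ ^ 2)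
      - ρ ^ 2 * Real.exp (-2 * θ)| ≤ (1 + 5 * θ) * η + δ / 2

/-- [N8a] concentration of `DS`.
PROOF. `DS H W x y S = ∑ z ∈ cn H x y, Y z (S ∩ blkE H x y z)` with
`Y z S' = if S' = ∅ then W {x,y,z} else 0`, the blocks are disjoint by [N7] and
`Ex (blkE ..) p (Y z) = W{x,y,z} * ∏ (1 - p t)` ([N5]; `p t ≤ 1/2` for large `N`), `0 ≤ Y ≤ C0/N`,
and `(cn H x y).card ≤ N` (all common neighbours are in the third part).
[N3] with the parameter `± l N` (`l ≤ 1/C0`) gives `Ex exp (± l N (DS - mean)) ≤ exp (N (l C0)^2)`.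
By [N8m] `|mean - ρ^2 exp (-2θ)| ≤ (1+5θ)η + δ/2`, so both expectations below are at most
`exp (l^2 C0^2 N - l N δ / 2) ≤ exp (- l δ N / 4)` when `l = min (1/C0) (δ/(4 C0^2))`. -/
def S_N8a : Prop := S_N3 → S_N5 → S_N7 → S_N8m →
    ∀ C0 θ ρ δ : ℝ, 0 < C0 → 0 < θ → θ ≤ 1 / 8 → 0 < ρ → ρ ≤ 1 →
    0 < δ → ∃ l : ℝ, 0 < l ∧ ∃ c : ℝ, 0 < c ∧ ∃ N0 : ℕ,
    ∀ (V : Type) [Fintype V] [DecidableEq V] (π : V → ZMod 3)
      (H : SimpleGraph V) (W : Finset V → ℝ) (N : ℕ) (η : ℝ), N0 ≤ N →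
    BiteHyp π H W N C0 θ ρ η → ∀ x y : V, H.Adj x y →
    Ex (triSet H) (fun t => θ * W t / ρ ^ 2) (fun S => Real.exp (l * N *
      (DS H W x y S - (ρ ^ 2 * Real.exp (-2 * θ) + (1 + 5 * θ) * η + δ)))) ≤ Real.exp (-(c * N)) ∧
    Ex (triSet H) (fun t => θ * W t / ρ ^ 2) (fun S => Real.exp (l * N *
      ((ρ ^ 2 * Real.exp (-2 * θ) - (1 + 5 * θ) * η - δ) - DS H W x y S))) ≤ Real.exp (-(c * N))

/-- [N8b] upper tail of the surviving degrees.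
PROOF. `dS π H v i S = ∑ u ∈ nb H v (pt π univ i), Y (S ∩ blkV H v u)`, `Y S' = 1[S' = ∅]`, disjoint
blocks by [N7] (all `u` are in part `i`), at most `N` terms, and by [N5], [N7]
`Ex (blkV H v u) p Y = ∏ (1 - p t) ≤ exp (-(θ/ρ^2) D_vu) ≤ exp (-θ (1 - η/ρ^2)) ≤ exp (-7θ/8)`.
[N3] with `M = 1`, `l = min 1 (δ/2)`: `Ex exp (l (dS - mean)) ≤ exp (l^2 N)`, and
`mean ≤ exp (-7θ/8) * dg H v (V_i)`, so the expectation is at most
`exp (l^2 N - l δ N) ≤ exp (-l δ N/2)`. -/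
def S_N8b : Prop := S_N3 → S_N5 → S_N7 →
    ∀ C0 θ ρ δ : ℝ, 0 < C0 → 0 < θ → θ ≤ 1 / 8 → 0 < ρ → ρ ≤ 1 →
    0 < δ → ∃ l : ℝ, 0 < l ∧ ∃ c : ℝ, 0 < c ∧ ∃ N0 : ℕ,
    ∀ (V : Type) [Fintype V] [DecidableEq V] (π : V → ZMod 3)
      (H : SimpleGraph V) (W : Finset V → ℝ) (N : ℕ) (η : ℝ), N0 ≤ N →
    BiteHyp π H W N C0 θ ρ η → ∀ (v : V) (i : ZMod 3), i ≠ π v →
    Ex (triSet H) (fun t => θ * W t / ρ ^ 2) (fun S => Real.exp (l *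
      (dS π H v i S - (Real.exp (-(7 * θ / 8)) * dg H v (pt π univ i) + δ * N))))
      ≤ Real.exp (-(c * N))

/-- [N8c] upper tails of the three counts which bound the waste.
PROOF. `P_vu = ∑ t ∈ blkV H v u, p t = (θ/ρ^2) D_vu ≤ (9/8) θ ≤ 1/2` ([N7], `η ≤ ρ^2/8`), and
`p t ≤ 1` for large `N`. The summands of `B1`, `B2` (`B3`) are functions of `S ∩ blkV H v u`
(`S ∩ blkV H u x`), disjoint blocks by [N7]; so by [N2] the expectation of `exp` of the sum is the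
product of the expectations over the blocks, which are bounded in [N6].
`B1`: `≤ exp (∑_u 2 P_vu^2) ≤ exp (2 (81/64) θ^2 N) ≤ exp (2.54 θ^2 N)`.
`B2`: `≤ exp (7 (81/64) θ^2 N) ≤ exp (8.87 θ^2 N)`.
`B3`: (write the double sum as a sum over pairs `(u, x)`, `Finset.sum_sigma'`; the condition on
`S ∩ blkV H u x` is the one of [N6](c) with `t0 = {v, u, x}`, which is a triangle)
`≤ exp (∑_u ∑_x 2 p {v,u,x} P_ux) ≤ exp (2 (9/8) θ ∑_u P_vu) ≤ exp (2.54 θ^2 N)`, using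
`∑_x p {v,u,x} = P_vu` ([N7], the common neighbours of `v`, `u` are in part `k`). -/
def S_N8c : Prop := S_N2 → S_N6 → S_N7 →
    ∀ C0 θ ρ : ℝ, 0 < C0 → 0 < θ → θ ≤ 1 / 8 → 0 < ρ → ρ ≤ 1 → ∃ N0 : ℕ,
    ∀ (V : Type) [Fintype V] [DecidableEq V] (π : V → ZMod 3)
      (H : SimpleGraph V) (W : Finset V → ℝ) (N : ℕ) (η : ℝ), N0 ≤ N →
    BiteHyp π H W N C0 θ ρ η → ∀ (v : V) (i k : ZMod 3), i ≠ π v → k ≠ π v → i ≠ k →
    Ex (triSet H) (fun t => θ * W t / ρ ^ 2)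
      (fun S => Real.exp (B1 π H v i S - 3 * θ ^ 2 * N)) ≤ Real.exp (-(θ ^ 2 / 4 * N)) ∧
    Ex (triSet H) (fun t => θ * W t / ρ ^ 2)
      (fun S => Real.exp (B2 π H v k S - 19 / 2 * θ ^ 2 * N)) ≤ Real.exp (-(θ ^ 2 / 4 * N)) ∧
    Ex (triSet H) (fun t => θ * W t / ρ ^ 2)
      (fun S => Real.exp (B3 π H v i k S - 3 * θ ^ 2 * N)) ≤ Real.exp (-(θ ^ 2 / 4 * N))

/-- [N9] the deterministic part of a bite.
PROOF. Take `Q = {t ∈ S | ∀ t' ∈ S, t' ≠ t → t, t' share at most one vertex}` and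
`H' = H \ cov S`. `Q` is a packing by definition and `H' ≤ H \ cov Q`.
(1) If `x y` is an edge of `H'`, then `z ∈ cn H' x y` iff `z ∈ cn H x y` and no `t ∈ S` contains
`x, z` or `y, z`, i.e. iff `z ∈ cn H x y` and `S ∩ blkE H x y z = ∅` (`S ⊆ triSet H`); so the sum is
`DS H W x y S`.
(2) `u ∈ nb H' v (V_i)` iff `u ∈ nb H v (V_i)` and `S ∩ blkV H v u = ∅`.
(3) Let `u` in part `i` with `v u` an edge of `(H \ cov Q) \ H'`: so some `t ∈ S` contains `v, u`,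
and this `t` is not in `Q` (else `v u` would be covered by `Q`). `t = {v, u, x}` with `x` in part
`k`, and some `t' ∈ S`, `t' ≠ t`, contains `{v,u}`, `{v,x}` or `{u,x}`. In the first case `u` is
counted by `B1`. In the second, `t ∈ S ∩ blkV H v x` and this set has `≥ 2` elements; the map
`u ↦ (x, t)` is injective (`u` is the vertex of `t` in part `i`), and the number of such pairs is
`B2`. In the third case the pair `(u, x)` is counted by `B3`. -/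
def S_N9 : Prop := ∀ (V : Type) [Fintype V] [DecidableEq V] (π : V → ZMod 3) (H : SimpleGraph V)
    (W : Finset V → ℝ) (S : Finset (Finset V)), Tri π H → S ⊆ triSet H →
    ∃ (Q : Finset (Finset V)) (H' : SimpleGraph V), Pack H Q ∧ H' ≤ H \ cov Q ∧
    (∀ x y : V, H'.Adj x y → ∑ z ∈ cn H' x y, W {x, y, z} = DS H W x y S) ∧
    (∀ (v : V) (i : ZMod 3), (dg H' v (pt π univ i) : ℝ) = dS π H v i S) ∧
    (∀ (v : V) (i k : ZMod 3), i ≠ π v → k ≠ π v → i ≠ k →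
      (dg ((H \ cov Q) \ H') v (pt π univ i) : ℝ) ≤ B1 π H v i S + B2 π H v k S + B3 π H v i k S)

/-- [N10] one bite.
PROOF. Apply [N4] to all the exponents of [N8a] (two for each ordered pair `x y` with `H.Adj x y`),
[N8b] (each `v`, `i ≠ π v`), [N8c] (three for each `v`, `i ≠ k`, both `≠ π v`): at most
`2 (3N)^2 + 9N + 27 * 3N ≤ 200 N^2` functions, all with `Ex exp (Φ) ≤ exp (-c N)`, where `c > 0` is
the minimum of the three constants; `200 N^2 < exp (c N)` for large `N`. The index type can be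
`(V × V × Bool) ⊕ ((V × ZMod 3) ⊕ (V × ZMod 3 × ZMod 3 × Fin 3))`. (`p t = θ W t/ρ^2 ≤ 1` for large
`N`.) Take the `S` of [N4], and `Q`, `H'` from [N9]. The last bound is
`3 + 19/2 + 3 ≤ 16`; if `i = π v` both degrees are `0`. -/
def S_N10 : Prop := S_N4 → S_N8a → S_N8b → S_N8c → S_N9 → S_N2 → S_N3 → S_N5 → S_N6 → S_N7 →
    S_N8m →
    ∀ C0 θ ρ δ : ℝ, 0 < C0 → 0 < θ → θ ≤ 1 / 8 → 0 < ρ → ρ ≤ 1 → 0 < δ → ∃ N0 : ℕ,
    ∀ (V : Type) [Fintype V] [DecidableEq V] (π : V → ZMod 3)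
      (H : SimpleGraph V) (W : Finset V → ℝ) (N : ℕ) (η : ℝ), N0 ≤ N →
    BiteHyp π H W N C0 θ ρ η →
    ∃ (Q : Finset (Finset V)) (H' : SimpleGraph V), Pack H Q ∧ H' ≤ H \ cov Q ∧
    (∀ x y : V, H'.Adj x y → |∑ z ∈ cn H' x y, W {x, y, z} - ρ ^ 2 * Real.exp (-2 * θ)|
      ≤ (1 + 5 * θ) * η + δ) ∧
    (∀ (v : V) (i : ZMod 3), (dg H' v (pt π univ i) : ℝ)
      ≤ Real.exp (-(7 * θ / 8)) * dg H v (pt π univ i) + δ * N) ∧
    (∀ (v : V) (i : ZMod 3), (dg ((H \ cov Q) \ H') v (pt π univ i) : ℝ) ≤ 16 * θ ^ 2 * N)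

/-- the conclusion of [N10] as a statement -/
def S_Bite : Prop :=
    ∀ C0 θ ρ δ : ℝ, 0 < C0 → 0 < θ → θ ≤ 1 / 8 → 0 < ρ → ρ ≤ 1 → 0 < δ → ∃ N0 : ℕ,
    ∀ (V : Type) [Fintype V] [DecidableEq V] (π : V → ZMod 3)
      (H : SimpleGraph V) (W : Finset V → ℝ) (N : ℕ) (η : ℝ), N0 ≤ N →
    BiteHyp π H W N C0 θ ρ η →
    ∃ (Q : Finset (Finset V)) (H' : SimpleGraph V), Pack H Q ∧ H' ≤ H \ cov Q ∧
    (∀ x y : V, H'.Adj x y → |∑ z ∈ cn H' x y, W {x, y, z} - ρ ^ 2 * Real.exp (-2 * θ)|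
      ≤ (1 + 5 * θ) * η + δ) ∧
    (∀ (v : V) (i : ZMod 3), (dg H' v (pt π univ i) : ℝ)
      ≤ Real.exp (-(7 * θ / 8)) * dg H v (pt π univ i) + δ * N) ∧
    (∀ (v : V) (i : ZMod 3), (dg ((H \ cov Q) \ H') v (pt π univ i) : ℝ) ≤ 16 * θ ^ 2 * N)

/-- [N11] iteration of the bite.
PROOF. Fix `C0`, `0 < θ ≤ 1/8`. Claim, by induction on `j`: for every `δ > 0` there is `N0` such
that for all data as in `Nib` with `N ≥ N0` there are `P`, `H` with `Pack G P`, `H ≤ G \ cov P`,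
(i) `|∑ z ∈ cn H x y, W {x,y,z} - exp (-2 j θ)| ≤ δ` for all edges `x y` of `H`,
(ii) `dg H v (V_i) ≤ (exp (-(7 j θ/8)) + δ) N`, (iii) `dg ((G \ cov P) \ H) v (V_i) ≤ 16 θ^2 j N`.
`j = 0`: `P = ∅`, `H = G` (`dg ≤ N`). Step: put `ρ = exp (-j θ)`; given `δ` choose
`δ' = min (δ/4) (ρ^2/8)` and apply the claim for `j` with `δ'`, then the bite with `η = δ'`,
`δ_bite = δ/2`: `Q`, `H'`. New packing `P ∪ Q` (`Pack H Q`, `H ≤ G \ cov P`, use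
`Pack.union_sdiff`), new graph `H'`. (i): `(1 + 5θ) δ' + δ/2 ≤ δ` as `1 + 5θ ≤ 2`;
`ρ^2 exp (-2θ) = exp (-2(j+1)θ)`. (ii) `exp (-7θ/8) (exp (-7jθ/8) + δ') N + δ N/2`. (iii)
`(G \ cov (P ∪ Q)) \ H' ≤ ((G \ cov P) \ H) ⊔ ((H \ cov Q) \ H')`.
Given `γ`: with `L = log (8/γ) + 1`, take `θ ≤ 1/8` with `16 θ * (2 L + 1) ≤ γ/2` and
`j = ⌈2 L/θ⌉`, so that `exp (-7jθ/8) ≤ γ/8`, `16 θ^2 j ≤ 16 θ (2L + θ) ≤ γ/2`, and `δ = γ/8`.
The leftover `G \ cov P ≤ H ⊔ ((G \ cov P) \ H)` has degrees at most `γ N`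
(`dg_sup_le`, `dg_mono`). If `γ > 8` take `T = ∅`-like trivial bound or replace `γ` by
`min γ 1`. -/
def S_N11 : Prop := S_Bite → Nib

end DH
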