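import Pool.Agent.Lib.MP_fe8cb7_co.h25.Basic

/-!
# Daykin-Haggkvist problem: statements of block R (rebalancing, approximate decomposition)
-/

open Finset

namespace DH

open Classical in
/-- [R0] the imbalances sum to zero.
PROOF. `∑ v, dg G v (V_{π v + 1})` counts the ordered pairs `(v, w)` with `G.Adj v w` and
`π w = π v + 1`; exchanging `v` and `w` (`sum_comm`, `card_filter`), these are the pairs `(w, v)`
with `G.Adj w v`, `π v = π w - 1`, i.e. `∑ w, dg G w (V_{π w - 1})`. -/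
def S_R0 : Prop := ∀ (V : Type) [Fintype V] [DecidableEq V] (π : V → ZMod 3) (G : SimpleGraph V),
    ∑ v, imb π G univ v = 0

/-- [R1] adding an edge `a b`, `b` in the next part.
PROOF. `F' = F ⊔ SimpleGraph.edge a b`; `nb F' a S = insert b (nb F a S)` if `b ∈ S`, etc.;
`b ∈ V_{π a + 1}`, `a ∈ V_{π b - 1}`, and `π a + 1 ≠ π a - 1`. (Or use `dg_sup`, `imb_sup` with the
disjoint graph `SimpleGraph.edge a b`.) -/
def S_R1 : Prop := ∀ (V : Type) [Fintype V] [DecidableEq V] (π : V → ZMod 3)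
    (G F : SimpleGraph V) (a b : V), Tri π G → F ≤ G → G.Adj a b → π b = π a + 1 →
    ¬ F.Adj a b →
    ∃ F' : SimpleGraph V, F ≤ F' ∧ F' ≤ G ∧
      (∀ v, imb π F' univ v = imb π F univ v + (if v = a then 1 else 0) - (if v = b then 1 else 0)) ∧
      (∀ v, dg F' v univ = dg F v univ + (if v = a then 1 else 0) + (if v = b then 1 else 0)) ∧
      (∀ u v, F'.Adj u v → F.Adj u v ∨ (u = a ∧ v = b) ∨ (u = b ∧ v = a))

/-- [R2] adding a directed path of length 2, 3 or 4 from `x` to `y`.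
PROOF. (i) If `π y = π x - 1`, choose `a` in part `π x + 1` adjacent in `G` to `x` and `y`, not in
`Bd`, with `x a`, `a y` not in `F` (the number of common neighbours in this part is at least
`0.85 N + 0.85 N - N = 0.7 N`, minus `0.15 N` for `Bd`, minus `dg F x + dg F y ≤ 0.24 N`); add the
edges `x → a`, `a → y` by [R1] (`a y` is still not in the new graph as `y ≠ x`). The
changes at `a` are `-1 + 1`. Here only `dg F v univ ≤ 0.12 N` is used.
(ii) If `π y = π x`, choose `a` in part `π x + 1` adjacent to `x`, not in `Bd`, `x a` not in `F`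
(`0.85 N - 0.15 N - 0.12 N > 0`), add `x → a`, then use (i) from `a` to `y`
(`π y = π a - 1`; degrees increased by at most 1).
(iii) If `π y = π x + 1`: choose `a` in the same way, add `x → a`, then use (ii) from `a` to `y`
(`π y = π a`). `l v` = number of times `v` is an interior vertex (`≤ 3` in total). -/
def S_R2 : Prop := S_R1 → ∀ (V : Type) [Fintype V] [DecidableEq V] (π : V → ZMod 3)
    (G F : SimpleGraph V) (Bd : Finset V) (N : ℕ) (x y : V), 1000 ≤ N → Eq3 π univ N → Tri π G →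
    (∀ v : V, ∀ i : ZMod 3, i ≠ π v → (0.85 : ℝ) * N ≤ dg G v (pt π univ i)) →
    F ≤ G → (∀ v, (dg F v univ : ℝ) ≤ 0.1 * N) → (Bd.card : ℝ) ≤ 0.15 * N →
    ∃ (F' : SimpleGraph V) (l : V → ℕ), F ≤ F' ∧ F' ≤ G ∧
      (∀ v, imb π F' univ v = imb π F univ v + (if v = x then 1 else 0) - (if v = y then 1 else 0)) ∧
      (∀ v, dg F' v univ ≤ dg F v univ + (if v = x then 1 else 0) + (if v = y then 1 else 0)
        + 2 * l v) ∧
      ∑ v, l v ≤ 3 ∧ ∀ v ∈ Bd, l v = 0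

/-- [R3] rebalancing.
PROOF. Write `D v = imb π G univ v`, and for `F ≤ G`, `D_F v = imb π (G \ F) univ v`,
`Φ F = ∑ v, |D_F v|`. Consider all pairs `(F, l)`, `F ≤ G`, `l : V → ℕ`, with
(a) `|D v - D_F v| + |D_F v| = |D v|` (i.e. `D_F v` is between `0` and `D v`),
(b) `dg F v univ ≤ |D v| - |D_F v| + 2 l v`, (c) `l v ≤ 45 ζ N`, (d) `l v = 0` for `v ∈ Y`,
(e) `2 ∑ l v ≤ 3 (Φ ⊥ - Φ F)`. `(⊥, 0)` is such a pair. Take one with `Φ F` minimal
(`Φ` has values in `ℕ`). If `Φ F = 0` we are done: `G \ F` is balanced,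
`dg F v ≤ ζ N + 90 ζ N`, and `dg F v ≤ |D v|` for `v ∈ Y`.
If `Φ F > 0`: by [R0] for `G \ F` there are `x` with `D_F x > 0` and `y` with `D_F y < 0`. Then
`ζ N ≥ |D x| ≥ 1`. Let `Bd = Y ∪ {v | l v > 45 ζ N - 3}`: `|Y| ≤ 3N/100`, and
`42 ζ N * #{v | l v > 45 ζ N - 3} ≤ ∑ l ≤ (3/2) Φ ⊥ ≤ (3/2) 3N ζ N`, so `|Bd| ≤ 0.14 N`.
`dg F v ≤ 91 ζ N ≤ 0.1 N`. Apply [R2]: `F'`, `l'`; `imb (G \ F') = imb (G \ F) - 1_x + 1_y`
(`imb_sdiff`), so `Φ F' = Φ F - 2`, and `(F', l + l')` satisfies (a)-(e)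
(`l v + l' v ≤ 45 ζ N - 3 + 3` if `v ∉ Bd`), contradicting the minimality. -/
def S_R3 : Prop := S_R0 → S_R1 → S_R2 → Reb

/-- [AD1] approximate decomposition from the fractional theorem, the nibble and rebalancing.
PROOF. Given `η`, `γ` put `ζ = min (min (γ/400) (η/200)) (1/1000)`; given `γ2` put
`γ' = min (γ/2) γ2` and let `N0` be the maximum of 1000 and the `N0` of `Nib` for `C0`, `γ'`. `Reb`
applies (`1 - c + η ≥ 0.85`): `F` with `dg F v univ ≤ 100 ζ N`. `G1 = G \ F` is balanced, tripartite,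
`dg G1 v (V_i) ≥ (1 - c + η) N - 100 ζ N ≥ (1 - c) N` (`dg_sdiff`), so `Frac` gives `W` and `Nib` a
packing `T` of `G1` (hence of `G`) with `dg (G1 \ cov T) v (V_i) ≤ γ' N`. As
`G \ cov T ≤ (G1 \ cov T) ⊔ F` (an edge of `G` not in `F` is in `G1`), `dg_sup_le` gives
`dg (G \ cov T) v (V_i) ≤ γ' N + 100 ζ N ≤ γ N`, and for `v ∈ Y` at most
`γ' N + |imb π G univ v| ≤ (γ2 + ζ0) N`. -/
def S_AD1 : Prop := ∀ c C0 : ℝ, 0 < C0 → c ≤ 3 / 20 → Frac c C0 → Nib → Reb → AD c

/-- [AD2] transfer to a vertex subset.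
PROOF. Apply `AD c` to the subtype `{v // v ∈ U}`, `π' = π ∘ Subtype.val`,
`G' = G.comap Subtype.val`, `Y' = univ.filter (fun v => v.1 ∈ Y)`. For `v ∈ U` and `i`:
`dg G' ⟨v, _⟩ (pt π' univ i) = dg G v (pt π U i)` (bijection by `Subtype.val`; more generally for any
graph and any filter), so the hypotheses transfer. If `T'` is the packing of `G'`, take
`T = T'.image (fun t => t.map (Function.Embedding.subtype _))`. `cov T` restricted to `U` is
`cov T'` (`(cov T).Adj v w ↔ (cov T').Adj ⟨v,_⟩ ⟨w,_⟩` for `v, w ∈ U`). -/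
def S_AD2 : Prop := ∀ c : ℝ, AD c → ADU c

end DH
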